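import Pool.Agent.TH117.BL.Defs
import Pool.Agent.W495.FM.HomDefs

/-!
# Abelian varieties over finite fields with Frobenius eigenvalues of large orders modulo `l`:
definitions
-/

set_option autoImplicit false

namespace Pool.Agent.T6.H36.RT

open Polynomial Module Pool.Agent.W495.TA Pool.Agent.W495.FM Pool.Agent.TH117.BL

/-- The polynomial `Q` over the field with `l` elements has the roots `x i ^ (l ^ k)`,
`k < 2 m i`, where `x i` is a nonzero element of the field with `l ^ (2 m i)` elements, the exponents
`v i` of two in the numbers `m i` are pairwise distinct with `b < 2 ^ (v i + 1)`, and for all `i` and all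
divisors `d` of `2 m i` that do not divide `m i` the order of `x i` is divisible by some prime number
`r > deg Q + 1` modulo which the order of `l` is `d`. (It follows that `Q` is the product of different
irreducible polynomials of the degrees `2 m i`.) -/
def HasLargeOrdersAbove {l : ℕ} [Fact l.Prime] (b : ℕ) (Q : (ZMod l)[X]) : Prop :=
  ∃ (I : Type) (_ : Fintype I) (m : I → ℕ) (x : I → AlgebraicClosure (ZMod l)),
    (∀ i, 0 < m i ∧ b < 2 ^ (padicValNat 2 (m i) + 1)) ∧
    (∀ i j, padicValNat 2 (m i) = padicValNat 2 (m j) → i = j) ∧
    (∀ i, x i ≠ 0 ∧ x i ^ l ^ (2 * m i) = x i) ∧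
    Q.map (algebraMap (ZMod l) (AlgebraicClosure (ZMod l))) =
      ∏ i, ∏ k ∈ Finset.range (2 * m i), (X - C (x i ^ l ^ k)) ∧
    ∀ i d, d ∣ 2 * m i → ¬ d ∣ m i →
      ∃ r : ℕ, r.Prime ∧ Q.natDegree + 1 < r ∧ r ∣ orderOf (x i) ∧ orderOf (l : ZMod r) = d

variable {p : ℕ} [Fact p.Prime] {ν : PadicAlgCl p ≃+* ℂ}

open Classical in
/-- Twice the dimension of the product of the factors in `T`. -/
noncomputable def twiceDim (Z : RedAV p ν) (T : Set Z.X.I) : ℕ :=
  ∑ i, if i ∈ T then finrank ℚ (Z.X.factor i).E else 0

open Classical in
/-- The product of the factors in `S` is large over the product of the factors in `T`: for some prime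
number `l ≠ p` the characteristic polynomial of Frobenius on the points of order `l` of the former one
has roots of large orders, in the fields with `l ^ (2 m i)` elements, and the dimension of the latter
one is smaller than the power of two with the exponent of two in `m i`, for all `i`. -/
def IsLargeOver (Z : RedAV p ν) (S T : Set Z.X.I) : Prop :=
  ∃ (l : ℕ) (_ : Fact l.Prime) (P : ℤ[X]), l ≠ p ∧
    (∏ w ∈ (Finset.univ : Finset (Emb Z)).filter (fun w => w.1 ∈ S), (X - C (eig Z w))) =
      P.map (Int.castRingHom ℂ) ∧
    HasLargeOrdersAbove (twiceDim Z T) (P.map (Int.castRingHom (ZMod l)))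

/-- The sets of factors of `Z` that are obtained from a set of factors of total dimension at most three,
or from a set of factors of dimension at most three whose CM fields are Galois over `ℚ` (for instance
elliptic curves), by adding successively sets of factors that are large over the product of the previous
ones, for various prime numbers `l`. -/
inductive IsTower (Z : RedAV p ν) : Set Z.X.I → Prop
  | small (T : Set Z.X.I) : twiceDim Z T ≤ 6 → IsTower Z T
  | galois (T : Set Z.X.I) :
      (∀ i ∈ T, finrank ℚ (Z.X.factor i).E ≤ 6 ∧ IsGalois ℚ (Z.X.factor i).E) → IsTower Z T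
  | add (S T : Set Z.X.I) : IsTower Z T → Disjoint S T → IsLargeOver Z S T → IsTower Z (S ∪ T)

/-- The abelian variety `Y` is, over an algebraic closure, isogenous to a product of a supersingular
abelian variety and of powers of the factors of a tower `Z`. -/
def IsTowerType (Y : RedAV p ν) : Prop :=
  ∃ Z : RedAV p ν, IsTower Z Set.univ ∧ IsPowersTimesSupersingular Z Y

/-- The groups of motivic and of `ℓ`-adic homology of `X` are those of an abelian variety `Y` as
above. -/
def IsTowerTypeAbelian {Ω V : Type} [Field Ω] [CharZero Ω] (p : ℕ) [Fact p.Prime]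
    (ν : PadicAlgCl p ≃+* ℂ) (T : Homology Ω V) (X : V) : Prop :=
  ∃ (Y : RedAV p ν) (C : Cycles Ω Y) (M : Motivic C) (g : ℕ), IsTowerType Y ∧ IsChow C ∧
    IsMotivic M ∧ IsAbelian T X M g

end Pool.Agent.T6.H36.RT
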