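import Pool.Agent.T6.H36.TM2

/-! Relations between the eigenvalues of two abelian varieties. -/

namespace Pool.Agent.T6.H36.MX

open Polynomial Ord Two.Dat TG Final TM

/-- Components of a saturated stable submodule. -/
theorem abs_comp {A : Type} [AddCommGroup A] (T : Module.End ℤ A) (E : Submodule ℤ A)
    (hT : ∀ x ∈ E, T x ∈ E) (hsat : ∀ (N : ℤ) (x : A), N ≠ 0 → N • x ∈ E → x ∈ E)
    {I : Type} [Fintype I] [DecidableEq I] {m : I → ℕ} (hm : ∀ i, 0 < m i)
    (hv : ∀ i j, padicValNat 2 (m i) = padicValNat 2 (m j) → i = j) {B₂ : ℤ[X]}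
    (hB : ∀ i, IsCoprime (B₂.map (Int.castRingHom ℚ))
      ((X ^ m i + 1 : ℤ[X]).map (Int.castRingHom ℚ)))
    (x : I → A) (hx : ∀ i, aeval T (X ^ m i + 1 : ℤ[X]) (x i) = 0) (y : A)
    (hy : aeval T B₂ y = 0) (h : ∑ i, x i + y ∈ E) (i : I) : x i ∈ E := by
  have hE : ∀ (G : ℤ[X]), ∀ D ∈ E, aeval T G D ∈ E := by
    intro G
    induction G using Polynomial.induction_on' with
    | add p q hp hq =>
      intro D hD
      rw [map_add, LinearMap.add_apply]
      exact E.add_mem (hp D hD) (hq D hD)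
    | monomial k a =>
      intro D hD
      rw [aeval_monomial, Module.End.mul_apply, Module.algebraMap_end_apply]
      apply E.smul_mem
      clear a
      induction k with
      | zero => simpa using hD
      | succ k ih =>
        rw [pow_succ', Module.End.mul_apply]
        exact hT _ ih
  set B₁ : ℤ[X] := ∏ j ∈ Finset.univ.erase i, (X ^ m j + 1) with hB₁
  have hcop : IsCoprime ((B₁ * B₂).map (Int.castRingHom ℚ))
      ((X ^ m i + 1 : ℤ[X]).map (Int.castRingHom ℚ)) := by
    rw [Polynomial.map_mul]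
    apply IsCoprime.mul_left _ (hB i)
    rw [hB₁, Polynomial.map_prod]
    apply IsCoprime.prod_left
    intro j hj
    rw [Polynomial.map_add, Polynomial.map_add, Polynomial.map_pow, Polynomial.map_pow, map_X,
      Polynomial.map_one]
    exact coprime_cyc (hm j) (hm i) (fun h => (Finset.mem_erase.1 hj).1 (hv _ _ h))
  obtain ⟨N, u, v, hN, huv⟩ := bez hcop
  apply hsat N _ hN
  have h1 : aeval T (u * (B₁ * B₂)) (∑ j, x j + y) = N • x i := by
    have hy' : aeval T (u * (B₁ * B₂)) y = 0 := by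
      rw [← mul_assoc, map_mul, Module.End.mul_apply, hy, map_zero]
    rw [map_add, hy', add_zero, map_sum, Finset.sum_eq_single i]
    · have h3 : u * (B₁ * B₂) = C N - v * (X ^ m i + 1) := by rw [← huv]; ring
      rw [h3, map_sub, LinearMap.sub_apply, map_mul, Module.End.mul_apply, hx, map_zero, sub_zero,
        aeval_C, Module.algebraMap_end_apply]
    · intro j _ hj
      have h3 : u * (B₁ * B₂) = (u * B₂ * ∏ k ∈ (Finset.univ.erase i).erase j, (X ^ m k + 1)) *
          (X ^ m j + 1) := by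
        rw [mul_assoc, Finset.prod_erase_mul _ _ (Finset.mem_erase.2 ⟨hj, Finset.mem_univ _⟩)]
        ring
      rw [h3, map_mul, Module.End.mul_apply, hx, map_zero]
    · intro h; exact absurd (Finset.mem_univ _) h
  rw [← h1]
  exact hE _ _ h

theorem coprime_small {m b : ℕ} (hm : 0 < m) (hb : b < 2 ^ (padicValNat 2 m + 1)) :
    IsCoprime (((∏ n ∈ Finset.Icc 1 b, (X ^ n - 1) : ℤ[X])).map (Int.castRingHom ℚ))
      ((X ^ m + 1 : ℤ[X]).map (Int.castRingHom ℚ)) := by
  rw [Polynomial.map_prod]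
  apply IsCoprime.prod_left
  intro n hn
  rw [Finset.mem_Icc] at hn
  rw [Polynomial.map_sub, Polynomial.map_add, Polynomial.map_pow, Polynomial.map_pow, map_X,
    Polynomial.map_one, ← prod_cyc hm, ← prod_cyclotomic_eq_X_pow_sub_one (by omega : 0 < n)]
  apply IsCoprime.prod_left
  intro d hd
  apply IsCoprime.prod_right
  intro d' hd'
  apply cyclotomic.isCoprime_rat
  rintro rfl
  rw [Finset.mem_sdiff, Nat.mem_divisors, Nat.mem_divisors] at hd'
  have h1 := val_two hm hd'.1.1 (fun h => hd'.2 ⟨h, hm.ne'⟩)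
  have h2 : 2 ^ (padicValNat 2 m + 1) ∣ d := by
    rw [← h1]; exact pow_padicValNat_dvd
  have h3 := Nat.le_of_dvd (Nat.pos_of_mem_divisors hd) h2
  have h4 := Nat.le_of_dvd (by omega) (Nat.dvd_of_mem_divisors hd)
  omega

section exists_dm

/-- The existence of the data. -/
theorem exists_dm {l q : ℕ} [Fact l.Prime] (hq : ¬ l ∣ q) {P : ℤ[X]} (hP : P.Monic)
    {I : Type} [Fintype I] {m : I → ℕ} {x : I → AlgebraicClosure (ZMod l)}
    (hm : ∀ i, 0 < m i) (hv : ∀ i j, padicValNat 2 (m i) = padicValNat 2 (m j) → i = j)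
    (hx : ∀ i, x i ≠ 0 ∧ x i ^ l ^ (2 * m i) = x i)
    (hQ : (P.map (Int.castRingHom (ZMod l))).map (algebraMap (ZMod l) (AlgebraicClosure (ZMod l))) =
      ∏ i, ∏ k ∈ Finset.range (2 * m i), (X - C (x i ^ l ^ k)))
    (hr : ∀ i d, d ∣ 2 * m i → ¬ d ∣ m i → ∃ r : ℕ, r.Prime ∧
      (P.map (Int.castRingHom (ZMod l))).natDegree + 1 < r ∧ r ∣ orderOf (x i) ∧
      orderOf (l : ZMod r) = d)
    {K : Type} [Field K] [CharZero K] (hsplit : (P.map (Int.castRingHom K)).Splits)
    (hsym : ∀ x : K, ev P x = 0 → ∃ y : K, ev P y = 0 ∧ x * y = (q : K)) :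
    ∃ (_ : ∀ i, NeZero (2 * m i)) (L : Type) (_ : Field L) (_ : CharZero L)
      (_ : FiniteDimensional ℚ L) (_ : IsGalois ℚ L)
      (_ : IsSplittingField ℚ L (P.map (Int.castRingHom ℚ))) (D : DM l m (kk l) L),
      P.map (Int.castRingHom L) = ∏ s, (X - C (D.α s)) ∧ D.q = q := by
  classical
  have hl := (Fact.out : l.Prime)
  haveI hNZ : ∀ i, NeZero (2 * m i) := fun i => ⟨by have := hm i; omega⟩
  -- the degree
  have hcard : Fintype.card (XX m) = 2 * ∑ i, m i := by
    rw [Fintype.card_sigma, Finset.mul_sum]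
    exact Finset.sum_congr rfl (fun j _ => ZMod.card _)
  have hdegQ : (P.map (Int.castRingHom (ZMod l))).natDegree = 2 * ∑ i, m i := by
    have h1 := congrArg natDegree hQ
    rw [natDegree_map, natDegree_prod_of_monic _ _ (fun i _ => monic_prod_of_monic _ _
      (fun k _ => monic_X_sub_C _))] at h1
    rw [h1, Finset.mul_sum]
    refine Finset.sum_congr rfl (fun i _ => ?_)
    rw [natDegree_prod_of_monic _ _ (fun k _ => monic_X_sub_C _)]
    simp only [natDegree_X_sub_C, Finset.sum_const, Finset.card_range, smul_eq_mul, mul_one]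
  have hdeg : P.natDegree = 2 * ∑ i, m i := by rw [← hdegQ, hP.natDegree_map]
  have hdegc : P.natDegree = Fintype.card (XX m) := by rw [hdeg, hcard]
  -- the orders
  have hkey : ∀ i (a k : ℕ), x i ^ l ^ (a + k) = x i ^ l ^ a → 2 * m i ∣ k := by
    intro i a k h
    have hmi := hm i
    obtain ⟨r, hrp, hrg, hrx, hrd⟩ := hr i (2 * m i) dvd_rfl (fun h => by
      have := Nat.le_of_dvd (hm i) h; omega)
    exact key hl (hx i).1 hrp (ne_of_order (by omega) hrd) hrx hrd h
  have hperiod : ∀ i (a : ℕ), x i ^ l ^ (a + 2 * m i) = x i ^ l ^ a := by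
    intro i a
    rw [add_comm, pow_add, pow_mul, (hx i).2]
  have hinj : Function.Injective (fun s : XX m => x s.1 ^ l ^ s.2.val) := by
    rintro ⟨i, s⟩ ⟨j, t⟩ hst
    have hst' : x i ^ l ^ s.val = x j ^ l ^ t.val := hst
    have h1 : 2 * m i ∣ 2 * m j := by
      apply hkey i s.val
      rw [pow_add, pow_mul, hst', ← pow_mul, ← pow_add, hperiod]
    have h2 : 2 * m j ∣ 2 * m i := by
      apply hkey j t.val
      rw [pow_add, pow_mul, ← hst', ← pow_mul, ← pow_add, hperiod]
    have h3 : m i = m j := by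
      have := Nat.dvd_antisymm h1 h2
      omega
    have h4 : i = j := hv _ _ (by rw [h3])
    subst h4
    congr 1
    apply ZMod.val_injective
    have hi := ZMod.val_lt s
    have hj := ZMod.val_lt t
    rcases le_total s.val t.val with h | h
    · obtain ⟨k, hk⟩ := Nat.exists_eq_add_of_le h
      have h1 := hkey i s.val k (by rw [← hk]; exact hst'.symm)
      have h2 : k = 0 := Nat.eq_zero_of_dvd_of_lt h1 (by omega)
      omega
    · obtain ⟨k, hk⟩ := Nat.exists_eq_add_of_le h
      have h1 := hkey i t.val k (by rw [← hk]; exact hst')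
      have h2 : k = 0 := Nat.eq_zero_of_dvd_of_lt h1 (by omega)
      omega
  have hroot : ∀ s : XX m, ev P (x s.1 ^ l ^ s.2.val) = 0 := by
    rintro ⟨i, s⟩
    have h2 : (algebraMap (ZMod l) (kk l)).comp (Int.castRingHom (ZMod l))
        = Int.castRingHom (kk l) := RingHom.ext_int _ _
    rw [ev, ← h2, ← eval₂_map, ← eval_map, hQ, eval_prod, Finset.prod_eq_zero (Finset.mem_univ i)]
    rw [eval_prod, Finset.prod_eq_zero (Finset.mem_range.2 (ZMod.val_lt s))]
    rw [eval_sub, eval_X, eval_C, sub_self]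
  have hPk := eq_of_roots hP hdegc _ hinj hroot
  have hder : ∀ s : XX m, ev (derivative P) (x s.1 ^ l ^ s.2.val) ≠ 0 := by
    intro s
    have h1 : (P.map (Int.castRingHom (kk l))).Separable := by
      rw [hPk]
      exact separable_prod_X_sub_C_iff.2 hinj
    have h2 := h1.eval₂_derivative_ne_zero (RingHom.id _) (x := x s.1 ^ l ^ s.2.val) (by
      rw [eval₂_id, eval_map]; exact hroot s)
    rw [eval₂_id, derivative_map, eval_map] at h2
    exact h2
  have hw : ∀ s : XX m, ∃ w : WittVector l (kk l), ev P w = 0 ∧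
      WittVector.constantCoeff w = x s.1 ^ l ^ s.2.val :=
    fun t => Emb.hensel hP (hroot t) (hder t)
  choose w hw1 hw2 using hw
  haveI hCM : CharZero (Emb.M l (kk l)) := Emb.charZeroM l (kk l)
  have hwinj : Function.Injective
      (fun t => algebraMap (WittVector l (kk l)) (Emb.M l (kk l)) (w t)) := by
    intro t s hts
    have h1 := emb_inj hts
    have h2 := hw2 t
    rw [h1, hw2 s] at h2
    exact hinj h2.symm
  have hwroot : ∀ t, ev P (algebraMap (WittVector l (kk l)) (Emb.M l (kk l)) (w t)) = 0 := by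
    intro t
    rw [ev_map, hw1, map_zero]
  have hPM := eq_of_roots hP hdegc _ hwinj hwroot
  -- the splitting field
  let Q : ℚ[X] := P.map (Int.castRingHom ℚ)
  have hQmap : ∀ (F : Type) [Field F] [CharZero F] (i : ℚ →+* F),
      Q.map i = P.map (Int.castRingHom F) := by
    intro F _ _ i
    rw [Polynomial.map_map]; congr 1; exact RingHom.ext_int _ _
  obtain ⟨L, instL, instC, hSF⟩ := exists_field Q
  haveI : FiniteDimensional ℚ L := IsSplittingField.finiteDimensional L Q
  haveI : IsGalois ℚ L := IsGalois.of_separable_splitting_field (p := Q) (by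
    have h1 : (P.map (Int.castRingHom (Emb.M l (kk l)))).Separable := by
      rw [hPM]
      exact separable_prod_X_sub_C_iff.2 hwinj
    rw [← hQmap (Emb.M l (kk l)) (algebraMap ℚ (Emb.M l (kk l)))] at h1
    exact (separable_map _).1 h1)
  have hQM : (Q.map (algebraMap ℚ (Emb.M l (kk l)))).Splits := by
    rw [hQmap, hPM]
    exact Splits.prod (fun t _ => Splits.X_sub_C _)
  have hQK : (Q.map (algebraMap ℚ K)).Splits := by rw [hQmap]; exact hsplit
  have hPL : (P.map (Int.castRingHom L)).Splits := by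
    rw [← hQmap L (algebraMap ℚ L)]
    exact IsSplittingField.splits L Q
  let j2 : L →+* Emb.M l (kk l) := (IsSplittingField.lift L Q hQM).toRingHom
  let jK : L →+* K := (IsSplittingField.lift L Q hQK).toRingHom
  have hα : ∀ t : XX m, ∃ r : L, ev P r = 0 ∧
      j2 r = algebraMap (WittVector l (kk l)) (Emb.M l (kk l)) (w t) :=
    fun t => root_lift hP hPL j2 (hwroot t)
  choose α hα1 hα2 using hα
  have hallM : ∀ y : Emb.M l (kk l), ev P y = 0 →
      ∃ t, y = algebraMap (WittVector l (kk l)) (Emb.M l (kk l)) (w t) := by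
    intro y hy
    rw [ev, ← eval_map, hPM, eval_prod, Finset.prod_eq_zero_iff] at hy
    obtain ⟨t, _, ht⟩ := hy
    rw [eval_sub, eval_X, eval_C, sub_eq_zero] at ht
    exact ⟨t, ht⟩
  have hallL : ∀ y : L, ev P y = 0 → ∃ t, y = α t := by
    intro y hy
    obtain ⟨t, ht⟩ := hallM (j2 y) (by rw [ev_map, hy, map_zero])
    exact ⟨t, j2.injective (by rw [ht, hα2])⟩
  have hαinj : Function.Injective α := by
    intro t s hts
    apply hwinj
    show algebraMap (WittVector l (kk l)) (Emb.M l (kk l)) (w t)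
      = algebraMap (WittVector l (kk l)) (Emb.M l (kk l)) (w s)
    rw [← hα2, ← hα2, hts]
  obtain ⟨c, hc⟩ := Lift.exists_aut j2 (Emb.phi l (kk l))
  let D : DM l m (kk l) L :=
    { m0 := hm
      hv := hv
      q := q
      hq := hq
      α := α
      ι := j2
      x := x
      hx0 := fun i => (hx i).1
      hx := fun i => (hx i).2
      hinj := hinj
      res := fun t => ⟨w t, (hα2 t).symm, hw2 t⟩
      perm := by
        intro τ t
        obtain ⟨s, hs⟩ := hallL (τ (α t)) (by
          have := ev_map (τ : L ≃ₐ[ℚ] L).toRingEquiv.toRingHom P (α t)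
          rw [hα1, map_zero] at this
          exact this)
        exact ⟨s, hs.symm⟩
      gen := by
        intro τ hτ
        have h1 : (τ : L →ₐ[ℚ] L) = AlgHom.id ℚ L := by
          apply AlgHom.ext_of_adjoin_eq_top (IsSplittingField.adjoin_rootSet L Q)
          intro x hx
          rw [mem_rootSet] at hx
          obtain ⟨t, rfl⟩ := hallL x (by
            have := hx.2
            rw [aeval_def, ← eval_map, hQmap L (algebraMap ℚ L), eval_map] at this
            exact this)
          exact hτ t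
        ext x
        exact congrArg (fun f : L →ₐ[ℚ] L => f x) h1
      c := c
      hc := hc
      pair := by
        intro t
        obtain ⟨y, hy, hxy⟩ := hsym (jK (α t)) (by rw [ev_map, hα1, map_zero])
        obtain ⟨r, hr, rfl⟩ := root_lift hP hPL jK hy
        obtain ⟨s, rfl⟩ := hallL r hr
        refine ⟨s, jK.injective ?_⟩
        rw [map_mul, hxy, map_natCast]
      hr := by
        intro i d hd hdm
        obtain ⟨r, h1, h2, h3, h4⟩ := hr i d hd hdm
        exact ⟨r, h1, by rw [← hdegQ]; exact h2, h3, h4⟩ }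
  exact ⟨hNZ, L, instL, instC, inferInstance, inferInstance, hSF, D,
    eq_of_roots hP hdegc _ hαinj hα1, rfl⟩

end exists_dm

/-- The roots of unity in the multiplicative group. -/
def tor (L : Type) [Field L] : Submodule ℤ (Additive Lˣ) where
  carrier := {x | ∃ N : ℕ, N ≠ 0 ∧ N • x = 0}
  zero_mem' := ⟨1, one_ne_zero, smul_zero _⟩
  add_mem' := by
    rintro x y ⟨N, hN, h1⟩ ⟨M, hM, h2⟩
    refine ⟨N * M, mul_ne_zero hN hM, ?_⟩
    have e1 : (N * M) • x = 0 := by rw [mul_nsmul, h1, nsmul_zero]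
    have e2 : (N * M) • y = 0 := by rw [mul_comm, mul_nsmul, h2, nsmul_zero]
    rw [nsmul_add, e1, e2, add_zero]
  smul_mem' := by
    rintro c x ⟨N, hN, h1⟩
    refine ⟨N, hN, ?_⟩
    rw [smul_comm, h1, smul_zero]

theorem tor_sat {L : Type} [Field L] (N : ℤ) (x : Additive Lˣ) (hN : N ≠ 0) (h : N • x ∈ tor L) :
    x ∈ tor L := by
  obtain ⟨M, hM, h1⟩ := h
  refine ⟨M * N.natAbs, mul_ne_zero hM (Int.natAbs_ne_zero.2 hN), ?_⟩
  have h2 : (M : ℤ) • N • x = 0 := by rw [natCast_zsmul]; exact h1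
  rw [← mul_smul] at h2
  rcases Int.natAbs_eq N with h3 | h3
  · rw [← natCast_zsmul, Nat.cast_mul, ← h3, h2]
  · rw [← natCast_zsmul, Nat.cast_mul]
    have h4 : ((N.natAbs : ℕ) : ℤ) = -N := by omega
    rw [h4, mul_neg, neg_smul, h2, neg_zero]

/-- **Relations between the roots of `P₁` and of `P₂`.** -/
theorem mix {l q b : ℕ} [Fact l.Prime] (hq : ¬ l ∣ q) {P₁ P₂ : ℤ[X]} (hP₁ : P₁.Monic)
    (hP₂ : P₂.Monic) (hb : P₂.natDegree ≤ b)
    {I : Type} [Fintype I] {m : I → ℕ} {x : I → AlgebraicClosure (ZMod l)}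
    (hm : ∀ i, 0 < m i) (hv : ∀ i j, padicValNat 2 (m i) = padicValNat 2 (m j) → i = j)
    (hx : ∀ i, x i ≠ 0 ∧ x i ^ l ^ (2 * m i) = x i)
    (hQ : (P₁.map (Int.castRingHom (ZMod l))).map (algebraMap (ZMod l) (AlgebraicClosure (ZMod l))) =
      ∏ i, ∏ k ∈ Finset.range (2 * m i), (X - C (x i ^ l ^ k)))
    (hr : ∀ i d, d ∣ 2 * m i → ¬ d ∣ m i → ∃ r : ℕ, r.Prime ∧
      (P₁.map (Int.castRingHom (ZMod l))).natDegree + 1 < r ∧ r ∣ orderOf (x i) ∧
      orderOf (l : ZMod r) = d)
    (hab : ∀ i, b < 2 ^ (padicValNat 2 (m i) + 1))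
    {K : Type} [Field K] [CharZero K] (hs₁ : (P₁.map (Int.castRingHom K)).Splits)
    (hs₂ : (P₂.map (Int.castRingHom K)).Splits)
    (hsym : ∀ x : K, ev P₁ x = 0 → ∃ y : K, ev P₁ y = 0 ∧ x * y = (q : K)) :
    ∃ (_ : ∀ i, NeZero (2 * m i)) (α : XX m → K),
      Function.Injective α ∧ P₁.map (Int.castRingHom K) = ∏ s, (X - C (α s)) ∧
      (∀ i t, α ⟨i, t⟩ * α ⟨i, t + m i⟩ = (q : K)) ∧
      ∀ (e : XX m → ℤ) (J : Type) (_ : Fintype J) (β : J → K) (f : J → ℤ),
        (∀ j, ev P₂ (β j) = 0 ∧ β j ≠ 0) →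
        (∃ N : ℕ, N ≠ 0 ∧
          ((∏ s : XX m, α s ^ (e s - e ⟨s.1, s.2 + m s.1⟩)) * ∏ j, β j ^ f j) ^ N = 1) →
        ∀ i t, e ⟨i, t + m i⟩ = e ⟨i, t⟩ := by
  classical
  obtain ⟨hNZ, L₁, _, _, _, _, hSF₁, D, hD1, hDq⟩ := exists_dm hq hP₁ hm hv hx hQ hr hs₁ hsym
  let Q₁ : ℚ[X] := P₁.map (Int.castRingHom ℚ)
  let Q₂ : ℚ[X] := P₂.map (Int.castRingHom ℚ)
  have hQmap : ∀ (P : ℤ[X]) (F : Type) [Field F] [CharZero F] (i : ℚ →+* F),
      (P.map (Int.castRingHom ℚ)).map i = P.map (Int.castRingHom F) := by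
    intro P F _ _ i
    rw [Polynomial.map_map]; congr 1; exact RingHom.ext_int _ _
  obtain ⟨L, instL, instC, hSF⟩ := exists_field (Q₁ * Q₂)
  haveI : FiniteDimensional ℚ L := IsSplittingField.finiteDimensional L (Q₁ * Q₂)
  haveI : Normal ℚ L := Normal.of_isSplittingField (Q₁ * Q₂)
  have hQ0 : (Q₁ * Q₂).map (algebraMap ℚ L) ≠ 0 := by
    rw [Polynomial.map_mul]
    exact mul_ne_zero ((hP₁.map _).map _).ne_zero ((hP₂.map _).map _).ne_zero
  have hsL := IsSplittingField.splits L (Q₁ * Q₂)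
  have hs1L : (Q₁.map (algebraMap ℚ L)).Splits :=
    hsL.of_dvd hQ0 (by rw [Polynomial.map_mul]; exact dvd_mul_right _ _)
  have hs2L : (Q₂.map (algebraMap ℚ L)).Splits :=
    hsL.of_dvd hQ0 (by rw [Polynomial.map_mul]; exact dvd_mul_left _ _)
  have hs2L' : (P₂.map (Int.castRingHom L)).Splits := by
    rw [← hQmap P₂ L (algebraMap ℚ L)]; exact hs2L
  have hsK : ((Q₁ * Q₂).map (algebraMap ℚ K)).Splits := by
    rw [Polynomial.map_mul, hQmap P₁, hQmap P₂]
    exact hs₁.mul hs₂
  let i₁ : L₁ →+* L := (IsSplittingField.lift L₁ Q₁ hs1L).toRingHom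
  let jK : L →+* K := (IsSplittingField.lift L (Q₁ * Q₂) hsK).toRingHom
  letI : Algebra L₁ L := i₁.toAlgebra
  haveI : IsScalarTower ℚ L₁ L := IsScalarTower.of_algebraMap_eq' (Subsingleton.elim _ _)
  let c : L ≃ₐ[ℚ] L := D.c.liftNormal L
  have hc : ∀ y : L₁, c (i₁ y) = i₁ (D.c y) := fun y => D.c.liftNormal_commutes L y
  -- the endomorphism of the multiplicative group
  let T : Module.End ℤ (Additive Lˣ) :=
    (MonoidHom.toAdditive (Units.map (c : L →* L))).toIntLinearMap
  have hT : ∀ u : Lˣ, ((T (Additive.ofMul u)).toMul : L) = c u := fun u => rfl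
  have hTpow : ∀ (n : ℕ) (u : Lˣ), (((T ^ n) (Additive.ofMul u)).toMul : L) = (c ^ n) u := by
    intro n
    induction n with
    | zero => intro u; rfl
    | succ n ih =>
      intro u
      rw [pow_succ, Module.End.mul_apply, pow_succ, AlgEquiv.mul_apply, ← hT]
      exact ih _
  refine ⟨hNZ, fun s => jK (i₁ (D.α s)), jK.injective.comp (i₁.injective.comp D.α_inj), ?_, ?_, ?_⟩
  · have h1 : P₁.map (Int.castRingHom K) = (P₁.map (Int.castRingHom L₁)).map (jK.comp i₁) := by
      rw [Polynomial.map_map]; congr 1; exact RingHom.ext_int _ _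
    rw [h1, hD1, Polynomial.map_prod]
    refine Finset.prod_congr rfl (fun s _ => ?_)
    rw [Polynomial.map_sub, map_X, map_C]
    rfl
  · intro i t
    show jK (i₁ (D.α ⟨i, t⟩)) * jK (i₁ (D.α ⟨i, t + m i⟩)) = _
    rw [← map_mul, ← map_mul, D.α_mul, map_natCast, map_natCast, hDq]
  · intro e J _ β f hβ he
    -- lift the roots of the second polynomial
    have hγ : ∀ j, ∃ γ : L, ev P₂ γ = 0 ∧ jK γ = β j := fun j => root_lift hP₂ hs2L' jK (hβ j).1
    choose γ hγ1 hγ2 using hγ
    have hγ0 : ∀ j, γ j ≠ 0 := by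
      intro j h0
      apply (hβ j).2
      rw [← hγ2, h0, map_zero]
    let u : XX m → Lˣ := fun s => Units.mk0 (i₁ (D.α s)) (by
      rw [Ne, map_eq_zero]; exact D.α_ne s)
    let w : J → Lˣ := fun j => Units.mk0 (γ j) (hγ0 j)
    set ε : XX m → ℤ := fun s => e s - e ⟨s.1, s.2 + m s.1⟩ with hε
    have hεodd : ∀ i (t : ZMod (2 * m i)), ε ⟨i, t + m i⟩ = -ε ⟨i, t⟩ := by
      intro i t
      simp only [hε]
      have h1 : t + m i + m i = t := by rw [add_assoc, two_g, add_zero]
      rw [h1]; ring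
    let X₁ : I → Additive Lˣ := fun i => Additive.ofMul (∏ t, u ⟨i, t⟩ ^ ε ⟨i, t⟩)
    let Y : Additive Lˣ := Additive.ofMul (∏ j, w j ^ f j)
    let B₂ : ℤ[X] := ∏ n ∈ Finset.Icc 1 b, (X ^ n - 1)
    have hTu : ∀ (n : ℕ) i t, (T ^ n) (Additive.ofMul (u ⟨i, t⟩)) = Additive.ofMul (u ⟨i, t + n⟩) := by
      intro n i t
      apply Additive.toMul.injective
      apply Units.ext
      rw [hTpow]
      show (c ^ n) (i₁ (D.α ⟨i, t⟩)) = i₁ (D.α ⟨i, t + n⟩)
      have key : ∀ (n : ℕ) (y : L₁), (c ^ n) (i₁ y) = i₁ ((D.c ^ n) y) := by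
        intro n
        induction n with
        | zero => intro y; rfl
        | succ n ih =>
          intro y
          rw [pow_succ, AlgEquiv.mul_apply, hc, ih, pow_succ, AlgEquiv.mul_apply]
      rw [key, D.c_pow_α]
    have hX : ∀ i, aeval T (X ^ m i + 1 : ℤ[X]) (X₁ i) = 0 := by
      intro i
      rw [map_add, map_pow, aeval_X, map_one, LinearMap.add_apply, Module.End.one_apply]
      have h1 : (T ^ m i) (X₁ i) = -X₁ i := by
        have e1 : X₁ i = ∑ t, ε ⟨i, t⟩ • Additive.ofMul (u ⟨i, t⟩) := by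
          show Additive.ofMul (∏ t, u ⟨i, t⟩ ^ ε ⟨i, t⟩) = _
          rw [ofMul_prod]
          rfl
        rw [e1, map_sum, ← Finset.sum_neg_distrib]
        have e2 : ∀ t, (T ^ m i) (ε ⟨i, t⟩ • Additive.ofMul (u ⟨i, t⟩))
            = ε ⟨i, t⟩ • Additive.ofMul (u ⟨i, t + m i⟩) := by
          intro t
          rw [map_smul, hTu]
        simp only [e2]
        rw [← Equiv.sum_comp (Equiv.addRight (m i : ZMod (2 * m i)))
          (fun t => -(ε ⟨i, t⟩ • Additive.ofMul (u ⟨i, t⟩)))]
        refine Finset.sum_congr rfl (fun t _ => ?_)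
        rw [Equiv.coe_addRight, hεodd, neg_smul, neg_neg]
      rw [h1, neg_add_cancel]
    have hY : aeval T B₂ Y = 0 := by
      have e1 : Y = ∑ j, f j • Additive.ofMul (w j) := by
        show Additive.ofMul (∏ j, w j ^ f j) = _
        rw [ofMul_prod]
        rfl
      rw [e1, map_sum]
      refine Finset.sum_eq_zero (fun j _ => ?_)
      rw [map_smul]
      -- the orbit of the root
      have h1 : ∃ n ∈ Finset.Icc 1 b, (c ^ n) (γ j) = γ j := by
        set R := (P₂.map (Int.castRingHom L)).roots.toFinset with hR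
        have hRc : R.card ≤ b := by
          refine (Multiset.toFinset_card_le _).trans ((card_roots' _).trans ?_)
          exact (natDegree_map_le).trans hb
        have h2 : ∀ k : ℕ, (c ^ k) (γ j) ∈ R := by
          intro k
          rw [hR, Multiset.mem_toFinset, mem_roots (hP₂.map _).ne_zero, IsRoot.def, eval_map]
          have := ev_map ((c ^ k : L ≃ₐ[ℚ] L)).toRingEquiv.toRingHom P₂ (γ j)
          rw [hγ1, map_zero] at this
          exact this
        obtain ⟨k, hk, k', hk', hne, heq⟩ := Finset.exists_ne_map_eq_of_card_lt_of_maps_to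
          (s := Finset.range (b + 1)) (t := R) (f := fun k => (c ^ k) (γ j))
          (by rw [Finset.card_range]; omega) (fun k _ => h2 k)
        have key : ∀ k k' : ℕ, k < k' → k' < b + 1 → (c ^ k) (γ j) = (c ^ k') (γ j) →
            ∃ n ∈ Finset.Icc 1 b, (c ^ n) (γ j) = γ j := by
          intro k k' hlt hlt' h
          refine ⟨k' - k, Finset.mem_Icc.2 ⟨by omega, by omega⟩, ?_⟩
          apply (c ^ k).injective
          rw [h, ← AlgEquiv.mul_apply, ← pow_add, Nat.add_sub_cancel' hlt.le]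
        rw [Finset.mem_range] at hk hk'
        rcases lt_or_gt_of_ne hne with h | h
        · exact key k k' h hk' heq
        · exact key k' k h hk heq.symm
      obtain ⟨n, hn, hn'⟩ := h1
      have h2 : aeval T (X ^ n - 1 : ℤ[X]) (Additive.ofMul (w j)) = 0 := by
        rw [map_sub, map_pow, aeval_X, map_one, LinearMap.sub_apply, Module.End.one_apply,
          sub_eq_zero]
        apply Additive.toMul.injective
        apply Units.ext
        rw [hTpow]
        exact hn'
      have h3 : B₂ = (∏ k ∈ (Finset.Icc 1 b).erase n, (X ^ k - 1)) * (X ^ n - 1) :=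
        (Finset.prod_erase_mul _ _ hn).symm
      rw [h3, map_mul, Module.End.mul_apply, h2, map_zero, smul_zero]
    -- the relation
    have hsum : ∑ i, X₁ i + Y ∈ tor L := by
      obtain ⟨N, hN, h1⟩ := he
      refine ⟨N, hN, ?_⟩
      apply Additive.toMul.injective
      apply Units.ext
      apply jK.injective
      have e1 : (((∑ i, X₁ i + Y).toMul : Lˣ) : L)
          = (∏ s : XX m, (i₁ (D.α s)) ^ ε s) * ∏ j, γ j ^ f j := by
        rw [toMul_add, Units.val_mul, toMul_sum, Units.coe_prod, Fintype.prod_sigma]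
        congr 1
        · refine Finset.prod_congr rfl (fun i _ => ?_)
          show ((∏ t, u ⟨i, t⟩ ^ ε ⟨i, t⟩ : Lˣ) : L) = _
          rw [Units.coe_prod]
          refine Finset.prod_congr rfl (fun t _ => ?_)
          rw [Units.val_zpow_eq_zpow_val]
          rfl
        · show ((∏ j, w j ^ f j : Lˣ) : L) = _
          rw [Units.coe_prod]
          refine Finset.prod_congr rfl (fun j _ => ?_)
          rw [Units.val_zpow_eq_zpow_val]
          rfl
      rw [toMul_nsmul, Units.val_pow_eq_pow_val, e1, toMul_zero, Units.val_one, map_one, map_pow,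
        map_mul, map_prod, map_prod, ← h1]
      congr 2
      · exact Finset.prod_congr rfl (fun s _ => map_zpow₀ jK _ _)
      · exact Finset.prod_congr rfl (fun j _ => by rw [map_zpow₀, hγ2])
    have hcomp : ∀ i, X₁ i ∈ tor L := abs_comp T (tor L)
      (by
        rintro y ⟨N, hN, h1⟩
        exact ⟨N, hN, by rw [← map_nsmul, h1, map_zero]⟩)
      (fun N y hN h => tor_sat N y hN h) hm hv
      (fun i => coprime_small (hm i) (hab i)) X₁ hX Y hY hsum
    -- the conclusion
    apply D.symm (e := e)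
    have h1 : ∑ i, X₁ i ∈ tor L := Submodule.sum_mem _ (fun i _ => hcomp i)
    obtain ⟨N, hN, h2⟩ := h1
    refine ⟨N, hN, i₁.injective ?_⟩
    have h3 := congrArg (fun z : Additive Lˣ => ((z.toMul : Lˣ) : L)) h2
    simp only [toMul_nsmul, Units.val_pow_eq_pow_val, toMul_zero, Units.val_one] at h3
    rw [map_pow, map_one, ← h3]
    congr 1
    unfold mn
    rw [map_prod, toMul_sum, Units.coe_prod, Fintype.prod_sigma]
    refine Finset.prod_congr rfl (fun i _ => ?_)
    show _ = ((∏ t, u ⟨i, t⟩ ^ ε ⟨i, t⟩ : Lˣ) : L)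
    rw [Units.coe_prod]
    refine Finset.prod_congr rfl (fun t _ => ?_)
    rw [Units.val_zpow_eq_zpow_val, map_zpow₀]
    rfl

end Pool.Agent.T6.H36.MX
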