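import Pool.Agent.W715.HS.OC
import Pool.Agent.W111.HS.EC
import Pool.Agent.W63.HS.TR
import Pool.Agent.TH943.IP.Cnt
import Pool.Agent.TH943.IP.Rep

/-!
# Hyperelliptic curves with an irreducible polynomial: Frobenius modulo two
-/

set_option maxHeartbeats 1000000

namespace Pool.Agent.T6.H36.Count

open Polynomial Pool.Agent.W528.HS Pool.Agent.W528.HA Pool.Agent.W111.HS.EC Pool.Agent.TH943.IP

/-- The number of the points `(x, y)` over `L` of the affine curve `y ^ 2 = f(x)`. -/
noncomputable def pts {κ : Type} [Field κ] (L : Type) [Field L] [Algebra κ L] (f : κ[X]) : ℕ :=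
  Set.ncard {z : L × L | z.2 ^ 2 = aeval z.1 f}

section count

variable {L : Type} [Field L] [Fintype L]

/-- the number of points of the double covering -/
theorem ncard_double {X : Type} [Finite X] (h2 : (2 : L) ≠ 0) (G : X → L) :
    Set.ncard {y : X × L | G y.1 ≠ 0 ∧ y.2 ^ 2 = G y.1} =
      2 * Set.ncard {x : X | G x ≠ 0 ∧ G x ^ ((Fintype.card L - 1) / 2) = 1} := by
  classical
  have := Fintype.ofFinite X
  have hchar : ringChar L ≠ 2 := by
    intro h0
    apply h2
    have : ((ringChar L : ℕ) : L) = 0 := ringChar.Nat.cast_ringChar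
    rw [h0] at this
    exact_mod_cast this
  have hodd : Fintype.card L % 2 = 1 := FiniteField.odd_card_of_char_ne_two hchar
  have hc : (Fintype.card L - 1) / 2 = Fintype.card L / 2 := by omega
  have key : ∀ x : X, (Finset.univ.filter fun v : L => G x ≠ 0 ∧ v ^ 2 = G x).card =
      if G x ≠ 0 ∧ G x ^ ((Fintype.card L - 1) / 2) = 1 then 2 else 0 := by
    intro x
    by_cases h0 : G x = 0
    · rw [if_neg (fun h => h.1 h0), Finset.card_eq_zero, Finset.filter_eq_empty_iff]
      exact fun v _ h => h.1 h0
    · have h3 := quadraticChar_card_sqrts hchar (G x)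
      have h4 : (Finset.univ.filter fun v : L => G x ≠ 0 ∧ v ^ 2 = G x) =
          {v : L | v ^ 2 = G x}.toFinset := by
        ext v
        simp [h0]
      rw [h4]
      have h5 : (({v : L | v ^ 2 = G x}.toFinset.card : ℕ) : ℤ) =
          ((if G x ≠ 0 ∧ G x ^ ((Fintype.card L - 1) / 2) = 1 then 2 else 0 : ℕ) : ℤ) := by
        rw [h3, quadraticChar_eq_pow_of_char_ne_two hchar h0, hc]
        by_cases h6 : G x ^ (Fintype.card L / 2) = 1
        · rw [if_pos h6, if_pos ⟨h0, h6⟩]
          norm_num
        · rw [if_neg h6, if_neg (fun h => h6 h.2)]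
          norm_num
      exact_mod_cast h5
  have h1 : Set.ncard {y : X × L | G y.1 ≠ 0 ∧ y.2 ^ 2 = G y.1} =
      ∑ x : X, (Finset.univ.filter fun v : L => G x ≠ 0 ∧ v ^ 2 = G x).card := by
    have e1 : {y : X × L | G y.1 ≠ 0 ∧ y.2 ^ 2 = G y.1}.toFinset =
        Finset.univ.filter fun y : X × L => G y.1 ≠ 0 ∧ y.2 ^ 2 = G y.1 := by
      ext y
      simp
    rw [Set.ncard_eq_toFinset_card', e1, Finset.card_filter, Fintype.sum_prod_type]
    exact Finset.sum_congr rfl fun x _ => (Finset.card_filter _ _).symm
  rw [h1, Finset.sum_congr rfl fun x _ => key x, ← Finset.sum_filter, Finset.sum_const,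
    smul_eq_mul, mul_comm]
  congr 1
  rw [Set.ncard_eq_toFinset_card']
  congr 1
  ext x
  simp

/-- the values of the character -/
theorem ncard_split {X : Type} [Finite X] (h2 : (2 : L) ≠ 0) (G : X → L) :
    Set.ncard {x : X | G x ≠ 0 ∧ G x ^ ((Fintype.card L - 1) / 2) = 1} +
      Set.ncard {x : X | G x ≠ 0 ∧ G x ^ ((Fintype.card L - 1) / 2) = -1} =
      Set.ncard {x : X | G x ≠ 0} := by
  classical
  have hchar : ringChar L ≠ 2 := by
    intro h0
    apply h2
    have : ((ringChar L : ℕ) : L) = 0 := ringChar.Nat.cast_ringChar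
    rw [h0] at this
    exact_mod_cast this
  have hodd : Fintype.card L % 2 = 1 := FiniteField.odd_card_of_char_ne_two hchar
  have hc : (Fintype.card L - 1) / 2 = Fintype.card L / 2 := by omega
  rw [← Set.ncard_union_eq]
  · congr 1
    ext x
    simp only [Set.mem_union, Set.mem_ofPred_eq]
    constructor
    · rintro (h | h)
      · exact h.1
      · exact h.1
    · intro h
      rcases FiniteField.pow_dichotomy hchar h with h3 | h3
      · left
        rw [hc]
        exact ⟨h, h3⟩
      · right
        rw [hc]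
        exact ⟨h, h3⟩
  · rw [Set.disjoint_left]
    rintro x ⟨-, h3⟩ ⟨-, h4⟩
    rw [h3] at h4
    apply h2
    have : (1 : L) + 1 = 0 := by
      nth_rw 1 [h4]
      ring
    rw [← this]
    norm_num

end count

variable {κ : Type} [Field κ]

/-- The polynomial `x₁ f(x₀)` in two variables. -/
noncomputable def FF (f : κ[X]) : MvPolynomial (Fin 2) κ :=
  MvPolynomial.X 1 * aeval (MvPolynomial.X 0) f

theorem eval_FF (f : κ[X]) {L : Type} [Field L] [Algebra κ L] (v : Fin 2 → L) :
    MvPolynomial.eval v ((FF f).map (algebraMap κ L)) = v 1 * aeval (v 0) f := by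
  unfold FF
  rw [MvPolynomial.eval_map, MvPolynomial.eval₂_mul, MvPolynomial.eval₂_X]
  congr 1
  have h1 : MvPolynomial.eval₂ (algebraMap κ L) v (aeval (MvPolynomial.X 0 : MvPolynomial (Fin 2) κ) f)
      = MvPolynomial.aeval v (aeval (MvPolynomial.X 0 : MvPolynomial (Fin 2) κ) f) := rfl
  rw [h1, ← Polynomial.aeval_algHom_apply, MvPolynomial.aeval_X]

theorem isNorm_iff {L : Type} [Field L] (x y : L) :
    IsNorm ![x, y] ↔ y = 1 ∨ (x = 1 ∧ y = 0) := by
  constructor
  · rintro ⟨i, hi, hj⟩
    fin_cases i
    · right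
      exact ⟨hi, hj 1 (by decide)⟩
    · left
      exact hi
  · rintro (h | ⟨h, h'⟩)
    · exact ⟨1, h, fun j hj => absurd hj (by fin_cases j <;> decide)⟩
    · refine ⟨0, h, fun j hj => ?_⟩
      fin_cases j
      · exact absurd hj (by decide)
      · exact h'

theorem sum_norm {L R : Type} [Field L] [Fintype L] [AddCommMonoid R] (u : (Fin 2 → L) → R)
    (hu : ∀ v, v 1 = 0 → u v = 0) [∀ v : Fin 2 → L, Decidable (IsNorm v)] :
    ∑ v : Fin 2 → L, (if IsNorm v then u v else 0) = ∑ x : L, u ![x, 1] := by
  classical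
  rw [← Equiv.sum_comp (finTwoArrowEquiv L).symm, Fintype.sum_prod_type]
  refine Finset.sum_congr rfl (fun x _ => ?_)
  rw [Finset.sum_eq_single (1 : L)]
  · simp only [finTwoArrowEquiv_symm_apply]
    rw [if_pos ((isNorm_iff x 1).2 (Or.inl rfl))]
  · intro y _ hy
    simp only [finTwoArrowEquiv_symm_apply]
    split_ifs with h
    · rcases (isNorm_iff x y).1 h with h1 | ⟨_, h1⟩
      · exact absurd h1 hy
      · apply hu
        exact h1
    · rfl
  · intro h; exact absurd (Finset.mem_univ _) h

variable [Fintype κ]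

theorem kv_two {L : Type} [Field L] (h2 : (2 : L) ≠ 0) (y : L) [Decidable (y = 1)]
    [Decidable (y = -1)] : kv 2 (-1 : L) (-1 : ℤ) y
      = (if y = 1 then 1 else 0) - (if y = -1 then 1 else 0) := by
  classical
  unfold kv
  rw [Finset.sum_range_succ, Finset.sum_range_one, pow_zero, pow_one, pow_zero, pow_one]
  have e1 : ∀ (a b : ℤ), a = b → ∀ (c d : ℤ), c = -d → a + c = b - d := by
    intro a b hab c d hcd; rw [hab, hcd]; ring
  apply e1
  · congr
  · split_ifs <;> simp_all

theorem projSum_eq (f : κ[X]) (L : Type) [Field L] [Fintype L] [Algebra κ L] (h2 : (2 : L) ≠ 0) :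
    projSum L ℤ 2 ((FF f).map (algebraMap κ L)) (-1) (-1)
      = (pts L f : ℤ) - Fintype.card L := by
  classical
  have hq1 : 1 < Fintype.card L := Fintype.one_lt_card
  have hchar : ringChar L ≠ 2 := by
    intro h0
    apply h2
    have : ((ringChar L : ℕ) : L) = 0 := ringChar.Nat.cast_ringChar
    rw [h0] at this
    exact_mod_cast this
  have hodd : Fintype.card L % 2 = 1 := FiniteField.odd_card_of_char_ne_two hchar
  have hpos : (Fintype.card L - 1) / 2 ≠ 0 := by omega
  unfold projSum
  have h10 : (0 : L) ≠ -1 := by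
    intro h; exact one_ne_zero (neg_eq_zero.1 h.symm)
  rw [sum_norm]
  · have h1 : ∀ x : L, kv 2 (-1 : L) (-1 : ℤ) ((MvPolynomial.eval ![x, 1]
        ((FF f).map (algebraMap κ L))) ^ ((Fintype.card L - 1) / 2))
        = (if aeval x f ≠ 0 ∧ (aeval x f) ^ ((Fintype.card L - 1) / 2) = 1 then 1 else 0)
          - (if aeval x f ≠ 0 ∧ (aeval x f) ^ ((Fintype.card L - 1) / 2) = -1 then 1 else 0) := by
      intro x
      rw [eval_FF, kv_two h2]
      simp only [Matrix.cons_val_zero, Matrix.cons_val_one, one_mul]
      by_cases h0 : aeval x f = 0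
      · rw [h0, zero_pow hpos, if_neg zero_ne_one, if_neg h10, if_neg (fun h => h.1 rfl),
          if_neg (fun h => h.1 rfl)]
      · congr 1
        · simp [h0]
        · simp [h0]
    simp only [h1]
    rw [Finset.sum_sub_distrib, Finset.sum_boole, Finset.sum_boole]
    have e1 := ncard_double h2 (fun x : L => aeval x f)
    have e2 := ncard_split h2 (fun x : L => aeval x f)
    have e3 : pts L f = Set.ncard {y : L × L | aeval y.1 f ≠ 0 ∧ y.2 ^ 2 = aeval y.1 f}
        + Set.ncard {x : L | aeval x f = 0} := by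
      unfold pts
      have e4 : {x : L | aeval x f = 0}.ncard = Set.ncard {z : L × L | aeval z.1 f = 0 ∧ z.2 = 0} := by
        rw [← Set.ncard_image_of_injective (f := fun x : L => ((x, 0) : L × L))
          {x : L | aeval x f = 0} (fun x y h => (Prod.mk.inj h).1)]
        congr 1
        ext ⟨x, y⟩
        simp only [Set.mem_image, Set.mem_setOf_eq, Prod.mk.injEq]
        constructor
        · rintro ⟨x', h1, rfl, rfl⟩; exact ⟨h1, rfl⟩
        · rintro ⟨h1, rfl⟩; exact ⟨x, h1, rfl, rfl⟩
      rw [e4, ← Set.ncard_union_eq]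
      · congr 1
        ext ⟨x, y⟩
        simp only [Set.mem_union, Set.mem_setOf_eq]
        constructor
        · intro h
          by_cases h0 : aeval x f = 0
          · right
            refine ⟨h0, ?_⟩
            rw [h0] at h
            exact pow_eq_zero_iff (two_ne_zero) |>.1 h
          · left; exact ⟨h0, h⟩
        · rintro (h | ⟨h, h'⟩)
          · exact h.2
          · rw [h, h']; ring
      · rw [Set.disjoint_left]
        rintro x ⟨h, -⟩ ⟨h', -⟩
        exact h h'
    have e5 : Fintype.card L = Set.ncard {x : L | aeval x f ≠ 0} + Set.ncard {x : L | aeval x f = 0} := by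
      rw [← Set.ncard_union_eq]
      · rw [← Nat.card_eq_fintype_card, ← Set.ncard_univ]
        congr 1
        ext x
        simp only [Set.mem_univ, Set.mem_union, Set.mem_setOf_eq, true_iff]
        exact (em _).symm
      · rw [Set.disjoint_left]
        intro x h h'
        exact h h'
    have e6 : ∀ (Q : L → Prop) [DecidablePred Q], ((Finset.univ.filter Q).card : ℤ)
        = (Set.ncard {x | Q x} : ℤ) := by
      intro Q _
      rw [Set.ncard_eq_toFinset_card']
      congr 2
      ext x; simp
    rw [e6, e6]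
    have e3' : (pts L f : ℤ) = Set.ncard {y : L × L | aeval y.1 f ≠ 0 ∧ y.2 ^ 2 = aeval y.1 f}
        + Set.ncard {x : L | aeval x f = 0} := by exact_mod_cast e3
    have e5' : (Fintype.card L : ℤ) = Set.ncard {x : L | aeval x f ≠ 0}
        + Set.ncard {x : L | aeval x f = 0} := by exact_mod_cast e5
    have e1' : (Set.ncard {y : L × L | aeval y.1 f ≠ 0 ∧ y.2 ^ 2 = aeval y.1 f} : ℤ) =
      2 * Set.ncard {x : L | aeval x f ≠ 0 ∧ (aeval x f) ^ ((Fintype.card L - 1) / 2) = 1} := by
      exact_mod_cast e1
    have e2' : (Set.ncard {x : L | aeval x f ≠ 0 ∧ (aeval x f) ^ ((Fintype.card L - 1) / 2) = 1} : ℤ) +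
      Set.ncard {x : L | aeval x f ≠ 0 ∧ (aeval x f) ^ ((Fintype.card L - 1) / 2) = -1} =
      Set.ncard {x : L | aeval x f ≠ 0} := by
      exact_mod_cast e2
    linarith [e1', e2', e3', e5']
  · intro v hv
    rw [eval_FF, hv, zero_mul, zero_pow hpos, kv_two h2, if_neg zero_ne_one, if_neg h10, sub_zero]

theorem projOpen_eq (f : κ[X]) (L : Type) [Field L] [Fintype L] [Algebra κ L] :
    (projOpen L ((FF f).map (algebraMap κ L)) : ℤ) = Fintype.card L - ∑ x : L, delta L f x := by
  classical
  have h1 : projOpen L ((FF f).map (algebraMap κ L)) = Set.ncard {x : L | aeval x f ≠ 0} := by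
    unfold projOpen
    rw [← Set.ncard_image_of_injective (f := fun x : L => ![x, (1 : L)]) {x : L | aeval x f ≠ 0}
      (fun x y h => congrFun h 0)]
    congr 1
    ext v
    simp only [Set.mem_image, Set.mem_setOf_eq, eval_FF]
    constructor
    · rintro ⟨h1, h2⟩
      have hv : v = ![v 0, v 1] := by ext i; fin_cases i <;> rfl
      rw [hv, isNorm_iff] at h1
      have h3 : v 1 ≠ 0 := left_ne_zero_of_mul h2
      have h4 : v 1 = 1 := by
        rcases h1 with h1 | ⟨_, h1⟩
        · exact h1
        · exact absurd h1 h3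
      refine ⟨v 0, right_ne_zero_of_mul h2, ?_⟩
      rw [hv, h4]
      rfl
    · rintro ⟨x, hx, rfl⟩
      refine ⟨(isNorm_iff x 1).2 (Or.inl rfl), ?_⟩
      simpa using hx
  have h2 : ∑ x : L, delta L f x = (Set.ncard {x : L | aeval x f = 0} : ℤ) := by
    unfold delta
    rw [Finset.sum_boole, Set.ncard_eq_toFinset_card']
    congr 2
    ext x; simp
  have e5 : Fintype.card L = Set.ncard {x : L | aeval x f ≠ 0} + Set.ncard {x : L | aeval x f = 0} := by
    rw [← Set.ncard_union_eq]
    · rw [← Nat.card_eq_fintype_card, ← Set.ncard_univ]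
      congr 1
      ext x
      simp only [Set.mem_univ, Set.mem_union, Set.mem_setOf_eq, true_iff]
      exact (em _).symm
    · rw [Set.disjoint_left]
      intro x h h'
      exact h h'
  rw [h1, h2, e5]
  push_cast
  ring

/-- The reciprocal polynomial of a multiset of numbers. -/
theorem coeff_gs_eq {E : Type} [Field E] (S : Multiset E) (i : ℕ) (hi : i ≤ S.card) :
    PowerSeries.coeff i (gs S) = ((S.map fun x => X - C x).prod).coeff (S.card - i) := by
  have h1 : gs S = (((S.map fun x => (1 - C x * X : E[X])).prod : E[X]) : PowerSeries E) := by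
    rw [gs]
    have h3 := map_multiset_prod (Polynomial.coeToPowerSeries.ringHom (R := E))
      (S.map fun x => 1 - C x * X)
    rw [Multiset.map_map] at h3
    refine Eq.trans ?_ h3.symm
    congr 1
    refine Multiset.map_congr rfl fun x _ => ?_
    simp
  have h2 : ∀ S : Multiset E, ((S.map fun x => X - C x).prod).reverse
      = (S.map fun x => (1 - C x * X : E[X])).prod := by
    intro S
    induction S using Multiset.induction_on with
    | empty =>
      simp only [Multiset.map_zero, Multiset.prod_zero]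
      rw [← C_1, reverse_C]
    | cons x S ih =>
      rw [Multiset.map_cons, Multiset.prod_cons, Multiset.map_cons, Multiset.prod_cons,
        reverse_mul_of_domain, reverse_lin, ih]
  rw [h1, Polynomial.coeff_coe, ← h2, coeff_reverse, natDegree_multiset_prod_X_sub_C_eq_card,
    revAt_le hi]

theorem main_aux (h2 : (2 : κ) ≠ 0) {f : κ[X]} (hf : Irreducible f) {n : ℕ} (hn : f.natDegree = n)
    (hn2 : 2 ≤ n)
    {k : Type} [Field k] [CharZero k] (E : Type) [Field E] [CharZero E] [Algebra k E]
    [IsAlgClosed E] {V : Type} [AddCommGroup V] [Module k V]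
    [FiniteDimensional k V] (T : Module.End k V) (hdim : Module.finrank k V = n - 1)
    (hT : ∀ (L : Type) [Field L] [Fintype L] [Algebra κ L],
      LinearMap.trace k V (T ^ Module.finrank κ L) = (Fintype.card L : k) - (pts L f : k)) :
    ∃ P : ℤ[X], P.Monic ∧ P.map (Int.castRingHom (ZMod 2)) = ∑ i ∈ Finset.range n, X ^ i ∧
      T.charpoly = P.map (Int.castRingHom k) := by
  classical
  have hL2 : ∀ (L : Type) [Field L] [Algebra κ L], (2 : L) ≠ 0 := by
    intro L _ _ h0
    apply h2
    apply (algebraMap κ L).injective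
    rw [map_zero, map_ofNat]
    exact h0
  have hz : IsPrimitiveRoot (-1 : κ) 2 := by
    refine IsPrimitiveRoot.mk_of_lt (-1 : κ) (by norm_num) (by norm_num) ?_
    intro l hl1 hl2
    have : l = 1 := by omega
    rw [this, pow_one]
    intro h0
    apply h2
    have : (1 : κ) + 1 = 0 := by
      nth_rw 1 [← h0]
      ring
    rw [← this]
    norm_num
  obtain ⟨a, ha⟩ := Pool.Agent.W715.HS.OC.main κ 2 (-1) (by norm_num) hz 2 (FF f)
  obtain ⟨c, hc⟩ := CharP.exists κ
  have hcp : Fact c.Prime := ⟨CharP.char_is_prime κ c⟩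
  have hext : ∀ m, 1 ≤ m → ∃ (L : Type) (_ : Field L) (_ : Fintype L) (_ : Algebra κ L),
      Module.finrank κ L = m := by
    intro m hm
    have : NeZero m := ⟨by omega⟩
    let _ : Fintype (FiniteField.Extension κ c m) := Fintype.ofFinite _
    exact ⟨FiniteField.Extension κ c m, inferInstance, inferInstance, inferInstance,
      FiniteField.finrank_extension κ c m⟩
  set q := Fintype.card κ with hq
  have hcard : ∀ (L : Type) [Field L] [Fintype L] [Algebra κ L],
      Fintype.card L = q ^ Module.finrank κ L := by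
    intro L _ _ _
    exact Module.card_eq_pow_finrank
  -- the Euler products
  obtain ⟨M, hM⟩ : ∃ M, M = n := ⟨n, rfl⟩
  set A : PowerSeries ℤ := pm 2 (-1) a M with hA
  set B : PowerSeries ℤ := pm 2 1 a M with hB
  have hRZ : ∀ (n : ℕ) (x : ℤ), n ≠ 0 → (n : ℤ) * x = 0 → x = 0 := by
    intro n x hn hx
    exact (mul_eq_zero.1 hx).resolve_left (by exact_mod_cast hn)
  -- the trivial character
  have hopen : ∀ m, 1 ≤ m → orbSum 2 (1 : ℤ) a m = (q : ℤ) ^ m - NN n m := by
    intro m hm
    obtain ⟨L, _, _, _, hL⟩ := hext m hm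
    have h1 := (ha L).2
    rw [hL, projOpen_eq, sum_delta L hf, hn, hL, hcard L, hL] at h1
    rw [← h1]
    push_cast
    ring
  have hB' : ∀ m ≤ M, PowerSeries.coeff m (1 - PowerSeries.C (q : ℤ) * PowerSeries.X ^ 1)
      = PowerSeries.coeff m (B * (1 - PowerSeries.C (1 : ℤ) * PowerSeries.X ^ n)) := by
    have hn1 : 1 ≤ n := by omega
    refine isLog_unique hRZ (isLog_lg 1 le_rfl (q : ℤ)) (isLog_mul (isLog_pm 2 (1 : ℤ) a M)
      (isLog_lg n hn1 1)) ?_ ?_ M ?_
    · rw [PowerSeries.coeff_zero_eq_constantCoeff_apply]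
      exact coeff_zero_factor 1 le_rfl _
    · have e2 := coeff_zero_pm 2 (1 : ℤ) a M
      rw [PowerSeries.coeff_zero_eq_constantCoeff_apply] at e2 ⊢
      rw [map_mul, e2, one_mul]
      exact coeff_zero_factor n hn1 _
    · intro m h1 h2
      rw [map_add, coeff_lg_one _ m h1, coeff_pm 2 (1 : ℤ) a M m h1 h2, hopen m h1]
      unfold lg NN
      rw [PowerSeries.coeff_mk]
      by_cases h3 : n ∣ m
      · have h3' : m ≠ 0 ∧ n ∣ m := And.intro (by omega) h3
        simp only [if_pos h3, if_pos h3']
        simp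
      · have h3' : ¬ (m ≠ 0 ∧ n ∣ m) := fun h => h3 h.2
        simp only [if_neg h3, if_neg h3']
        simp
  -- the nontrivial character
  let TE : Module.End E (TensorProduct k E V) := T.baseChange E
  have hTE : TE.charpoly = T.charpoly.map (algebraMap k E) := LinearMap.charpoly_baseChange _ _
  have htrE : ∀ m, LinearMap.trace E _ (TE ^ m) = algebraMap k E (LinearMap.trace k V (T ^ m)) := by
    intro m
    have : TE ^ m = (T ^ m).baseChange E := by
      induction m with
      | zero => rw [pow_zero, pow_zero]; exact (LinearMap.baseChange_id).symm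
      | succ m ih =>
        rw [pow_succ, pow_succ, ih]
        exact (LinearMap.baseChange_comp _ _).symm
    rw [this, LinearMap.trace_baseChange]
  set S := TE.charpoly.roots with hS
  have hsum : ∀ m, 1 ≤ m → orbSum 2 (-1 : E) a m + (S.map fun x => x ^ m).sum = 0 := by
    intro m hm
    obtain ⟨L, _, _, _, hL⟩ := hext m hm
    have h1 := (ha L).1 ℤ (-1) (by norm_num)
    have h3 := hT L
    rw [map_neg, map_one, projSum_eq f L (hL2 L), hL] at h1
    rw [hL] at h3
    have h4 : orbSum 2 (-1 : E) a m = (Int.castRingHom E) (orbSum 2 (-1 : ℤ) a m) := by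
      unfold orbSum
      rw [map_sum]
      refine Finset.sum_congr rfl fun d _ => ?_
      rw [map_mul, map_sum, map_natCast]
      congr 1
      refine Finset.sum_congr rfl fun i _ => ?_
      rw [map_mul, map_natCast, map_pow, map_neg, map_one]
    rw [h4, ← h1, ← Pool.Agent.W63.HS.TR.main E _ TE m, htrE, h3]
    simp only [map_sub, map_natCast]
    ring
  have hRE : ∀ (n : ℕ) (x : E), n ≠ 0 → (n : E) * x = 0 → x = 0 := by
    intro n x hn hx
    exact (mul_eq_zero.1 hx).resolve_left (by exact_mod_cast hn)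
  have hAE : PowerSeries.map (Int.castRingHom E) A = pm 2 (-1 : E) a M := by
    rw [hA]
    unfold pm
    rw [map_prod]
    refine Finset.prod_congr rfl fun d _ => ?_
    rw [map_prod]
    refine Finset.prod_congr rfl fun i _ => ?_
    simp
  have hG : ∀ m ≤ M, PowerSeries.coeff m (1 : PowerSeries E)
      = PowerSeries.coeff m (PowerSeries.map (Int.castRingHom E) A * gs S) := by
    rw [hAE]
    refine isLog_unique hRE isLog_one (isLog_mul (isLog_pm 2 (-1 : E) a M)
      (isLog_gs S)) ?_ ?_ M ?_
    · simp
    · have e2 := coeff_zero_pm 2 (-1 : E) a M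
      have e1 := coeff_zero_gs S
      rw [PowerSeries.coeff_zero_eq_constantCoeff_apply] at e1 e2 ⊢
      rw [map_mul, e2, e1, one_mul]
    · intro m h1 h2
      rw [map_add, coeff_gs _ m h1, coeff_pm 2 (-1 : E) a M m h1 h2, hsum m h1, map_zero]
  -- the inverse
  have hA0 : PowerSeries.constantCoeff A = 1 := by
    have := coeff_zero_pm 2 (-1 : ℤ) a M
    rwa [PowerSeries.coeff_zero_eq_constantCoeff_apply] at this
  obtain ⟨A', hA'⟩ : ∃ A' : PowerSeries ℤ, A * A' = 1 :=
    ⟨_, PowerSeries.mul_invOfUnit A 1 (by rw [hA0]; rfl)⟩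
  have hdvd : ∀ (R : Type) [CommRing R] (U W : PowerSeries R),
      (∀ m ≤ M, PowerSeries.coeff m U = PowerSeries.coeff m W) →
      PowerSeries.X ^ (M + 1) ∣ U - W := by
    intro R _ U W h
    rw [PowerSeries.X_pow_dvd_iff]
    intro m hm
    rw [map_sub, h m (by omega), sub_self]
  have hdvd' : ∀ (R : Type) [CommRing R] (U W : PowerSeries R),
      PowerSeries.X ^ (M + 1) ∣ U - W →
      (∀ m ≤ M, PowerSeries.coeff m U = PowerSeries.coeff m W) := by
    intro R _ U W h m hm
    rw [PowerSeries.X_pow_dvd_iff] at h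
    have := h m (by omega)
    rwa [map_sub, sub_eq_zero] at this
  have hGA : ∀ m ≤ M, PowerSeries.coeff m (gs S) = ((PowerSeries.coeff m A' : ℤ) : E) := by
    have h1 := hdvd E _ _ hG
    have h3 : PowerSeries.X ^ (M + 1) ∣ gs S - PowerSeries.map (Int.castRingHom E) A' := by
      have h4 := Dvd.dvd.mul_left h1 (-PowerSeries.map (Int.castRingHom E) A')
      have h5 : PowerSeries.map (Int.castRingHom E) A * PowerSeries.map (Int.castRingHom E) A' = 1 := by
        rw [← map_mul, hA', map_one]
      convert h4 using 1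
      linear_combination (-gs S) * h5
    intro m hm
    rw [hdvd' E _ _ h3 m hm, PowerSeries.coeff_map]
    rfl
  have hmod : ∀ m < n, ((PowerSeries.coeff m A' : ℤ) : ZMod 2) = 1 := by
    have h1 := map_dvd (PowerSeries.map (Int.castRingHom (ZMod 2))) (hdvd ℤ _ _ hB')
    have hq2 : ((q : ℕ) : ZMod 2) = 1 := by
      have hchar : ringChar κ ≠ 2 := by
        intro h0
        apply h2
        have : ((ringChar κ : ℕ) : κ) = 0 := ringChar.Nat.cast_ringChar
        rw [h0] at this
        exact_mod_cast this
      have hodd : q % 2 = 1 := FiniteField.odd_card_of_char_ne_two hchar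
      rw [← Nat.cast_one, ZMod.natCast_eq_natCast_iff]
      exact hodd
    have hAB : PowerSeries.map (Int.castRingHom (ZMod 2)) B = PowerSeries.map (Int.castRingHom (ZMod 2)) A := by
      rw [hA, hB]
      unfold pm
      rw [map_prod, map_prod]
      refine Finset.prod_congr rfl fun d _ => ?_
      rw [map_prod, map_prod]
      refine Finset.prod_congr rfl fun i _ => ?_
      have h12 : (-1 : PowerSeries (ZMod 2)) = 1 := by
        have h11 : (-1 : ZMod 2) = 1 := by decide
        have := congrArg (PowerSeries.C (R := ZMod 2)) h11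
        rwa [map_neg, map_one] at this
      simp [h12]
    rw [map_pow, PowerSeries.map_X, map_sub, map_mul, hAB, map_sub, map_sub, map_mul, map_mul,
      map_pow, map_pow, PowerSeries.map_X, PowerSeries.map_C, PowerSeries.map_C, map_one, map_one,
      map_one, one_mul, map_natCast, hq2, map_one, one_mul, pow_one] at h1
    set U := PowerSeries.map (Int.castRingHom (ZMod 2)) A with hU
    set U' := PowerSeries.map (Int.castRingHom (ZMod 2)) A' with hU'
    have hUU : U * U' = 1 := by rw [hU, hU', ← map_mul, hA', map_one]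
    have h3 : PowerSeries.X ^ (M + 1) ∣
        (1 - PowerSeries.X) * (U' - ∑ i ∈ Finset.range n, (PowerSeries.X : PowerSeries (ZMod 2)) ^ i) := by
      have h4 := Dvd.dvd.mul_left h1 U'
      have h5 : (∑ i ∈ Finset.range n, (PowerSeries.X : PowerSeries (ZMod 2)) ^ i) * (1 - PowerSeries.X)
          = 1 - PowerSeries.X ^ n := geom_sum_mul_neg _ _
      convert h4 using 1
      linear_combination (-1 : PowerSeries (ZMod 2)) * h5 + (1 - PowerSeries.X ^ n) * hUU
    have h4 : IsUnit (1 - PowerSeries.X : PowerSeries (ZMod 2)) := by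
      rw [PowerSeries.isUnit_iff_constantCoeff]
      simp
    rw [h4.dvd_mul_left] at h3
    intro m hm
    have h5 := hdvd' _ _ _ h3 m (by omega)
    rw [hU', PowerSeries.coeff_map] at h5
    have h6 : PowerSeries.coeff m (∑ i ∈ Finset.range n, (PowerSeries.X : PowerSeries (ZMod 2)) ^ i) = 1 := by
      rw [map_sum]
      simp only [PowerSeries.coeff_X_pow]
      rw [Finset.sum_ite_eq, if_pos (Finset.mem_range.2 hm)]
    rw [h6] at h5
    exact h5
  -- the polynomial
  have hSc : S.card = n - 1 := by
    have h1 := (IsAlgClosed.splits TE.charpoly).natDegree_eq_card_roots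
    rw [← h1, hTE, natDegree_map, LinearMap.charpoly_natDegree, hdim]
  have hSp : TE.charpoly = (S.map fun x => X - C x).prod :=
    (IsAlgClosed.splits TE.charpoly).eq_prod_roots_of_monic (LinearMap.charpoly_monic _)
  set P : ℤ[X] := ∑ i ∈ Finset.range n, C (PowerSeries.coeff (n - 1 - i) A') * X ^ i with hPdef
  have hPc : ∀ j, P.coeff j = if j < n then PowerSeries.coeff (n - 1 - j) A' else 0 := by
    intro j
    rw [hPdef, finset_sum_coeff]
    simp only [coeff_C_mul, coeff_X_pow, mul_ite, mul_one, mul_zero]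
    rw [Finset.sum_ite_eq]
    simp only [Finset.mem_range]
  have hA'0 : PowerSeries.coeff 0 A' = 1 := by
    have := congrArg PowerSeries.constantCoeff hA'
    rw [map_mul, hA0, one_mul, map_one] at this
    rw [PowerSeries.coeff_zero_eq_constantCoeff_apply, this]
  have hPm : P.Monic := by
    apply monic_of_natDegree_le_of_coeff_eq_one (n - 1)
    · rw [natDegree_le_iff_coeff_eq_zero]
      intro j hj
      rw [hPc, if_neg (by omega)]
    · rw [hPc, if_pos (by omega), Nat.sub_self, hA'0]
  refine ⟨P, hPm, ?_, ?_⟩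
  · ext j
    rw [coeff_map, hPc, finset_sum_coeff]
    simp only [coeff_X_pow]
    rw [Finset.sum_ite_eq]
    simp only [Finset.mem_range]
    split_ifs with hj
    · exact hmod _ (by omega)
    · rw [map_zero]
  · apply Polynomial.map_injective (algebraMap k E) (algebraMap k E).injective
    rw [← hTE, Polynomial.map_map]
    have h1 : (algebraMap k E).comp (Int.castRingHom k) = Int.castRingHom E := RingHom.ext_int _ _
    rw [h1, hSp]
    ext j
    rw [coeff_map, hPc]
    by_cases hj : j < n
    · rw [if_pos hj]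
      have h3 := coeff_gs_eq S (n - 1 - j) (by rw [hSc]; omega)
      rw [hGA _ (by omega), hSc, show n - 1 - (n - 1 - j) = j by omega] at h3
      exact h3.symm
    · rw [if_neg hj, map_zero]
      apply coeff_eq_zero_of_natDegree_lt
      rw [natDegree_multiset_prod_X_sub_C_eq_card, hSc]
      omega

/-- The characteristic polynomial of Frobenius is integral, and modulo two it is the cyclotomic
polynomial. -/
theorem main (h2 : (2 : κ) ≠ 0) {f : κ[X]} (hf : Irreducible f) {n : ℕ} (hn : f.natDegree = n)
    (hn2 : 2 ≤ n)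
    {k : Type} [Field k] [CharZero k] {V : Type} [AddCommGroup V] [Module k V]
    [FiniteDimensional k V] (T : Module.End k V) (hdim : Module.finrank k V = n - 1)
    (hT : ∀ (L : Type) [Field L] [Fintype L] [Algebra κ L],
      LinearMap.trace k V (T ^ Module.finrank κ L) = (Fintype.card L : k) - (pts L f : k)) :
    ∃ P : ℤ[X], P.Monic ∧ P.map (Int.castRingHom (ZMod 2)) = ∑ i ∈ Finset.range n, X ^ i ∧
      T.charpoly = P.map (Int.castRingHom k) := by
  haveI : CharZero (AlgebraicClosure k) :=
    charZero_of_injective_algebraMap (algebraMap k (AlgebraicClosure k)).injective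
  exact main_aux h2 hf hn hn2 (AlgebraicClosure k) T hdim hT

end Pool.Agent.T6.H36.Count
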