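import Pool.Agent.T6.H36.Core5

/-! The relations are generated by relations between two roots. -/

namespace Pool.Agent.T6.H36.Two

open Polynomial Comb Rel Good

namespace Dat

variable {w h n p a : ℕ} {L : Type} [Field L] [CharZero L] (D : Dat w h n p a L)

section lattice

variable [NeZero n]

open scoped Classical in
/-- The class of a root. -/
noncomputable def sg (t : (ZMod n)ˣ) : (ZMod n)ˣ → ℤ := Pi.single t 1

theorem mon_sg (t : (ZMod n)ˣ) : D.mon (sg t) = D.α t := by
  classical
  unfold sg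
  convert D.mon_single t

theorem sg_neg (t : (ZMod n)ˣ) : (fun s => sg t (-s)) = sg (-t) := by
  classical
  ext s
  unfold sg
  rw [Pi.single_apply, Pi.single_apply]
  have e1 : -s = t ↔ s = -t := by
    constructor
    · rintro rfl; rw [neg_neg]
    · rintro rfl; rw [neg_neg]
  simp only [e1]

theorem tr_sg (u t : (ZMod n)ˣ) : tr u (sg t) = sg (u * t) := by
  classical
  ext s
  unfold sg
  rw [tr_apply, Pi.single_apply, Pi.single_apply]
  have e1 : u⁻¹ * s = t ↔ s = u * t := by rw [inv_mul_eq_iff_eq_mul]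
  simp only [e1]

/-- The relations up to powers of `q` and roots of unity. -/
noncomputable def E' : AddSubgroup ((ZMod n)ˣ → ℤ) where
  carrier := {e | RU (D.mon (e - fun t => e (-t)))}
  zero_mem' := by
    show RU (D.mon (0 - fun t => (0 : (ZMod n)ˣ → ℤ) (-t)))
    have : (0 - fun t => (0 : (ZMod n)ˣ → ℤ) (-t)) = 0 := by ext t; simp
    rw [this, mon_zero]; exact RU_one
  add_mem' := by
    intro e f he hf
    show RU (D.mon ((e + f) - fun t => (e + f) (-t)))
    have : ((e + f) - fun t => (e + f) (-t)) = (e - fun t => e (-t)) + (f - fun t => f (-t)) := by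
      ext t; simp only [Pi.add_apply, Pi.sub_apply]; ring
    rw [this, mon_add]
    exact RU_mul he hf
  neg_mem' := by
    intro e he
    show RU (D.mon ((-e) - fun t => (-e) (-t)))
    have : ((-e) - fun t => (-e) (-t)) = -(e - fun t => e (-t)) := by
      ext t; simp only [Pi.neg_apply, Pi.sub_apply]; ring
    rw [this, mon_neg]
    exact RU_inv he

theorem mem_E' {e : (ZMod n)ˣ → ℤ} : e ∈ D.E' ↔ RU (D.mon (e - fun t => e (-t))) := Iff.rfl

/-- The group generated by the relations between two roots. -/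
def G2 : AddSubgroup ((ZMod n)ˣ → ℤ) := AddSubgroup.closure
  {d | ∃ t t' : (ZMod n)ˣ, RU (D.α t * D.α t' / (p : L) ^ a) ∧ d = sg t + sg t'}

theorem mem_G2 {t t' : (ZMod n)ˣ} (h : RU (D.α t * D.α t' / (p : L) ^ a)) :
    sg t + sg t' ∈ D.G2 := AddSubgroup.subset_closure ⟨t, t', h, rfl⟩

theorem G2_le : D.G2 ≤ D.E' := by
  have hq0 : (p : L) ^ a ≠ 0 := pow_ne_zero _ D.p_ne
  rw [G2, AddSubgroup.closure_le]
  rintro _ ⟨t, t', h, rfl⟩
  show RU (D.mon ((sg t + sg t') - fun s => (sg t + sg t') (-s)))
  have e1 : (fun s => (sg t + sg t') (-s)) = sg (-t) + sg (-t') := by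
    rw [← sg_neg, ← sg_neg]; rfl
  rw [e1, mon_sub, mon_add, mon_add, mon_sg, mon_sg, mon_sg, mon_sg, α_neg, α_neg]
  have h1 := D.α_ne t
  have h2 := D.α_ne t'
  have e2 : D.α t * D.α t' / ((p : L) ^ a / D.α t * ((p : L) ^ a / D.α t'))
      = (D.α t * D.α t' / (p : L) ^ a) ^ 2 := by
    field_simp
  rw [e2]
  exact RU_pow h 2

theorem neg_G2 (t : (ZMod n)ˣ) : sg t + sg (-t) ∈ D.G2 := by
  apply D.mem_G2
  rw [D.α_mul_neg, div_self (pow_ne_zero _ D.p_ne)]
  exact RU_one

theorem E'_tr {e : (ZMod n)ˣ → ℤ} (he : e ∈ D.E') (u : (ZMod n)ˣ) : tr u e ∈ D.E' := by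
  rw [mem_E'] at he ⊢
  have h1 : (tr u e - fun t => tr u e (-t)) = tr u (e - fun t => e (-t)) := by
    ext t
    rw [Pi.sub_apply, tr_apply, tr_apply, tr_apply, Pi.sub_apply, mul_neg]
  rw [h1, mon_tr]
  exact RU_map he _

theorem sg_one_notMem [FiniteDimensional ℚ L] [IsGalois ℚ L] (h8 : p % 8 ≠ n % 8) {m : ℤ}
    (hm : m • sg (1 : (ZMod n)ˣ) ∈ D.E') : m = 0 := by
  by_contra h0
  apply D.lemmaS h8
  rw [mem_E'] at hm
  have h1 : ((m • sg (1 : (ZMod n)ˣ)) - fun t => (m • sg (1 : (ZMod n)ˣ)) (-t))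
      = m • (sg 1 - sg (-1)) := by
    rw [← sg_neg]
    ext t
    simp only [Pi.sub_apply, Pi.smul_apply, smul_eq_mul]
    ring
  rw [h1, mon_smul, mon_sub, mon_sg, mon_sg] at hm
  exact RU_of_zpow h0 hm

theorem sum_sg (e : (ZMod n)ˣ → ℤ) : e = ∑ t, e t • sg t := by
  classical
  ext s
  rw [Finset.sum_apply]
  unfold sg
  simp only [Pi.smul_apply, Pi.single_apply, smul_eq_mul, mul_ite, mul_one, mul_zero]
  rw [Finset.sum_ite_eq, if_pos (Finset.mem_univ _)]

/-- **All relations are generated by relations between two roots.** -/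
theorem generated [FiniteDimensional ℚ L] [IsGalois ℚ L] (h8 : p % 8 ≠ n % 8)
    {e : (ZMod n)ˣ → ℤ} (he : e ∈ D.E') : e ∈ D.G2 := by
  classical
  by_cases hC : RU (D.α 1 * D.α (D.g.two ^ w) / (p : L) ^ a)
  · -- the roots of a coset are equal up to roots of unity
    have hcos : ∀ b ∈ H h n, ∀ t : (ZMod n)ˣ, sg (b * t) - sg t ∈ D.G2 := by
      intro b hb t
      have h1 := D.coset hC b hb t
      have h2 : sg (b * t) + sg (-t) ∈ D.G2 := by
        apply D.mem_G2
        rw [α_neg]
        have := D.α_ne t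
        have hq0 : (p : L) ^ a ≠ 0 := pow_ne_zero _ D.p_ne
        have e1 : D.α (b * t) * ((p : L) ^ a / D.α t) / (p : L) ^ a = D.α (b * t) / D.α t := by
          field_simp
        rw [e1]
        exact h1
      have h3 := D.G2.sub_mem h2 (D.neg_G2 t)
      have e2 : sg (b * t) + sg (-t) - (sg t + sg (-t)) = sg (b * t) - sg t := by abel
      rwa [e2] at h3
    have hcos1 : ∀ b ∈ H h n, sg b - sg 1 ∈ D.G2 := by
      intro b hb
      have := hcos b hb 1
      rwa [mul_one] at this
    have hcosn : ∀ b, -b ∈ H h n → sg b + sg 1 ∈ D.G2 := by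
      intro b hb
      have h1 := hcos1 _ hb
      have h2 := D.G2.sub_mem (D.neg_G2 b) h1
      have e2 : sg b + sg (-b) - (sg (-b) - sg 1) = sg b + sg 1 := by abel
      rwa [e2] at h2
    have hrep : ∀ t : (ZMod n)ˣ, ∃ m m' : ℤ, sg t - (m • sg 1 + m' • sg D.g.two) ∈ D.G2 := by
      intro t
      rcases D.g.cases t with ht | ht | ⟨hw2, ht | ht⟩
      · refine ⟨1, 0, ?_⟩
        rw [one_smul, zero_smul, add_zero]
        exact hcos1 t ht
      · refine ⟨-1, 0, ?_⟩
        rw [neg_one_smul, zero_smul, add_zero, sub_neg_eq_add]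
        exact hcosn t ht
      · refine ⟨0, -1, ?_⟩
        rw [zero_smul, zero_add, neg_one_smul, sub_neg_eq_add]
        have h1 : t = (t * D.g.two * (-(D.g.two ^ w))⁻¹) * (-D.g.two) := by
          have hpw : D.g.two ^ w = D.g.two ^ 2 := congrArg (fun m : ℕ => D.g.two ^ m) hw2
          rw [hpw, pow_two]
          apply Units.ext
          haveI : Fact n.Prime := ⟨D.g.hp⟩
          have h2 := D.g.two.ne_zero
          push_cast
          field_simp
        have h2 : t * D.g.two * (-(D.g.two ^ w))⁻¹ ∈ H h n :=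
          Subgroup.mul_mem _ ht (Subgroup.inv_mem _ D.g.neg_u_mem)
        have h3 := hcos _ h2 (-D.g.two)
        rw [← h1] at h3
        have h4 := D.G2.add_mem h3 (D.neg_G2 D.g.two)
        have e2 : sg t - sg (-D.g.two) + (sg D.g.two + sg (-D.g.two)) = sg t + sg D.g.two := by abel
        rwa [e2] at h4
      · refine ⟨0, 1, ?_⟩
        rw [zero_smul, zero_add, one_smul]
        have h1 : t = (-(t * D.g.two) * (-(D.g.two ^ w))⁻¹) * D.g.two := by
          have hpw : D.g.two ^ w = D.g.two ^ 2 := congrArg (fun m : ℕ => D.g.two ^ m) hw2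
          rw [hpw, pow_two]
          apply Units.ext
          haveI : Fact n.Prime := ⟨D.g.hp⟩
          have h2 := D.g.two.ne_zero
          push_cast
          field_simp
        have h2 : -(t * D.g.two) * (-(D.g.two ^ w))⁻¹ ∈ H h n :=
          Subgroup.mul_mem _ ht (Subgroup.inv_mem _ D.g.neg_u_mem)
        have h3 := hcos _ h2 D.g.two
        rwa [← h1] at h3
    have hall : ∀ f : (ZMod n)ˣ → ℤ, ∃ m m' : ℤ, f - (m • sg 1 + m' • sg D.g.two) ∈ D.G2 := by
      intro f
      choose m m' hm using hrep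
      refine ⟨∑ t, f t * m t, ∑ t, f t * m' t, ?_⟩
      have e1 : f - ((∑ t, f t * m t) • sg 1 + (∑ t, f t * m' t) • sg D.g.two)
          = ∑ t, f t • (sg t - (m t • sg 1 + m' t • sg D.g.two)) := by
        conv_lhs => rw [sum_sg f]
        simp only [smul_sub, smul_add, Finset.sum_sub_distrib, Finset.sum_add_distrib, smul_smul,
          Finset.sum_smul]
        rw [← sum_sg f]
      rw [e1]
      exact sum_mem fun t _ => D.G2.zsmul_mem (hm t) _
    obtain ⟨m, m', hm⟩ := hall e
    have h1 : m • sg 1 + m' • sg D.g.two ∈ D.E' := by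
      have := D.E'.sub_mem he (D.G2_le hm)
      rwa [sub_sub_cancel] at this
    -- the class of the square
    have hu : sg (D.g.two ^ w) + sg 1 ∈ D.G2 := hcosn _ D.g.neg_u_mem
    have h3 : m • sg 1 + m' • sg D.g.two ∈ D.G2 := by
      rcases D.g.hw with hw1 | hw2
      · have hpw : D.g.two ^ w = D.g.two ^ 1 := congrArg (fun m : ℕ => D.g.two ^ m) hw1
        rw [hpw, pow_one] at hu
        have h4 : (m - m') • sg (1 : (ZMod n)ˣ) ∈ D.E' := by
          have h5 := D.E'.sub_mem h1 (D.G2_le (D.G2.zsmul_mem hu m'))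
          have e2 : m • sg 1 + m' • sg D.g.two - m' • (sg D.g.two + sg 1) = (m - m') • sg 1 := by
            rw [smul_add, sub_smul]; abel
          rwa [e2] at h5
        have h5 := D.sg_one_notMem h8 h4
        have h6 := D.G2.zsmul_mem hu m'
        have e3 : m' • (sg D.g.two + sg 1) = m • sg 1 + m' • sg D.g.two := by
          rw [smul_add, sub_eq_zero.1 h5]; abel
        rwa [e3] at h6
      · have hpw : D.g.two ^ w = D.g.two ^ 2 := congrArg (fun m : ℕ => D.g.two ^ m) hw2
        rw [hpw] at hu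
        have h4 := D.E'_tr h1 D.g.two
        rw [map_add, map_smul, map_smul, tr_sg, tr_sg, mul_one, ← pow_two] at h4
        have h5 := D.E'.sub_mem h4 (D.G2_le (D.G2.zsmul_mem hu m'))
        have h6 := D.E'.sub_mem (D.E'.zsmul_mem h1 m) (D.E'.zsmul_mem h5 m')
        have e2 : m • (m • sg 1 + m' • sg D.g.two) - m' • (m • sg D.g.two + m' • sg (D.g.two ^ 2)
            - m' • (sg (D.g.two ^ 2) + sg 1)) = (m * m + m' * m') • sg 1 := by
          simp only [smul_add, smul_sub, add_smul, smul_smul, mul_comm m' m]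
          abel
        rw [e2] at h6
        have h7 := D.sg_one_notMem h8 h6
        have hm0 : m = 0 := by nlinarith [mul_self_nonneg m, mul_self_nonneg m']
        have hm0' : m' = 0 := by nlinarith [mul_self_nonneg m, mul_self_nonneg m']
        rw [hm0, hm0', zero_smul, zero_smul, add_zero]
        exact D.G2.zero_mem
    have := D.G2.add_mem hm h3
    rwa [sub_add_cancel] at this
  · -- there are no other relations
    have h1 : (e - fun t => e (-t)) ∈ D.E := he
    have h2 := D.odd_zero h8 hC h1 (by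
      intro t
      simp only [Pi.sub_apply, neg_neg]
      ring)
    have h3 : ∀ t, e (-t) = e t := by
      intro t
      have := congrFun h2 t
      simp only [Pi.sub_apply, Pi.zero_apply] at this
      omega
    have h4 : (QuotientAddGroup.mk' D.G2) e = 0 := by
      rw [sum_sg e, map_sum]
      refine Finset.sum_involution (fun t _ => -t) ?_ ?_ ?_ ?_
      · intro t _
        rw [h3, ← map_add, ← smul_add]
        exact (QuotientAddGroup.eq_zero_iff _).2 (D.G2.zsmul_mem (D.neg_G2 t) _)
      · intro t _ _ h5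
        haveI : Fact n.Prime := ⟨D.g.hp⟩
        have h6 : (t : ZMod n) * 2 = 0 := by
          have := congrArg (fun u : (ZMod n)ˣ => (u : ZMod n)) h5
          simp only [Units.val_neg] at this
          linear_combination -this
        rcases mul_eq_zero.1 h6 with h7 | h7
        · exact t.ne_zero h7
        · rw [← D.g.two_coe] at h7
          exact D.g.two.ne_zero h7
      · intro t _
        exact Finset.mem_univ _
      · intro t _
        exact neg_neg t
    exact (QuotientAddGroup.eq_zero_iff _).1 h4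

end lattice

end Dat

end Pool.Agent.T6.H36.Two
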