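import Pool.Agent.T6.H36.Final
import Pool.Agent.T6.H36.Two2

/-! All relations are generated by relations between two roots, in an arbitrary field of
characteristic zero. -/

namespace Pool.Agent.T6.H36.Final

open Polynomial Comb Two

theorem exists_dat {w' h n p a : ℕ} (g : Good w' h n) (hp : p.Prime) (hp2 : p ≠ 2) (ha : Odd a)
    {P : ℤ[X]} (hP : P.Monic)
    (hmod : P.map (Int.castRingHom (ZMod 2)) = ∑ i ∈ Finset.range n, X ^ i)
    {K : Type} [Field K] [CharZero K] (hsplit : (P.map (Int.castRingHom K)).Splits)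
    (hsym : ∀ x : K, ev P x = 0 → ∃ y : K, ev P y = 0 ∧ x * y = (p : K) ^ a) [NeZero n] :
    ∃ (L : Type) (_ : Field L) (_ : CharZero L) (_ : FiniteDimensional ℚ L) (_ : IsGalois ℚ L)
      (D : Dat w' h n p a L) (jK : L →+* K),
      P.map (Int.castRingHom K) = ∏ t, (X - C (jK (D.α t))) := by
  classical
  have hnp : Fact n.Prime := ⟨g.hp⟩
  have hn1 : 1 < n := g.hp.one_lt
  have h2n : ¬ 2 ∣ n := by
    rintro ⟨k, hk⟩
    obtain ⟨e, he⟩ := g.n_odd'
    omega
  -- degree
  have hdeg : P.natDegree = n - 1 := by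
    have h1 : (P.map (Int.castRingHom (ZMod 2))).natDegree = P.natDegree := hP.natDegree_map _
    rw [← h1, hmod]
    obtain ⟨m, rfl⟩ : ∃ m, n = m + 1 := ⟨n - 1, by omega⟩
    exact deg_geom m
  have hdegc : P.natDegree = Fintype.card (ZMod n)ˣ := by rw [hdeg, ZMod.card_units]
  -- the roots modulo two
  have h2nk : ((n : ℕ) : κ) ≠ 0 := fun h0 => h2n ((CharP.cast_eq_zero_iff κ 2 n).1 h0)
  have hζe : ∃ ζ : κ, IsPrimitiveRoot ζ n := by
    have : NeZero ((n : ℕ) : κ) := ⟨h2nk⟩
    exact HasEnoughRootsOfUnity.exists_primitiveRoot κ n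
  obtain ⟨ζ, hζ⟩ := hζe
  have hroot : ∀ x : κ, x ≠ 1 → x ^ n = 1 → ev P x = 0 ∧ ev (derivative P) x ≠ 0 := by
    intro x hx1 hxn
    have h1 : P.map (Int.castRingHom κ) = ∑ i ∈ Finset.range n, X ^ i := by
      have h2 : P.map (Int.castRingHom κ)
          = (P.map (Int.castRingHom (ZMod 2))).map (algebraMap (ZMod 2) κ) := by
        rw [Polynomial.map_map]; congr 1
      rw [h2, hmod, Polynomial.map_sum]
      exact Finset.sum_congr rfl (fun i _ => by simp)
    have h3 : P.map (Int.castRingHom κ) * (X - 1) = X ^ n - 1 := by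
      rw [h1, geom_sum_mul]
    have h4 : ev P x = 0 := by
      have := congrArg (Polynomial.eval x) h3
      rw [eval_mul, eval_sub, eval_sub, eval_pow, eval_X, eval_one, hxn, sub_self, eval_map] at this
      exact (mul_eq_zero.1 this).resolve_right (sub_ne_zero.2 hx1)
    refine ⟨h4, ?_⟩
    intro h5
    have h8 := congrArg (fun Q : κ[X] => Polynomial.eval x (derivative Q)) h3
    simp only [derivative_mul, derivative_map, derivative_sub, derivative_X, derivative_one,
      sub_zero, mul_one, derivative_X_pow, eval_add, eval_mul, eval_sub, eval_X, eval_one,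
      eval_map, eval_pow, eval_natCast, eval_C] at h8
    have h4' : eval₂ (Int.castRingHom κ) x P = 0 := h4
    have h5' : eval₂ (Int.castRingHom κ) x (derivative P) = 0 := h5
    rw [h4', h5', zero_mul, add_zero] at h8
    have h6 : x ^ (n - 1) ≠ 0 := by
      apply pow_ne_zero
      rintro rfl
      rw [zero_pow (by omega)] at hxn
      exact zero_ne_one hxn
    exact mul_ne_zero h2nk h6 h8.symm
  have hw : ∀ t : (ZMod n)ˣ, ∃ w : W, ev P w = 0 ∧
      WittVector.constantCoeff w = ζ ^ (t : ZMod n).val := by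
    intro t
    have h1 : ζ ^ (t : ZMod n).val ≠ 1 := by
      apply hζ.pow_ne_one_of_pos_of_lt
      · rw [Ne, ZMod.val_eq_zero]; exact t.ne_zero
      · exact ZMod.val_lt _
    have h2 : (ζ ^ (t : ZMod n).val) ^ n = 1 := by
      rw [← pow_mul, mul_comm, pow_mul, hζ.pow_eq_one, one_pow]
    obtain ⟨h3, h4⟩ := hroot _ h1 h2
    exact Emb.hensel hP h3 h4
  choose w hw1 hw2 using hw
  have hwinj : Function.Injective (fun t => emb (w t)) := by
    intro t s hts
    have h1 := Dat.emb_inj hts
    have h2 := hw2 t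
    rw [h1, hw2 s] at h2
    exact Units.ext (ZMod.val_injective n (hζ.pow_inj (ZMod.val_lt _) (ZMod.val_lt _) h2.symm))
  have hCM : CharZero M2 := Emb.charZeroM 2 κ
  have hwroot : ∀ t, ev P (emb (w t)) = 0 := by
    intro t
    rw [ev_map, hw1, map_zero]
  have hPM := eq_of_roots hP hdegc (fun t => emb (w t)) hwinj hwroot
  -- the splitting field
  let Q : ℚ[X] := P.map (Int.castRingHom ℚ)
  have hQmap : ∀ (F : Type) [Field F] [CharZero F] (i : ℚ →+* F),
      Q.map i = P.map (Int.castRingHom F) := by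
    intro F _ _ i
    rw [Polynomial.map_map]; congr 1; exact RingHom.ext_int _ _
  obtain ⟨L, instL, instC, hSF⟩ := exists_field Q
  haveI : FiniteDimensional ℚ L := IsSplittingField.finiteDimensional L Q
  haveI : IsGalois ℚ L := IsGalois.of_separable_splitting_field (p := Q) (by
    have h1 : (P.map (Int.castRingHom M2)).Separable := by
      rw [hPM]
      exact separable_prod_X_sub_C_iff.2 hwinj
    rw [← hQmap M2 (algebraMap ℚ M2)] at h1
    exact (separable_map _).1 h1)
  have hQM : (Q.map (algebraMap ℚ M2)).Splits := by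
    rw [hQmap, hPM]
    exact Splits.prod (fun t _ => Splits.X_sub_C _)
  have hQK : (Q.map (algebraMap ℚ K)).Splits := by rw [hQmap]; exact hsplit
  have hPL : (P.map (Int.castRingHom L)).Splits := by
    rw [← hQmap L (algebraMap ℚ L)]
    exact IsSplittingField.splits L Q
  let j2 : L →+* M2 := (IsSplittingField.lift L Q hQM).toRingHom
  let jK : L →+* K := (IsSplittingField.lift L Q hQK).toRingHom
  have hα : ∀ t : (ZMod n)ˣ, ∃ r : L, ev P r = 0 ∧ j2 r = emb (w t) :=
    fun t => root_lift hP hPL j2 (hwroot t)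
  choose α hα1 hα2 using hα
  have hallM : ∀ x : M2, ev P x = 0 → ∃ t, x = emb (w t) := by
    intro x hx
    rw [ev, ← eval_map, hPM, eval_prod, Finset.prod_eq_zero_iff] at hx
    obtain ⟨t, _, ht⟩ := hx
    rw [eval_sub, eval_X, eval_C, sub_eq_zero] at ht
    exact ⟨t, ht⟩
  have hallL : ∀ x : L, ev P x = 0 → ∃ t, x = α t := by
    intro x hx
    obtain ⟨t, ht⟩ := hallM (j2 x) (by rw [ev_map, hx, map_zero])
    exact ⟨t, j2.injective (by rw [ht, hα2])⟩
  have hαinj : Function.Injective α := by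
    intro t s hts
    apply hwinj
    show emb (w t) = emb (w s)
    rw [← hα2, ← hα2, hts]
  obtain ⟨c, hc⟩ := Lift.exists_aut j2 (Emb.phi 2 κ)
  let D : Dat w' h n p a L :=
    { g := g
      hp := hp
      hp2 := hp2
      ha := ha
      α := α
      ι := j2
      ζ := ζ
      hζ := hζ
      res := fun t => ⟨w t, (hα2 t).symm, hw2 t⟩
      perm := by
        intro τ t
        apply hallL
        have := ev_map (τ : L ≃ₐ[ℚ] L).toRingEquiv.toRingHom P (α t)
        rw [hα1, map_zero] at this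
        exact this
      gen := by
        intro τ hτ
        have h1 : (τ : L →ₐ[ℚ] L) = AlgHom.id ℚ L := by
          apply AlgHom.ext_of_adjoin_eq_top (IsSplittingField.adjoin_rootSet L Q)
          intro x hx
          rw [mem_rootSet] at hx
          obtain ⟨t, rfl⟩ := hallL x (by
            have := hx.2
            rw [aeval_def, ← eval_map, hQmap L (algebraMap ℚ L), eval_map] at this
            exact this)
          exact hτ t
        ext x
        exact congrArg (fun f : L →ₐ[ℚ] L => f x) h1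
      c := c
      hc := hc
      pair := by
        intro t
        obtain ⟨y, hy, hxy⟩ := hsym (jK (α t)) (by rw [ev_map, hα1, map_zero])
        obtain ⟨r, hr, rfl⟩ := root_lift hP hPL jK hy
        obtain ⟨s, rfl⟩ := hallL r hr
        refine ⟨s, jK.injective ?_⟩
        rw [map_mul, hxy, map_pow, map_natCast] }
  refine ⟨L, instL, instC, inferInstance, inferInstance, D, jK, ?_⟩
  apply eq_of_roots hP hdegc _ (jK.injective.comp hαinj)
  intro t
  show ev P (jK (α t)) = 0
  rw [ev_map, hα1, map_zero]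

/-- **All relations are generated by relations between two roots.** -/
theorem pairs {w' h n p a : ℕ} (g : Good w' h n) (hp : p.Prime) (hp2 : p ≠ 2) (ha : Odd a)
    (h8 : p % 8 ≠ n % 8) {P : ℤ[X]} (hP : P.Monic)
    (hmod : P.map (Int.castRingHom (ZMod 2)) = ∑ i ∈ Finset.range n, X ^ i)
    {K : Type} [Field K] [CharZero K] (hsplit : (P.map (Int.castRingHom K)).Splits)
    (hsym : ∀ x : K, ev P x = 0 → ∃ y : K, ev P y = 0 ∧ x * y = (p : K) ^ a) [NeZero n] :
    ∃ α : (ZMod n)ˣ → K, Function.Injective α ∧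
      P.map (Int.castRingHom K) = ∏ t, (X - C (α t)) ∧
      (∀ t, α t * α (-t) = (p : K) ^ a) ∧
      ∀ e : (ZMod n)ˣ → ℤ, (∃ N : ℕ, N ≠ 0 ∧ (∏ t, α t ^ (e t - e (-t))) ^ N = 1) →
        e ∈ AddSubgroup.closure {d : (ZMod n)ˣ → ℤ | ∃ t t' : (ZMod n)ˣ,
          (∃ N : ℕ, N ≠ 0 ∧ (α t * α t') ^ N = ((p : K) ^ a) ^ N) ∧
          d = Dat.sg t + Dat.sg t'} := by
  obtain ⟨L, _, _, _, _, D, jK, h1⟩ := exists_dat g hp hp2 ha hP hmod hsplit hsym
  refine ⟨fun t => jK (D.α t), jK.injective.comp D.α_inj, h1, ?_, ?_⟩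
  · intro t
    show jK (D.α t) * jK (D.α (-t)) = _
    rw [← map_mul, D.α_mul_neg, map_pow, map_natCast]
  · rintro e ⟨N, hN, he⟩
    have h2 : e ∈ D.E' := by
      rw [Dat.mem_E']
      refine ⟨N, hN, jK.injective ?_⟩
      rw [map_pow, map_one, ← he]
      congr 1
      unfold Dat.mon
      rw [map_prod]
      exact Finset.prod_congr rfl (fun t _ => map_zpow₀ jK _ _)
    have h3 := D.generated h8 h2
    refine AddSubgroup.closure_mono ?_ h3
    rintro _ ⟨t, t', ⟨N, hN, h4⟩, rfl⟩
    refine ⟨t, t', ⟨N, hN, ?_⟩, rfl⟩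
    have hq0 : (p : L) ^ a ≠ 0 := pow_ne_zero _ D.p_ne
    rw [div_pow, div_eq_one_iff_eq (pow_ne_zero _ hq0)] at h4
    show (jK (D.α t) * jK (D.α t')) ^ N = _
    rw [← map_mul, ← map_pow, h4, map_pow, map_pow, map_natCast]

end Pool.Agent.T6.H36.Final
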