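import Pool.Agent.T6.H36.Comb

/-!
# Endomorphisms of prime order over the field with two elements
-/

namespace Pool.Agent.T6.H36.Comb

open Polynomial

variable {w h n : ℕ}

theorem Good.irred (g : Good w h n) : Irreducible (cyclotomic n (ZMod 2)) := by
  have hn2 : ¬ 2 ∣ n := by
    have := g.h8
    omega
  refine ZMod.irreducible_of_dvd_cyclotomic_of_natDegree (p := 2) hn2 dvd_rfl ?_
  have h1 : ZMod.unitOfCoprime 2 ((Fact.out : Nat.Prime 2).coprime_iff_not_dvd.mpr hn2) = g.two :=
    Units.ext rfl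
  rw [h1, g.two_order, natDegree_cyclotomic, Nat.totient_prime g.hp, g.hn]
  omega

/-- An endomorphism of order `n` of a vector space of dimension `n - 1` over the field with two
elements. -/
theorem Good.charpoly_eq (g : Good w h n) {M : Type} [AddCommGroup M] [Module (ZMod 2) M]
    [FiniteDimensional (ZMod 2) M] (hM : Module.finrank (ZMod 2) M = n - 1)
    (F : Module.End (ZMod 2) M) (h1 : F ^ n = 1) (h2 : F ≠ 1) :
    F.charpoly = ∑ i ∈ Finset.range n, X ^ i := by
  have : Fact n.Prime := ⟨g.hp⟩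
  have e1 : cyclotomic n (ZMod 2) = ∑ i ∈ Finset.range n, X ^ i := cyclotomic_prime (ZMod 2) n
  rw [← e1]
  have h3 : minpoly (ZMod 2) F ∣ (X - 1) * cyclotomic n (ZMod 2) := by
    apply minpoly.dvd
    have e2 : (X - 1 : (ZMod 2)[X]) * cyclotomic n (ZMod 2) = X ^ n - 1 := by
      rw [e1, mul_comm]
      exact geom_sum_mul _ _
    rw [e2, map_sub, map_pow, aeval_X, map_one, h1, sub_self]
  have h4 : cyclotomic n (ZMod 2) ∣ minpoly (ZMod 2) F := by
    by_contra h5
    have h6 : IsCoprime (cyclotomic n (ZMod 2)) (minpoly (ZMod 2) F) :=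
      (g.irred.coprime_iff_not_dvd).2 h5
    have h7 : minpoly (ZMod 2) F ∣ X - 1 := h6.symm.dvd_of_dvd_mul_right h3
    apply h2
    obtain ⟨c, hc⟩ := h7
    have h8 : aeval F (X - 1 : (ZMod 2)[X]) = 0 := by
      rw [hc, map_mul, minpoly.aeval, zero_mul]
    rw [map_sub, aeval_X, map_one] at h8
    exact sub_eq_zero.1 h8
  have h5 : cyclotomic n (ZMod 2) ∣ F.charpoly := h4.trans (LinearMap.minpoly_dvd_charpoly F)
  apply eq_of_monic_of_dvd_of_natDegree_le (cyclotomic.monic n _) (LinearMap.charpoly_monic F) h5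
  rw [LinearMap.charpoly_natDegree, hM, natDegree_cyclotomic, Nat.totient_prime g.hp]

end Pool.Agent.T6.H36.Comb
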