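import Pool.Agent.T6.H36.RedDefs
import Pool.Agent.T6.H36.Final2
import Pool.Agent.T6.H36.Order
import Pool.Agent.T6.H36.Count
import Pool.Agent.TH117.GN.Wt

/-!
# Abelian varieties over finite fields with a Frobenius endomorphism of prime order on the
points of order two
-/

set_option autoImplicit false

namespace Pool.Agent.T6.H36.Red

open Polynomial Pool.Agent.W495.TA Pool.Agent.W495.FM Pool.Agent.TH117.BL Comb NumberField

variable {p : ℕ} [Fact p.Prime] {ν : PadicAlgCl p ≃+* ℂ}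

theorem eig_conj (Z : RedAV p ν) (i : Z.X.I) (φ : (Z.X.factor i).E →+* ℂ) :
    eig Z ⟨i, φ⟩ * eig Z ⟨i, ComplexEmbedding.conjugate φ⟩ = (p : ℂ) ^ Z.a := by
  unfold eig
  simp only [ComplexEmbedding.conjugate_coe_eq]
  rw [Complex.mul_conj, Complex.normSq_eq_norm_sq, (Z.frob i).weil φ]
  push_cast
  rfl

theorem exists_equiv {A B : Type} [Fintype A] [Fintype B] {α : A → ℂ} {β : B → ℂ}
    (hβ : Function.Injective β) (h : (∏ x, (X - C (α x)) : ℂ[X]) = ∏ y, (X - C (β y))) :
    ∃ σ : A ≃ B, ∀ x, α x = β (σ x) := by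
  classical
  have h1 : (Finset.univ : Finset A).val.map α = (Finset.univ : Finset B).val.map β := by
    have h2 := congrArg Polynomial.roots h
    have e1 : (Finset.univ : Finset A).val.map (fun x => (X - C (α x) : ℂ[X]))
        = ((Finset.univ : Finset A).val.map α).map (fun z => X - C z) := by
      rw [Multiset.map_map]; rfl
    have e2 : (Finset.univ : Finset B).val.map (fun x => (X - C (β x) : ℂ[X]))
        = ((Finset.univ : Finset B).val.map β).map (fun z => X - C z) := by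
      rw [Multiset.map_map]; rfl
    rwa [Finset.prod_eq_multiset_prod, Finset.prod_eq_multiset_prod, e1, e2,
      roots_multiset_prod_X_sub_C, roots_multiset_prod_X_sub_C] at h2
  have h2 : Function.Injective α := by
    have h3 : ((Finset.univ : Finset A).val.map α).Nodup := by
      rw [h1]
      exact Multiset.Nodup.map hβ Finset.univ.nodup
    intro x y hxy
    exact Multiset.inj_on_of_nodup_map h3 x (Finset.mem_univ _) y (Finset.mem_univ _) hxy
  have h3 : ∀ x, ∃ y, β y = α x := by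
    intro x
    have h4 : α x ∈ (Finset.univ : Finset B).val.map β := by
      rw [← h1]
      exact Multiset.mem_map_of_mem _ (Finset.mem_univ _)
    obtain ⟨y, _, hy⟩ := Multiset.mem_map.1 h4
    exact ⟨y, hy⟩
  choose σ hσ using h3
  have h4 : Function.Injective σ := by
    intro x y hxy
    apply h2
    rw [← hσ, ← hσ, hxy]
  have h5 : Fintype.card A = Fintype.card B := by
    have := congrArg Multiset.card h1
    rwa [Multiset.card_map, Multiset.card_map] at this
  have h6 : Function.Bijective σ := (Fintype.bijective_iff_injective_and_card σ).2 ⟨h4, h5⟩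
  exact ⟨Equiv.ofBijective σ h6, fun x => (hσ x).symm⟩

theorem elementary_of_charpoly {Z : RedAV p ν} {w h n : ℕ} (g : Good w h n) (hp2 : p ≠ 2)
    (h8 : p % 8 ≠ n % 8) (ha : Odd Z.a) {P : ℤ[X]}
    (hP : (∏ w : Emb Z, (X - C (eig Z w))) = P.map (Int.castRingHom ℂ))
    (hmod : P.map (Int.castRingHom (ZMod 2)) = ∑ i ∈ Finset.range n, X ^ i) :
    HasElementaryRelations Z := by
  classical
  haveI : NeZero n := ⟨g.hp.ne_zero⟩
  have hPm : P.Monic := by
    apply monic_of_injective (f := Int.castRingHom ℂ) (RingHom.injective_int _)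
    rw [← hP]
    exact monic_prod_X_sub_C _ _
  have hsplit : (P.map (Int.castRingHom ℂ)).Splits := IsAlgClosed.splits _
  have hroot : ∀ x : ℂ, Final.ev P x = 0 ↔ ∃ w : Emb Z, x = eig Z w := by
    intro x
    rw [Final.ev, ← eval_map, ← hP, eval_prod, Finset.prod_eq_zero_iff]
    simp only [Finset.mem_univ, true_and, eval_sub, eval_X, eval_C, sub_eq_zero]
  have hsym : ∀ x : ℂ, Final.ev P x = 0 → ∃ y : ℂ, Final.ev P y = 0 ∧ x * y = (p : ℂ) ^ Z.a := by
    intro x hx
    obtain ⟨⟨i, φ⟩, rfl⟩ := (hroot x).1 hx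
    exact ⟨eig Z ⟨i, ComplexEmbedding.conjugate φ⟩, (hroot _).2 ⟨_, rfl⟩, eig_conj Z i φ⟩
  obtain ⟨α, hα, hαP, hαq, hgen⟩ := Final.pairs g (Fact.out : p.Prime) hp2 ha h8 hPm hmod hsplit
    hsym
  have hp0 : (p : ℂ) ≠ 0 := Nat.cast_ne_zero.2 (Fact.out : p.Prime).ne_zero
  have hq0 : (p : ℂ) ^ Z.a ≠ 0 := pow_ne_zero _ hp0
  have hα0 : ∀ t, α t ≠ 0 := by
    intro t h0
    have := hαq t
    rw [h0, zero_mul] at this
    exact hq0 this.symm
  obtain ⟨σ, hσ⟩ := exists_equiv (α := eig Z) hα (hP.trans hαP)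
  intro e ⟨s, hs, he⟩
  -- the exponents as a function on the units
  set e' : (ZMod n)ˣ → ℤ := fun t => (e (σ.symm t) : ℤ) with he'
  have hA : ∏ t, α t ^ e' t = ∏ w, eig Z w ^ e w := by
    rw [← Equiv.prod_comp σ]
    refine Finset.prod_congr rfl fun w _ => ?_
    rw [he']
    simp only [Equiv.symm_apply_apply]
    rw [zpow_natCast, hσ]
  have hA0 : (∏ t, α t ^ e' t) ≠ 0 := Finset.prod_ne_zero_iff.2 fun t _ => zpow_ne_zero _ (hα0 t)
  have hsum : ∑ t, e' t = ((∑ w, e w : ℕ) : ℤ) := by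
    rw [← Equiv.sum_comp σ]
    push_cast
    refine Finset.sum_congr rfl fun w _ => ?_
    rw [he']
    simp only [Equiv.symm_apply_apply]
  have hB : ∏ t, α t ^ e' (-t) = ((p : ℂ) ^ Z.a) ^ (∑ w, e w) / ∏ t, α t ^ e' t := by
    rw [eq_div_iff hA0, ← Equiv.prod_comp (Equiv.neg (ZMod n)ˣ), ← Finset.prod_mul_distrib]
    simp only [Equiv.neg_apply, neg_neg]
    have h1 : ∀ t : (ZMod n)ˣ, α (-t) ^ e' t * α t ^ e' t = ((p : ℂ) ^ Z.a) ^ e' t := by
      intro t
      rw [← mul_zpow, mul_comm, hαq]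
    simp only [h1]
    have h7 : ∀ T : Finset (ZMod n)ˣ, ∏ t ∈ T, ((p : ℂ) ^ Z.a) ^ e' t
        = ((p : ℂ) ^ Z.a) ^ (∑ t ∈ T, e' t) := by
      intro T
      induction T using Finset.induction_on with
      | empty => rw [Finset.prod_empty, Finset.sum_empty, zpow_zero]
      | insert b T hb ih =>
        rw [Finset.prod_insert hb, Finset.sum_insert hb, zpow_add₀ hq0, ih]
    rw [h7, hsum, zpow_natCast]
  have h1 : e' ∈ AddSubgroup.closure {d : (ZMod n)ˣ → ℤ | ∃ t t' : (ZMod n)ˣ,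
      (∃ N : ℕ, N ≠ 0 ∧ (α t * α t') ^ N = ((p : ℂ) ^ Z.a) ^ N) ∧
      d = Two.Dat.sg t + Two.Dat.sg t'} := by
    apply hgen
    refine ⟨s, hs.ne', ?_⟩
    have h2 : ∏ t, α t ^ (e' t - e' (-t)) = (∏ t, α t ^ e' t) / ∏ t, α t ^ e' (-t) := by
      rw [← Finset.prod_div_distrib]
      exact Finset.prod_congr rfl fun t _ => zpow_sub₀ (hα0 t) _ _
    have h3 : (((p : ℂ) ^ Z.a) ^ (∑ w, e w)) ^ s = ((p : ℂ) ^ Z.a) ^ (s * ∑ w, e w) := by
      rw [← pow_mul ((p : ℂ) ^ Z.a), mul_comm]
    rw [h2, hB, div_div_eq_mul_div, div_pow, ← pow_two, ← pow_mul, hA, he, h3,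
      div_self (pow_ne_zero _ hq0)]
  let φ : ((ZMod n)ˣ → ℤ) →+ (Emb Z → ℤ) :=
    { toFun := fun f w => f (σ w)
      map_zero' := rfl
      map_add' := fun _ _ => rfl }
  have h2 : (fun w => (e w : ℤ)) = φ e' := by
    ext w
    show (e w : ℤ) = e' (σ w)
    rw [he']
    simp only [Equiv.symm_apply_apply]
  rw [h2]
  have h3 := AddSubgroup.mem_map_of_mem φ h1
  rw [AddMonoidHom.map_closure] at h3
  refine AddSubgroup.closure_mono ?_ h3
  rintro _ ⟨_, ⟨t, t', ⟨N, hN, hrel⟩, rfl⟩, rfl⟩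
  refine ⟨fun w => (if σ w = t then 1 else 0) + (if σ w = t' then 1 else 0), ?_, ?_, ?_⟩
  · refine ⟨N, Nat.pos_of_ne_zero hN, ?_⟩
    have hprod : ∀ u : (ZMod n)ˣ, ∏ w, eig Z w ^ (if σ w = u then 1 else 0) = α u := by
      intro u
      rw [Finset.prod_eq_single (σ.symm u)]
      · rw [Equiv.apply_symm_apply, if_pos rfl, pow_one, hσ, Equiv.apply_symm_apply]
      · intro w _ hw
        rw [if_neg, pow_zero]
        rintro rfl
        exact hw (Equiv.symm_apply_apply σ w).symm
      · intro h0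
        exact absurd (Finset.mem_univ _) h0
    have hsum' : ∀ u : (ZMod n)ˣ, ∑ w : Emb Z, (if σ w = u then 1 else 0) = 1 := by
      intro u
      rw [Finset.sum_eq_single (σ.symm u)]
      · rw [Equiv.apply_symm_apply, if_pos rfl]
      · intro w _ hw
        rw [if_neg]
        rintro rfl
        exact hw (Equiv.symm_apply_apply σ w).symm
      · intro h0
        exact absurd (Finset.mem_univ _) h0
    simp only [pow_add]
    have h5 : (α t * α t') ^ (2 * N) = ((p : ℂ) ^ Z.a) ^ (N * 2) := by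
      rw [mul_comm 2 N, pow_mul, hrel, ← pow_mul ((p : ℂ) ^ Z.a)]
    rw [Finset.prod_mul_distrib, hprod, hprod, Finset.sum_add_distrib, hsum', hsum', h5]
  · left
    rw [Finset.sum_add_distrib]
    have hsum' : ∀ u : (ZMod n)ˣ, ∑ w : Emb Z, (if σ w = u then 1 else 0) = 1 := by
      intro u
      rw [Finset.sum_eq_single (σ.symm u)]
      · rw [Equiv.apply_symm_apply, if_pos rfl]
      · intro w _ hw
        rw [if_neg]
        rintro rfl
        exact hw (Equiv.symm_apply_apply σ w).symm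
      · intro h0
        exact absurd (Finset.mem_univ _) h0
    rw [hsum', hsum']
  · intro w
    show (Two.Dat.sg t + Two.Dat.sg t') (σ w) = _
    unfold Two.Dat.sg
    rw [Pi.add_apply, Pi.single_apply, Pi.single_apply]
    push_cast
    congr

end Pool.Agent.T6.H36.Red
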