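import Pool.Agent.H204R3.SP.Frob
import Pool.Agent.H204R3.GP.DescentG
import Pool.Agent.H204R3.GP.Defs

/-!
# Tate classes and one Frobenius element with labelled eigenvalues
-/

namespace Pool.Agent.T6.H36.Tate

open Module TensorProduct Pool.Agent.H204R3.CM Pool.Agent.H204R3.SP Pool.Agent.H204R3.GP

/-- A basis of eigenvectors. -/
theorem exists_eigenbasis {Ω : Type*} [Field Ω] {X : Type*} [Fintype X] [Nonempty X]
    {val : X → Ω} (hinj : Function.Injective val)
    {W : Type*} [AddCommGroup W] [Module Ω W] [FiniteDimensional Ω W] (T : Module.End Ω W)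
    (hT : T.charpoly = ∏ x, (Polynomial.X - Polynomial.C (val x))) :
    ∃ e : Basis X Ω W, ∀ x, T (e x) = val x • e x := by
  classical
  have h1 : ∀ x : X, T.HasEigenvalue (val x) := by
    intro x
    rw [Module.End.hasEigenvalue_iff_isRoot_charpoly, hT, Polynomial.IsRoot,
      Polynomial.eval_prod]
    refine Finset.prod_eq_zero (Finset.mem_univ x) ?_
    rw [Polynomial.eval_sub, Polynomial.eval_X, Polynomial.eval_C, sub_self]
  choose v hv using fun x => (h1 x).exists_hasEigenvector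
  have hli := Module.End.eigenvectors_linearIndependent' T val hinj v hv
  have hfin : Fintype.card X = finrank Ω W := by
    rw [← LinearMap.charpoly_natDegree T, hT, Polynomial.natDegree_prod_of_monic]
    · simp
    · intro x _
      exact Polynomial.monic_X_sub_C _
  refine ⟨basisOfLinearIndependentOfCardEqFinrank hli hfin, fun x => ?_⟩
  rw [coe_basisOfLinearIndependentOfCardEqFinrank]
  exact (hv x).apply_eq_smul

/-- The main theorem: Tate forms are combinations of products of Tate forms of degree two. -/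
theorem tate_of_labelled {k : Type*} [Field k] [CharZero k] {V : Type*} [AddCommGroup V]
    [Module k V] [FiniteDimensional k V]
    {Ω : Type*} [Field Ω] [Algebra k Ω] [FiniteDimensional k Ω]
    {X : Type*} [Fintype X] [DecidableEq X] [Nonempty X] {bar : X → X}
    (bar_bar : ∀ x, bar (bar x) = x) (bar_ne : ∀ x, bar x ≠ x)
    {val : X → Ω} (hinj : Function.Injective val) {q : Ω} (hq0 : q ≠ 0)
    (hbar : ∀ x, val x * val (bar x) = q)
    (hrel : ∀ (m M : ℕ), 0 < M → ∀ I : Fin m × Fin 2 → X,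
      ∏ l, val (I l) ^ M = q ^ (m * M) → ∀ y,
        (Finset.univ.filter (fun l => I l = y)).card =
          (Finset.univ.filter (fun l => I l = bar y)).card)
    {Γ : Type*} [Group Γ] (ρ : Representation k Γ V) (χ : Γ →* k)
    (ω : V →ₗ[k] V →ₗ[k] k) (halt : ∀ v, ω v v = 0) (hnd : ∀ u, (∀ v, ω v u = 0) → u = 0)
    (hωρ : ∀ s u v, ω (ρ s u) (ρ s v) = χ s * ω u v)
    (hss : ∀ Δ : Subgroup Γ, Δ.FiniteIndex → SemiUnder (ρ '' (Δ : Set Γ)))
    (γ : Γ) (hχ : algebraMap k Ω (χ γ) = q)
    (hγ : ((ρ γ).charpoly).map (algebraMap k Ω)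
      = ∏ x, (Polynomial.X - Polynomial.C (val x)))
    {m : ℕ} (φ : MultilinearMap k (fun _ : Fin m × Fin 2 => V) k) (hφ : IsTate ρ χ m φ) :
    φ ∈ Submodule.span k (PT ρ χ m) := by
  classical
  haveI : CharZero Ω := charZero_of_injective_algebraMap (algebraMap k Ω).injective
  have hanti : ∀ u v, ω u v = -ω v u := by
    intro u v
    have h1 := halt (u + v)
    simp only [map_add, LinearMap.add_apply, halt, zero_add, add_zero] at h1
    exact eq_neg_of_add_eq_zero_left (by rw [← h1]; ring)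
  have hnd' : ∀ u, (∀ v, ω u v = 0) → u = 0 := by
    intro u hu
    apply hnd
    intro v
    rw [hanti, hu, neg_zero]
  let b := Module.finBasis k V
  have hTchar : (bcr ρ Ω γ).charpoly = ∏ x, (Polynomial.X - Polynomial.C (val x)) := by
    change ((ρ γ).baseChange Ω).charpoly = _
    rw [LinearMap.charpoly_baseChange, hγ]
  obtain ⟨e, he⟩ := exists_eigenbasis hinj (bcr ρ Ω γ) hTchar
  have hantiΩ : ∀ u v, bcb Ω ω u v = -bcb Ω ω v u := by
    have h1 : bcb Ω ω = -(bcb Ω ω).flip := by
      refine (b.baseChange Ω).ext fun i => (b.baseChange Ω).ext fun l => ?_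
      rw [LinearMap.neg_apply, LinearMap.neg_apply, LinearMap.flip_apply, Basis.baseChange_apply,
        Basis.baseChange_apply, bcb_one, bcb_one, hanti, map_neg]
    intro u v
    exact congrArg (fun F : (Ω ⊗[k] V) →ₗ[Ω] (Ω ⊗[k] V) →ₗ[Ω] Ω => F u v) h1
  have hval0 : ∀ x, val x ≠ 0 := by
    intro x h0
    have := hbar x
    rw [h0, zero_mul] at this
    exact hq0 this.symm
  have hq : ∀ x y : X, y ≠ bar x → bcb Ω ω (e x) (e y) = 0 := by
    intro x y hxy
    by_contra h0
    apply hxy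
    have h1 := bcb_inv ρ χ (Ω := Ω) ω hωρ γ (e x) (e y)
    rw [he, he, map_smul, map_smul, LinearMap.smul_apply, smul_eq_mul, smul_eq_mul, bcc_apply, hχ,
      ← mul_assoc] at h1
    have h2 := mul_right_cancel₀ h0 h1
    apply hinj
    apply mul_left_cancel₀ (hval0 x)
    rw [hbar, mul_comm, h2]
  let jj : X → Ω := fun x => bcb Ω ω (e x) (e (bar x))
  have hjj : ∀ x, jj (bar x) = -jj x := by
    intro x
    simp only [jj, bar_bar]
    exact hantiΩ _ _
  have hj0 : ∀ x, jj x ≠ 0 := by
    intro x h0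
    apply e.ne_zero (bar x)
    apply bcb_nondeg b ω hnd hnd'
    have h1 : (bcb Ω ω).flip (e (bar x)) = 0 := by
      refine e.ext fun y => ?_
      rw [LinearMap.flip_apply, LinearMap.zero_apply]
      by_cases hy : bar x = bar y
      · have h2 : y = x := by rw [← bar_bar y, ← hy, bar_bar]
        rw [h2]
        exact h0
      · exact hq _ _ hy
    intro v
    exact congrArg (fun F : (Ω ⊗[k] V) →ₗ[Ω] Ω => F v) h1
  have hω : ∀ x y, bcb Ω ω (e x) (e y) = JJ bar jj x y := by
    intro x y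
    unfold JJ
    by_cases hy : y = bar x
    · rw [if_pos hy, hy]
    · rw [if_neg hy, hq x y hy]
  have hbal : ∀ (m : ℕ) (φ : MultilinearMap Ω (fun _ : Fin m × Fin 2 => Ω ⊗[k] V) Ω),
      IsTate (bcr ρ Ω) (bcc χ Ω) m φ →
      ∀ I : Fin m × Fin 2 → X, φ (fun l => e (I l)) ≠ 0 → ∀ y,
        (Finset.univ.filter (fun l => I l = y)).card =
          (Finset.univ.filter (fun l => I l = bar y)).card := by
    rintro m φ ⟨Δ, hΔ, hφ⟩ I hI y
    obtain ⟨M, hM, -, hMΔ⟩ := Subgroup.exists_pow_mem_of_index_ne_zero hΔ.index_ne_zero γ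
    refine hrel m M hM I ?_ y
    have h1 := hφ (γ ^ M) hMΔ (fun l => e (I l))
    have h2 : ∀ (n : ℕ) (x : X),
        bcr ρ Ω (γ ^ n) (e x) = (val x) ^ n • e x := by
      intro n x
      induction n with
      | zero => rw [pow_zero, pow_zero, one_smul, map_one]; rfl
      | succ n ih =>
        rw [pow_succ, map_mul, pow_succ, Module.End.mul_apply, he]
        change bcr ρ Ω (γ ^ n) ((val x) • e x) = _
        rw [map_smul, ih, smul_smul, mul_comm]
    simp only [h2] at h1
    rw [MultilinearMap.map_smul_univ, smul_eq_mul, map_pow, bcc_apply, hχ] at h1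
    have h3 := mul_right_cancel₀ hI h1
    rw [h3, ← pow_mul, mul_comm]
  refine tate_descentG (Ω := Ω) b ρ χ ?_ φ hφ
  intro φ' hφ'
  refine tateG_mem e bar_bar bar_ne hjj hj0 (bcb Ω ω) hω (bcr ρ Ω) (bcc χ Ω)
    (bcb_inv ρ χ ω hωρ) ?_ hbal φ' hφ'
  intro Δ hΔ U hU
  obtain ⟨P, hP1, hP2, hP3⟩ := exists_proj_baseChange (Ω := Ω) (ρ '' (Δ : Set Γ)) (hss Δ hΔ) U
    (by
      rintro _ ⟨s, hs, rfl⟩ u hu
      exact hU s hs u hu)
  exact ⟨P, hP1, hP2, fun s hs v => hP3 _ ⟨s, hs, rfl⟩ v⟩

end Pool.Agent.T6.H36.Tate
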