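import Pool.Agent.T6.H36.Final
import Pool.Agent.T6.H36.Tate

/-!
# Tate classes and one Frobenius element of prime order on the two-torsion
-/

namespace Pool.Agent.T6.H36.Gen

open Module TensorProduct Polynomial Pool.Agent.H204R3.CM Pool.Agent.H204R3.SP
  Pool.Agent.H204R3.GP Comb Final

/-- The eigenvalues are in pairs with product `q`. -/
theorem exists_pair {Ω : Type} [Field Ω] {W : Type} [AddCommGroup W] [Module Ω W]
    [FiniteDimensional Ω W] (T : Module.End Ω W) (B : W →ₗ[Ω] W →ₗ[Ω] Ω)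
    (hB : ∀ u, (∀ v, B u v = 0) → u = 0) {q : Ω} (hq : q ≠ 0)
    (hT : ∀ u v, B (T u) (T v) = q * B u v) {x : Ω} (hx : T.charpoly.IsRoot x) :
    ∃ y, T.charpoly.IsRoot y ∧ x * y = q := by
  obtain ⟨u, hu⟩ := ((Module.End.hasEigenvalue_iff_isRoot_charpoly T x).2 hx).exists_hasEigenvector
  have hTu : T u = x • u := hu.apply_eq_smul
  have hu0 : u ≠ 0 := hu.2
  have hx0 : x ≠ 0 := by
    rintro rfl
    apply hu0
    apply hB
    intro v
    have h1 := hT u v
    rw [hTu, zero_smul, map_zero, LinearMap.zero_apply] at h1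
    exact (mul_eq_zero.1 h1.symm).resolve_left hq
  refine ⟨q / x, ?_, mul_div_cancel₀ _ hx0⟩
  by_contra hno
  have h1 : ¬ T.HasEigenvalue (q / x) := fun h => hno
    ((Module.End.hasEigenvalue_iff_isRoot_charpoly T _).1 h)
  have h2 : LinearMap.ker (T - algebraMap Ω (Module.End Ω W) (q / x)) = ⊥ := by
    by_contra h3
    apply h1
    rw [Module.End.hasEigenvalue_iff, Module.End.eigenspace_def]
    exact h3
  have h3 : Function.Surjective (T - algebraMap Ω (Module.End Ω W) (q / x)) :=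
    LinearMap.injective_iff_surjective.1 (LinearMap.ker_eq_bot.1 h2)
  apply hu0
  apply hB
  intro v
  obtain ⟨v', rfl⟩ := h3 v
  rw [LinearMap.sub_apply, Module.algebraMap_end_apply, map_sub, map_smul, smul_eq_mul]
  have h4 := hT u v'
  rw [hTu, map_smul, LinearMap.smul_apply, smul_eq_mul] at h4
  have h5 : B u (T v') = q / x * B u v' := by
    field_simp
    linear_combination h4
  rw [h5, sub_self]

theorem tate_mem {k : Type} [Field k] [CharZero k] {V : Type} [AddCommGroup V]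
    [Module k V] [FiniteDimensional k V] {w h n p a : ℕ} (g : Good w h n) (hp : p.Prime)
    (hp2 : p ≠ 2) (ha : Odd a) (h8 : p % 8 ≠ n % 8) (hpn : p ≠ n)
    (hph : ((p : ℕ) : ZMod n) ^ h ≠ 1) {P : ℤ[X]} (hP : P.Monic)
    (hmod : P.map (Int.castRingHom (ZMod 2)) = ∑ i ∈ Finset.range n, X ^ i)
    {Γ : Type} [Group Γ] (ρ : Representation k Γ V) (χ : Γ →* k)
    (ω : V →ₗ[k] V →ₗ[k] k) (halt : ∀ v, ω v v = 0) (hnd : ∀ u, (∀ v, ω v u = 0) → u = 0)
    (hωρ : ∀ s u v, ω (ρ s u) (ρ s v) = χ s * ω u v)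
    (hss : ∀ Δ : Subgroup Γ, Δ.FiniteIndex → SemiUnder (ρ '' (Δ : Set Γ)))
    (γ : Γ) (hχ : χ γ = (p : k) ^ a)
    (hγ : (ρ γ).charpoly = P.map (Int.castRingHom k))
    {m : ℕ} (φ : MultilinearMap k (fun _ : Fin m × Fin 2 => V) k) (hφ : IsTate ρ χ m φ) :
    φ ∈ Submodule.span k (PT ρ χ m) := by
  classical
  haveI hnp : Fact n.Prime := ⟨g.hp⟩
  haveI : NeZero n := ⟨g.hp.ne_zero⟩
  let Ω := (P.map (Int.castRingHom k)).SplittingField
  haveI : CharZero Ω := charZero_of_injective_algebraMap (algebraMap k Ω).injective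
  have hmap : (P.map (Int.castRingHom k)).map (algebraMap k Ω) = P.map (Int.castRingHom Ω) := by
    rw [Polynomial.map_map]; congr 1
  have hsplit : (P.map (Int.castRingHom Ω)).Splits := by
    rw [← hmap]
    exact SplittingField.splits _
  have hp0 : (p : Ω) ≠ 0 := Nat.cast_ne_zero.2 hp.ne_zero
  have hanti : ∀ u v, ω u v = -ω v u := by
    intro u v
    have h1 := halt (u + v)
    simp only [map_add, LinearMap.add_apply, halt, zero_add, add_zero] at h1
    exact eq_neg_of_add_eq_zero_left (by rw [← h1]; ring)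
  have hnd' : ∀ u, (∀ v, ω u v = 0) → u = 0 := by
    intro u hu
    apply hnd
    intro v
    rw [hanti, hu, neg_zero]
  let b := Module.finBasis k V
  have hantiΩ : ∀ u v, bcb Ω ω u v = -bcb Ω ω v u := by
    have h1 : bcb Ω ω = -(bcb Ω ω).flip := by
      refine (b.baseChange Ω).ext fun i => (b.baseChange Ω).ext fun l => ?_
      rw [LinearMap.neg_apply, LinearMap.neg_apply, LinearMap.flip_apply, Basis.baseChange_apply,
        Basis.baseChange_apply, bcb_one, bcb_one, hanti, map_neg]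
    intro u v
    exact congrArg (fun F : (Ω ⊗[k] V) →ₗ[Ω] (Ω ⊗[k] V) →ₗ[Ω] Ω => F u v) h1
  have hTchar : (bcr ρ Ω γ).charpoly = P.map (Int.castRingHom Ω) := by
    change ((ρ γ).baseChange Ω).charpoly = _
    rw [LinearMap.charpoly_baseChange, hγ, hmap]
  have hsym : ∀ x : Ω, ev P x = 0 → ∃ y : Ω, ev P y = 0 ∧ x * y = (p : Ω) ^ a := by
    intro x hx
    obtain ⟨y, hy, hxy⟩ := exists_pair (bcr ρ Ω γ) (bcb Ω ω) (by
      intro u hu
      apply bcb_nondeg b ω hnd hnd'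
      intro v
      rw [hantiΩ, hu, neg_zero]) (q := (p : Ω) ^ a) (pow_ne_zero _ hp0) (by
      intro u v
      have h1 := bcb_inv ρ χ (Ω := Ω) ω hωρ γ u v
      rw [h1, bcc_apply, hχ, map_pow, map_natCast]) (x := x) (by
      rw [hTchar, IsRoot.def, eval_map]; exact hx)
    refine ⟨y, ?_, hxy⟩
    rw [hTchar, IsRoot.def, eval_map] at hy
    exact hy
  obtain ⟨α, hαinj, hαP, hαneg, hαrel⟩ := Final.main g hp hp2 ha h8 hpn hph hP hmod hsplit hsym
  have hα0 : ∀ t, α t ≠ 0 := by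
    intro t h0
    have := hαneg t
    rw [h0, zero_mul] at this
    exact pow_ne_zero _ hp0 this.symm
  haveI : Nonempty (ZMod n)ˣ := ⟨1⟩
  refine Tate.tate_of_labelled (Ω := Ω) (X := (ZMod n)ˣ) (bar := fun t => -t) (val := α)
    (q := (p : Ω) ^ a) (fun t => neg_neg t) ?_ hαinj (pow_ne_zero _ hp0) hαneg ?_ ρ χ ω halt hnd
    hωρ hss γ (by rw [hχ, map_pow, map_natCast]) (by rw [hγ, hmap, hαP]) φ hφ
  · intro t ht
    have h1 : (t : ZMod n) * 2 = 0 := by
      have := congrArg (fun u : (ZMod n)ˣ => (u : ZMod n)) ht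
      simp only [Units.val_neg] at this
      linear_combination -this
    rcases mul_eq_zero.1 h1 with h2 | h2
    · exact t.ne_zero h2
    · rw [← g.two_coe] at h2
      exact g.two.ne_zero h2
  · intro m M hM I hI y
    have h1 : ∏ t, α t ^ ((M : ℤ) * ((Finset.univ.filter (fun l => I l = t)).card : ℤ))
        = (p : Ω) ^ ((a * (m * M) : ℕ) : ℤ) := by
      rw [zpow_natCast, pow_mul, ← hI]
      have h2 : ∀ l, α (I l) ^ M = ∏ t, if I l = t then α t ^ M else 1 := by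
        intro l
        rw [Finset.prod_ite_eq, if_pos (Finset.mem_univ _)]
      simp only [h2]
      rw [Finset.prod_comm]
      refine Finset.prod_congr rfl (fun t _ => ?_)
      rw [Finset.prod_ite, Finset.prod_const_one, mul_one, Finset.prod_const, ← pow_mul,
        ← Nat.cast_mul, zpow_natCast]
    have h3 := hαrel _ _ h1 y
    have hM' : (M : ℤ) ≠ 0 := by exact_mod_cast hM.ne'
    have h4 := mul_left_cancel₀ hM' h3
    exact_mod_cast h4.symm

/-- All Tate classes on the powers are generated in degree two. -/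
theorem generated {k : Type} [Field k] [CharZero k] {V : Type} [AddCommGroup V]
    [Module k V] [FiniteDimensional k V] {w h n p a : ℕ} (g : Good w h n) (hp : p.Prime)
    (hp2 : p ≠ 2) (ha : Odd a) (h8 : p % 8 ≠ n % 8) (hpn : p ≠ n)
    (hph : ((p : ℕ) : ZMod n) ^ h ≠ 1) {P : ℤ[X]} (hP : P.Monic)
    (hmod : P.map (Int.castRingHom (ZMod 2)) = ∑ i ∈ Finset.range n, X ^ i)
    {Γ : Type} [Group Γ] {ρ : Representation k Γ V} {χ : Γ →* k}
    {ω : V →ₗ[k] V →ₗ[k] k} (halt : ∀ v, ω v v = 0) (hnd : ∀ u, (∀ v, ω v u = 0) → u = 0)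
    (hωρ : ∀ s u v, ω (ρ s u) (ρ s v) = χ s * ω u v)
    (hss : FiniteIndexSemisimple ρ)
    (γ : Γ) (hχ : χ γ = (p : k) ^ a)
    (hγ : (ρ γ).charpoly = P.map (Int.castRingHom k)) :
    TateGeneratedInDegreeTwo ρ χ := by
  have hss' : ∀ Δ : Subgroup Γ, Δ.FiniteIndex → SemiUnder (ρ '' (Δ : Set Γ)) := by
    intro Δ hΔ U hU
    obtain ⟨U', h1, h2⟩ := hss Δ hΔ U (fun s hs u hu => hU _ ⟨s, hs, rfl⟩ u hu)
    refine ⟨U', ?_, h2⟩
    rintro _ ⟨s, hs, rfl⟩ u hu
    exact h1 s hs u hu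
  intro n' m f hf
  obtain ⟨Δ, hΔ, hf⟩ := hf
  have h1 := altG_of_tate_mem ρ χ (n := n') (m := m) (fun φ hφ => tate_mem g hp hp2 ha h8 hpn hph
    hP hmod ρ χ ω halt hnd hωρ hss' γ hχ hγ φ hφ) f Δ hΔ hf
  refine Submodule.span_mono ?_ h1
  rintro g ⟨B, hB, hg⟩
  refine ⟨B, fun l => ?_, hg⟩
  obtain ⟨Δ', hΔ', h2⟩ := hB l
  refine ⟨Δ', hΔ', fun s hs v => ?_⟩
  rw [pow_one]
  exact h2 s hs v

end Pool.Agent.T6.H36.Gen
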