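import Pool.Agent.T6.H36.TM2
import Pool.Agent.T6.H36.Gen

/-!
# Tate classes and one Frobenius element with large orders on the points of order `l`
-/

namespace Pool.Agent.T6.H36.TM

open Module TensorProduct Polynomial Pool.Agent.H204R3.CM Pool.Agent.H204R3.SP
  Pool.Agent.H204R3.GP Final Gen TG

/-- The complex conjugation of the indices. -/
def bar {I : Type} {m : I → ℕ} (s : XX m) : XX m := ⟨s.1, s.2 + m s.1⟩

theorem bar_bar {I : Type} {m : I → ℕ} (s : XX m) : bar (bar s) = s := by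
  obtain ⟨i, t⟩ := s
  show (⟨i, t + m i + m i⟩ : XX m) = ⟨i, t⟩
  rw [add_assoc, two_g, add_zero]

theorem bar_ne {I : Type} {m : I → ℕ} [∀ i, NeZero (2 * m i)] (s : XX m) : bar s ≠ s := by
  obtain ⟨i, t⟩ := s
  intro h
  have h1 : t + m i = t := eq_of_heq (Sigma.mk.inj_iff.1 h).2
  have h2 : (m i : ZMod (2 * m i)) = 0 := add_eq_left.1 h1
  have h3 : 2 * m i ∣ m i := (CharP.cast_eq_zero_iff (ZMod (2 * m i)) (2 * m i) _).1 h2
  have h4 : 2 * m i ≠ 0 := NeZero.ne _
  have h5 := Nat.le_of_dvd (by omega) h3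
  omega

theorem tate_mem {k : Type} [Field k] [CharZero k] {V : Type} [AddCommGroup V]
    [Module k V] [FiniteDimensional k V] {l q : ℕ} [Fact l.Prime] (hq : ¬ l ∣ q) {P : ℤ[X]}
    (hP : P.Monic) (hlarge : HasLargeOrders (P.map (Int.castRingHom (ZMod l))))
    {Γ : Type} [Group Γ] (ρ : Representation k Γ V) (χ : Γ →* k)
    (ω : V →ₗ[k] V →ₗ[k] k) (halt : ∀ v, ω v v = 0) (hnd : ∀ u, (∀ v, ω v u = 0) → u = 0)
    (hωρ : ∀ s u v, ω (ρ s u) (ρ s v) = χ s * ω u v)
    (hss : ∀ Δ : Subgroup Γ, Δ.FiniteIndex → SemiUnder (ρ '' (Δ : Set Γ)))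
    (γ : Γ) (hχ : χ γ = (q : k))
    (hγ : (ρ γ).charpoly = P.map (Int.castRingHom k))
    {m : ℕ} (φ : MultilinearMap k (fun _ : Fin m × Fin 2 => V) k) (hφ : IsTate ρ χ m φ) :
    φ ∈ Submodule.span k (PT ρ χ m) := by
  classical
  let Ω := (P.map (Int.castRingHom k)).SplittingField
  haveI : CharZero Ω := charZero_of_injective_algebraMap (algebraMap k Ω).injective
  have hmap : (P.map (Int.castRingHom k)).map (algebraMap k Ω) = P.map (Int.castRingHom Ω) := by
    rw [Polynomial.map_map]; congr 1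
  have hsplit : (P.map (Int.castRingHom Ω)).Splits := by
    rw [← hmap]
    exact SplittingField.splits _
  have hq' : q ≠ 0 := by rintro rfl; exact hq (dvd_zero _)
  have hq0 : (q : Ω) ≠ 0 := Nat.cast_ne_zero.2 hq'
  have hanti : ∀ u v, ω u v = -ω v u := by
    intro u v
    have h1 := halt (u + v)
    simp only [map_add, LinearMap.add_apply, halt, zero_add, add_zero] at h1
    exact eq_neg_of_add_eq_zero_left (by rw [← h1]; ring)
  have hnd' : ∀ u, (∀ v, ω u v = 0) → u = 0 := by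
    intro u hu
    apply hnd
    intro v
    rw [hanti, hu, neg_zero]
  let b := Module.finBasis k V
  have hantiΩ : ∀ u v, bcb Ω ω u v = -bcb Ω ω v u := by
    have h1 : bcb Ω ω = -(bcb Ω ω).flip := by
      refine (b.baseChange Ω).ext fun i => (b.baseChange Ω).ext fun l => ?_
      rw [LinearMap.neg_apply, LinearMap.neg_apply, LinearMap.flip_apply, Basis.baseChange_apply,
        Basis.baseChange_apply, bcb_one, bcb_one, hanti, map_neg]
    intro u v
    exact congrArg (fun F : (Ω ⊗[k] V) →ₗ[Ω] (Ω ⊗[k] V) →ₗ[Ω] Ω => F u v) h1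
  have hTchar : (bcr ρ Ω γ).charpoly = P.map (Int.castRingHom Ω) := by
    change ((ρ γ).baseChange Ω).charpoly = _
    rw [LinearMap.charpoly_baseChange, hγ, hmap]
  have hsym : ∀ x : Ω, ev P x = 0 → ∃ y : Ω, ev P y = 0 ∧ x * y = (q : Ω) := by
    intro x hx
    obtain ⟨y, hy, hxy⟩ := exists_pair (bcr ρ Ω γ) (bcb Ω ω) (by
      intro u hu
      apply bcb_nondeg b ω hnd hnd'
      intro v
      rw [hantiΩ, hu, neg_zero]) (q := (q : Ω)) hq0 (by
      intro u v
      have h1 := bcb_inv ρ χ (Ω := Ω) ω hωρ γ u v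
      rw [h1, bcc_apply, hχ, map_natCast]) (x := x) (by
      rw [hTchar, IsRoot.def, eval_map]; exact hx)
    refine ⟨y, ?_, hxy⟩
    rw [hTchar, IsRoot.def, eval_map] at hy
    exact hy
  obtain ⟨I, _, _, d, hNZ, α, hαinj, hαP, hαbar, hαrel⟩ := TM.main hq hP hlarge hsplit hsym
  have hα0 : ∀ t, α t ≠ 0 := by
    rintro ⟨i, t⟩ h0
    have := hαbar i t
    rw [h0, zero_mul] at this
    exact hq0 this.symm
  haveI : Nonempty (XX d) := ⟨⟨Classical.arbitrary I, 0⟩⟩
  have hαb : ∀ s : XX d, α s * α (bar s) = (q : Ω) := fun ⟨i, t⟩ => hαbar i t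
  refine Tate.tate_of_labelled (Ω := Ω) (X := XX d) (bar := bar) (val := α)
    (q := (q : Ω)) bar_bar bar_ne hαinj hq0 hαb ?_ ρ χ ω halt hnd
    hωρ hss γ (by rw [hχ, map_natCast]) (by rw [hγ, hmap, hαP]) φ hφ
  intro m M hM J hJ y
  set e : XX d → ℤ := fun t => (M : ℤ) * ((Finset.univ.filter (fun l => J l = t)).card : ℤ) with he
  have h1 : ∏ t, α t ^ e t = (q : Ω) ^ (m * M) := by
    rw [← hJ]
    have h2 : ∀ l, α (J l) ^ M = ∏ t, if J l = t then α t ^ M else 1 := by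
      intro l
      rw [Finset.prod_ite_eq, if_pos (Finset.mem_univ _)]
    simp only [h2]
    rw [Finset.prod_comm]
    refine Finset.prod_congr rfl (fun t _ => ?_)
    rw [Finset.prod_ite, Finset.prod_const_one, mul_one, Finset.prod_const, ← pow_mul]
    show α t ^ ((M : ℤ) * ((Finset.univ.filter (fun l => J l = t)).card : ℤ)) = _
    rw [← Nat.cast_mul, zpow_natCast]
  have h2 : ∏ t, α t ^ e (bar t) = (q : Ω) ^ (m * M) := by
    have hbarE : (∏ t, α t ^ e (bar t)) = ∏ t, α (bar t) ^ e t := by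
      let eb : XX d ≃ XX d := ⟨bar, bar, bar_bar, bar_bar⟩
      rw [← Equiv.prod_comp eb]
      refine Finset.prod_congr rfl (fun t _ => ?_)
      show α (bar t) ^ e (bar (bar t)) = _
      rw [bar_bar]
    rw [hbarE]
    have h3 : (∏ t, α (bar t) ^ e t) * ∏ t, α t ^ e t = (q : Ω) ^ (∑ t, e t) := by
      rw [← Finset.prod_mul_distrib]
      have h4 : ∀ t, α (bar t) ^ e t * α t ^ e t = (q : Ω) ^ e t := by
        intro t
        rw [← mul_zpow, mul_comm, hαb]
      simp only [h4]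
      have h7 : ∀ T : Finset (XX d), ∏ t ∈ T, (q : Ω) ^ e t = (q : Ω) ^ (∑ t ∈ T, e t) := by
        intro T
        induction T using Finset.induction_on with
        | empty => rw [Finset.prod_empty, Finset.sum_empty, zpow_zero]
        | insert b T hb ih =>
          rw [Finset.prod_insert hb, Finset.sum_insert hb, zpow_add₀ hq0, ih]
      exact h7 _
    have h5 : ∑ t, e t = ((2 * (m * M) : ℕ) : ℤ) := by
      rw [he]
      simp only []
      rw [← Finset.mul_sum, ← Nat.cast_sum, ← Finset.card_eq_sum_card_fiberwise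
        (fun x _ => Finset.mem_coe.2 (Finset.mem_univ (J x))), Finset.card_univ, Fintype.card_prod,
        Fintype.card_fin, Fintype.card_fin]
      push_cast
      ring
    rw [h1, h5, zpow_natCast, two_mul, pow_add] at h3
    exact mul_right_cancel₀ (pow_ne_zero _ hq0) h3
  have h3 : ∏ s : XX d, α s ^ (e s - e ⟨s.1, s.2 + d s.1⟩) = 1 := by
    have h4 : ∀ s : XX d, α s ^ (e s - e ⟨s.1, s.2 + d s.1⟩) = α s ^ e s / α s ^ e (bar s) :=
      fun s => zpow_sub₀ (hα0 s) _ _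
    simp only [h4]
    rw [Finset.prod_div_distrib, h1, h2, div_self (pow_ne_zero _ hq0)]
  obtain ⟨i, t⟩ := y
  have h4 := hαrel e ⟨1, one_ne_zero, by rw [h3, one_pow]⟩ i t
  have hM' : (M : ℤ) ≠ 0 := by exact_mod_cast hM.ne'
  have h5 := mul_left_cancel₀ hM' h4
  exact_mod_cast h5.symm

/-- All Tate classes on the powers are generated in degree two. -/
theorem generated {k : Type} [Field k] [CharZero k] {V : Type} [AddCommGroup V]
    [Module k V] [FiniteDimensional k V] {l q : ℕ} [Fact l.Prime] (hq : ¬ l ∣ q) {P : ℤ[X]}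
    (hP : P.Monic) (hlarge : HasLargeOrders (P.map (Int.castRingHom (ZMod l))))
    {Γ : Type} [Group Γ] {ρ : Representation k Γ V} {χ : Γ →* k}
    {ω : V →ₗ[k] V →ₗ[k] k} (halt : ∀ v, ω v v = 0) (hnd : ∀ u, (∀ v, ω v u = 0) → u = 0)
    (hωρ : ∀ s u v, ω (ρ s u) (ρ s v) = χ s * ω u v)
    (hss : FiniteIndexSemisimple ρ)
    (γ : Γ) (hχ : χ γ = (q : k))
    (hγ : (ρ γ).charpoly = P.map (Int.castRingHom k)) :
    TateGeneratedInDegreeTwo ρ χ := by
  have hss' : ∀ Δ : Subgroup Γ, Δ.FiniteIndex → SemiUnder (ρ '' (Δ : Set Γ)) := by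
    intro Δ hΔ U hU
    obtain ⟨U', h1, h2⟩ := hss Δ hΔ U (fun s hs u hu => hU _ ⟨s, hs, rfl⟩ u hu)
    refine ⟨U', ?_, h2⟩
    rintro _ ⟨s, hs, rfl⟩ u hu
    exact h1 s hs u hu
  intro n' m f hf
  obtain ⟨Δ, hΔ, hf⟩ := hf
  have h1 := altG_of_tate_mem ρ χ (n := n') (m := m) (fun φ hφ => tate_mem hq hP hlarge ρ χ ω halt
    hnd hωρ hss' γ hχ hγ φ hφ) f Δ hΔ hf
  refine Submodule.span_mono ?_ h1
  rintro g ⟨B, hB, hg⟩
  refine ⟨B, fun l => ?_, hg⟩
  obtain ⟨Δ', hΔ', h2⟩ := hB l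
  refine ⟨Δ', hΔ', fun s hs v => ?_⟩
  rw [pow_one]
  exact h2 s hs v

end Pool.Agent.T6.H36.TM
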