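import Pool.Agent.T6.H36.RTDefs
import Pool.Agent.T6.H36.MX
import Pool.Agent.T6.H36.TMGen
import Pool.Agent.T6.H36.Red

/-!
# Towers of abelian varieties over finite fields
-/

set_option autoImplicit false

namespace Pool.Agent.T6.H36.RT

open Polynomial Module Pool.Agent.W495.TA Pool.Agent.W495.FM Pool.Agent.TH117 Pool.Agent.TH117.BL
  Pool.Agent.TH117.GN NumberField

variable {p : ℕ} [Fact p.Prime] {ν : PadicAlgCl p ≃+* ℂ}

/-- The relations between the Frobenius eigenvalues of the product of the factors in `T` are products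
of elementary relations and of inverses of such relations. -/
def HasElementaryRelationsOn (Z : RedAV p ν) (T : Set Z.X.I) : Prop :=
  ∀ e : Emb Z → ℕ, IsRel Z e → (∀ w, e w ≠ 0 → w.1 ∈ T) →
    (fun w => (e w : ℤ)) ∈ AddSubgroup.closure
      {d : Emb Z → ℤ | ∃ n : Emb Z → ℕ, IsRel Z n ∧ IsElementary Z n ∧ ∀ w, d w = n w}

/-- The complex conjugation of the embeddings. -/
def cj {Z : RedAV p ν} (w : Emb Z) : Emb Z := ⟨w.1, ComplexEmbedding.conjugate w.2⟩

theorem cj_cj {Z : RedAV p ν} (w : Emb Z) : cj (cj w) = w := by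
  obtain ⟨i, φ⟩ := w
  show (⟨i, ComplexEmbedding.conjugate (ComplexEmbedding.conjugate φ)⟩ : Emb Z) = ⟨i, φ⟩
  rw [ComplexEmbedding.involutive_conjugate]

theorem cj_ne {Z : RedAV p ν} (w : Emb Z) : cj w ≠ w := by
  obtain ⟨i, φ⟩ := w
  intro h
  have h1 : ComplexEmbedding.conjugate φ = φ := eq_of_heq (Sigma.mk.inj_iff.1 h).2
  exact (IsTotallyComplex.complexEmbedding_not_isReal φ) h1

theorem eig_cj {Z : RedAV p ν} (w : Emb Z) : eig Z w * eig Z (cj w) = (p : ℂ) ^ Z.a :=
  Red.eig_conj Z w.1 w.2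

theorem eig_ne {Z : RedAV p ν} (w : Emb Z) : eig Z w ≠ 0 := by
  intro h0
  have h1 := eig_cj w
  rw [h0, zero_mul] at h1
  exact pow_ne_zero _ (Nat.cast_ne_zero.2 (Fact.out : p.Prime).ne_zero) h1.symm

/-- Symmetric exponents give elementary relations. -/
theorem sym_mem {Z : RedAV p ν} : ∀ (N : ℕ) (e : Emb Z → ℕ), (∑ w, e w = N) →
    (∀ w, e (cj w) = e w) → (fun w => (e w : ℤ)) ∈ AddSubgroup.closure
      {d : Emb Z → ℤ | ∃ n : Emb Z → ℕ, IsRel Z n ∧ IsElementary Z n ∧ ∀ w, d w = n w} := by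
  classical
  intro N
  induction N using Nat.strong_induction_on with
  | _ N ih =>
    intro e hN hsym
    by_cases h0 : ∀ w, e w = 0
    · have h1 : (fun w => (e w : ℤ)) = 0 := by
        funext w
        rw [h0]; rfl
      rw [h1]
      exact AddSubgroup.zero_mem _
    push Not at h0
    obtain ⟨u, hu⟩ := h0
    have hne := cj_ne u
    -- the pair
    set n : Emb Z → ℕ := fun w => (if w = u then 1 else 0) + (if w = cj u then 1 else 0) with hn
    have hnsum : ∑ w, n w = 2 := by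
      rw [hn, Finset.sum_add_distrib, Finset.sum_ite_eq' Finset.univ u, Finset.sum_ite_eq' Finset.univ
        (cj u), if_pos (Finset.mem_univ _), if_pos (Finset.mem_univ _)]
    have hnrel : IsRel Z n := by
      refine ⟨1, one_pos, ?_⟩
      have h1 : ∏ w, eig Z w ^ n w = (p : ℂ) ^ Z.a := by
        rw [← eig_cj u]
        simp only [hn, pow_add]
        rw [Finset.prod_mul_distrib]
        congr 1
        · rw [Finset.prod_eq_single u]
          · rw [if_pos rfl, pow_one]
          · intro w _ hw; rw [if_neg hw, pow_zero]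
          · intro h; exact absurd (Finset.mem_univ _) h
        · rw [Finset.prod_eq_single (cj u)]
          · rw [if_pos rfl, pow_one]
          · intro w _ hw; rw [if_neg hw, pow_zero]
          · intro h; exact absurd (Finset.mem_univ _) h
      rw [h1, hnsum]
    have hle : ∀ w, n w ≤ e w := by
      intro w
      simp only [hn]
      by_cases h1 : w = u
      · subst h1
        rw [if_pos rfl, if_neg (fun h => hne h.symm)]
        omega
      · by_cases h2 : w = cj u
        · subst h2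
          rw [if_neg h1, if_pos rfl, hsym]
          omega
        · rw [if_neg h1, if_neg h2]
          omega
    have hnsym : ∀ w, n (cj w) = n w := by
      intro w
      simp only [hn]
      have e1 : cj w = u ↔ w = cj u := by
        constructor
        · rintro rfl; rw [cj_cj]
        · rintro rfl; rw [cj_cj]
      have e2 : cj w = cj u ↔ w = u := by
        constructor
        · intro h; rw [← cj_cj w, h, cj_cj]
        · rintro rfl; rfl
      simp only [e1, e2]
      ring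
    have hsub : ∑ w, (e w - n w) = N - 2 := by
      have h1 : ∑ w, (e w - n w) + ∑ w, n w = ∑ w, e w := by
        rw [← Finset.sum_add_distrib]
        exact Finset.sum_congr rfl (fun w _ => Nat.sub_add_cancel (hle w))
      omega
    have hN2 : 2 ≤ N := by
      rw [← hN, ← hnsum]
      exact Finset.sum_le_sum (fun w _ => hle w)
    have h3 := ih (N - 2) (by omega) (fun w => e w - n w) hsub (fun w => by
      show e (cj w) - n (cj w) = e w - n w
      rw [hsym, hnsym])
    have h4 : (fun w => (n w : ℤ)) ∈ AddSubgroup.closure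
      {d : Emb Z → ℤ | ∃ n : Emb Z → ℕ, IsRel Z n ∧ IsElementary Z n ∧ ∀ w, d w = n w} :=
      AddSubgroup.subset_closure ⟨n, hnrel, Or.inl hnsum.le, fun w => rfl⟩
    have h5 : (fun w => (e w : ℤ)) = (fun w => ((e w - n w : ℕ) : ℤ)) + fun w => (n w : ℤ) := by
      funext w
      rw [Pi.add_apply, Nat.cast_sub (hle w)]
      ring
    rw [h5]
    exact AddSubgroup.add_mem _ h3 h4

/-- The exponents are symmetric on a large set of factors. -/
theorem symm_of_large {Z : RedAV p ν} {S T : Set Z.X.I} (hST : Disjoint S T)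
    (h : IsLargeOver Z S T) {e : Emb Z → ℕ} (he : IsRel Z e) (hsupp : ∀ w, e w ≠ 0 → w.1 ∈ S ∪ T)
    (w : Emb Z) (hw : w.1 ∈ S) : e (cj w) = e w := by
  classical
  obtain ⟨l, _, P, hlp, hP, I, _, m, x, hm, hv, hx, hQ, hr⟩ := h
  have hpp := (Fact.out : p.Prime)
  have hp0 : (p : ℂ) ≠ 0 := Nat.cast_ne_zero.2 hpp.ne_zero
  have hq0 : (p : ℂ) ^ Z.a ≠ 0 := pow_ne_zero _ hp0
  have hq : ¬ l ∣ p ^ Z.a := by
    intro h1
    exact hlp ((Nat.prime_dvd_prime_iff_eq (Fact.out : l.Prime) hpp).1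
      ((Fact.out : l.Prime).dvd_of_dvd_pow h1))
  have hPm : P.Monic := by
    apply monic_of_injective (f := Int.castRingHom ℂ) (RingHom.injective_int _)
    rw [← hP]
    exact monic_prod_X_sub_C _ _
  -- the second polynomial
  let P₂ : ℤ[X] := ∏ i ∈ (Finset.univ : Finset Z.X.I).filter (fun i => i ∈ T), minpoly ℤ (Z.π i)
  have hP₂ : P₂.Monic := monic_prod_of_monic _ _ (fun i _ => minpoly.monic (Z.frob i).integral)
  have hb : P₂.natDegree ≤ twiceDim Z T := by
    rw [natDegree_prod_of_monic _ _ (fun i _ => minpoly.monic (Z.frob i).integral), twiceDim,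
      ← Finset.sum_filter]
    refine Finset.sum_le_sum (fun i _ => ?_)
    have h1 := minpoly.isIntegrallyClosed_eq_field_fractions' ℚ (Z.frob i).integral
    have h2 := minpoly.natDegree_le (A := ℚ) (Z.π i)
    rw [h1, (minpoly.monic (Z.frob i).integral).natDegree_map] at h2
    exact h2
  have hroot₂ : ∀ w : Emb Z, w.1 ∈ T → Final.ev P₂ (eig Z w) = 0 := by
    rintro ⟨i, φ⟩ hi
    rw [Final.ev, eval₂_finsetProd]
    apply Finset.prod_eq_zero (Finset.mem_filter.2 ⟨Finset.mem_univ i, hi⟩)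
    show Final.ev (minpoly ℤ (Z.π i)) (φ (Z.π i)) = 0
    rw [Final.ev_map]
    have : Final.ev (minpoly ℤ (Z.π i)) (Z.π i) = 0 := by
      have h1 := minpoly.aeval ℤ (Z.π i)
      rw [aeval_def] at h1
      exact h1
    rw [this, map_zero]
  -- the first polynomial
  have hP' : (∏ w : {w : Emb Z // w.1 ∈ S}, (X - C (eig Z w.1))) = P.map (Int.castRingHom ℂ) := by
    rw [← hP]
    symm
    apply Finset.prod_subtype
    intro w
    rw [Finset.mem_filter]
    exact ⟨fun h => h.2, fun h => ⟨Finset.mem_univ _, h⟩⟩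
  have hroot₁ : ∀ y : ℂ, Final.ev P y = 0 → ∃ w : {w : Emb Z // w.1 ∈ S}, y = eig Z w.1 := by
    intro y hy
    rw [Final.ev, ← eval_map, ← hP', eval_prod, Finset.prod_eq_zero_iff] at hy
    obtain ⟨w, _, hw⟩ := hy
    rw [eval_sub, eval_X, eval_C, sub_eq_zero] at hw
    exact ⟨w, hw⟩
  have hroot₁' : ∀ w : {w : Emb Z // w.1 ∈ S}, Final.ev P (eig Z w.1) = 0 := by
    intro w
    rw [Final.ev, ← eval_map, ← hP', eval_prod]
    apply Finset.prod_eq_zero (Finset.mem_univ w)
    rw [eval_sub, eval_X, eval_C, sub_self]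
  obtain ⟨hNZ, α, hαinj, hαP, hαbar, hαrel⟩ := MX.mix (K := ℂ) hq hPm hP₂ hb (fun i => (hm i).1) hv hx hQ hr
    (fun i => (hm i).2) (IsAlgClosed.splits _) (IsAlgClosed.splits _) (by
      intro y hy
      obtain ⟨w, rfl⟩ := hroot₁ y hy
      refine ⟨eig Z (cj w.1), hroot₁' ⟨cj w.1, w.2⟩, ?_⟩
      rw [eig_cj]
      push_cast
      rfl)
  obtain ⟨σ, hσ⟩ := Red.exists_equiv (α := fun w : {w : Emb Z // w.1 ∈ S} => eig Z w.1) hαinj
    (hP'.trans hαP)
  have hα0 : ∀ s, α s ≠ 0 := by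
    intro s
    have := eig_ne (σ.symm s).1
    rwa [hσ, Equiv.apply_symm_apply] at this
  have hbar' : ∀ w : {w : Emb Z // w.1 ∈ S}, σ ⟨cj w.1, w.2⟩ = _root_.Pool.Agent.T6.H36.TM.bar (σ w) := by
    intro w
    apply hαinj
    rw [← hσ]
    apply mul_left_cancel₀ (hα0 (σ w))
    have h1 : α (σ w) * α (_root_.Pool.Agent.T6.H36.TM.bar (σ w)) = ((p ^ Z.a : ℕ) : ℂ) := by
      obtain ⟨i, t⟩ := σ w
      exact hαbar i t
    rw [h1, ← hσ, eig_cj]
    push_cast
    rfl
  set e' : TM.XX m → ℤ := fun s => (e (σ.symm s).1 : ℤ) with he'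
  obtain ⟨s₀, hs₀, hrel⟩ := he
  have hmain := hαrel e' {w : Emb Z // w.1 ∈ T} inferInstance (fun w => eig Z w.1)
    (fun w => (e w.1 : ℤ) - e (cj w.1)) (fun w => ⟨hroot₂ w.1 w.2, eig_ne w.1⟩) ?_
  · obtain ⟨i, t, hit⟩ : ∃ i t, σ ⟨w, hw⟩ = ⟨i, t⟩ := ⟨_, _, rfl⟩
    have h1 := hmain i t
    have h2 : e' ⟨i, t + m i⟩ = (e (cj w) : ℤ) := by
      have h3 : (⟨i, t + m i⟩ : TM.XX m) = _root_.Pool.Agent.T6.H36.TM.bar (σ ⟨w, hw⟩) := by rw [hit]; rfl
      rw [h3, ← hbar', he']
      simp only [Equiv.symm_apply_apply]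
    have h3 : e' ⟨i, t⟩ = (e w : ℤ) := by
      rw [← hit, he']
      simp only [Equiv.symm_apply_apply]
    rw [h2, h3] at h1
    exact_mod_cast h1
  -- the relation
  refine ⟨s₀, hs₀.ne', ?_⟩
  -- the first product
  have hA : ∏ s : TM.XX m, α s ^ (e' s - e' ⟨s.1, s.2 + m s.1⟩)
      = ∏ w : {w : Emb Z // w.1 ∈ S}, eig Z w.1 ^ ((e w.1 : ℤ) - e (cj w.1)) := by
    rw [← Equiv.prod_comp σ]
    refine Finset.prod_congr rfl (fun w _ => ?_)
    have h1 : e' (σ w) = (e w.1 : ℤ) := by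
      rw [he']; simp only [Equiv.symm_apply_apply]
    have h2 : e' ⟨(σ w).1, (σ w).2 + m (σ w).1⟩ = (e (cj w.1) : ℤ) := by
      have h3 : (⟨(σ w).1, (σ w).2 + m (σ w).1⟩ : TM.XX m) = _root_.Pool.Agent.T6.H36.TM.bar (σ w) := rfl
      rw [h3, ← hbar', he']
      simp only [Equiv.symm_apply_apply]
    rw [h1, h2, ← hσ]
  have hB : (∏ w : {w : Emb Z // w.1 ∈ S}, eig Z w.1 ^ ((e w.1 : ℤ) - e (cj w.1))) *
      ∏ w : {w : Emb Z // w.1 ∈ T}, eig Z w.1 ^ ((e w.1 : ℤ) - e (cj w.1))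
      = ∏ w : Emb Z, eig Z w ^ ((e w : ℤ) - e (cj w)) := by
    have h1 : ∀ U : Set Z.X.I, ∏ w : {w : Emb Z // w.1 ∈ U}, eig Z w.1 ^ ((e w.1 : ℤ) - e (cj w.1))
        = ∏ w ∈ (Finset.univ : Finset (Emb Z)).filter (fun w => w.1 ∈ U),
          eig Z w ^ ((e w : ℤ) - e (cj w)) := by
      intro U
      symm
      apply Finset.prod_subtype
      intro w
      rw [Finset.mem_filter]
      exact ⟨fun h => h.2, fun h => ⟨Finset.mem_univ _, h⟩⟩
    rw [h1, h1, ← Finset.prod_union]
    · apply Finset.prod_subset (Finset.subset_univ _)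
      intro u _ hu
      have h2 : u.1 ∉ S ∪ T := by
        intro h3
        apply hu
        rw [Finset.mem_union, Finset.mem_filter, Finset.mem_filter]
        rcases h3 with h3 | h3
        · exact Or.inl ⟨Finset.mem_univ _, h3⟩
        · exact Or.inr ⟨Finset.mem_univ _, h3⟩
      have h3 : e u = 0 := by
        by_contra h4; exact h2 (hsupp u h4)
      have h4 : e (cj u) = 0 := by
        by_contra h5; exact h2 (hsupp (cj u) h5)
      rw [h3, h4, sub_self, zpow_zero]
    · rw [Finset.disjoint_left]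
      intro u hu hu'
      rw [Finset.mem_filter] at hu hu'
      exact Set.disjoint_left.1 hST hu.2 hu'.2
  rw [hA, hB]
  have hC : ∏ w : Emb Z, eig Z w ^ ((e w : ℤ) - e (cj w))
      = (∏ w, eig Z w ^ e w) ^ 2 / ((p : ℂ) ^ Z.a) ^ (∑ w, e w) := by
    have h1 : ∏ w : Emb Z, eig Z w ^ ((e w : ℤ) - e (cj w))
        = (∏ w, eig Z w ^ e w) / ∏ w, eig Z w ^ e (cj w) := by
      rw [← Finset.prod_div_distrib]
      refine Finset.prod_congr rfl (fun w _ => ?_)
      rw [zpow_sub₀ (eig_ne w), zpow_natCast, zpow_natCast]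
    have h2 : (∏ w, eig Z w ^ e (cj w)) * ∏ w, eig Z w ^ e w = ((p : ℂ) ^ Z.a) ^ (∑ w, e w) := by
      let ec : Emb Z ≃ Emb Z := ⟨cj, cj, cj_cj, cj_cj⟩
      have h3 : ∏ w, eig Z w ^ e (cj w) = ∏ w, eig Z (cj w) ^ e w := by
        rw [← Equiv.prod_comp ec]
        refine Finset.prod_congr rfl (fun w _ => ?_)
        show eig Z (cj w) ^ e (cj (cj w)) = _
        rw [cj_cj]
      rw [h3, ← Finset.prod_mul_distrib, ← Finset.prod_pow_eq_pow_sum]
      refine Finset.prod_congr rfl (fun w _ => ?_)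
      rw [← mul_pow, mul_comm, eig_cj]
    have h3 : (∏ w, eig Z w ^ e w) ≠ 0 :=
      Finset.prod_ne_zero_iff.2 (fun w _ => pow_ne_zero _ (eig_ne w))
    rw [h1, ← h2]
    field_simp
  rw [hC, div_pow, ← pow_mul, hrel, ← pow_mul ((p : ℂ) ^ Z.a), mul_comm (∑ w, e w) s₀,
    div_self (pow_ne_zero _ hq0)]

/-- **The step.** -/
theorem elementary_add {Z : RedAV p ν} {S T : Set Z.X.I} (hT : HasElementaryRelationsOn Z T)
    (hST : Disjoint S T) (h : IsLargeOver Z S T) : HasElementaryRelationsOn Z (S ∪ T) := by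
  classical
  intro e he hsupp
  have hsymm := symm_of_large hST h he hsupp
  set e₁ : Emb Z → ℕ := fun w => if w.1 ∈ S then e w else 0 with he₁
  set e₂ : Emb Z → ℕ := fun w => if w.1 ∈ T then e w else 0 with he₂
  have hadd : ∀ w, e w = e₁ w + e₂ w := by
    intro w
    simp only [he₁, he₂]
    by_cases h1 : w.1 ∈ S
    · rw [if_pos h1, if_neg (Set.disjoint_left.1 hST h1), add_zero]
    · by_cases h2 : w.1 ∈ T
      · rw [if_neg h1, if_pos h2, zero_add]
      · rw [if_neg h1, if_neg h2]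
        by_contra h3
        rcases hsupp w h3 with h4 | h4
        · exact h1 h4
        · exact h2 h4
  have hsym₁ : ∀ w, e₁ (cj w) = e₁ w := by
    intro w
    simp only [he₁]
    have h1 : (cj w).1 = w.1 := rfl
    rw [h1]
    by_cases h2 : w.1 ∈ S
    · rw [if_pos h2, if_pos h2, hsymm w h2]
    · rw [if_neg h2, if_neg h2]
  have hp0 : (p : ℂ) ≠ 0 := Nat.cast_ne_zero.2 (Fact.out : p.Prime).ne_zero
  have hq0 : (p : ℂ) ^ Z.a ≠ 0 := pow_ne_zero _ hp0
  have hsq : (∏ w, eig Z w ^ e₁ w) ^ 2 = ((p : ℂ) ^ Z.a) ^ (∑ w, e₁ w) := by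
    let ec : Emb Z ≃ Emb Z := ⟨cj, cj, cj_cj, cj_cj⟩
    have h3 : ∏ w, eig Z w ^ e₁ w = ∏ w, eig Z (cj w) ^ e₁ w := by
      rw [← Equiv.prod_comp ec]
      refine Finset.prod_congr rfl (fun w _ => ?_)
      show eig Z (cj w) ^ e₁ (cj w) = _
      rw [hsym₁]
    rw [pow_two]
    nth_rewrite 2 [h3]
    rw [← Finset.prod_mul_distrib, ← Finset.prod_pow_eq_pow_sum]
    refine Finset.prod_congr rfl (fun w _ => ?_)
    rw [← mul_pow, eig_cj]
  have hrel₂ : IsRel Z e₂ := by
    obtain ⟨s, hs, hrel⟩ := he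
    refine ⟨s, hs, ?_⟩
    have h1 : ∏ w, eig Z w ^ e w = (∏ w, eig Z w ^ e₁ w) * ∏ w, eig Z w ^ e₂ w := by
      rw [← Finset.prod_mul_distrib]
      refine Finset.prod_congr rfl (fun w _ => ?_)
      rw [hadd, pow_add]
    have h2 : ∑ w, e w = ∑ w, e₁ w + ∑ w, e₂ w := by
      rw [← Finset.sum_add_distrib]
      exact Finset.sum_congr rfl (fun w _ => hadd w)
    rw [h1, mul_pow, pow_mul (∏ w, eig Z w ^ e₁ w), hsq, h2, mul_add, pow_add, ← pow_mul,
      mul_comm (∑ w, e₁ w) s] at hrel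
    exact mul_left_cancel₀ (pow_ne_zero _ hq0) hrel
  have h1 := sym_mem _ e₁ rfl hsym₁
  have h2 := hT e₂ hrel₂ (by
    intro w hw
    by_contra h3
    apply hw
    simp only [he₂]
    rw [if_neg h3])
  have h3 : (fun w => (e w : ℤ)) = (fun w => (e₁ w : ℤ)) + fun w => (e₂ w : ℤ) := by
    funext w
    rw [Pi.add_apply, hadd]
    push_cast
    rfl
  rw [h3]
  exact AddSubgroup.add_mem _ h1 h2

theorem elementary_good {Z : RedAV p ν} {T : Set Z.X.I} (hT : IsGoodSet Z T) :
    HasElementaryRelationsOn Z T := by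
  intro e he hsupp
  exact AddSubgroup.subset_closure ⟨e, he, Or.inr (Or.inl ⟨T, hT, hsupp⟩), fun w => rfl⟩

theorem good_small {Z : RedAV p ν} {T : Set Z.X.I} (h : twiceDim Z T ≤ 6) : IsGoodSet Z T := by
  classical
  refine Or.inl ⟨h.trans (by norm_num), ?_⟩
  rintro i hi k hk hik ⟨hex, -⟩
  have h1 : finrank ℚ (Z.X.factor i).E + finrank ℚ (Z.X.factor k).E ≤ twiceDim Z T := by
    have h2 : ∑ j ∈ ({i, k} : Finset Z.X.I), (if j ∈ T then finrank ℚ (Z.X.factor j).E else 0)
        ≤ twiceDim Z T := by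
      unfold twiceDim
      exact Finset.sum_le_sum_of_subset (Finset.subset_univ _)
    rw [Finset.sum_pair hik, if_pos hi, if_pos hk] at h2
    exact h2
  rcases hex with ⟨h2, h3, -⟩ | ⟨h2, h3⟩ <;> omega

theorem elementary_tower {Z : RedAV p ν} {T : Set Z.X.I} (h : IsTower Z T) :
    HasElementaryRelationsOn Z T := by
  induction h with
  | small T hT => exact elementary_good (good_small hT)
  | galois T hT =>
    exact elementary_good (Or.inr ⟨fun i hi => (hT i hi).1, fun i hi k _ _ => Or.inl (hT i hi).2⟩)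
  | add S T _ hST h ih => exact elementary_add ih hST h

theorem exists_elementary {Y : RedAV p ν} (hY : IsTowerType Y) :
    ∃ Z : RedAV p ν, HasElementaryRelations Z ∧ IsPowersTimesSupersingular Z Y := by
  obtain ⟨Z, hZ, hY⟩ := hY
  exact ⟨Z, fun e he => elementary_tower hZ e he (fun w _ => Set.mem_univ _), hY⟩

variable {Ω : Type} [Field Ω] [IsAlgClosed Ω] [CharZero Ω] {V : Type} {T : Homology Ω V}

theorem tateHolds {Y : RedAV p ν} {C : Cycles Ω Y} (hY : IsTowerType Y) (hC : IsChow C) :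
    TateHolds C := by
  obtain ⟨Z, h1, h2⟩ := exists_elementary hY
  exact tateHolds_elem h1 h2 hC

theorem tb (hT : IsHomology T) {X : V} (hX : Generated T (IsTowerTypeAbelian p ν T) X) :
    TB T X := by
  refine tb_generated hT (fun X hX => ?_) hX
  obtain ⟨Y, C, M, g, hY, hC, hM, hX⟩ := hX
  exact tb_abelian hT hC (tateHolds hY hC) hM hX

theorem isoAbove (hT : IsHomology T) (hW : HasWeights T) :
    IsoAbove T (IsTowerTypeAbelian p ν T) := fun _ _ _ _ h hX hZ i hi =>
  iso_opened hT hW h (onto_of_dim hT hZ hi) ((tb hT hX).iso hT i)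

theorem onto (hT : IsHomology T) (hW : HasWeights T) {X : V}
    (hX : Spread T (Generated T (IsTowerTypeAbelian p ν T)) X) (i : ℤ) : IsOnto T X i :=
  onto_spread hT hW (fun _ h1 i => ((tb hT h1).iso hT i).1) hX i

end Pool.Agent.T6.H36.RT
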