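import Pool.Agent.T6.H36.TM

/-!
# Frobenius eigenvalues: blocks whose degrees are different powers of two
-/

namespace Pool.Agent.T6.H36.BN

open Polynomial Ord Two.Dat TG TM

/-- The data: a Galois number field with an embedding, and the roots, none of which is supersingular. -/
structure DB (l : ℕ) {I : Type} [Fintype I] (m : I → ℕ) [Fact l.Prime] (κ : Type) [Field κ]
    [CharP κ l] [IsAlgClosed κ] (L : Type) [Field L] [CharZero L] where
  m0 : ∀ i, 0 < m i
  hv : ∀ i j, padicValNat 2 (m i) = padicValNat 2 (m j) → i = j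
  q : ℕ
  hq : ¬ l ∣ q
  α : XX m → L
  ι : L →+* Emb.M l κ
  x : I → κ
  hx0 : ∀ i, x i ≠ 0
  hx : ∀ i, x i ^ l ^ (2 * m i) = x i
  hinj : Function.Injective (fun s : XX m => x s.1 ^ l ^ s.2.val)
  res : ∀ s : XX m, RS ι (α s) (x s.1 ^ l ^ s.2.val)
  perm : ∀ τ : L ≃ₐ[ℚ] L, ∀ t, ∃ s, α s = τ (α t)
  gen : ∀ τ : L ≃ₐ[ℚ] L, (∀ t, τ (α t) = α t) → τ = 1
  c : L ≃ₐ[ℚ] L
  hc : ∀ y, ι (c y) = Emb.phi l κ (ι y)
  pair : ∀ t, ∃ s, α t * α s = q
  hns : ∀ (t : XX m) (N : ℕ), N ≠ 0 → α t ^ (2 * N) ≠ (q : L) ^ N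
  hr : ∀ i, (∃ k, m i = 2 ^ k) ∨ ∀ d, d ∣ 2 * m i → ¬ d ∣ m i → ∃ r, r.Prime ∧
    2 * (∑ i, m i) + 1 < r ∧ r ∣ orderOf (x i) ∧ orderOf (l : ZMod r) = d

namespace DB

variable {l : ℕ} {I : Type} [Fintype I] {m : I → ℕ} [Fact l.Prime] {κ : Type} [Field κ]
  [CharP κ l] [IsAlgClosed κ] {L : Type} [Field L] [CharZero L] (D : DB l m κ L)

include D in
theorem neZero (i : I) : NeZero (2 * m i) := ⟨by have := D.m0 i; omega⟩

/-- The residues. -/
noncomputable def ψ (s : XX m) : κ := D.x s.1 ^ l ^ s.2.val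

theorem pow_mod (i : I) (k : ℕ) : D.x i ^ l ^ k = D.x i ^ l ^ (k % (2 * m i)) := by
  have h1 : ∀ j : ℕ, D.x i ^ l ^ (2 * m i * j) = D.x i := by
    intro j
    induction j with
    | zero => rw [mul_zero, pow_zero, pow_one]
    | succ j ih => rw [mul_add, mul_one, pow_add, pow_mul, ih, D.hx]
  conv_lhs => rw [← Nat.div_add_mod k (2 * m i), pow_add, pow_mul, h1]

theorem ψ_add (i : I) (t : ZMod (2 * m i)) (k : ℕ) : D.ψ ⟨i, t + k⟩ = D.ψ ⟨i, t⟩ ^ l ^ k := by
  haveI := D.neZero i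
  unfold ψ
  rw [← pow_mul, ← pow_add, ZMod.val_add, ← pow_mod, pow_mod, Nat.add_mod, ZMod.val_natCast,
    Nat.mod_mod, ← Nat.add_mod, ← pow_mod]

theorem ψ_inj {s t : XX m} (h : D.ψ s = D.ψ t) : s = t := D.hinj h

theorem α_inj : Function.Injective D.α := by
  intro i j h
  have h1 := D.res i
  rw [h] at h1
  exact D.ψ_inj (RS_unique h1 (D.res j))

theorem c_α (i : I) (t : ZMod (2 * m i)) : D.c (D.α ⟨i, t⟩) = D.α ⟨i, t + 1⟩ := by
  obtain ⟨s, hs⟩ := D.perm D.c ⟨i, t⟩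
  rw [← hs]
  congr 1
  apply D.ψ_inj
  have h1 := RS_c (c := fun y => D.c y) D.hc (D.res ⟨i, t⟩)
  rw [← hs] at h1
  have h2 := RS_unique h1 (D.res s)
  have h3 := D.ψ_add i t 1
  rw [pow_one, Nat.cast_one] at h3
  rw [h3]
  exact h2.symm

theorem α_ne (s : XX m) : D.α s ≠ 0 := by
  intro h0
  have h1 := D.res s
  rw [h0] at h1
  obtain ⟨w, hw, hw'⟩ := h1
  rw [map_zero] at hw
  have h2 : w = 0 := emb_inj (by rw [hw, map_zero])
  rw [h2, map_zero] at hw'
  exact pow_ne_zero _ (D.hx0 s.1) hw'.symm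

theorem c_pow_α (k : ℕ) (i : I) (t : ZMod (2 * m i)) : (D.c ^ k) (D.α ⟨i, t⟩) = D.α ⟨i, t + k⟩ := by
  induction k with
  | zero => rw [pow_zero, Nat.cast_zero, add_zero]; rfl
  | succ k ih =>
    rw [pow_succ', AlgEquiv.mul_apply, ih, c_α]
    congr 2
    push_cast
    ring

theorem x_pow (i : I) : D.x i ^ (l ^ (2 * m i) - 1) = 1 := by
  have hl : 0 < l ^ (2 * m i) := pow_pos (Fact.out : l.Prime).pos _
  have h1 : D.x i ^ (l ^ (2 * m i) - 1) * D.x i = 1 * D.x i := by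
    rw [← pow_succ, Nat.sub_add_cancel hl, D.hx, one_mul]
  exact mul_right_cancel₀ (D.hx0 i) h1

theorem q_ne : (D.q : κ) ≠ 0 := by
  rw [Ne, CharP.cast_eq_zero_iff κ l]
  exact D.hq

/-- The pairing. -/
theorem α_mul (i : I) (t : ZMod (2 * m i)) : D.α ⟨i, t⟩ * D.α ⟨i, t + m i⟩ = D.q := by
  haveI := D.neZero i
  have hm0 := D.m0 i
  obtain ⟨⟨j, s⟩, hs⟩ := D.pair ⟨i, 0⟩
  have hij : j = i := by
    have hq0 : (D.q : L) ≠ 0 := by
      intro h0
      rw [h0] at hs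
      exact mul_ne_zero (D.α_ne _) (D.α_ne _) hs
    have h1 := congrArg (D.c ^ (2 * m i)) hs
    rw [map_mul, c_pow_α, c_pow_α, map_natCast, ZMod.natCast_self, zero_add, ← hs] at h1
    have h2 := D.α_inj (mul_left_cancel₀ (D.α_ne _) h1)
    have h3 : s + ((2 * m i : ℕ) : ZMod (2 * m j)) = s := by
      have := (Sigma.mk.inj_iff.1 h2).2
      exact eq_of_heq this
    have h4 : 2 * m j ∣ 2 * m i := (CharP.cast_eq_zero_iff (ZMod (2 * m j)) (2 * m j) _).1
      (add_eq_left.1 h3)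
    have h5 := congrArg (D.c ^ (2 * m j)) hs
    rw [map_mul, c_pow_α, c_pow_α, map_natCast, ZMod.natCast_self, add_zero, ← hs] at h5
    have h6 := D.α_inj (mul_right_cancel₀ (D.α_ne _) h5)
    have h7 : (0 : ZMod (2 * m i)) + ((2 * m j : ℕ) : ZMod (2 * m i)) = 0 := by
      have := (Sigma.mk.inj_iff.1 h6).2
      exact eq_of_heq this
    rw [zero_add] at h7
    have h8 : 2 * m i ∣ 2 * m j := (CharP.cast_eq_zero_iff (ZMod (2 * m i)) (2 * m i) _).1 h7
    have h9 : m j = m i := by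
      have := Nat.dvd_antisymm h4 h8
      omega
    exact D.hv _ _ (by rw [h9])
  subst hij
  have h1 : ∀ t, D.α ⟨j, t⟩ * D.α ⟨j, t + s⟩ = D.q := by
    intro t
    have h2 := congrArg (D.c ^ t.val) hs
    rw [map_mul, c_pow_α, c_pow_α, map_natCast, zero_add, ZMod.natCast_zmod_val, add_comm s] at h2
    exact h2
  have h2 : s + s = 0 := by
    have h3 : (⟨j, s + s⟩ : XX m) = ⟨j, 0⟩ := by
      apply D.α_inj
      apply mul_left_cancel₀ (D.α_ne ⟨j, s⟩)
      rw [h1, mul_comm, hs]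
    exact eq_of_heq (Sigma.mk.inj_iff.1 h3).2
  have h3 : s = 0 ∨ s = m j := by
    have h4 : 2 * m j ∣ s.val + s.val := by
      rw [← CharP.cast_eq_zero_iff (ZMod (2 * m j)) (2 * m j)]
      push_cast
      rw [ZMod.natCast_zmod_val]
      exact h2
    obtain ⟨k, hk⟩ := h4
    have h5 := ZMod.val_lt s
    have h6 : k < 2 := by
      by_contra hk2
      push Not at hk2
      nlinarith
    interval_cases k
    · left
      rw [← ZMod.val_eq_zero]; omega
    · right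
      rw [← ZMod.natCast_zmod_val s]
      congr 1
      omega
  rcases h3 with rfl | rfl
  · -- the squares of the roots are `q`
    exfalso
    refine D.hns ⟨j, 0⟩ 1 one_ne_zero ?_
    rw [mul_one, pow_one, pow_two]
    exact hs
  · exact h1 t

section lattice

variable [DecidableEq I] [∀ i, NeZero (2 * m i)]

/-- The lattice of the relations. -/
noncomputable def E : Submodule ℤ (XX m → ℤ) := EE D.α D.α_ne

/-- The shift as a permutation. -/
def shE (m : I → ℕ) : XX m ≃ XX m where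
  toFun s := ⟨s.1, s.2 + 1⟩
  invFun s := ⟨s.1, s.2 - 1⟩
  left_inv := fun ⟨i, t⟩ => by simp
  right_inv := fun ⟨i, t⟩ => by simp

theorem E_sh {f : XX m → ℤ} (hf : f ∈ D.E) : Sh f ∈ D.E := by
  show RU (mn D.α (Sh f))
  have h1 : mn D.α (Sh f) = D.c (mn D.α f) := by
    unfold mn
    rw [map_prod, ← Equiv.prod_comp (shE m)]
    refine Finset.prod_congr rfl (fun s _ => ?_)
    obtain ⟨i, t⟩ := s
    show D.α ⟨i, t + 1⟩ ^ Sh f ⟨i, t + 1⟩ = _
    rw [Sh_apply, add_sub_cancel_right, map_zpow₀, c_α]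
  rw [h1]
  exact RU_map hf _

theorem mn_ex (i : I) (h : ZMod (2 * m i) → ℤ) : mn D.α (ex i h) = ∏ t, D.α ⟨i, t⟩ ^ h t := by
  unfold mn
  rw [Fintype.prod_sigma, Finset.prod_eq_single i]
  · exact Finset.prod_congr rfl (fun t _ => by rw [ex_same])
  · intro j _ hj
    exact Finset.prod_eq_one (fun t _ => by rw [ex_ne hj, zpow_zero])
  · intro h; exact absurd (Finset.mem_univ _) h

/-- The component does not belong to the lattice of the relations. -/
theorem not_component [FiniteDimensional ℚ L] [IsGalois ℚ L] {i : I} {d : ℕ}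
    (hd : d ∣ 2 * m i) (hdg : ¬ d ∣ m i) {e : ℤ[X]} (he : e * cyclotomic d ℤ = X ^ m i + 1)
    (hri : ∃ r, r.Prime ∧ 2 * (∑ i, m i) + 1 < r ∧ r ∣ orderOf (D.x i) ∧ orderOf (l : ZMod r) = d) :
    ex i (aeval sh e (oo (m i))) ∉ D.E := by
  classical
  intro hE
  have hg := D.m0 i
  obtain ⟨r, hr, hrg, hrx, hrl⟩ := hri
  haveI : Fact r.Prime := ⟨hr⟩
  have hcard : Fintype.card (XX m) = 2 * ∑ i, m i := by
    rw [Fintype.card_sigma, Finset.mul_sum]
    exact Finset.sum_congr rfl (fun j _ => ZMod.card _)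
  have hsum : m i ≤ ∑ i, m i := Finset.single_le_sum (fun i _ => Nat.zero_le _) (Finset.mem_univ i)
  obtain ⟨N, hN, hNe⟩ := order_prime D.α_ne D.α_inj D.perm D.gen hr (by
    rw [hcard]; exact hrg) (f := ex i (aeval sh e (oo (m i)))) hE
  rw [mn_ex] at hNe
  generalize hh : aeval sh e (oo (m i)) = h at hNe
  -- the residue
  have h1 : RS D.ι (∏ t, D.α ⟨i, t⟩ ^ h t) (∏ t, D.ψ ⟨i, t⟩ ^ h t) :=
    RS_prod _ _ _ (fun t _ => RS_zpow (D.res ⟨i, t⟩) (pow_ne_zero _ (D.hx0 i)) _)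
  have h2 : (∏ t, D.ψ ⟨i, t⟩ ^ h t) ^ N = 1 := by
    have h3 := RS_pow h1 N
    rw [hNe] at h3
    exact RS_unique h3 RS_one
  obtain ⟨k, hm⟩ := hrx
  have hx0 : orderOf (D.x i) ≠ 0 := by
    intro h0
    rw [orderOf_eq_zero_iff'] at h0
    have hl : 1 < l ^ (2 * m i) := Nat.one_lt_pow (by omega) (Fact.out : l.Prime).one_lt
    exact h0 _ (by omega) (D.x_pow i)
  have hm0 : k ≠ 0 := by
    rintro rfl
    exact hx0 (by rw [hm, mul_zero])
  have hz : IsPrimitiveRoot (D.x i ^ k) r :=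
    (IsPrimitiveRoot.orderOf (D.x i)).pow (Nat.pos_of_ne_zero hx0) (by rw [hm, mul_comm])
  have hz0 : D.x i ^ k ≠ 0 := pow_ne_zero _ (D.hx0 i)
  have h3 : (D.x i ^ k) ^ ((∑ t, (l : ℤ) ^ t.val * h t) * N) = 1 := by
    have h4 : (D.x i ^ k) ^ (∑ t, (l : ℤ) ^ t.val * h t) = (∏ t, D.ψ ⟨i, t⟩ ^ h t) ^ k := by
      rw [← Finset.prod_pow]
      have h5 : ∀ s : Finset (ZMod (2 * m i)), (D.x i ^ k) ^ (∑ t ∈ s, (l : ℤ) ^ t.val * h t)
          = ∏ t ∈ s, (D.ψ ⟨i, t⟩ ^ h t) ^ k := by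
        intro s
        induction s using Finset.induction_on with
        | empty => rw [Finset.sum_empty, Finset.prod_empty, zpow_zero]
        | insert b s hb ih =>
          rw [Finset.sum_insert hb, Finset.prod_insert hb, zpow_add₀ hz0, ih]
          congr 1
          unfold ψ
          rw [zpow_mul, ← Nat.cast_pow, zpow_natCast, ← zpow_natCast (_ ^ h b) k, ← zpow_mul,
            ← pow_mul, mul_comm k, pow_mul, ← zpow_natCast (D.x i ^ l ^ b.val) k, ← zpow_mul,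
            mul_comm (k : ℤ)]
      exact h5 _
    rw [zpow_mul, h4, zpow_natCast, ← pow_mul, mul_comm k N, pow_mul, h2, one_pow]
  have h4 : (r : ℤ) ∣ (∑ t, (l : ℤ) ^ t.val * h t) * N := (hz.zpow_eq_one_iff_dvd _).1 h3
  have h5 : (r : ℤ) ∣ ∑ t, (l : ℤ) ^ t.val * h t := by
    rcases (Int.Prime.dvd_mul' hr h4) with h | h
    · exact h
    · exact absurd (Int.natCast_dvd_natCast.1 h) hN
  have h6 : DG.lam (l := l) r h = 0 := by
    have h7 : ((∑ t, (l : ℤ) ^ t.val * h t : ℤ) : ZMod r) = 0 :=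
      (ZMod.intCast_zmod_eq_zero_iff_dvd _ _).2 h5
    rw [← h7]
    unfold DG.lam
    push_cast
    rfl
  have hlr : (l : ZMod r) ^ (2 * m i) = 1 := by
    obtain ⟨k, hk⟩ := hd
    rw [hk, pow_mul, ← hrl, pow_orderOf_eq_one, one_pow]
  have hl1 : (l : ZMod r) ^ m i ≠ 1 := by
    intro h7
    apply hdg
    rw [← hrl]
    exact orderOf_dvd_of_pow_eq_one h7
  rw [← hh, DG.lam_aeval hlr (by omega), DG.lam_oo hg] at h6
  have h7 := (mul_eq_zero.1 h6).resolve_right (sub_ne_zero.2 (Ne.symm hl1))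
  have hd0 : 0 < d := Nat.pos_of_ne_zero (by rintro rfl; exact hdg (by
      have := Nat.eq_zero_of_zero_dvd hd; omega))
  have hd2 : d ≤ 2 * m i := Nat.le_of_dvd (by omega) hd
  have h8 : eval₂ (Int.castRingHom (ZMod r)) (l : ZMod r) (cyclotomic d ℤ) = 0 := by
    haveI : NeZero (d : ZMod r) := ⟨by
      intro h0
      have := Nat.le_of_dvd hd0 ((CharP.cast_eq_zero_iff (ZMod r) r d).1 h0)
      omega⟩
    rw [← eval_map, map_cyclotomic]
    have h9 : IsPrimitiveRoot (l : ZMod r) d := by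
      rw [← hrl]; exact IsPrimitiveRoot.orderOf _
    exact isRoot_cyclotomic_iff.2 h9
  have h9 := congrArg (fun Q : ℤ[X] => eval₂ (Int.castRingHom (ZMod r)) (l : ZMod r)
    (derivative Q)) he
  simp only [derivative_mul, derivative_add, derivative_X_pow, derivative_one, add_zero, eval₂_add,
    eval₂_mul, h7, h8, mul_zero, zero_mul, eval₂_pow, eval₂_X, map_natCast, eval₂_natCast] at h9
  have hg0 : (m i : ZMod r) ≠ 0 := by
    intro h0
    have := Nat.le_of_dvd hg ((CharP.cast_eq_zero_iff (ZMod r) r (m i)).1 h0)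
    omega
  have hl0 : (l : ZMod r) ≠ 0 := by
    intro h0
    rw [h0, zero_pow (by omega)] at hlr
    exact zero_ne_one hlr
  exact mul_ne_zero hg0 (pow_ne_zero _ hl0) h9.symm

/-- **All relations are symmetric.** -/
theorem symm [FiniteDimensional ℚ L] [IsGalois ℚ L] {e : XX m → ℤ}
    (he : RU (mn D.α (e - fun s => e ⟨s.1, s.2 + m s.1⟩))) (i : I) (t : ZMod (2 * m i)) :
    e ⟨i, t + m i⟩ = e ⟨i, t⟩ := by
  by_contra hne
  set f : XX m → ℤ := e - fun s => e ⟨s.1, s.2 + m s.1⟩ with hf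
  have hodd : ∀ i (t : ZMod (2 * m i)), f ⟨i, t + m i⟩ = -f ⟨i, t⟩ := by
    intro i t
    simp only [hf, Pi.sub_apply]
    have h1 : t + m i + m i = t := by rw [add_assoc, two_g, add_zero]
    rw [h1]; ring
  have h1 : ex i (rs i f) ∈ D.E := component_mem D.m0 D.hv D.E (fun f hf => D.E_sh hf)
    (fun N f hN h => EE_sat hN h) he hodd i
  obtain ⟨d, hd, hdg, e', he', hmem⟩ := component (D.m0 i) (D.E.comap (ex i))
    (fun f hf => by
      rw [Submodule.mem_comap] at hf ⊢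
      rw [← Sh_ex]
      exact D.E_sh hf)
    (fun N f hN h => by
      rw [Submodule.mem_comap] at h ⊢
      rw [map_smul] at h
      exact EE_sat hN h) (f := rs i f) h1 (fun s => hodd i s) (by
      intro h0
      have h1 := congrFun h0 t
      rw [rs_apply, hf, Pi.sub_apply, Pi.zero_apply, sub_eq_zero] at h1
      exact hne h1.symm)
  rcases D.hr i with ⟨k, hk⟩ | hri
  · -- the component is everything
    have h2 : cyclotomic d ℤ = X ^ m i + 1 := by
      rw [hk, ← pow_succ'] at hd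
      obtain ⟨a, ha, rfl⟩ := (Nat.dvd_prime_pow Nat.prime_two).1 hd
      have h3 : a = k + 1 := by
        by_contra h0
        exact hdg (by rw [hk]; exact pow_dvd_pow 2 (by omega))
      subst h3
      rw [cyclotomic_prime_pow_eq_geom_sum Nat.prime_two, hk, Finset.sum_range_succ,
        Finset.sum_range_one, pow_zero, pow_one, add_comm]
    have h3 : e' = 1 := by
      have h4 : e' * (X ^ m i + 1) = 1 * (X ^ m i + 1) := by rw [one_mul, ← h2, he', h2]
      exact mul_right_cancel₀ (by rw [← h2]; exact cyclotomic_ne_zero _ _) h4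
    rw [h3, map_one, Submodule.mem_comap, Module.End.one_apply] at hmem
    obtain ⟨N, hN, hNe⟩ : RU (mn D.α (ex i (oo (m i)))) := hmem
    have h0m : (0 : ZMod (2 * m i)) ≠ (m i : ZMod (2 * m i)) := by
      intro h0
      have h5 := (CharP.cast_eq_zero_iff (ZMod (2 * m i)) (2 * m i) (m i)).1 h0.symm
      have h6 := Nat.le_of_dvd (D.m0 i) h5
      have := D.m0 i
      omega
    have h4 : (∏ t : ZMod (2 * m i), D.α ⟨i, t⟩ ^ oo (m i) t) = D.α ⟨i, 0⟩ / D.α ⟨i, m i⟩ := by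
      have h5 : ∀ t : ZMod (2 * m i), D.α ⟨i, t⟩ ^ oo (m i) t
          = (if t = 0 then D.α ⟨i, 0⟩ else 1) * (if t = m i then (D.α ⟨i, m i⟩)⁻¹ else 1) := by
        intro t
        rw [oo_apply]
        by_cases h6 : t = 0
        · subst h6
          rw [if_pos rfl, if_pos rfl, if_neg h0m, if_neg h0m, sub_zero, zpow_one, mul_one]
        · rw [if_neg h6, if_neg h6, one_mul, zero_sub]
          by_cases h7 : t = m i
          · rw [if_pos h7, if_pos h7, h7, zpow_neg, zpow_one]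
          · rw [if_neg h7, if_neg h7, neg_zero, zpow_zero]
      rw [Finset.prod_congr rfl (fun t _ => h5 t), Finset.prod_mul_distrib, Finset.prod_ite_eq',
        Finset.prod_ite_eq', if_pos (Finset.mem_univ _), if_pos (Finset.mem_univ _), div_eq_mul_inv]
    rw [mn_ex, h4] at hNe
    refine D.hns ⟨i, 0⟩ N hN ?_
    have h5 := D.α_mul i 0
    rw [zero_add] at h5
    rw [← h5, mul_pow, pow_mul, pow_two, mul_pow]
    rw [div_pow, div_eq_one_iff_eq (pow_ne_zero _ (D.α_ne _))] at hNe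
    rw [← hNe]
  · exact D.not_component hd hdg he' (hri d hd hdg) hmem

end lattice

end DB

end Pool.Agent.T6.H36.BN
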