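import Pool.Agent.T6.H36.NFDefs

/-!
# Abelian varieties over number fields, the algebraic monodromy group and binary factors: definitions
-/

set_option autoImplicit false

namespace Pool.Agent.T6.H36.BN

open Polynomial

/-- The functions on `Γ` that are polynomials in the entries of the matrices of the representation
`ρ`. -/
def polyFun {k V Γ : Type*} [Field k] [AddCommGroup V] [Module k V] [Group Γ]
    (ρ : Representation k Γ V) : Subalgebra k (Γ → k) :=
  Algebra.adjoin k {F | ∃ (u : V) (φ : Module.Dual k V), F = fun s => φ (ρ s u)}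

/-- The Zariski closure of the image of the representation `ρ` is connected: polynomials in the
entries of the matrices that vanish on a subgroup of finite index vanish on the whole group. -/
def IsConnectedMonodromy {k V Γ : Type*} [Field k] [AddCommGroup V] [Module k V] [Group Γ]
    (ρ : Representation k Γ V) : Prop :=
  ∀ F ∈ polyFun ρ, ∀ Δ : Subgroup Γ, Δ.FiniteIndex → (∀ s ∈ Δ, F s = 0) → ∀ s, F s = 0

/-- The representation `ρ` and the character `χ` are continuous. -/
structure IsContinuousRep {ℓ : ℕ} [Fact ℓ.Prime] {V Γ : Type*} [AddCommGroup V] [Module ℚ_[ℓ] V]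
    [Group Γ] [TopologicalSpace Γ] (ρ : Representation ℚ_[ℓ] Γ V) (χ : Γ →* ℚ_[ℓ]) : Prop where
  rep : ∀ (u : V) (φ : Module.Dual ℚ_[ℓ] V), Continuous fun s => φ (ρ s u)
  char : Continuous fun s => χ s

/-- The polynomial is a product of irreducible polynomials whose degrees are different powers of two,
not equal to one. -/
def HasBinaryFactors {l : ℕ} [Fact l.Prime] (Q : (ZMod l)[X]) : Prop :=
  ∃ (S : Finset ℕ) (f : ℕ → (ZMod l)[X]), S.Nonempty ∧
    (∀ k ∈ S, (f k).Monic ∧ Irreducible (f k) ∧ (f k).natDegree = 2 ^ (k + 1)) ∧ Q = ∏ k ∈ S, f k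

end Pool.Agent.T6.H36.BN
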