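import Mathlib

/-! Roots of irreducible polynomials over a prime field. -/

namespace Pool.Agent.T6.H36.BN

open Polynomial IntermediateField

theorem exists_roots {l : ℕ} [Fact l.Prime] {f : (ZMod l)[X]} (hf : Irreducible f) (hm : f.Monic)
    {n : ℕ} (hn : f.natDegree = n) (h2 : 2 ≤ n) :
    ∃ x : AlgebraicClosure (ZMod l), x ≠ 0 ∧ x ^ l ^ n = x ∧
      (∀ a b : ℕ, x ^ l ^ (a + b) = x ^ l ^ a → n ∣ b) ∧
      f.map (algebraMap (ZMod l) (AlgebraicClosure (ZMod l))) =
        ∏ k ∈ Finset.range n, (X - C (x ^ l ^ k)) := by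
  classical
  obtain ⟨x, hx⟩ := IsAlgClosed.exists_aeval_eq_zero (AlgebraicClosure (ZMod l)) f
    (by rw [degree_eq_natDegree hm.ne_zero, hn]; exact_mod_cast (by omega : n ≠ 0))
  have hmin : minpoly (ZMod l) x = f := (minpoly.eq_of_irreducible_of_monic hf hx hm).symm
  have hint : IsIntegral (ZMod l) x := ⟨f, hm, hx⟩
  haveI : FiniteDimensional (ZMod l) (ZMod l)⟮x⟯ := adjoin.finiteDimensional hint
  haveI : Finite (ZMod l)⟮x⟯ := Module.finite_of_finite (ZMod l)
  have hfin : Module.finrank (ZMod l) (ZMod l)⟮x⟯ = n := by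
    rw [adjoin.finrank hint, hmin, hn]
  have hord : orderOf (FiniteField.frobeniusAlgHom (ZMod l) (ZMod l)⟮x⟯) = n := by
    rw [FiniteField.orderOf_frobeniusAlgHom, hfin]
  have hx0 : x ≠ 0 := by
    rintro rfl
    rw [minpoly.zero] at hmin
    rw [← hmin, natDegree_X] at hn
    omega
  set y : (ZMod l)⟮x⟯ := AdjoinSimple.gen (ZMod l) x with hy
  have hpow : ∀ (k : ℕ) (z : (ZMod l)⟮x⟯),
      (FiniteField.frobeniusAlgHom (ZMod l) (ZMod l)⟮x⟯ ^ k) z = z ^ l ^ k := by
    intro k
    induction k with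
    | zero => intro z; rw [pow_zero, pow_zero, pow_one]; rfl
    | succ k ih =>
      intro z
      rw [pow_succ', AlgHom.mul_apply, ih, FiniteField.frobeniusAlgHom_apply, ZMod.card, ← pow_mul,
        ← pow_succ]
  have hxn : x ^ l ^ n = x := by
    have h1 := hpow n y
    rw [← hord, pow_orderOf_eq_one, AlgHom.one_apply] at h1
    have h3 := congrArg (fun z : (ZMod l)⟮x⟯ => (z : AlgebraicClosure (ZMod l))) h1
    simp only [hy, SubmonoidClass.coe_pow, AdjoinSimple.coe_gen] at h3
    rw [hord] at h3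
    exact h3.symm
  have hdiv : ∀ b : ℕ, x ^ l ^ b = x → n ∣ b := by
    intro b hb
    rw [← hord]
    apply orderOf_dvd_of_pow_eq_one
    apply (adjoin.powerBasis hint).algHom_ext
    rw [AlgHom.one_apply, hpow, adjoin.powerBasis_gen]
    apply Subtype.ext
    rw [SubmonoidClass.coe_pow, AdjoinSimple.coe_gen, hb]
  have hfr : ∀ a : ℕ, Function.Injective (fun z : AlgebraicClosure (ZMod l) => z ^ l ^ a) := by
    intro a z w hzw
    apply (iterateFrobenius_inj (AlgebraicClosure (ZMod l)) l a)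
    rw [iterateFrobenius_def, iterateFrobenius_def]
    exact hzw
  have hkey : ∀ a b : ℕ, x ^ l ^ (a + b) = x ^ l ^ a → n ∣ b := by
    intro a b h
    apply hdiv
    apply hfr a
    show (x ^ l ^ b) ^ l ^ a = x ^ l ^ a
    rw [← pow_mul, ← pow_add, add_comm b a, h]
  refine ⟨x, hx0, hxn, hkey, ?_⟩
  have hinj : Set.InjOn (fun k : ℕ => x ^ l ^ k) (Finset.range n : Finset ℕ) := by
    intro a ha b hb hab
    rw [Finset.mem_coe, Finset.mem_range] at ha hb
    have hab' : x ^ l ^ a = x ^ l ^ b := hab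
    rcases le_total a b with h | h
    · obtain ⟨k, rfl⟩ := Nat.exists_eq_add_of_le h
      have h1 := Nat.eq_zero_of_dvd_of_lt (hkey a k hab'.symm) (by omega)
      omega
    · obtain ⟨k, rfl⟩ := Nat.exists_eq_add_of_le h
      have h1 := Nat.eq_zero_of_dvd_of_lt (hkey b k hab') (by omega)
      omega
  set F := f.map (algebraMap (ZMod l) (AlgebraicClosure (ZMod l))) with hF
  have hFm : F.Monic := hm.map _
  have hroot : ∀ k : ℕ, F.IsRoot (x ^ l ^ k) := by
    intro k
    rw [IsRoot.def, hF, eval_map, ← aeval_def]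
    have h1 : aeval (x ^ l ^ k) f = (aeval x f) ^ l ^ k := by
      rw [← iterateFrobenius_def l k x, ← iterateFrobenius_def l k (aeval x f)]
      rw [aeval_def, aeval_def, hom_eval₂]
      congr 1
      exact RingHom.ext_zmod _ _
    rw [h1, hx, zero_pow (pow_ne_zero _ (Fact.out : l.Prime).ne_zero)]
  have h1 : ((Finset.range n).image (fun k : ℕ => x ^ l ^ k)).val ≤ F.roots := by
    rw [Multiset.le_iff_subset (Finset.nodup _)]
    intro r hr
    rw [Finset.mem_val, Finset.mem_image] at hr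
    obtain ⟨k, _, rfl⟩ := hr
    rw [mem_roots hFm.ne_zero]
    exact hroot k
  have h2 : F.roots = ((Finset.range n).image (fun k : ℕ => x ^ l ^ k)).val := by
    symm
    apply Multiset.eq_of_le_of_card_le h1
    rw [Finset.card_val, Finset.card_image_of_injOn hinj, Finset.card_range, ← hn,
      ← hm.natDegree_map (algebraMap (ZMod l) (AlgebraicClosure (ZMod l)))]
    exact card_roots' _
  rw [(IsAlgClosed.splits F).eq_prod_roots_of_monic hFm, h2]
  show ∏ r ∈ (Finset.range n).image (fun k : ℕ => x ^ l ^ k), (X - C r) = _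
  rw [Finset.prod_image hinj]

end Pool.Agent.T6.H36.BN
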