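import Mathlib

/-! The condition on the order of a Frobenius endomorphism on the points of order `l`. -/

namespace Pool.Agent.T6.H36.TM

open Polynomial

/-- The polynomial `Q` over the field with `l` elements has the roots `x i ^ (l ^ k)`,
`k < 2 m i`, where `x i` is a nonzero element of the field with `l ^ (2 m i)` elements, the exponents
of two in the numbers `m i` are pairwise distinct, and for all `i` and all divisors `d` of `2 m i` that
do not divide `m i` the order of `x i` is divisible by some prime number `r > deg Q + 1` modulo which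
the order of `l` is `d`. (It follows that `Q` is the product of different irreducible polynomials of the
degrees `2 m i`.) -/
def HasLargeOrders {l : ℕ} [Fact l.Prime] (Q : (ZMod l)[X]) : Prop :=
  ∃ (I : Type) (_ : Fintype I) (_ : Nonempty I) (m : I → ℕ) (x : I → AlgebraicClosure (ZMod l)),
    (∀ i, 0 < m i) ∧ (∀ i j, padicValNat 2 (m i) = padicValNat 2 (m j) → i = j) ∧
    (∀ i, x i ≠ 0 ∧ x i ^ l ^ (2 * m i) = x i) ∧
    Q.map (algebraMap (ZMod l) (AlgebraicClosure (ZMod l))) =
      ∏ i, ∏ k ∈ Finset.range (2 * m i), (X - C (x i ^ l ^ k)) ∧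
    ∀ i d, d ∣ 2 * m i → ¬ d ∣ m i →
      ∃ r : ℕ, r.Prime ∧ Q.natDegree + 1 < r ∧ r ∣ orderOf (x i) ∧ orderOf (l : ZMod r) = d

end Pool.Agent.T6.H36.TM
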