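import Pool.Agent.T6.H36.TM
import Pool.Agent.T6.H36.TMDefs

/-! There are no relations between the eigenvalues. -/

namespace Pool.Agent.T6.H36.TM

open Polynomial Ord Two.Dat TG Final

theorem ne_of_order {l : ℕ} [Fact l.Prime] {r d : ℕ} (hd : 0 < d) (h : orderOf (l : ZMod r) = d) :
    r ≠ l := by
  rintro rfl
  have hl := (Fact.out : r.Prime)
  haveI : Fact (1 < r) := ⟨hl.one_lt⟩
  rw [ZMod.natCast_self] at h
  have h1 : orderOf (0 : ZMod r) = 0 := by
    rw [orderOf_eq_zero_iff']
    intro n hn h0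
    rw [zero_pow hn.ne'] at h0
    exact zero_ne_one h0
  omega

theorem key {l r D : ℕ} (hl : l.Prime) {κ : Type} [Field κ] {x : κ} (hx0 : x ≠ 0) (hr : r.Prime)
    (hrl : r ≠ l) (hrx : r ∣ orderOf x) (hrd : orderOf (l : ZMod r) = D) {i k : ℕ}
    (h : x ^ l ^ (i + k) = x ^ l ^ i) : D ∣ k := by
  have hlk : 0 < l ^ k := pow_pos hl.pos k
  have h1 : x ^ (l ^ i * (l ^ k - 1)) = 1 := by
    have h2 : x ^ (l ^ i * (l ^ k - 1)) * x ^ l ^ i = 1 * x ^ l ^ i := by
      rw [← pow_add, one_mul, ← h, pow_add l i k]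
      congr 1
      have h3 : l ^ k - 1 + 1 = l ^ k := Nat.sub_add_cancel hlk
      rw [← h3, mul_add, mul_one, h3]
    exact mul_right_cancel₀ (pow_ne_zero _ hx0) h2
  have h2 : r ∣ l ^ i * (l ^ k - 1) := hrx.trans (orderOf_dvd_of_pow_eq_one h1)
  have h3 : r ∣ l ^ k - 1 := by
    rcases (Nat.Prime.dvd_mul hr).1 h2 with h | h
    · exact absurd ((Nat.prime_dvd_prime_iff_eq hr hl).1 (hr.dvd_of_dvd_pow h)) hrl
    · exact h
  rw [← hrd]
  apply orderOf_dvd_of_pow_eq_one
  have h4 : ((l ^ k - 1 : ℕ) : ZMod r) = 0 := (CharP.cast_eq_zero_iff (ZMod r) r _).2 h3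
  rw [Nat.cast_sub hlk, Nat.cast_one, sub_eq_zero, Nat.cast_pow] at h4
  exact h4

/-- **There are no relations between the eigenvalues of the Frobenius endomorphism.** -/
theorem main {l q : ℕ} [Fact l.Prime] (hq : ¬ l ∣ q) {P : ℤ[X]} (hP : P.Monic)
    (h : HasLargeOrders (P.map (Int.castRingHom (ZMod l))))
    {K : Type} [Field K] [CharZero K] (hsplit : (P.map (Int.castRingHom K)).Splits)
    (hsym : ∀ x : K, ev P x = 0 → ∃ y : K, ev P y = 0 ∧ x * y = (q : K)) :
    ∃ (I : Type) (_ : Fintype I) (_ : Nonempty I) (m : I → ℕ) (_ : ∀ i, NeZero (2 * m i))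
      (α : XX m → K), Function.Injective α ∧ P.map (Int.castRingHom K) = ∏ s, (X - C (α s)) ∧
      (∀ i t, α ⟨i, t⟩ * α ⟨i, t + m i⟩ = (q : K)) ∧
      ∀ e : XX m → ℤ, (∃ N : ℕ, N ≠ 0 ∧
        (∏ s : XX m, α s ^ (e s - e ⟨s.1, s.2 + m s.1⟩)) ^ N = 1) →
        ∀ i t, e ⟨i, t + m i⟩ = e ⟨i, t⟩ := by
  classical
  obtain ⟨I, _, _, m, x, hm, hv, hx, hQ, hr⟩ := h
  have hl := (Fact.out : l.Prime)
  haveI hNZ : ∀ i, NeZero (2 * m i) := fun i => ⟨by have := hm i; omega⟩
  -- the degree
  have hcard : Fintype.card (XX m) = 2 * ∑ i, m i := by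
    rw [Fintype.card_sigma, Finset.mul_sum]
    exact Finset.sum_congr rfl (fun j _ => ZMod.card _)
  have hdegQ : (P.map (Int.castRingHom (ZMod l))).natDegree = 2 * ∑ i, m i := by
    have h1 := congrArg natDegree hQ
    rw [natDegree_map, natDegree_prod_of_monic _ _ (fun i _ => monic_prod_of_monic _ _
      (fun k _ => monic_X_sub_C _))] at h1
    rw [h1, Finset.mul_sum]
    refine Finset.sum_congr rfl (fun i _ => ?_)
    rw [natDegree_prod_of_monic _ _ (fun k _ => monic_X_sub_C _)]
    simp only [natDegree_X_sub_C, Finset.sum_const, Finset.card_range, smul_eq_mul, mul_one]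
  have hdeg : P.natDegree = 2 * ∑ i, m i := by rw [← hdegQ, hP.natDegree_map]
  have hdegc : P.natDegree = Fintype.card (XX m) := by rw [hdeg, hcard]
  -- the orders
  have hkey : ∀ i (a k : ℕ), x i ^ l ^ (a + k) = x i ^ l ^ a → 2 * m i ∣ k := by
    intro i a k h
    have hmi := hm i
    obtain ⟨r, hrp, hrg, hrx, hrd⟩ := hr i (2 * m i) dvd_rfl (fun h => by
      have := Nat.le_of_dvd (hm i) h; omega)
    exact key hl (hx i).1 hrp (ne_of_order (by omega) hrd) hrx hrd h
  have hperiod : ∀ i (a : ℕ), x i ^ l ^ (a + 2 * m i) = x i ^ l ^ a := by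
    intro i a
    rw [add_comm, pow_add, pow_mul, (hx i).2]
  have hinj : Function.Injective (fun s : XX m => x s.1 ^ l ^ s.2.val) := by
    rintro ⟨i, s⟩ ⟨j, t⟩ hst
    have hst' : x i ^ l ^ s.val = x j ^ l ^ t.val := hst
    have h1 : 2 * m i ∣ 2 * m j := by
      apply hkey i s.val
      rw [pow_add, pow_mul, hst', ← pow_mul, ← pow_add, hperiod]
    have h2 : 2 * m j ∣ 2 * m i := by
      apply hkey j t.val
      rw [pow_add, pow_mul, ← hst', ← pow_mul, ← pow_add, hperiod]
    have h3 : m i = m j := by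
      have := Nat.dvd_antisymm h1 h2
      omega
    have h4 : i = j := hv _ _ (by rw [h3])
    subst h4
    congr 1
    apply ZMod.val_injective
    have hi := ZMod.val_lt s
    have hj := ZMod.val_lt t
    rcases le_total s.val t.val with h | h
    · obtain ⟨k, hk⟩ := Nat.exists_eq_add_of_le h
      have h1 := hkey i s.val k (by rw [← hk]; exact hst'.symm)
      have h2 : k = 0 := Nat.eq_zero_of_dvd_of_lt h1 (by omega)
      omega
    · obtain ⟨k, hk⟩ := Nat.exists_eq_add_of_le h
      have h1 := hkey i t.val k (by rw [← hk]; exact hst')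
      have h2 : k = 0 := Nat.eq_zero_of_dvd_of_lt h1 (by omega)
      omega
  have hroot : ∀ s : XX m, ev P (x s.1 ^ l ^ s.2.val) = 0 := by
    rintro ⟨i, s⟩
    have h2 : (algebraMap (ZMod l) (kk l)).comp (Int.castRingHom (ZMod l))
        = Int.castRingHom (kk l) := RingHom.ext_int _ _
    rw [ev, ← h2, ← eval₂_map, ← eval_map, hQ, eval_prod, Finset.prod_eq_zero (Finset.mem_univ i)]
    rw [eval_prod, Finset.prod_eq_zero (Finset.mem_range.2 (ZMod.val_lt s))]
    rw [eval_sub, eval_X, eval_C, sub_self]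
  have hPk := eq_of_roots hP hdegc _ hinj hroot
  have hder : ∀ s : XX m, ev (derivative P) (x s.1 ^ l ^ s.2.val) ≠ 0 := by
    intro s
    have h1 : (P.map (Int.castRingHom (kk l))).Separable := by
      rw [hPk]
      exact separable_prod_X_sub_C_iff.2 hinj
    have h2 := h1.eval₂_derivative_ne_zero (RingHom.id _) (x := x s.1 ^ l ^ s.2.val) (by
      rw [eval₂_id, eval_map]; exact hroot s)
    rw [eval₂_id, derivative_map, eval_map] at h2
    exact h2
  have hw : ∀ s : XX m, ∃ w : WittVector l (kk l), ev P w = 0 ∧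
      WittVector.constantCoeff w = x s.1 ^ l ^ s.2.val :=
    fun t => Emb.hensel hP (hroot t) (hder t)
  choose w hw1 hw2 using hw
  haveI hCM : CharZero (Emb.M l (kk l)) := Emb.charZeroM l (kk l)
  have hwinj : Function.Injective
      (fun t => algebraMap (WittVector l (kk l)) (Emb.M l (kk l)) (w t)) := by
    intro t s hts
    have h1 := emb_inj hts
    have h2 := hw2 t
    rw [h1, hw2 s] at h2
    exact hinj h2.symm
  have hwroot : ∀ t, ev P (algebraMap (WittVector l (kk l)) (Emb.M l (kk l)) (w t)) = 0 := by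
    intro t
    rw [ev_map, hw1, map_zero]
  have hPM := eq_of_roots hP hdegc _ hwinj hwroot
  -- the splitting field
  let Q : ℚ[X] := P.map (Int.castRingHom ℚ)
  have hQmap : ∀ (F : Type) [Field F] [CharZero F] (i : ℚ →+* F),
      Q.map i = P.map (Int.castRingHom F) := by
    intro F _ _ i
    rw [Polynomial.map_map]; congr 1; exact RingHom.ext_int _ _
  obtain ⟨L, instL, instC, hSF⟩ := exists_field Q
  haveI : FiniteDimensional ℚ L := IsSplittingField.finiteDimensional L Q
  haveI : IsGalois ℚ L := IsGalois.of_separable_splitting_field (p := Q) (by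
    have h1 : (P.map (Int.castRingHom (Emb.M l (kk l)))).Separable := by
      rw [hPM]
      exact separable_prod_X_sub_C_iff.2 hwinj
    rw [← hQmap (Emb.M l (kk l)) (algebraMap ℚ (Emb.M l (kk l)))] at h1
    exact (separable_map _).1 h1)
  have hQM : (Q.map (algebraMap ℚ (Emb.M l (kk l)))).Splits := by
    rw [hQmap, hPM]
    exact Splits.prod (fun t _ => Splits.X_sub_C _)
  have hQK : (Q.map (algebraMap ℚ K)).Splits := by rw [hQmap]; exact hsplit
  have hPL : (P.map (Int.castRingHom L)).Splits := by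
    rw [← hQmap L (algebraMap ℚ L)]
    exact IsSplittingField.splits L Q
  let j2 : L →+* Emb.M l (kk l) := (IsSplittingField.lift L Q hQM).toRingHom
  let jK : L →+* K := (IsSplittingField.lift L Q hQK).toRingHom
  have hα : ∀ t : XX m, ∃ r : L, ev P r = 0 ∧
      j2 r = algebraMap (WittVector l (kk l)) (Emb.M l (kk l)) (w t) :=
    fun t => root_lift hP hPL j2 (hwroot t)
  choose α hα1 hα2 using hα
  have hallM : ∀ y : Emb.M l (kk l), ev P y = 0 →
      ∃ t, y = algebraMap (WittVector l (kk l)) (Emb.M l (kk l)) (w t) := by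
    intro y hy
    rw [ev, ← eval_map, hPM, eval_prod, Finset.prod_eq_zero_iff] at hy
    obtain ⟨t, _, ht⟩ := hy
    rw [eval_sub, eval_X, eval_C, sub_eq_zero] at ht
    exact ⟨t, ht⟩
  have hallL : ∀ y : L, ev P y = 0 → ∃ t, y = α t := by
    intro y hy
    obtain ⟨t, ht⟩ := hallM (j2 y) (by rw [ev_map, hy, map_zero])
    exact ⟨t, j2.injective (by rw [ht, hα2])⟩
  have hαinj : Function.Injective α := by
    intro t s hts
    apply hwinj
    show algebraMap (WittVector l (kk l)) (Emb.M l (kk l)) (w t)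
      = algebraMap (WittVector l (kk l)) (Emb.M l (kk l)) (w s)
    rw [← hα2, ← hα2, hts]
  obtain ⟨c, hc⟩ := Lift.exists_aut j2 (Emb.phi l (kk l))
  let D : DM l m (kk l) L :=
    { m0 := hm
      hv := hv
      q := q
      hq := hq
      α := α
      ι := j2
      x := x
      hx0 := fun i => (hx i).1
      hx := fun i => (hx i).2
      hinj := hinj
      res := fun t => ⟨w t, (hα2 t).symm, hw2 t⟩
      perm := by
        intro τ t
        obtain ⟨s, hs⟩ := hallL (τ (α t)) (by
          have := ev_map (τ : L ≃ₐ[ℚ] L).toRingEquiv.toRingHom P (α t)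
          rw [hα1, map_zero] at this
          exact this)
        exact ⟨s, hs.symm⟩
      gen := by
        intro τ hτ
        have h1 : (τ : L →ₐ[ℚ] L) = AlgHom.id ℚ L := by
          apply AlgHom.ext_of_adjoin_eq_top (IsSplittingField.adjoin_rootSet L Q)
          intro x hx
          rw [mem_rootSet] at hx
          obtain ⟨t, rfl⟩ := hallL x (by
            have := hx.2
            rw [aeval_def, ← eval_map, hQmap L (algebraMap ℚ L), eval_map] at this
            exact this)
          exact hτ t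
        ext x
        exact congrArg (fun f : L →ₐ[ℚ] L => f x) h1
      c := c
      hc := hc
      pair := by
        intro t
        obtain ⟨y, hy, hxy⟩ := hsym (jK (α t)) (by rw [ev_map, hα1, map_zero])
        obtain ⟨r, hr, rfl⟩ := root_lift hP hPL jK hy
        obtain ⟨s, rfl⟩ := hallL r hr
        refine ⟨s, jK.injective ?_⟩
        rw [map_mul, hxy, map_natCast]
      hr := by
        intro i d hd hdm
        obtain ⟨r, h1, h2, h3, h4⟩ := hr i d hd hdm
        exact ⟨r, h1, by rw [← hdegQ]; exact h2, h3, h4⟩ }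
  refine ⟨I, inferInstance, inferInstance, m, hNZ, fun t => jK (D.α t), jK.injective.comp D.α_inj, ?_, ?_, ?_⟩
  · apply eq_of_roots hP hdegc _ (jK.injective.comp hαinj)
    intro t
    show ev P (jK (α t)) = 0
    rw [ev_map, hα1, map_zero]
  · intro i t
    show jK (D.α ⟨i, t⟩) * jK (D.α ⟨i, t + m i⟩) = _
    rw [← map_mul, D.α_mul, map_natCast]
  · rintro e ⟨N, hN, he⟩ i t
    apply D.symm (e := e)
    refine ⟨N, hN, jK.injective ?_⟩
    rw [map_pow, map_one, ← he]
    congr 1
    unfold mn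
    rw [map_prod]
    exact Finset.prod_congr rfl (fun t _ => map_zpow₀ jK _ _)

end Pool.Agent.T6.H36.TM
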