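import Pool.Agent.R401.Dens

/-!
# Frobenius elements at places of degree one
-/

set_option autoImplicit false

namespace Pool.Agent.T6.H36.BN

open NumberField Filter Topology IsDedekindDomain Pool.Agent.W569.FM Pool.Agent.W401.Cheb
open Pool.Agent Pool.Agent.Y142

variable {K : Type} [Field K] [NumberField K]

theorem back_surj (g : GF K) : ∃ h : HH ℚ K, back h = g := by
  let h0 : GF ℚ := ((io ℚ K).symm.trans (g.restrictScalars ℚ)).trans (io ℚ K)
  have h1 : h0 ∈ HH ℚ K := by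
    rw [mem_HH]
    intro x
    change io ℚ K (g ((io ℚ K).symm (emb ℚ K x))) = _
    rw [emb_apply, AlgEquiv.symm_apply_apply, AlgEquiv.commutes]
  refine ⟨⟨h0, h1⟩, ?_⟩
  apply AlgEquiv.ext
  intro x
  apply (io ℚ K).injective
  rw [back_apply]
  change io ℚ K (g ((io ℚ K).symm (io ℚ K x))) = _
  rw [AlgEquiv.symm_apply_apply]

/-- Every coset of an open normal subgroup contains Frobenius elements at infinitely many places of
degree one. -/
theorem exists_frob_one (U : Subgroup (GK K)) [hU : U.Normal] (hUo : IsOpen (U : Set (GK K)))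
    (g : GK K) {S : Set (HeightOneSpectrum (𝓞 K))} (hS : S.Finite) (N : ℕ) :
    ∃ v ∉ S, ∃ γ : GK K, IsFrob v γ ∧ g⁻¹ * γ ∈ U ∧ (Ideal.absNorm v.asIdeal).Prime ∧
      N < Ideal.absNorm v.asIdeal := by
  classical
  obtain ⟨g0, hg0⟩ := back_surj g
  let U₀ : Subgroup (GF ℚ) := (U.comap back).map (HH ℚ K).subtype
  have hU₀ : IsOpen (U₀ : Set (GF ℚ)) := by
    have h1 : IsOpen ((U.comap back : Subgroup (HH ℚ K)) : Set (HH ℚ K)) :=
      hUo.preimage continuous_back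
    rw [Subgroup.coe_map]
    exact isOpen_HH.isOpenMap_subtype_val _ h1
  have hfin₀ : Finite (GF ℚ ⧸ U₀) := Subgroup.quotient_finite_of_isOpen U₀ hU₀
  haveI : U₀.FiniteIndex := Subgroup.finiteIndex_of_finite_quotient
  have hN₀ : IsOpen (U₀.normalCore : Set (GF ℚ)) :=
    Subgroup.isOpen_of_isClosed_of_finiteIndex _
      (U₀.normalCore_isClosed (U₀.isClosed_of_isOpen hU₀))
  have hB : ((fun v : HeightOneSpectrum (𝓞 K) => Ideal.absNorm v.asIdeal) '' S ∪
      {n : ℕ | n ≤ N}).Finite := (hS.image _).union (Set.finite_le_nat N)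
  obtain ⟨p, P, σ, hp, hpB, hP, hpP, hσ, hgσ⟩ :=
    R401.Dens.exists_frob U₀.normalCore hN₀ hB (g0 : GF ℚ)
  rw [Set.mem_union, not_or, Set.mem_setOf_eq, not_le] at hpB
  have h1 : (g0 : GF ℚ)⁻¹ * σ ∈ U₀ := U₀.normalCore_le hgσ
  obtain ⟨u, hu, hu'⟩ := h1
  have h2 : σ = ((g0 * u : HH ℚ K) : GF ℚ) := by
    have h3 : ((u : HH ℚ K) : GF ℚ) = (g0 : GF ℚ)⁻¹ * σ := hu'
    rw [Subgroup.coe_mul, h3, mul_inv_cancel_left]
  have h3 : (1 : GF ℚ)⁻¹ * σ * 1 ∈ HH ℚ K := by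
    rw [inv_one, one_mul, mul_one, h2]
    exact (g0 * u).2
  have h4 := isFrob_back hp hP hpP hσ h3
  have h5 := absNorm_vv hp hP hpP hσ h3
  have h6 : (⟨(1 : GF ℚ)⁻¹ * σ * 1, h3⟩ : HH ℚ K) = g0 * u := by
    apply Subtype.ext
    rw [← h2]
    group
  rw [h6] at h4
  refine ⟨_, ?_, _, h4, ?_, by rw [h5]; exact hp, by rw [h5]; exact hpB.2⟩
  · intro hvS
    exact hpB.1 ⟨_, hvS, h5⟩
  · rw [map_mul, hg0, inv_mul_cancel_left]
    exact hu

end Pool.Agent.T6.H36.BN
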