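import Mathlib

/-! Orders of roots of unity of bounded degree. -/

namespace Pool.Agent.T6.H36.BN

open Polynomial IntermediateField

theorem dvd_factorial {n D : ℕ} (hn : 0 < n) (h : n.totient ≤ D) : n ∣ (2 * D).factorial := by
  rw [Nat.dvd_iff_prime_pow_dvd_dvd]
  intro p k hp hk
  apply Nat.dvd_factorial (pow_pos hp.pos k)
  have h1 : (p ^ k).totient ≤ D :=
    (Nat.le_of_dvd (Nat.totient_pos.2 hn) (Nat.totient_dvd_of_dvd hk)).trans h
  rcases Nat.eq_zero_or_pos k with rfl | hk0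
  · rw [pow_zero, Nat.totient_one] at *
    omega
  · rw [Nat.totient_prime_pow hp hk0] at h1
    have h2 : p ^ k = p ^ (k - 1) * p := by rw [← pow_succ, Nat.sub_add_cancel hk0]
    have h3 := hp.two_le
    have h4 : p ≤ 2 * (p - 1) := by omega
    calc p ^ k = p ^ (k - 1) * p := h2
      _ ≤ p ^ (k - 1) * (2 * (p - 1)) := Nat.mul_le_mul_left _ h4
      _ = 2 * (p ^ (k - 1) * (p - 1)) := by ring
      _ ≤ 2 * D := Nat.mul_le_mul_left _ h1

/-- A root whose square is `q` times a root of unity. -/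
theorem pow_eq {Ω : Type} [Field Ω] [CharZero Ω] {P : ℤ[X]} (hP : P.Monic) {x : Ω}
    (hx : eval₂ (Int.castRingHom Ω) x P = 0) {q : ℕ} (hq : q ≠ 0) {N : ℕ} (hN : N ≠ 0)
    (h : x ^ (2 * N) = (q : Ω) ^ N) :
    x ^ (2 * (2 * P.natDegree).factorial) = (q : Ω) ^ (2 * P.natDegree).factorial := by
  have hq0 : (q : Ω) ≠ 0 := Nat.cast_ne_zero.2 hq
  set ζ : Ω := x ^ 2 / q with hζ
  have h1 : ζ ^ N = 1 := by
    rw [hζ, div_pow, ← pow_mul, h, div_self (pow_ne_zero _ hq0)]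
  set n := orderOf ζ with hn
  have hn0 : 0 < n := Nat.pos_of_ne_zero (by
    rw [hn, Ne, orderOf_eq_zero_iff']
    intro h0
    exact h0 N (Nat.pos_of_ne_zero hN) h1)
  have hprim : IsPrimitiveRoot ζ n := IsPrimitiveRoot.orderOf ζ
  have hPQ : (P.map (Int.castRingHom ℚ)).Monic := hP.map _
  have hxQ : aeval x (P.map (Int.castRingHom ℚ)) = 0 := by
    rw [aeval_def, eval₂_map]
    have : (algebraMap ℚ Ω).comp (Int.castRingHom ℚ) = Int.castRingHom Ω := RingHom.ext_int _ _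
    rw [this, hx]
  have hint : IsIntegral ℚ x := ⟨_, hPQ, hxQ⟩
  haveI : FiniteDimensional ℚ ℚ⟮x⟯ := adjoin.finiteDimensional hint
  have hζmem : ζ ∈ ℚ⟮x⟯ := by
    rw [hζ]
    exact div_mem (pow_mem (mem_adjoin_simple_self ℚ x) 2) (_root_.natCast_mem _ q)
  have hintζ : IsIntegral ℚ ζ := by
    have := IsIntegral.of_finite ℚ (⟨ζ, hζmem⟩ : ℚ⟮x⟯)
    exact this.map (ℚ⟮x⟯.val)
  have h2 : n.totient ≤ P.natDegree := by
    rw [← natDegree_cyclotomic n ℚ, cyclotomic_eq_minpoly_rat hprim hn0, ← adjoin.finrank hintζ]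
    have h3 : ℚ⟮ζ⟯ ≤ ℚ⟮x⟯ := adjoin_simple_le_iff.2 hζmem
    have h4 : Module.finrank ℚ ℚ⟮ζ⟯ ≤ Module.finrank ℚ ℚ⟮x⟯ :=
      IntermediateField.finrank_le_of_le_right h3
    refine h4.trans ?_
    rw [adjoin.finrank hint]
    have h5 := minpoly.dvd ℚ x hxQ
    have h6 := natDegree_le_of_dvd h5 hPQ.ne_zero
    rwa [hP.natDegree_map] at h6
  obtain ⟨j, hj⟩ := dvd_factorial hn0 h2
  have h3 : ζ ^ (2 * P.natDegree).factorial = 1 := by
    rw [hj, pow_mul, hn, pow_orderOf_eq_one, one_pow]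
  rw [hζ, div_pow, div_eq_one_iff_eq (pow_ne_zero _ hq0), ← pow_mul] at h3
  exact h3

end Pool.Agent.T6.H36.BN
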