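import Pool.Agent.T6.H36.Gen
import Pool.Agent.T6.H36.Count
import Pool.Agent.T6.H36.Order
import Pool.Agent.H204R3.GP.MT

/-!
# Abelian varieties with a Frobenius element of prime order on the two-torsion: definitions
-/

set_option autoImplicit false

namespace Pool.Agent.T6.H36

open Polynomial Pool.Agent.H204R3.GP

section model

variable {k V Γ : Type} [Field k] [AddCommGroup V] [Module k V] [Group Γ]

/-- `V` is the rational Tate module of an abelian variety `A` over a finitely generated field `K`, `ρ`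
the action of the Galois group, `χ` the cyclotomic character and `ω` the Weil pairing of a
polarization. The last property is a theorem of Faltings and Zarhin. -/
structure IsTateModule (ρ : Representation k Γ V) (χ : Γ →* k) (ω : V →ₗ[k] V →ₗ[k] k) : Prop where
  alternating : ∀ v, ω v v = 0
  nondegenerate : ∀ u, (∀ v, ω v u = 0) → u = 0
  equivariant : ∀ s u v, ω (ρ s u) (ρ s v) = χ s * ω u v
  semisimple : FiniteIndexSemisimple ρ

/-- The action of an element of the Galois group on a class in `H^{2 m}(A ^ r)`, that is on an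
alternating form on `V ^ r` in `2 m` variables. -/
noncomputable def pull (ρ : Representation k Γ V) (s : Γ) {r m : ℕ}
    (f : (Fin r → V) [⋀^Fin m × Fin 2]→ₗ[k] k) : (Fin r → V) [⋀^Fin m × Fin 2]→ₗ[k] k :=
  f.compLinearMap (LinearMap.piMap fun _ => ρ s)

/-- A subspace of `H^{2 m}(A ^ r)` that is stable under a subgroup of the Galois group (for instance the
kernel of the restriction to an open subvariety of `A ^ r`). -/
def IsStable (ρ : Representation k Γ V) (Δ : Subgroup Γ) {r m : ℕ}
    (W : Submodule k ((Fin r → V) [⋀^Fin m × Fin 2]→ₗ[k] k)) : Prop :=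
  ∀ s ∈ Δ, ∀ f ∈ W, pull ρ s f ∈ W

/-- The alternating forms on `V ^ r` are the cohomology classes of `A ^ r`. `D r` is the set of the
classes of the divisors on `A ^ r`, up to nonzero rational factors. The properties that are used: a Tate
class of degree two is a combination of classes of divisors (Tate, Faltings, Zarhin), and the
cohomology groups of the powers of `A` are semisimple representations of every open subgroup of the
Galois group (Faltings and Zarhin, with the theorem of Chevalley on tensor products). -/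
structure IsDivisorClasses (ρ : Representation k Γ V) (χ : Γ →* k)
    (D : ∀ r : ℕ, Set ((Fin r → V) [⋀^Fin 2]→ₗ[k] k)) : Prop where
  divisors : ∀ (r : ℕ) (B : (Fin r → V) [⋀^Fin 2]→ₗ[k] k), IsTateClass ρ χ 1 B →
    B ∈ Submodule.span k (D r)
  semisimple : ∀ (Δ : Subgroup Γ), Δ.FiniteIndex → ∀ (r m : ℕ)
    (W : Submodule k ((Fin r → V) [⋀^Fin m × Fin 2]→ₗ[k] k)), IsStable ρ Δ W →
    ∃ W' : Submodule k ((Fin r → V) [⋀^Fin m × Fin 2]→ₗ[k] k), IsStable ρ Δ W' ∧ IsCompl W W'

/-- The classes (up to rational factors) of the intersections of `m` divisors on `A ^ r`. -/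
def intersections (D : ∀ r : ℕ, Set ((Fin r → V) [⋀^Fin 2]→ₗ[k] k)) (r m : ℕ) :
    Set ((Fin r → V) [⋀^Fin m × Fin 2]→ₗ[k] k) :=
  {g | ∃ B : Fin m → (Fin r → V) [⋀^Fin 2]→ₗ[k] k, (∀ l, B l ∈ D r) ∧ IsWedge B g}

/-- `A` has good reduction `B` at a closed point, with a residue field with `p ^ a` elements, and the
Frobenius endomorphism of `B` has order `n` on the points of order two (`2 dim B = n - 1`). Here `γ` is a
Frobenius element at this point, `P` its characteristic polynomial and `F` the matrix of its action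
on the points of order two. -/
def FrobeniusOfPrimeOrder [FiniteDimensional k V] (ρ : Representation k Γ V) (χ : Γ →* k) (p a n : ℕ) : Prop :=
  ∃ (γ : Γ) (P : ℤ[X]) (F : Module.End (ZMod 2) (Fin (n - 1) → ZMod 2)),
    χ γ = (p : k) ^ a ∧ (ρ γ).charpoly = P.map (Int.castRingHom k) ∧
    F.charpoly = P.map (Int.castRingHom (ZMod 2)) ∧ F ^ n = 1 ∧ F ≠ 1

/-- `A` has good reduction at a closed point, with a residue field `κ` with `p ^ a` elements, and its
reduction is the Jacobian variety of the curve `y ^ 2 = f(x)`, `f` an irreducible polynomial of degree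
`n` over `κ`: for a Frobenius element `γ` at this point, the numbers of points of the curve over the
finite extensions `L` of `κ` are given by the trace formula (there is one point at infinity). -/
def HyperellipticReduction (ρ : Representation k Γ V) (χ : Γ →* k) (p a n : ℕ) : Prop :=
  ∃ (γ : Γ) (κ : Type) (_ : Field κ) (_ : Fintype κ) (f : κ[X]),
    χ γ = (p : k) ^ a ∧ Fintype.card κ = p ^ a ∧ Irreducible f ∧ f.natDegree = n ∧
    ∀ (L : Type) [Field L] [Fintype L] [Algebra κ L],
      LinearMap.trace k V (ρ γ ^ Module.finrank κ L) =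
        (Fintype.card L : k) - (Count.pts L f : k)

end model

section wedge

variable {k W : Type} [Field k] [CharZero k] [AddCommGroup W] [Module k W]

/-- The bilinear form given by an alternating form. -/
noncomputable def toBil : (W [⋀^Fin 2]→ₗ[k] k) →ₗ[k] (W →ₗ[k] W →ₗ[k] k) where
  toFun B := LinearMap.mk₂ k (fun x y => B ![x, y])
    (fun x x' y => by
      have h := B.map_update_add ![x, y] 0 x x'
      simpa [Function.update, Matrix.cons_val_zero] using by
        have e : ∀ z : W, Function.update ![x, y] 0 z = ![z, y] := by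
          intro z; ext i; fin_cases i <;> rfl
        rw [e, e, e] at h
        exact h)
    (fun c x y => by
      have h := B.map_update_smul ![x, y] 0 c x
      have e : ∀ z : W, Function.update ![x, y] 0 z = ![z, y] := by
        intro z; ext i; fin_cases i <;> rfl
      rw [e, e] at h
      exact h)
    (fun x y y' => by
      have h := B.map_update_add ![x, y] 1 y y'
      have e : ∀ z : W, Function.update ![x, y] 1 z = ![x, z] := by
        intro z; ext i; fin_cases i <;> rfl
      rw [e, e, e] at h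
      exact h)
    (fun c x y => by
      have h := B.map_update_smul ![x, y] 1 c y
      have e : ∀ z : W, Function.update ![x, y] 1 z = ![x, z] := by
        intro z; ext i; fin_cases i <;> rfl
      rw [e, e] at h
      exact h)
  map_add' B B' := by
    ext x y
    rfl
  map_smul' c B := by
    ext x y
    rfl

/-- The alternatization as a linear map. -/
noncomputable def altL {κ : Type} [Fintype κ] [DecidableEq κ] :
    MultilinearMap k (fun _ : κ => W) k →ₗ[k] W [⋀^κ]→ₗ[k] k where
  toFun φ := MultilinearMap.alternatization φ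
  map_add' φ ψ := map_add _ φ ψ
  map_smul' c φ := by
    ext v
    simp only [MultilinearMap.alternatization_apply, RingHom.id_apply, AlternatingMap.smul_apply,
      Finset.smul_sum]
    refine Finset.sum_congr rfl fun σ _ => ?_
    change _ • (c • φ fun i => v (σ i)) = c • (_ • φ fun i => v (σ i))
    rw [smul_comm]

theorem isWedge_altL {m : ℕ} (B : Fin m → W [⋀^Fin 2]→ₗ[k] k) :
    IsWedge B (altL (mmG 1 fun l => toBil (B l))) := by
  intro v
  change MultilinearMap.alternatization _ v = _
  rw [MultilinearMap.alternatization_apply]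
  refine Finset.sum_congr rfl fun σ _ => ?_
  rw [Units.smul_def, zsmul_eq_mul]
  rfl

theorem wedge_mem [FiniteDimensional k W] {m : ℕ} {D : Set (W [⋀^Fin 2]→ₗ[k] k)}
    {C : Set (W [⋀^Fin m × Fin 2]→ₗ[k] k)}
    (hC : ∀ (B : Fin m → W [⋀^Fin 2]→ₗ[k] k) (g), (∀ l, B l ∈ D) → IsWedge B g → g ∈ C)
    {B : Fin m → W [⋀^Fin 2]→ₗ[k] k} (hB : ∀ l, B l ∈ Submodule.span k D)
    {g : W [⋀^Fin m × Fin 2]→ₗ[k] k} (hg : IsWedge B g) : g ∈ Submodule.span k C := by
  have h1 : g = altL (mmG 1 fun l => toBil (B l)) := by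
    ext v
    rw [hg v, isWedge_altL B v]
  have h2 := mmG_mem_span (1 : Equiv.Perm (Fin m × Fin 2)) (toBil '' D)
    (fun l => toBil (B l)) (fun l => by
      rw [← Submodule.map_span]
      exact Submodule.mem_map_of_mem (hB l))
  rw [h1]
  have h3 := Submodule.mem_map_of_mem (f := altL) h2
  rw [Submodule.map_span] at h3
  refine Submodule.span_mono ?_ h3
  rintro _ ⟨_, ⟨b, hb, rfl⟩, rfl⟩
  choose B' hB' hb' using hb
  have h4 : b = fun l => toBil (B' l) := funext fun l => (hb' l).symm
  rw [h4]
  exact hC B' _ hB' (isWedge_altL B')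

end wedge

section main

variable {k V Γ : Type} [Field k] [CharZero k] [AddCommGroup V] [Module k V]
  [FiniteDimensional k V] [Group Γ]

theorem pull_apply (ρ : Representation k Γ V) (s : Γ) {r m : ℕ}
    (f : (Fin r → V) [⋀^Fin m × Fin 2]→ₗ[k] k) (v : Fin m × Fin 2 → Fin r → V) :
    pull ρ s f v = f (fun l i => ρ s (v l i)) := rfl

omit [CharZero k] [FiniteDimensional k V] in
/-- The semisimplicity of the cohomology of the powers gives the classes on open subvarieties. -/
theorem open_of_closed {ρ : Representation k Γ V} {χ : Γ →* k}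
    {D : ∀ r : ℕ, Set ((Fin r → V) [⋀^Fin 2]→ₗ[k] k)} (hD : IsDivisorClasses ρ χ D)
    (h : ∀ (r m : ℕ) (f : (Fin r → V) [⋀^Fin m × Fin 2]→ₗ[k] k), IsTateClass ρ χ m f →
      f ∈ Submodule.span k (intersections D r m))
    (Δ : Subgroup Γ) (hΔ : Δ.FiniteIndex) (r m : ℕ)
    (W : Submodule k ((Fin r → V) [⋀^Fin m × Fin 2]→ₗ[k] k)) (hW : IsStable ρ Δ W)
    (f : (Fin r → V) [⋀^Fin m × Fin 2]→ₗ[k] k)
    (hf : ∀ s ∈ Δ, pull ρ s f - χ s ^ m • f ∈ W) :
    f ∈ Submodule.span k (intersections D r m) ⊔ W := by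
  obtain ⟨W', hW', hc⟩ := hD.semisimple Δ hΔ r m W hW
  have h1 : f ∈ W ⊔ W' := by rw [hc.sup_eq_top]; trivial
  obtain ⟨a, ha, b, hb, rfl⟩ := Submodule.mem_sup.1 h1
  have h2 : IsTateClass ρ χ m b := by
    refine ⟨Δ, hΔ, fun s hs v => ?_⟩
    have h3 : pull ρ s b - χ s ^ m • b ∈ W := by
      have h4 := W.sub_mem (hf s hs) (W.sub_mem (hW s hs a ha) (W.smul_mem (χ s ^ m) ha))
      convert h4 using 1
      have h5 : pull ρ s (a + b) = pull ρ s a + pull ρ s b := by
        ext v
        rfl
      rw [h5, smul_add]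
      abel
    have h4 : pull ρ s b - χ s ^ m • b ∈ W' :=
      W'.sub_mem (hW' s hs b hb) (W'.smul_mem _ hb)
    have h5 : pull ρ s b - χ s ^ m • b = 0 := by
      have h6 : pull ρ s b - χ s ^ m • b ∈ W ⊓ W' := ⟨h3, h4⟩
      rwa [hc.inf_eq_bot, Submodule.mem_bot] at h6
    have h6 := congrArg (fun g : (Fin r → V) [⋀^Fin m × Fin 2]→ₗ[k] k => g v) (sub_eq_zero.1 h5)
    exact h6
  rw [add_comm]
  exact Submodule.add_mem_sup (h r m b h2) ha

/-- Generation in degree two gives the algebraic classes. -/
theorem mem_of_generated {ρ : Representation k Γ V} {χ : Γ →* k}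
    {D : ∀ r : ℕ, Set ((Fin r → V) [⋀^Fin 2]→ₗ[k] k)} (hD : IsDivisorClasses ρ χ D)
    (h : TateGeneratedInDegreeTwo ρ χ) (r m : ℕ) (f : (Fin r → V) [⋀^Fin m × Fin 2]→ₗ[k] k)
    (hf : IsTateClass ρ χ m f) : f ∈ Submodule.span k (intersections D r m) := by
  refine Submodule.span_le.2 ?_ (h r m f hf)
  rintro e ⟨B, hB, he⟩
  exact wedge_mem (D := D r) (C := intersections D r m) (fun B e h1 h2 => ⟨B, h1, h2⟩)
    (fun l => hD.divisors r (B l) (hB l)) he

theorem generated_of_frobenius {w h n p a : ℕ} (g : Comb.Good w h n) (hp : p.Prime)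
    (hp2 : p ≠ 2) (ha : Odd a) (h8 : p % 8 ≠ n % 8) (hpn : p ≠ n)
    (hph : ((p : ℕ) : ZMod n) ^ h ≠ 1)
    {ρ : Representation k Γ V} {χ : Γ →* k} {ω : V →ₗ[k] V →ₗ[k] k} (hR : IsTateModule ρ χ ω)
    (hF : FrobeniusOfPrimeOrder ρ χ p a n) : TateGeneratedInDegreeTwo ρ χ := by
  obtain ⟨γ, P, F, h1, h2, h3, h4, h5⟩ := hF
  have hn := g.n_ge
  have hfin : Module.finrank (ZMod 2) (Fin (n - 1) → ZMod 2) = n - 1 := by
    rw [Module.finrank_fintype_fun_eq_card, Fintype.card_fin]
  have h6 := g.charpoly_eq hfin F h4 h5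
  have hP : P.Monic := by
    apply monic_of_injective (f := Int.castRingHom k) (RingHom.injective_int _)
    rw [← h2]
    exact (ρ γ).charpoly_monic
  exact Gen.generated g hp hp2 ha h8 hpn hph hP (by rw [← h3, h6]) hR.alternating
    hR.nondegenerate hR.equivariant hR.semisimple γ h1 h2

theorem generated_of_curve {w h n p a : ℕ} (g : Comb.Good w h n) (hp : p.Prime)
    (hp2 : p ≠ 2) (ha : Odd a) (h8 : p % 8 ≠ n % 8) (hpn : p ≠ n)
    (hph : ((p : ℕ) : ZMod n) ^ h ≠ 1)
    {ρ : Representation k Γ V} {χ : Γ →* k} {ω : V →ₗ[k] V →ₗ[k] k} (hR : IsTateModule ρ χ ω)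
    (hV : Module.finrank k V = n - 1)
    (hF : HyperellipticReduction ρ χ p a n) : TateGeneratedInDegreeTwo ρ χ := by
  obtain ⟨γ, κ, _, _, f, h1, h2, h3, h4, h5⟩ := hF
  have hn := g.n_ge
  have hκ : (2 : κ) ≠ 0 := by
    intro h0
    obtain ⟨c, hc⟩ := CharP.exists κ
    have hcp : c.Prime := CharP.char_is_prime κ c
    have h6 : c ∣ 2 := by
      rw [← CharP.cast_eq_zero_iff κ c]
      exact_mod_cast h0
    have h7 : c = 2 := (Nat.prime_dvd_prime_iff_eq hcp Nat.prime_two).1 h6
    have h8 : c ∣ Fintype.card κ := by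
      rw [← CharP.cast_eq_zero_iff κ c]
      exact Nat.cast_card_eq_zero κ
    rw [h2, h7] at h8
    have h9 := Nat.prime_two.dvd_of_dvd_pow h8
    exact hp2 ((Nat.prime_dvd_prime_iff_eq Nat.prime_two hp).1 h9).symm
  obtain ⟨P, hP, hmod, hc⟩ := Count.main hκ h3 h4 (by omega) (ρ γ) hV h5
  exact Gen.generated g hp hp2 ha h8 hpn hph hP hmod hR.alternating
    hR.nondegenerate hR.equivariant hR.semisimple γ h1 hc

end main

end Pool.Agent.T6.H36
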