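import Pool.Agent.T6.H36.NFDefs
import Pool.Agent.T6.H36.TMGen
import Pool.Agent.T6.H36.Defs
import Pool.Agent.R401.Tr2

/-!
# Abelian varieties over number fields with a large field of points of order `l`
-/

set_option autoImplicit false

namespace Pool.Agent.T6.H36.NF

open NumberField IsDedekindDomain Polynomial Pool.Agent.W401.Cheb Pool.Agent.H204R3.GP

/-- The norm of a prime ideal is prime to the primes that it does not divide. -/
theorem mem_of_dvd_norm {K : Type} [Field K] [NumberField K] {l : ℕ} (hl : l.Prime)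
    (v : HeightOneSpectrum (𝓞 K)) (h : l ∣ Ideal.absNorm v.asIdeal) : (l : 𝓞 K) ∈ v.asIdeal := by
  haveI : Fact l.Prime := ⟨hl⟩
  haveI : Finite (𝓞 K ⧸ v.asIdeal) := Ideal.finiteQuotientOfFreeOfNeBot v.asIdeal v.ne_bot
  have h1 : l ∣ Nat.card (𝓞 K ⧸ v.asIdeal) := h
  obtain ⟨x, hx⟩ := exists_prime_addOrderOf_dvd_card' (G := 𝓞 K ⧸ v.asIdeal) l h1
  have h2 : l • x = 0 := by rw [← hx]; exact addOrderOf_nsmul_eq_zero x
  have h3 : x ≠ 0 := by
    rintro rfl
    rw [addOrderOf_zero] at hx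
    exact hl.one_lt.ne hx
  haveI : v.asIdeal.IsPrime := v.isPrime
  rw [nsmul_eq_mul] at h2
  have h4 : ((l : ℕ) : 𝓞 K ⧸ v.asIdeal) = 0 := (mul_eq_zero.1 h2).resolve_right h3
  rw [← map_natCast (Ideal.Quotient.mk v.asIdeal), Ideal.Quotient.eq_zero_iff_mem] at h4
  exact h4

/-- The condition on the orders in the case of one orbit. -/
theorem largeOrders {l g : ℕ} [Fact l.Prime] (g0 : 0 < g) {M : Type} [AddCommGroup M]
    [Module (ZMod l) M] [FiniteDimensional (ZMod l) M] {F : Module.End (ZMod l) M}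
    (hM : Module.finrank (ZMod l) M = 2 * g) (hF : IsUnit F) (hr : TG.HasPrimes l g (orderOf F)) :
    TM.HasLargeOrders F.charpoly := by
  classical
  haveI : NeZero (2 * g) := ⟨by omega⟩
  obtain ⟨x, hx, hinj, hroot, hprimes⟩ := TG.exists_x g0 hM hF hr
  have hdeg : F.charpoly.natDegree = 2 * g := by rw [LinearMap.charpoly_natDegree, hM]
  have hx0 : x ≠ 0 := by
    rintro rfl
    have hl := (Fact.out : l.Prime).ne_zero
    have h1 := hinj (a₁ := 0) (a₂ := 1) (by
      show (0 : TG.kk l) ^ l ^ _ = 0 ^ l ^ _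
      rw [zero_pow (pow_ne_zero _ hl), zero_pow (pow_ne_zero _ hl)])
    have : Fact (1 < 2 * g) := ⟨by omega⟩
    exact zero_ne_one h1
  refine ⟨Unit, inferInstance, inferInstance, fun _ => g, fun _ => x, fun _ => g0,
    fun _ _ _ => rfl, fun _ => ⟨hx0, hx⟩, ?_, ?_⟩
  · rw [Finset.univ_unique, Finset.prod_singleton]
    set P := F.charpoly with hP
    have hPm : P.Monic := LinearMap.charpoly_monic F
    have h0 : P.map (algebraMap (ZMod l) (TG.kk l)) ≠ 0 := (hPm.map _).ne_zero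
    have h1 : (Finset.univ.map ⟨_, hinj⟩).val ≤ (P.map (algebraMap (ZMod l) (TG.kk l))).roots := by
      rw [Multiset.le_iff_subset (Finset.nodup _)]
      intro r hr
      rw [Finset.mem_val, Finset.mem_map] at hr
      obtain ⟨i, _, rfl⟩ := hr
      rw [mem_roots h0, IsRoot.def, eval_map]
      exact hroot _
    have h2 : (P.map (algebraMap (ZMod l) (TG.kk l))).roots
        = (Finset.univ.map ⟨_, hinj⟩).val := by
      symm
      apply Multiset.eq_of_le_of_card_le h1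
      rw [Finset.card_val, Finset.card_map, Finset.card_univ, ZMod.card, ← hdeg]
      exact (card_roots' _).trans (natDegree_map_le)
    have h3 : (P.map (algebraMap (ZMod l) (TG.kk l))).Splits := IsAlgClosed.splits _
    have h4 := h3.eq_prod_roots_of_monic (hPm.map _)
    rw [h4, h2, Finset.map_val, Multiset.map_map]
    show ∏ i : ZMod (2 * g), (X - C (x ^ l ^ i.val)) = _
    symm
    show ∏ k ∈ Finset.range (2 * g), (X - C (x ^ l ^ k)) = ∏ i : ZMod (2 * g), (X - C (x ^ l ^ i.val))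
    refine Finset.prod_bij (fun (k : ℕ) _ => (k : ZMod (2 * g))) ?_ ?_ ?_ ?_
    · intro k _; exact Finset.mem_univ _
    · intro k hk k' hk' h
      have h5 := congrArg ZMod.val h
      rwa [ZMod.val_cast_of_lt (Finset.mem_range.1 hk),
        ZMod.val_cast_of_lt (Finset.mem_range.1 hk')] at h5
    · intro i _
      exact ⟨i.val, Finset.mem_range.2 (ZMod.val_lt i), ZMod.natCast_zmod_val i⟩
    · intro k hk
      rw [ZMod.val_cast_of_lt (Finset.mem_range.1 hk)]
  · intro _ d hd hdg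
    obtain ⟨r, h1, h2, h3, h4⟩ := hprimes d hd hdg
    exact ⟨r, h1, by rw [hdeg]; exact h2, h3, h4⟩

variable {K : Type} [Field K] [NumberField K] {ℓ l : ℕ} [Fact ℓ.Prime] [Fact l.Prime]
  {V M : Type} [AddCommGroup V] [Module ℚ_[ℓ] V] [FiniteDimensional ℚ_[ℓ] V]
  [AddCommGroup M] [Module (ZMod l) M] [FiniteDimensional (ZMod l) M]
  {ρ : Representation ℚ_[ℓ] (GK K) V} {χ : GK K →* ℚ_[ℓ]}
  {ω : V →ₗ[ℚ_[ℓ]] V →ₗ[ℚ_[ℓ]] ℚ_[ℓ]} {τ : Representation (ZMod l) (GK K) M}

theorem isUnit_rep (s : GK K) : IsUnit (τ s) := by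
  refine ⟨⟨τ s, τ s⁻¹, ?_, ?_⟩, rfl⟩
  · rw [← map_mul, mul_inv_cancel, map_one]
  · rw [← map_mul, inv_mul_cancel, map_one]

/-- The second condition implies the first. -/
theorem exists_large (h : HasLargeTorsionField τ) : ∃ s : GK K, TM.HasLargeOrders (τ s).charpoly := by
  rcases h with h | ⟨j, r, hM, hr, hjr, hord, hdvd⟩
  · exact h
  haveI : Fact r.Prime := ⟨hr⟩
  have hM' : Module.finrank (ZMod l) M = 2 * 2 ^ j := by rw [hM, pow_succ]; ring
  -- the image is finite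
  haveI : Finite M := Module.finite_of_finite (ZMod l)
  haveI : Finite (Module.End (ZMod l) M) := DFunLike.finite _
  let τ' : GK K →* (Module.End (ZMod l) M)ˣ := MonoidHom.toHomUnits τ
  have hτ' : ∀ s, ((τ' s : (Module.End (ZMod l) M)ˣ) : Module.End (ZMod l) M) = τ s := fun s => rfl
  have hker : MonoidHom.ker τ' = MonoidHom.ker τ := by
    ext s
    rw [MonoidHom.mem_ker, MonoidHom.mem_ker, Units.ext_iff, hτ', Units.val_one]
  haveI : Finite (Module.End (ZMod l) M)ˣ := inferInstance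
  haveI : Finite (GK K ⧸ MonoidHom.ker τ') :=
    Finite.of_injective _ (QuotientGroup.kerLift_injective τ')
  have h1 : r ∣ Nat.card (GK K ⧸ MonoidHom.ker τ') := by rw [hker]; exact hdvd
  obtain ⟨x, hx⟩ := exists_prime_orderOf_dvd_card' (G := GK K ⧸ MonoidHom.ker τ') r h1
  obtain ⟨s, rfl⟩ := QuotientGroup.mk_surjective x
  have h2 : orderOf (τ s) = r := by
    rw [← hx, ← hτ', orderOf_units,
      ← orderOf_injective (QuotientGroup.kerLift τ') (QuotientGroup.kerLift_injective τ')]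
    rfl
  refine ⟨s, largeOrders (g := 2 ^ j) (by positivity) hM' (isUnit_rep s) ?_⟩
  intro d hd hdg
  rw [← pow_succ'] at hd
  obtain ⟨i, hi, rfl⟩ := (Nat.dvd_prime_pow Nat.prime_two).1 hd
  have h3 : i = j + 1 := by
    by_contra h0
    exact hdg (pow_dvd_pow 2 (by omega))
  subst h3
  exact ⟨r, hr, by rw [← pow_succ']; exact hjr, by rw [h2], hord⟩

/-- **All Tate classes are generated in degree two.** -/
theorem generated (h : IsAbelianVariety ρ χ ω τ) (hτ : HasLargeTorsionField τ) :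
    TateGeneratedInDegreeTwo ρ χ := by
  obtain ⟨s₀, hs₀⟩ := exists_large hτ
  obtain ⟨S, hS, hfrob⟩ := h.frobenius
  have hS' : (S ∪ {v : HeightOneSpectrum (𝓞 K) | (l : 𝓞 K) ∈ v.asIdeal}).Finite :=
    hS.union (Pool.Agent.W352.ChAbs.over_le l (Fact.out : l.Prime)).1
  obtain ⟨v, hv, γ, hγ, hγU⟩ := Pool.Agent.R401.Tr2.exists_frob (MonoidHom.ker τ) h.continuous s₀ hS'
  rw [Set.mem_union, not_or, Set.mem_setOf_eq] at hv
  obtain ⟨hχ, P, hP1, hP2⟩ := hfrob v hv.1 γ hγ
  have h1 : τ γ = τ s₀ := by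
    have h2 : τ (s₀ * (s₀⁻¹ * γ)) = τ s₀ * 1 := by
      rw [map_mul, (MonoidHom.mem_ker).1 hγU]
    rwa [mul_inv_cancel_left, mul_one] at h2
  have hPm : P.Monic := by
    apply monic_of_injective (f := Int.castRingHom ℚ_[ℓ]) (RingHom.injective_int _)
    rw [← hP1]
    exact (ρ γ).charpoly_monic
  rw [h1] at hP2
  exact TM.generated (fun h0 => hv.2 (mem_of_dvd_norm (Fact.out : l.Prime) v h0)) hPm
    (by rw [← hP2]; exact hs₀) h.alternating h.nondegenerate h.equivariant h.semisimple γ hχ hP1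

/-- **The Tate conjecture for the powers of `A`.** -/
theorem tate (h : IsAbelianVariety ρ χ ω τ) (hτ : HasLargeTorsionField τ)
    {D : ∀ n : ℕ, Set ((Fin n → V) [⋀^Fin 2]→ₗ[ℚ_[ℓ]] ℚ_[ℓ])}
    {C : ∀ n m : ℕ, Set ((Fin n → V) [⋀^Fin m × Fin 2]→ₗ[ℚ_[ℓ]] ℚ_[ℓ])}
    (hC : IsCycleClasses ρ χ D C) (n m : ℕ) (f : (Fin n → V) [⋀^Fin m × Fin 2]→ₗ[ℚ_[ℓ]] ℚ_[ℓ])
    (hf : IsTateClass ρ χ m f) : f ∈ Submodule.span ℚ_[ℓ] (C n m) := by
  refine Submodule.span_le.2 ?_ (generated h hτ n m f hf)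
  rintro g ⟨B, hB, hg⟩
  exact wedge_mem (D := D n) (C := C n m) (fun B e h1 h2 => hC.intersections n m B e h1 h2)
    (fun i => hC.divisors n (B i) (hB i)) hg

end Pool.Agent.T6.H36.NF
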