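import Pool.Agent.T6.H36.BNPoly
import Pool.Agent.T6.H36.BNGen
import Pool.Agent.T6.H36.BNCheb
import Pool.Agent.T6.H36.NF

/-!
# Abelian varieties over number fields with connected monodromy and binary factors
-/

set_option autoImplicit false

namespace Pool.Agent.T6.H36.BN

open NumberField IsDedekindDomain Polynomial Module Pool.Agent.W401.Cheb Pool.Agent.H204R3.GP
  Topology

section continuity

variable {Γ : Type*} [Group Γ] [TopologicalSpace Γ] {ℓ : ℕ} [Fact ℓ.Prime]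
  {V : Type*} [AddCommGroup V] [Module ℚ_[ℓ] V] [FiniteDimensional ℚ_[ℓ] V]
  {ρ : Representation ℚ_[ℓ] Γ V} {χ : Γ →* ℚ_[ℓ]}

theorem cont_matrix (hc : IsContinuousRep ρ χ) (b : Basis (Fin (finrank ℚ_[ℓ] V)) ℚ_[ℓ] V) :
    Continuous fun s => LinearMap.toMatrix b b (ρ s) := by
  refine _root_.continuous_matrix fun i j => ?_
  simp only [LinearMap.toMatrix_apply]
  exact hc.rep (b j) (b.coord i)

theorem continuous_scalar (hc : IsContinuousRep ρ χ) (n : ℕ) (d : ℕ) :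
    Continuous fun s => Matrix.scalar (Fin d) (χ s ^ n) := by
  refine _root_.continuous_matrix fun i j => ?_
  simp only [Matrix.scalar_apply, Matrix.diagonal_apply]
  split_ifs
  · exact hc.char.pow n
  · exact continuous_const

theorem continuous_ff (hc : IsContinuousRep ρ χ) (N : ℕ) : Continuous (ff ρ χ N) := by
  let b := Module.finBasis ℚ_[ℓ] V
  have h1 : ff ρ χ N = fun s => ((LinearMap.toMatrix b b (ρ s)) ^ (2 * N) -
      Matrix.scalar (Fin (finrank ℚ_[ℓ] V)) (χ s ^ N)).det := funext (fun s => ff_eq b N s)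
  rw [h1]
  exact (((cont_matrix hc b).pow _).sub (continuous_scalar hc N _)).matrix_det

/-- The elements close to one. -/
theorem near_one (hc : IsContinuousRep ρ χ) {N : ℕ} (hN : N ≠ 0) :
    {s : Γ | ‖1 - χ s‖ < ‖(ρ s).charpoly.eval (-1)‖ ∧
      LinearMap.det (∑ i ∈ Finset.range N, (ρ s ^ 2) ^ i *
        (algebraMap ℚ_[ℓ] (Module.End ℚ_[ℓ] V) (χ s)) ^ (N - 1 - i)) ≠ 0} ∈ 𝓝 (1 : Γ) := by
  let b := Module.finBasis ℚ_[ℓ] V
  have h1 : Continuous fun s => (ρ s).charpoly.eval (-1) := by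
    have h2 : (fun s => (ρ s).charpoly.eval (-1)) = fun s =>
        (Matrix.scalar (Fin (finrank ℚ_[ℓ] V)) (-1 : ℚ_[ℓ]) - LinearMap.toMatrix b b (ρ s)).det := by
      funext s
      rw [← LinearMap.charpoly_toMatrix (ρ s) b, Matrix.eval_charpoly]
    rw [h2]
    exact (continuous_const.sub (cont_matrix hc b)).matrix_det
  have h2 : Continuous fun s => LinearMap.det (∑ i ∈ Finset.range N, (ρ s ^ 2) ^ i *
        (algebraMap ℚ_[ℓ] (Module.End ℚ_[ℓ] V) (χ s)) ^ (N - 1 - i)) := by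
    have h3 : (fun s => LinearMap.det (∑ i ∈ Finset.range N, (ρ s ^ 2) ^ i *
        (algebraMap ℚ_[ℓ] (Module.End ℚ_[ℓ] V) (χ s)) ^ (N - 1 - i))) = fun s =>
        (∑ i ∈ Finset.range N, ((LinearMap.toMatrix b b (ρ s)) ^ 2) ^ i *
          (Matrix.scalar (Fin (finrank ℚ_[ℓ] V)) (χ s ^ (N - 1 - i)))).det := by
      funext s
      rw [← LinearMap.det_toMatrix b, map_sum]
      congr 1
      refine Finset.sum_congr rfl (fun i _ => ?_)
      rw [LinearMap.toMatrix_mul, LinearMap.toMatrix_pow, LinearMap.toMatrix_pow,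
        ← map_pow (algebraMap ℚ_[ℓ] (Module.End ℚ_[ℓ] V)),
        LinearMap.toMatrix_algebraMap]
    rw [h3]
    refine Continuous.matrix_det (continuous_finset_sum _ (fun i _ => ?_))
    exact (((cont_matrix hc b).pow 2).pow i).mul (continuous_scalar hc _ _)
  have h3 : IsOpen {s : Γ | ‖1 - χ s‖ < ‖(ρ s).charpoly.eval (-1)‖ ∧
      LinearMap.det (∑ i ∈ Finset.range N, (ρ s ^ 2) ^ i *
        (algebraMap ℚ_[ℓ] (Module.End ℚ_[ℓ] V) (χ s)) ^ (N - 1 - i)) ≠ 0} := by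
    apply IsOpen.and
    · exact isOpen_lt (continuous_const.sub hc.char).norm h1.norm
    · exact isOpen_ne_fun h2 continuous_const
  apply h3.mem_nhds
  constructor
  · rw [map_one, sub_self, norm_zero, norm_pos_iff, ← LinearMap.charpoly_toMatrix (ρ 1) b,
      Matrix.eval_charpoly, map_one]
    have h4 : Matrix.scalar (Fin (finrank ℚ_[ℓ] V)) (-1 : ℚ_[ℓ]) -
        LinearMap.toMatrix b b (1 : Module.End ℚ_[ℓ] V) =
        Matrix.scalar (Fin (finrank ℚ_[ℓ] V)) (-2 : ℚ_[ℓ]) := by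
      rw [LinearMap.toMatrix_one]
      ext i j
      rw [Matrix.sub_apply, Matrix.scalar_apply, Matrix.scalar_apply, Matrix.diagonal_apply,
        Matrix.diagonal_apply, Matrix.one_apply]
      split_ifs <;> norm_num
    rw [h4, Matrix.scalar_apply, Matrix.det_diagonal, Finset.prod_const]
    exact pow_ne_zero _ (by norm_num)
  · have h4 : (∑ i ∈ Finset.range N, ((ρ (1 : Γ)) ^ 2) ^ i *
        (algebraMap ℚ_[ℓ] (Module.End ℚ_[ℓ] V) (χ 1)) ^ (N - 1 - i)) =
        (N : ℚ_[ℓ]) • (1 : Module.End ℚ_[ℓ] V) := by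
      simp only [map_one, one_pow, mul_one, Finset.sum_const, Finset.card_range]
      rw [← Nat.cast_smul_eq_nsmul ℚ_[ℓ]]
    rw [h4, LinearMap.det_smul, map_one, mul_one]
    exact pow_ne_zero _ (Nat.cast_ne_zero.2 hN)

end continuity

/-- An open normal subgroup in a neighborhood of one. -/
theorem exists_normal {K : Type} [Field K] [CharZero K] {A : Set (GK K)} (hA : A ∈ 𝓝 (1 : GK K)) :
    ∃ U : Subgroup (GK K), U.Normal ∧ IsOpen (U : Set (GK K)) ∧ (U : Set (GK K)) ⊆ A := by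
  obtain ⟨E, hE1, hE2, hE3⟩ := (krullTopology_mem_nhds_one_iff_of_normal K (AlgebraicClosure K) A).1 hA
  refine ⟨E.fixingSubgroup, ?_, E.fixingSubgroup_isOpen, hE3⟩
  rw [← IntermediateField.restrictNormalHom_ker E]
  infer_instance

variable {K : Type} [Field K] [NumberField K] {ℓ l : ℕ} [Fact ℓ.Prime] [Fact l.Prime]
  {V M : Type} [AddCommGroup V] [Module ℚ_[ℓ] V] [FiniteDimensional ℚ_[ℓ] V]
  [AddCommGroup M] [Module (ZMod l) M] [FiniteDimensional (ZMod l) M]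
  {ρ : Representation ℚ_[ℓ] (GK K) V} {χ : GK K →* ℚ_[ℓ]}
  {ω : V →ₗ[ℚ_[ℓ]] V →ₗ[ℚ_[ℓ]] ℚ_[ℓ]} {τ : Representation (ZMod l) (GK K) M}

/-- A good Frobenius element, if the function does not vanish on the coset. -/
theorem exists_good_of_ne (h : NF.IsAbelianVariety ρ χ ω τ) (hc : IsContinuousRep ρ χ) {N : ℕ}
    {σ s : GK K} (hs : τ s = τ σ) (hf : ff ρ χ N s ≠ 0)
    {S : Set (HeightOneSpectrum (𝓞 K))} (hS : S.Finite) :
    ∃ v ∉ S, ∃ γ : GK K, IsFrob v γ ∧ τ γ = τ σ ∧ ff ρ χ N γ ≠ 0 := by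
  have h1 : {u : GK K | ff ρ χ N (s * u) ≠ 0} ∈ 𝓝 (1 : GK K) := by
    apply (isOpen_ne_fun ((continuous_ff hc N).comp (continuous_const.mul continuous_id))
      continuous_const).mem_nhds
    show ff ρ χ N (s * 1) ≠ 0
    rwa [mul_one]
  obtain ⟨U, hU1, hU2, hU3⟩ := exists_normal h1
  haveI : (U ⊓ MonoidHom.ker τ).Normal := inferInstance
  obtain ⟨v, hv, γ, hγ, hγU, -⟩ := exists_frob_one (U ⊓ MonoidHom.ker τ)
    (by rw [Subgroup.coe_inf]; exact hU2.inter h.continuous) s hS 0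
  refine ⟨v, hv, γ, hγ, ?_, ?_⟩
  · have h2 : τ (s * (s⁻¹ * γ)) = τ s * 1 := by
      rw [map_mul, (MonoidHom.mem_ker).1 hγU.2]
    rwa [mul_inv_cancel_left, mul_one, hs] at h2
  · have h2 := hU3 hγU.1
    rwa [Set.mem_setOf_eq, mul_inv_cancel_left] at h2

/-- A good Frobenius element, for connected monodromy. -/
theorem exists_good (h : NF.IsAbelianVariety ρ χ ω τ) (hc : IsContinuousRep ρ χ)
    (hconn : IsConnectedMonodromy ρ) {u₀ v₀ : V} (h0 : ω u₀ v₀ ≠ 0) {N : ℕ} (hN : N ≠ 0)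
    (σ : GK K) {S : Set (HeightOneSpectrum (𝓞 K))} (hS : S.Finite) :
    ∃ v ∉ S, ∃ γ : GK K, IsFrob v γ ∧ τ γ = τ σ ∧ ff ρ χ N γ ≠ 0 := by
  by_cases hs : ∃ s, τ s = τ σ ∧ ff ρ χ N s ≠ 0
  · obtain ⟨s, hs1, hs2⟩ := hs
    exact exists_good_of_ne h hc hs1 hs2 hS
  exfalso
  push Not at hs
  haveI : (MonoidHom.ker τ).FiniteIndex := by
    haveI : Finite M := Module.finite_of_finite (ZMod l)
    haveI : Finite (Module.End (ZMod l) M) := DFunLike.finite _
    haveI : Finite (GK K ⧸ MonoidHom.ker τ) := Subgroup.quotient_finite_of_isOpen _ h.continuous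
    exact Subgroup.finiteIndex_of_finite_quotient
  have hzero : ∀ s, ff ρ χ N s = 0 := ff_zero h.equivariant h0 hconn (σ := σ)
    (Δ := MonoidHom.ker τ) inferInstance (fun s hs' => hs _ (by
      rw [map_mul, (MonoidHom.mem_ker).1 hs', mul_one]))
  obtain ⟨U, hU1, hU2, hU3⟩ := exists_normal (near_one hc hN)
  obtain ⟨S', hS', hfrob⟩ := h.frobenius
  obtain ⟨v, hv, γ, hγ, hγU, hpr, -⟩ := exists_frob_one U hU2 1 hS' 0
  rw [inv_one, one_mul] at hγU
  obtain ⟨hχ, P, hP1, -⟩ := hfrob v hv γ hγ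
  have h3 := hU3 hγU
  exact ff_ne hpr hP1 hχ h3.1 h3.2 (hzero γ)

end Pool.Agent.T6.H36.BN
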