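import Pool.Agent.T6.H36.BNDefs

/-!
# Polynomial functions on the image of a representation
-/

set_option autoImplicit false

namespace Pool.Agent.T6.H36.BN

open Module Polynomial Topology

/-- The determinant of `ρ(s) ^ (2 N) - χ(s) ^ N`. -/
noncomputable def ff {k V Γ : Type*} [Field k] [AddCommGroup V] [Module k V] [Group Γ]
    (ρ : Representation k Γ V) (χ : Γ →* k) (N : ℕ) (s : Γ) : k :=
  LinearMap.det (ρ s ^ (2 * N) - algebraMap k (Module.End k V) (χ s ^ N))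

section algebra

variable {k V Γ : Type*} [Field k] [AddCommGroup V] [Module k V] [FiniteDimensional k V] [Group Γ]
  {ρ : Representation k Γ V} {χ : Γ →* k} {ω : V →ₗ[k] V →ₗ[k] k}

theorem coeff_mem (σ : Γ) (u : V) (φ : Module.Dual k V) :
    (fun s => φ (ρ (σ * s) u)) ∈ polyFun ρ := by
  apply Algebra.subset_adjoin
  refine ⟨u, φ.comp (ρ σ), ?_⟩
  funext s
  rw [map_mul]
  rfl

theorem char_mem (hω : ∀ s u v, ω (ρ s u) (ρ s v) = χ s * ω u v) {u₀ v₀ : V} (h0 : ω u₀ v₀ ≠ 0)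
    (σ : Γ) : (fun s => χ (σ * s)) ∈ polyFun ρ := by
  classical
  let b := Module.finBasis k V
  have h1 : (fun s => χ (σ * s)) = (ω u₀ v₀)⁻¹ • ∑ i, ∑ j,
      (ω (b i) (b j)) • ((fun s => b.coord i (ρ (σ * s) u₀)) * (fun s => b.coord j (ρ (σ * s) v₀))) := by
    funext s
    have h2 : ω (ρ (σ * s) u₀) (ρ (σ * s) v₀) = ∑ i, ∑ j,
        ω (b i) (b j) * (b.coord i (ρ (σ * s) u₀) * b.coord j (ρ (σ * s) v₀)) := by
      conv_lhs => rw [← b.sum_repr (ρ (σ * s) u₀), ← b.sum_repr (ρ (σ * s) v₀)]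
      simp only [map_sum, LinearMap.sum_apply, map_smul, LinearMap.smul_apply, smul_eq_mul,
        Basis.coord_apply, Finset.mul_sum]
      rw [Finset.sum_comm]
      refine Finset.sum_congr rfl (fun i _ => Finset.sum_congr rfl (fun j _ => ?_))
      ring
    rw [Pi.smul_apply, Finset.sum_apply]
    simp only [Finset.sum_apply, Pi.smul_apply, Pi.mul_apply, smul_eq_mul]
    rw [← h2, hω, mul_comm (χ (σ * s)), ← mul_assoc, inv_mul_cancel₀ h0, one_mul]
  rw [h1]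
  apply Subalgebra.smul_mem
  refine Subalgebra.sum_mem _ (fun i _ => Subalgebra.sum_mem _ (fun j _ => ?_))
  exact Subalgebra.smul_mem _ (Subalgebra.mul_mem _ (coeff_mem σ _ _) (coeff_mem σ _ _)) _

theorem ff_eq (b : Basis (Fin (finrank k V)) k V) (N : ℕ) (s : Γ) :
    ff ρ χ N s = ((LinearMap.toMatrix b b (ρ s)) ^ (2 * N) -
      Matrix.scalar (Fin (finrank k V)) (χ s ^ N)).det := by
  unfold ff
  rw [← LinearMap.det_toMatrix b, map_sub, LinearMap.toMatrix_pow]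
  congr 2
  rw [LinearMap.toMatrix_algebraMap]

theorem ff_mem (hω : ∀ s u v, ω (ρ s u) (ρ s v) = χ s * ω u v) {u₀ v₀ : V} (h0 : ω u₀ v₀ ≠ 0)
    (σ : Γ) (N : ℕ) : (fun s => ff ρ χ N (σ * s)) ∈ polyFun ρ := by
  classical
  let b := Module.finBasis k V
  let M : Matrix (Fin (finrank k V)) (Fin (finrank k V)) (polyFun ρ) :=
    Matrix.of fun i j => ⟨fun s => b.coord i (ρ (σ * s) (b j)), coeff_mem σ _ _⟩
  let c : polyFun ρ := ⟨fun s => χ (σ * s), char_mem hω h0 σ⟩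
  let D : polyFun ρ := (M ^ (2 * N) - Matrix.scalar (Fin (finrank k V)) (c ^ N)).det
  have h1 : (fun s => ff ρ χ N (σ * s)) = (D : Γ → k) := by
    funext s
    let ev : polyFun ρ →+* k := (Pi.evalRingHom (fun _ : Γ => k) s).comp (polyFun ρ).val.toRingHom
    have h2 : (D : Γ → k) s = ev D := rfl
    have hM : ev.mapMatrix M = LinearMap.toMatrix b b (ρ (σ * s)) := by
      ext i j
      rw [RingHom.mapMatrix_apply, Matrix.map_apply, LinearMap.toMatrix_apply]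
      rfl
    have hS : ev.mapMatrix (Matrix.scalar (Fin (finrank k V)) (c ^ N)) =
        Matrix.scalar (Fin (finrank k V)) (χ (σ * s) ^ N) := by
      ext i j
      rw [RingHom.mapMatrix_apply, Matrix.map_apply, Matrix.scalar_apply, Matrix.scalar_apply,
        Matrix.diagonal_apply, Matrix.diagonal_apply]
      split_ifs with h
      · rw [map_pow]; rfl
      · rw [map_zero]
    rw [h2, ff_eq b, RingHom.map_det, map_sub, map_pow ev.mapMatrix, hM, hS]
  rw [h1]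
  exact D.2

/-- If the function vanishes on a coset, then it vanishes everywhere. -/
theorem ff_zero (hω : ∀ s u v, ω (ρ s u) (ρ s v) = χ s * ω u v) {u₀ v₀ : V} (h0 : ω u₀ v₀ ≠ 0)
    (hc : IsConnectedMonodromy ρ) {σ : Γ} {N : ℕ} {Δ : Subgroup Γ} (hΔ : Δ.FiniteIndex)
    (h : ∀ s ∈ Δ, ff ρ χ N (σ * s) = 0) (s : Γ) : ff ρ χ N s = 0 := by
  have h1 := hc _ (ff_mem hω h0 σ N) Δ hΔ h (σ⁻¹ * s)
  simp only [mul_inv_cancel_left] at h1
  exact h1

end algebra

/-- A Frobenius element of degree one that is close to one. -/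
theorem ff_ne {V Γ : Type*} {ℓ : ℕ} [Fact ℓ.Prime] [AddCommGroup V] [Module ℚ_[ℓ] V]
    [FiniteDimensional ℚ_[ℓ] V] [Group Γ] {ρ : Representation ℚ_[ℓ] Γ V} {χ : Γ →* ℚ_[ℓ]}
    {p N : ℕ} (hp : p.Prime) {P : ℤ[X]} {γ : Γ} (hP : (ρ γ).charpoly = P.map (Int.castRingHom ℚ_[ℓ]))
    (hχ : χ γ = (p : ℚ_[ℓ]))
    (h1 : ‖1 - χ γ‖ < ‖(ρ γ).charpoly.eval (-1)‖)
    (h2 : LinearMap.det (∑ i ∈ Finset.range N, (ρ γ ^ 2) ^ i *
      (algebraMap ℚ_[ℓ] (Module.End ℚ_[ℓ] V) (χ γ)) ^ (N - 1 - i)) ≠ 0) :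
    ff ρ χ N γ ≠ 0 := by
  have hcomm : Commute (ρ γ ^ 2) (algebraMap ℚ_[ℓ] (Module.End ℚ_[ℓ] V) (χ γ)) :=
    (Algebra.commutes _ _).symm
  have h3 := hcomm.geom_sum₂_mul N
  unfold ff
  rw [pow_mul, map_pow, ← h3, map_mul]
  apply mul_ne_zero h2
  intro h4
  -- the polynomials are not coprime
  have hPm : P.Monic := by
    apply monic_of_injective (f := Int.castRingHom ℚ_[ℓ]) (RingHom.injective_int _)
    rw [← hP]
    exact (ρ γ).charpoly_monic
  have h5 : ¬ IsCoprime ((X ^ 2 - C (p : ℤ) : ℤ[X]).map (Int.castRingHom ℚ))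
      (P.map (Int.castRingHom ℚ)) := by
    intro hcop
    have h6 := hcop.map (mapRingHom (algebraMap ℚ ℚ_[ℓ]))
    simp only [coe_mapRingHom, Polynomial.map_map] at h6
    have h7 : (algebraMap ℚ ℚ_[ℓ]).comp (Int.castRingHom ℚ) = Int.castRingHom ℚ_[ℓ] :=
      RingHom.ext_int _ _
    rw [h7, ← hP] at h6
    obtain ⟨a, b, hab⟩ := h6
    have h8 := congrArg (aeval (ρ γ)) hab
    rw [map_add, map_mul, map_mul, LinearMap.aeval_self_charpoly, mul_zero, add_zero, map_one] at h8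
    have h9 := congrArg LinearMap.det h8
    rw [map_mul, map_one] at h9
    have h10 : aeval (ρ γ) ((X ^ 2 - C (p : ℤ) : ℤ[X]).map (Int.castRingHom ℚ_[ℓ]))
        = ρ γ ^ 2 - algebraMap ℚ_[ℓ] (Module.End ℚ_[ℓ] V) (χ γ) := by
      rw [Polynomial.map_sub, Polynomial.map_pow, map_X, map_C, map_sub, map_pow, aeval_X, aeval_C,
        hχ]
      simp
    rw [h10, h4, mul_zero] at h9
    exact zero_ne_one h9
  have hirr : Irreducible ((X ^ 2 - C (p : ℤ) : ℤ[X]).map (Int.castRingHom ℚ)) := by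
    rw [Polynomial.map_sub, Polynomial.map_pow, map_X, map_C]
    apply (X_pow_sub_C_irreducible_iff_of_prime Nat.prime_two).2
    intro b hb
    have h6 : (b : ℚ) ^ 2 = (p : ℚ) := by rw [hb]; simp
    have h7 : Irrational (Real.sqrt p) := hp.irrational_sqrt
    apply h7
    refine ⟨|b|, ?_⟩
    symm
    rw [Real.sqrt_eq_iff_mul_self_eq (by positivity) (by positivity)]
    have h8 := congrArg (fun x : ℚ => (x : ℝ)) h6
    simp only [Rat.cast_pow, Rat.cast_natCast] at h8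
    push_cast
    rw [← h8, ← pow_two, sq_abs]
  have h6 : (X ^ 2 - C (p : ℤ) : ℤ[X]).map (Int.castRingHom ℚ) ∣ P.map (Int.castRingHom ℚ) := by
    by_contra h
    exact h5 (hirr.coprime_iff_not_dvd.2 h)
  have hmon : (X ^ 2 - C (p : ℤ) : ℤ[X]).Monic := monic_X_pow_sub_C _ two_ne_zero
  obtain ⟨R, hR⟩ := (Polynomial.map_dvd_map (Int.castRingHom ℚ) (RingHom.injective_int _) hmon).1 h6
  have h7 : (ρ γ).charpoly.eval (-1) = (1 - χ γ) * ((R.eval (-1) : ℤ) : ℚ_[ℓ]) := by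
    rw [hP, hR, eval_map, eval₂_mul, eval₂_sub, eval₂_pow, eval₂_X, eval₂_C, hχ]
    have h8 : eval₂ (Int.castRingHom ℚ_[ℓ]) (-1) R = ((R.eval (-1) : ℤ) : ℚ_[ℓ]) := by
      have h9 := hom_eval₂ R (RingHom.id ℤ) (Int.castRingHom ℚ_[ℓ]) (-1)
      rw [eval₂_id, RingHom.comp_id, map_neg, map_one] at h9
      exact h9.symm
    rw [h8]
    simp
  rw [h7, norm_mul] at h1
  have h8 := Padic.norm_int_le_one (p := ℓ) (R.eval (-1))
  have h9 : ‖1 - χ γ‖ * ‖((R.eval (-1) : ℤ) : ℚ_[ℓ])‖ ≤ ‖1 - χ γ‖ :=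
    mul_le_of_le_one_right (norm_nonneg _) h8
  exact absurd h1 (not_lt.2 h9)

end Pool.Agent.T6.H36.BN
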