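import Pool.Agent.T6.H36.BNNF

/-!
# The Tate conjecture for abelian varieties over number fields with binary factors
-/

set_option autoImplicit false

namespace Pool.Agent.T6.H36.BN

open NumberField IsDedekindDomain Polynomial Module Pool.Agent.W401.Cheb Pool.Agent.H204R3.GP

theorem two_le_of_binary {l : ℕ} [Fact l.Prime] {Q : (ZMod l)[X]} (h : HasBinaryFactors Q) :
    2 ≤ Q.natDegree := by
  obtain ⟨S, f, ⟨k₀, hk₀⟩, hf, rfl⟩ := h
  rw [natDegree_prod_of_monic _ _ (fun k hk => (hf k hk).1)]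
  refine le_trans ?_ (Finset.single_le_sum (f := fun k => (f k).natDegree)
    (fun i _ => Nat.zero_le _) hk₀)
  rw [(hf k₀ hk₀).2.2, pow_succ]
  have := Nat.one_le_two_pow (n := k₀)
  omega

variable {K : Type} [Field K] [NumberField K] {ℓ l : ℕ} [Fact ℓ.Prime] [Fact l.Prime]
  {V M : Type} [AddCommGroup V] [Module ℚ_[ℓ] V] [FiniteDimensional ℚ_[ℓ] V]
  [AddCommGroup M] [Module (ZMod l) M] [FiniteDimensional (ZMod l) M]
  {ρ : Representation ℚ_[ℓ] (GK K) V} {χ : GK K →* ℚ_[ℓ]}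
  {ω : V →ₗ[ℚ_[ℓ]] V →ₗ[ℚ_[ℓ]] ℚ_[ℓ]} {τ : Representation (ZMod l) (GK K) M}

/-- The dimensions of the two representations are equal. -/
theorem finrank_eq (h : NF.IsAbelianVariety ρ χ ω τ) :
    finrank ℚ_[ℓ] V = finrank (ZMod l) M := by
  obtain ⟨S, hS, hfrob⟩ := h.frobenius
  obtain ⟨v, hv, γ, hγ, -⟩ :=
    Pool.Agent.R401.Tr2.exists_frob (MonoidHom.ker τ) h.continuous 1 hS
  obtain ⟨-, P, hP1, hP2⟩ := hfrob v hv γ hγ
  have hPm : P.Monic := by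
    apply monic_of_injective (f := Int.castRingHom ℚ_[ℓ]) (RingHom.injective_int _)
    rw [← hP1]
    exact (ρ γ).charpoly_monic
  rw [← LinearMap.charpoly_natDegree (ρ γ), ← LinearMap.charpoly_natDegree (τ γ), hP1, hP2,
    hPm.natDegree_map, hPm.natDegree_map]

/-- **All Tate classes are generated in degree two.** -/
theorem generated_nf (h : NF.IsAbelianVariety ρ χ ω τ) (hc : IsContinuousRep ρ χ)
    (hconn : IsConnectedMonodromy ρ) {σ : GK K} (hσ : HasBinaryFactors (τ σ).charpoly) :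
    TateGeneratedInDegreeTwo ρ χ := by
  obtain ⟨S, hS, hfrob⟩ := h.frobenius
  have hS' : (S ∪ {v : HeightOneSpectrum (𝓞 K) | (l : 𝓞 K) ∈ v.asIdeal}).Finite :=
    hS.union (Pool.Agent.W352.ChAbs.over_le l (Fact.out : l.Prime)).1
  have h2 : 2 ≤ finrank ℚ_[ℓ] V := by
    rw [finrank_eq h, ← LinearMap.charpoly_natDegree (τ σ)]
    exact two_le_of_binary hσ
  haveI : Nontrivial V := nontrivial_of_finrank_pos (R := ℚ_[ℓ]) (by omega)
  obtain ⟨v₀, hv₀⟩ := exists_ne (0 : V)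
  obtain ⟨u₀, h0⟩ : ∃ u₀, ω u₀ v₀ ≠ 0 := by
    by_contra h0
    push Not at h0
    exact hv₀ (h.nondegenerate v₀ h0)
  obtain ⟨v, hv, γ, hγ, hγτ, hγf⟩ := exists_good h hc hconn h0
    (N := NN (finrank ℚ_[ℓ] V)) (Nat.factorial_ne_zero _) σ hS'
  rw [Set.mem_union, not_or, Set.mem_setOf_eq] at hv
  obtain ⟨hχ, P, hP1, hP2⟩ := hfrob v hv.1 γ hγ
  have hPm : P.Monic := by
    apply monic_of_injective (f := Int.castRingHom ℚ_[ℓ]) (RingHom.injective_int _)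
    rw [← hP1]
    exact (ρ γ).charpoly_monic
  rw [hγτ] at hP2
  unfold ff at hγf
  rw [hχ] at hγf
  exact generated (fun h0 => hv.2 (NF.mem_of_dvd_norm (Fact.out : l.Prime) v h0)) hPm
    (by rw [← hP2]; exact hσ.hasBlocks) h.alternating h.nondegenerate h.equivariant h.semisimple γ
    hχ hP1 hγf

/-- **The Tate conjecture for the powers of `A`.** -/
theorem tate (h : NF.IsAbelianVariety ρ χ ω τ) (hc : IsContinuousRep ρ χ)
    (hconn : IsConnectedMonodromy ρ) {σ : GK K} (hσ : HasBinaryFactors (τ σ).charpoly)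
    {D : ∀ n : ℕ, Set ((Fin n → V) [⋀^Fin 2]→ₗ[ℚ_[ℓ]] ℚ_[ℓ])}
    {C : ∀ n m : ℕ, Set ((Fin n → V) [⋀^Fin m × Fin 2]→ₗ[ℚ_[ℓ]] ℚ_[ℓ])}
    (hC : NF.IsCycleClasses ρ χ D C) (n m : ℕ) (f : (Fin n → V) [⋀^Fin m × Fin 2]→ₗ[ℚ_[ℓ]] ℚ_[ℓ])
    (hf : IsTateClass ρ χ m f) : f ∈ Submodule.span ℚ_[ℓ] (C n m) := by
  refine Submodule.span_le.2 ?_ (generated_nf h hc hconn hσ n m f hf)
  rintro g ⟨B, hB, hg⟩
  exact wedge_mem (D := D n) (C := C n m) (fun B e h1 h2 => hC.intersections n m B e h1 h2)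
    (fun i => hC.divisors n (B i) (hB i)) hg

end Pool.Agent.T6.H36.BN
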