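import Mathlib

/-!
# Irreducibility of the composites with Dickson (Chebyshev) polynomials
-/

set_option autoImplicit false

namespace Pool.Agent.T6.H36.CV

open Polynomial IntermediateField

section dick

/-- `D_n (x + y) = x ^ n + y ^ n` for `x y = α`. -/
theorem dickson_eval {R : Type*} [CommRing R] (α x y : R) (h : x * y = α) :
    ∀ n, (dickson 1 α n).eval (x + y) = x ^ n + y ^ n
  | 0 => by
    simp only [pow_zero, dickson_zero]
    norm_num
  | 1 => by simp only [eval_X, dickson_one, pow_one]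
  | n + 2 => by
    rw [dickson_add_two, eval_sub, eval_mul, eval_mul, eval_X, eval_C, dickson_eval α x y h (n + 1),
      dickson_eval α x y h n, ← h]
    ring

theorem dickson_deg {R : Type*} [CommRing R] [Nontrivial R] (α : R) :
    ∀ n, (dickson 1 α (n + 1)).natDegree = n + 1 ∧ (dickson 1 α (n + 1)).Monic
  | 0 => by
    rw [zero_add, dickson_one]
    exact ⟨natDegree_X, monic_X⟩
  | 1 => by
    have h : dickson 1 α 2 = X ^ 2 - C (2 * α) := by
      rw [dickson_two, map_mul]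
      have : (C (2 : R) : R[X]) = 2 := map_ofNat C 2
      rw [this]
      push_cast
      ring
    rw [show (1 + 1 : ℕ) = 2 from rfl, h]
    exact ⟨natDegree_X_pow_sub_C, monic_X_pow_sub_C _ two_ne_zero⟩
  | n + 2 => by
    obtain ⟨h1, h1'⟩ := dickson_deg α (n + 1)
    obtain ⟨h2, h2'⟩ := dickson_deg α n
    have e : dickson 1 α (n + 2 + 1) = X * dickson 1 α (n + 1 + 1) - C α * dickson 1 α (n + 1) :=
      dickson_add_two 1 α (n + 1)
    have hm : (X * dickson 1 α (n + 1 + 1)).Monic := monic_X.mul h1'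
    have hd : (X * dickson 1 α (n + 1 + 1)).natDegree = n + 2 + 1 := by
      rw [monic_X.natDegree_mul h1', natDegree_X, h1]
      ring
    have hlt : (C α * dickson 1 α (n + 1)).natDegree < (X * dickson 1 α (n + 1 + 1)).natDegree := by
      rw [hd]
      refine lt_of_le_of_lt (natDegree_C_mul_le _ _) ?_
      rw [h2]
      omega
    rw [e]
    refine ⟨?_, hm.sub_of_left (degree_lt_degree hlt)⟩
    rw [natDegree_sub_eq_left_of_natDegree_lt hlt, hd]

end dick

section ch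

variable {k : Type*} [Field k]

/-- The Chebyshev polynomial of the torus `x ^ 2 - α y ^ 2 = 1`: for odd `m` and `z ^ 2 = α` it maps
`z (w + 1 / w)` to `z (w ^ m + 1 / w ^ m)`. -/
noncomputable def Ch (α : k) (m : ℕ) : k[X] := C ((α ^ ((m - 1) / 2))⁻¹) * dickson 1 α m

theorem Ch_deg {α : k} (hα : α ≠ 0) {m : ℕ} (hm : Odd m) : (Ch α m).natDegree = m := by
  obtain ⟨n, rfl⟩ : ∃ n, m = n + 1 := ⟨m - 1, by have := hm.pos; omega⟩
  unfold Ch
  rw [natDegree_C_mul (inv_ne_zero (pow_ne_zero _ hα)), (dickson_deg α n).1]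

theorem Ch_aeval {Ω : Type*} [Field Ω] [Algebra k Ω] {α : k} (hα : α ≠ 0) {m : ℕ} (hm : Odd m)
    {x y : Ω} (hx : x ≠ 0) (hy : y ^ m = algebraMap k Ω (α ^ ((m - 1) / 2)) * x) :
    aeval (y + algebraMap k Ω α / y) (Ch α m) = x + algebraMap k Ω α / x := by
  have hα' : algebraMap k Ω α ≠ 0 := (_root_.map_ne_zero _).2 hα
  have hp : algebraMap k Ω (α ^ ((m - 1) / 2)) ≠ 0 := (_root_.map_ne_zero _).2 (pow_ne_zero _ hα)
  have hy0 : y ≠ 0 := by
    rintro rfl
    rw [zero_pow hm.pos.ne'] at hy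
    exact mul_ne_zero hp hx hy.symm
  unfold Ch
  rw [map_mul, aeval_C, ← eval_map_algebraMap, map_dickson,
    dickson_eval _ y (algebraMap k Ω α / y) (mul_div_cancel₀ _ hy0), div_pow, hy, map_inv₀]
  have e : algebraMap k Ω α ^ m = algebraMap k Ω (α ^ ((m - 1) / 2)) *
      algebraMap k Ω (α ^ ((m - 1) / 2)) * algebraMap k Ω α := by
    rw [← map_mul, ← map_mul, ← map_pow]
    congr 1
    obtain ⟨j, rfl⟩ := hm
    rw [show (2 * j + 1 - 1) / 2 = j by omega]
    ring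
  rw [e]
  field_simp

/-- No element `x` of the torus above a root of `f` satisfies: `x ^ 2 / α` is an `ℓ`-th power in
`k(x)`. -/
def NoTorusPower (f : k[X]) (α : k) (ℓ : ℕ) : Prop :=
  ∀ x : AlgebraicClosure k, x ≠ 0 → aeval (x + algebraMap k _ α / x) f = 0 → ∀ y ∈ k⟮x⟯,
    algebraMap k _ α * y ^ ℓ ≠ x ^ 2

theorem irr_of_degree {Ω : Type*} [Field Ω] [Algebra k Ω] {p : k[X]} {t : Ω} (hp : p ≠ 0)
    (h0 : aeval t p = 0) (h : p.natDegree ≤ (minpoly k t).natDegree) : Irreducible p := by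
  have hint : IsIntegral k t := (IsAlgebraic.isIntegral ⟨p, hp, h0⟩)
  obtain ⟨q, hq⟩ := minpoly.dvd k t h0
  have hq0 : q ≠ 0 := by
    rintro rfl
    exact hp (by rw [hq, mul_zero])
  have hd : q.natDegree = 0 := by
    have h1 := congrArg natDegree hq
    rw [natDegree_mul (minpoly.ne_zero hint) hq0] at h1
    omega
  rw [hq]
  have hu : IsUnit q := by
    rw [eq_C_of_natDegree_eq_zero hd]
    exact isUnit_C.2 (isUnit_iff_ne_zero.2 fun h2 => hq0 (by
      rw [eq_C_of_natDegree_eq_zero hd, h2, C_0]))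
  exact (irreducible_mul_isUnit hu).2 (minpoly.irreducible hint)

theorem irr_Ch_aux {Ω : Type*} [Field Ω] [Algebra k Ω] [IsAlgClosed Ω] [Algebra.IsAlgebraic k Ω]
    {π : k[X]} (hπ : Irreducible π) {α : k} (hα : α ≠ 0) {m : ℕ} (hm : Odd m)
    (h : ∀ ℓ : ℕ, ℓ.Prime → ℓ ∣ m → ∀ x : Ω, x ≠ 0 → aeval (x + algebraMap k _ α / x) π = 0 →
      ∀ y ∈ k⟮x⟯, algebraMap k _ α * y ^ ℓ ≠ x ^ 2) : Irreducible (π.comp (Ch α m)) := by
  classical
  have hα' : algebraMap k Ω α ≠ 0 := (_root_.map_ne_zero _).2 hα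
  -- a root and a point of the torus
  obtain ⟨β, hβ⟩ : ∃ β : Ω, aeval β π = 0 := by
    obtain ⟨β, hβ⟩ := IsAlgClosed.exists_aeval_eq_zero Ω π hπ.degree_pos.ne'
    exact ⟨β, hβ⟩
  obtain ⟨x, hx⟩ : ∃ x : Ω, x ^ 2 - β * x + algebraMap k Ω α = 0 := by
    have hd : (X ^ 2 - C β * X + C (algebraMap k Ω α) : Polynomial Ω).degree ≠ 0 := by
      have : (X ^ 2 - C β * X + C (algebraMap k Ω α) : Polynomial Ω) =
          C 1 * X ^ 2 + C (-β) * X + C (algebraMap k Ω α) := by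
        rw [C_neg, C_1]; ring
      rw [this, degree_quadratic one_ne_zero]
      norm_num
    obtain ⟨x, hx⟩ := IsAlgClosed.exists_root _ hd
    refine ⟨x, ?_⟩
    rw [IsRoot.def] at hx
    simpa using hx
  have hx0 : x ≠ 0 := by
    rintro rfl
    apply hα'
    linear_combination hx
  have hxβ : x + algebraMap k Ω α / x = β := by
    field_simp
    linear_combination hx
  obtain ⟨y, hy⟩ : ∃ y : Ω, y ^ m = algebraMap k Ω (α ^ ((m - 1) / 2)) * x :=
    IsAlgClosed.exists_pow_nat_eq _ hm.pos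
  have hp : algebraMap k Ω (α ^ ((m - 1) / 2)) ≠ 0 := (_root_.map_ne_zero _).2 (pow_ne_zero _ hα)
  have hy0 : y ≠ 0 := by
    rintro rfl
    rw [zero_pow hm.pos.ne'] at hy
    exact mul_ne_zero hp hx0 hy.symm
  obtain ⟨t, ht⟩ : ∃ t : Ω, t = y + algebraMap k Ω α / y := ⟨_, rfl⟩
  have htβ : aeval t (Ch α m) = β := by rw [ht, Ch_aeval hα hm hx0 hy, hxβ]
  obtain ⟨v, hv⟩ : ∃ v : Ω, v = y ^ 2 / algebraMap k Ω α := ⟨_, rfl⟩
  have hvm : v ^ m = x ^ 2 / algebraMap k Ω α := by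
    have e : algebraMap k Ω α ^ m = algebraMap k Ω (α ^ ((m - 1) / 2)) *
        algebraMap k Ω (α ^ ((m - 1) / 2)) * algebraMap k Ω α := by
      rw [← map_mul, ← map_mul, ← map_pow]
      congr 1
      obtain ⟨j, rfl⟩ := hm
      rw [show (2 * j + 1 - 1) / 2 = j by omega]
      ring
    rw [hv, div_pow, ← pow_mul, mul_comm 2 m, pow_mul, hy, e]
    field_simp
  have hint : ∀ z : Ω, IsIntegral k z := fun z => Algebra.IsIntegral.isIntegral z
  -- the field `k(x)`
  have hxK : x ∈ k⟮x⟯ := mem_adjoin_simple_self k x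
  have hαK : ∀ K : IntermediateField k Ω, algebraMap k Ω α ∈ K := fun K => K.algebraMap_mem α
  have huK : x ^ 2 / algebraMap k Ω α ∈ k⟮x⟯ := div_mem (pow_mem hxK 2) (hαK _)
  obtain ⟨u, hu⟩ : ∃ u : k⟮x⟯, (u : Ω) = x ^ 2 / algebraMap k Ω α := ⟨⟨_, huK⟩, rfl⟩
  have hirr : Irreducible (X ^ m - C u : (k⟮x⟯)[X]) := by
    refine X_pow_sub_C_irreducible_of_odd hm ?_
    intro ℓ hℓ hℓm b hb
    refine h ℓ hℓ hℓm x hx0 (by rw [hxβ]; exact hβ) b b.2 ?_
    have h1 : (b : Ω) ^ ℓ = x ^ 2 / algebraMap k Ω α := by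
      rw [← hu, ← hb]
      rfl
    rw [h1]
    field_simp
  have hvdeg : Module.finrank k⟮x⟯ (k⟮x⟯⟮v⟯) = m := by
    have h1 : aeval v (X ^ m - C u : (k⟮x⟯)[X]) = 0 := by
      rw [map_sub, map_pow, aeval_X, aeval_C, hvm]
      change _ - (u : Ω) = 0
      rw [hu, sub_self]
    have h2 := minpoly.eq_of_irreducible_of_monic hirr h1 (monic_X_pow_sub_C u hm.pos.ne')
    rw [adjoin.finrank ((hint v).tower_top), ← h2, natDegree_X_pow_sub_C]
  have hyx : x ∈ k⟮y⟯ := by
    have h1 : x = y ^ m / algebraMap k Ω (α ^ ((m - 1) / 2)) := by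
      rw [hy]
      field_simp
    rw [h1]
    exact div_mem (pow_mem (mem_adjoin_simple_self k y) m) (k⟮y⟯.algebraMap_mem _)
  have hyv : v ∈ k⟮y⟯ := by
    rw [hv]
    exact div_mem (pow_mem (mem_adjoin_simple_self k y) 2) (hαK _)
  have hyt : t ∈ k⟮y⟯ := by
    rw [ht]
    exact add_mem (mem_adjoin_simple_self k y) (div_mem (hαK _) (mem_adjoin_simple_self k y))
  have hxb : β ∈ k⟮x⟯ := by
    rw [← hxβ]
    exact add_mem hxK (div_mem (hαK _) hxK)
  have htb : β ∈ k⟮t⟯ := by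
    rw [← htβ]
    have h1 : aeval t (Ch α m) ∈ k⟮t⟯ := by
      have h2 : aeval t (Ch α m) = ((aeval (AdjoinSimple.gen k t) (Ch α m) : k⟮t⟯) : Ω) := by
        rw [← IntermediateField.aeval_coe]
        rfl
      rw [h2]
      exact Subtype.mem _
    exact h1
  haveI : ∀ z : Ω, FiniteDimensional k k⟮z⟯ := fun z => adjoin.finiteDimensional (hint z)
  -- divisibilities
  have d1 : Module.finrank k k⟮x⟯ * m ∣ Module.finrank k k⟮y⟯ := by
    have h1 : (k⟮x⟯⟮v⟯).restrictScalars k ≤ k⟮y⟯ := by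
      rw [adjoin_simple_adjoin_simple, adjoin_le_iff]
      intro z hz
      rcases hz with rfl | hz
      · exact hyx
      · rw [Set.mem_singleton_iff] at hz
        rw [hz]
        exact hyv
    have h2 := IntermediateField.finrank_dvd_of_le_right h1
    have h3 : Module.finrank k ((k⟮x⟯⟮v⟯).restrictScalars k) = Module.finrank k k⟮x⟯ * m := by
      rw [← hvdeg]
      exact (Module.finrank_mul_finrank k k⟮x⟯ (k⟮x⟯⟮v⟯)).symm
    rwa [h3] at h2
  have tower : ∀ z w : Ω, z ∈ k⟮w⟯ →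
      Module.finrank k k⟮z⟯ * Module.finrank k⟮z⟯ (k⟮z⟯⟮w⟯) = Module.finrank k k⟮w⟯ := by
    intro z w hz
    have h1 : (k⟮z⟯⟮w⟯).restrictScalars k = k⟮w⟯ := by
      rw [adjoin_simple_adjoin_simple]
      apply le_antisymm
      · rw [adjoin_le_iff]
        intro z' hz'
        rcases hz' with rfl | hz'
        · exact hz
        · rw [Set.mem_singleton_iff] at hz'
          rw [hz']
          exact mem_adjoin_simple_self k w
      · rw [adjoin_le_iff]
        intro z' hz'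
        rw [Set.mem_singleton_iff] at hz'
        rw [hz']
        exact subset_adjoin k _ (Set.mem_insert_of_mem _ rfl)
    rw [← h1]
    exact Module.finrank_mul_finrank k k⟮z⟯ (k⟮z⟯⟮w⟯)
  have d2 := tower t y hyt
  have d3 := tower β t htb
  have d4 : Module.finrank k k⟮β⟯ ∣ Module.finrank k k⟮x⟯ :=
    ⟨_, (tower β x hxb).symm⟩
  have hs : Module.finrank k⟮t⟯ (k⟮t⟯⟮y⟯) ≤ 2 := by
    rw [adjoin.finrank ((hint y).tower_top)]
    obtain ⟨p, hpd⟩ : ∃ p : (k⟮t⟯)[X], p = C 1 * X ^ 2 + C (-AdjoinSimple.gen k t) * X +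
      C (algebraMap k k⟮t⟯ α) := ⟨_, rfl⟩
    have hp2 : p.natDegree = 2 := by rw [hpd, natDegree_quadratic one_ne_zero]
    have hp0 : p ≠ 0 := by
      rintro rfl
      rw [natDegree_zero] at hp2
      omega
    have hpy : aeval y p = 0 := by
      rw [hpd]
      simp only [map_add, map_mul, aeval_C, aeval_X, map_pow, map_one, map_neg]
      have e1 : algebraMap k⟮t⟯ Ω (AdjoinSimple.gen k t) = t := AdjoinSimple.algebraMap_gen k t
      have e2 : algebraMap k⟮t⟯ Ω (algebraMap k k⟮t⟯ α) = algebraMap k Ω α := rfl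
      rw [e1, e2, ht]
      field_simp
      ring
    rw [← hp2]
    exact natDegree_le_of_dvd (minpoly.dvd _ _ hpy) hp0
  have hr : Module.finrank k⟮β⟯ (k⟮β⟯⟮t⟯) ≤ m := by
    rw [adjoin.finrank ((hint t).tower_top)]
    obtain ⟨p, hpd⟩ : ∃ p : (k⟮β⟯)[X], p = (Ch α m).map (algebraMap k k⟮β⟯) -
      C (AdjoinSimple.gen k β) := ⟨_, rfl⟩
    have hp2 : p.natDegree = m := by
      rw [hpd, natDegree_sub_C, natDegree_map, Ch_deg hα hm]
    have hp0 : p ≠ 0 := by
      rintro rfl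
      rw [natDegree_zero] at hp2
      exact hm.pos.ne hp2
    have hpy : aeval t p = 0 := by
      rw [hpd, map_sub, aeval_map_algebraMap, htβ, aeval_C]
      have e1 : algebraMap k⟮β⟯ Ω (AdjoinSimple.gen k β) = β := AdjoinSimple.algebraMap_gen k β
      rw [e1, sub_self]
    rw [← hp2]
    exact natDegree_le_of_dvd (minpoly.dvd _ _ hpy) hp0
  have hpos : ∀ z : Ω, 0 < Module.finrank k k⟮z⟯ := fun z => Module.finrank_pos
  -- the degree of `t`
  obtain ⟨r, hrd⟩ : ∃ r, r = Module.finrank k⟮β⟯ (k⟮β⟯⟮t⟯) := ⟨_, rfl⟩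
  obtain ⟨s, hsd⟩ : ∃ s, s = Module.finrank k⟮t⟯ (k⟮t⟯⟮y⟯) := ⟨_, rfl⟩
  rw [← hrd] at d3 hr
  rw [← hsd] at d2 hs
  have hdvd : m ∣ r * s := by
    have h1 : Module.finrank k k⟮β⟯ * m ∣ Module.finrank k k⟮β⟯ * (r * s) := by
      refine (mul_dvd_mul_right d4 m).trans ?_
      rw [← mul_assoc, d3, d2]
      exact d1
    exact Nat.dvd_of_mul_dvd_mul_left (hpos β) h1
  have hs0 : 0 < s := by
    rcases Nat.eq_zero_or_pos s with h0 | h0
    · rw [h0, mul_zero] at d2
      exact absurd d2 (hpos y).ne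
    · exact h0
  have hr0 : 0 < r := by
    rcases Nat.eq_zero_or_pos r with h0 | h0
    · rw [h0, mul_zero] at d3
      exact absurd d3 (hpos t).ne
    · exact h0
  have hcop : Nat.Coprime m s := by
    have h2 : s = 1 ∨ s = 2 := by omega
    rcases h2 with h2 | h2
    · rw [h2]
      exact Nat.coprime_one_right m
    · rw [h2]
      exact Nat.coprime_two_right.2 hm
  have hmr : m ≤ r := Nat.le_of_dvd hr0 (hcop.dvd_of_dvd_mul_right hdvd)
  -- conclusion
  have hβd : (minpoly k β).natDegree = π.natDegree := by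
    have h1 := minpoly.eq_of_irreducible hπ hβ
    rw [← h1, natDegree_mul_C]
    exact inv_ne_zero (leadingCoeff_ne_zero.2 hπ.ne_zero)
  have hdeg : (π.comp (Ch α m)).natDegree = π.natDegree * m := by
    rw [natDegree_comp, Ch_deg hα hm]
  refine irr_of_degree (t := t) ?_ ?_ ?_
  · intro h0
    rw [h0, natDegree_zero] at hdeg
    have h2 := hπ.natDegree_pos
    have h3 := Nat.mul_pos h2 hm.pos
    omega
  · rw [aeval_comp, htβ, hβ]
  · rw [hdeg, ← adjoin.finrank (hint t), ← d3, adjoin.finrank (hint β), hβd]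
    exact Nat.mul_le_mul_left _ hmr

theorem irr_Ch {π : k[X]} (hπ : Irreducible π) {α : k} (hα : α ≠ 0) {m : ℕ} (hm : Odd m)
    (h : ∀ ℓ : ℕ, ℓ.Prime → ℓ ∣ m → NoTorusPower π α ℓ) : Irreducible (π.comp (Ch α m)) :=
  irr_Ch_aux (Ω := AlgebraicClosure k) hπ hα hm h

end ch

end Pool.Agent.T6.H36.CV
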