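import Pool.Agent.T6.H36.CV
import Pool.Agent.R939.KM.Km2

/-!
# The Tate conjecture at 2 for Chebyshev covers
-/

set_option autoImplicit false

namespace Pool.Agent.T6.H36.CV

open Polynomial IntermediateField Pool.Agent.TH115.GD Pool.Agent.R939.EI

section gen

variable {k k' K F : Type} [Field k] [Field k'] [Algebra k k'] [Field K] [Algebra k[X] K]
    [Field F] [Algebra k'[X] F] [IsFractionRing k'[X] F] [Algebra K F]

theorem NoTorusPower.of_dvd {f g : k[X]} {α : k} {ℓ : ℕ} (h : NoTorusPower f α ℓ) (hg : g ∣ f) :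
    NoTorusPower g α ℓ := by
  intro x hx h0
  refine h x hx ?_
  obtain ⟨q, rfl⟩ := hg
  rw [map_mul, h0, zero_mul]

theorem inert_Ch [PerfectField k] {f : k[X]} {α : k} (hα : α ≠ 0) {m : ℕ} (hm : Odd m)
    (hp : ∀ ℓ : ℕ, ℓ.Prime → ℓ ∣ m → NoTorusPower f α ℓ) : Inert f (Ch α m) := by
  intro π hπ hdv
  have h3 := irr_Ch hπ hα hm fun ℓ hℓ hℓm => (hp ℓ hℓ hℓm).of_dvd hdv
  exact ⟨h3, PerfectField.separable_of_irreducible h3⟩

/-- **Chebyshev covers.** -/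
theorem cheb_covers [PerfectField k] (hT : IsTower k k' K F) (h2 : (2 : k) ≠ 0) {a b D : k[X]}
    (hNb : NotNorm b) (hNd : NotNorm (a ^ 2 - 4 * b)) (hO : OnlyTrivial a b)
    (hO' : OnlyTrivial (-2 * a) (a ^ 2 - 4 * b)) (hD : InertIn a b D) {c α : k} (hc : c ≠ 0)
    (hα : α ≠ 0) {m : ℕ} (hm : Odd m)
    (hp : ∀ ℓ : ℕ, ℓ.Prime → ℓ ∣ m → NoTorusPower (b * (a ^ 2 - 4 * b) * D) α ℓ) :
    TateAtTwo (F := F) k' (crvT (algebraMap k[X] K ((C c * (a * D)).comp (Ch α m)))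
      (algebraMap k[X] K ((C (c ^ 2) * (b * D ^ 2)).comp (Ch α m)))) := by
  have hb0 : b ≠ 0 := by
    rintro rfl
    exact (hNb 0 1 0 0 (by simp)).1 rfl
  have hd0 : a ^ 2 - 4 * b ≠ 0 := by
    intro h0
    exact (hNd 0 1 0 0 (by rw [h0]; simp)).1 rfl
  refine twist_main hT h2 hb0 hd0 hNb hNd hO hO' hD hc ?_ (inert_Ch hα hm hp)
  rw [Ch_deg hα hm]
  exact hm

end gen

section nf

variable {k : Type} [Field k] [NumberField k]

/-- The torus points above the roots of `f` are not torsion. -/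
def NoTorsion (f : k[X]) (α : k) : Prop :=
  ∀ x : AlgebraicClosure k, x ≠ 0 → aeval (x + algebraMap k _ α / x) f = 0 →
    ∀ n : ℕ, 0 < n → x ^ (2 * n) ≠ algebraMap k _ (α ^ n)

theorem finite_above {Ω : Type} [Field Ω] [Algebra k Ω] {f : k[X]} (hf : f ≠ 0) (α : k) :
    {x : Ω | x ≠ 0 ∧ aeval (x + algebraMap k Ω α / x) f = 0}.Finite := by
  classical
  have h1 : (⋃ β ∈ f.aroots Ω |>.toFinset, {x : Ω | x ^ 2 - β * x + algebraMap k Ω α = 0}).Finite := by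
    refine Set.Finite.biUnion (Finset.finite_toSet _) ?_
    intro β _
    obtain ⟨p, hp⟩ : ∃ p : Polynomial Ω, p = C 1 * X ^ 2 + C (-β) * X + C (algebraMap k Ω α) :=
      ⟨_, rfl⟩
    have hp0 : p ≠ 0 := by
      intro h0
      have : p.natDegree = 2 := by rw [hp, natDegree_quadratic one_ne_zero]
      rw [h0, natDegree_zero] at this
      omega
    refine (p.roots.toFinset.finite_toSet).subset ?_
    intro x hx
    rw [Finset.mem_coe, Multiset.mem_toFinset, mem_roots hp0, IsRoot.def, hp]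
    rw [Set.mem_setOf_eq] at hx
    simp only [eval_add, eval_mul, eval_C, eval_pow, eval_X]
    linear_combination hx
  refine h1.subset ?_
  rintro x ⟨hx, h0⟩
  rw [Set.mem_iUnion₂]
  refine ⟨x + algebraMap k Ω α / x, ?_, ?_⟩
  · rw [Multiset.mem_toFinset, mem_aroots]
    exact ⟨hf, h0⟩
  · rw [Set.mem_setOf_eq]
    field_simp
    ring

theorem one_point {α : k} (hα : α ≠ 0) {x : AlgebraicClosure k} (hx : x ≠ 0)
    (h : ∀ n : ℕ, 0 < n → x ^ (2 * n) ≠ algebraMap k _ (α ^ n)) :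
    ∃ N : ℕ, N ≠ 0 ∧ ∀ ℓ : ℕ, ℓ.Prime → ¬ ℓ ∣ N → ∀ y ∈ k⟮x⟯, algebraMap k _ α * y ^ ℓ ≠ x ^ 2 := by
  classical
  have hint : IsIntegral k x := Algebra.IsIntegral.isIntegral x
  haveI : FiniteDimensional k k⟮x⟯ := adjoin.finiteDimensional hint
  haveI : CharZero k⟮x⟯ :=
    charZero_of_injective_algebraMap (algebraMap k k⟮x⟯).injective
  haveI : IsScalarTower ℚ k k⟮x⟯ := IsScalarTower.of_algebraMap_eq fun q => by simp
  haveI : FiniteDimensional ℚ k⟮x⟯ := FiniteDimensional.trans ℚ k k⟮x⟯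
  haveI : NumberField k⟮x⟯ := { to_charZero := inferInstance, to_finiteDimensional := inferInstance }
  have hα' : algebraMap k (AlgebraicClosure k) α ≠ 0 := (_root_.map_ne_zero _).2 hα
  obtain ⟨u, hu⟩ : ∃ u : k⟮x⟯, (u : AlgebraicClosure k) = x ^ 2 / algebraMap k _ α :=
    ⟨⟨_, div_mem (pow_mem (mem_adjoin_simple_self k x) 2) (k⟮x⟯.algebraMap_mem α)⟩, rfl⟩
  have hu0 : u ≠ 0 := by
    rintro rfl
    rw [ZeroMemClass.coe_zero] at hu
    exact div_ne_zero (pow_ne_zero 2 hx) hα' hu.symm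
  have hu1 : ∀ n : ℕ, 0 < n → u ^ n ≠ 1 := by
    intro n hn h0
    apply h n hn
    have h1 : (u : AlgebraicClosure k) ^ n = 1 := by
      rw [← SubmonoidClass.coe_pow, h0, OneMemClass.coe_one]
    rw [hu, div_pow, ← pow_mul, ← map_pow, div_eq_one_iff_eq ((_root_.map_ne_zero _).2
      (pow_ne_zero n hα))] at h1
    exact h1
  have hfin := Pool.Agent.R939.KM.finite_pow hu0 hu1
  refine ⟨∏ ℓ ∈ hfin.toFinset, ℓ, ?_, ?_⟩
  · rw [Finset.prod_ne_zero_iff]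
    intro ℓ hℓ
    rw [Set.Finite.mem_toFinset] at hℓ
    exact hℓ.1.ne'
  · intro ℓ hℓ hN y hy hxy
    apply hN
    refine Finset.dvd_prod_of_mem (fun ℓ => ℓ) ((Set.Finite.mem_toFinset hfin).2
      ⟨hℓ.pos, ⟨y, hy⟩, ?_⟩)
    apply Subtype.ext
    rw [SubmonoidClass.coe_pow, hu, ← hxy]
    field_simp

theorem no_torus_power {f : k[X]} (hf : f ≠ 0) {α : k} (hα : α ≠ 0) (h : NoTorsion f α) :
    ∃ N : ℕ, N ≠ 0 ∧ ∀ ℓ : ℕ, ℓ.Prime → ¬ ℓ ∣ N → NoTorusPower f α ℓ := by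
  classical
  have hfin := finite_above (Ω := AlgebraicClosure k) hf α
  choose! N hN0 hN1 using fun (x : AlgebraicClosure k)
    (hx : x ∈ {x : AlgebraicClosure k | x ≠ 0 ∧ aeval (x + algebraMap k _ α / x) f = 0}) =>
    one_point hα hx.1 (h x hx.1 hx.2)
  refine ⟨∏ x ∈ hfin.toFinset, N x, ?_, ?_⟩
  · rw [Finset.prod_ne_zero_iff]
    intro x hx
    rw [Set.Finite.mem_toFinset] at hx
    exact hN0 x hx
  · intro ℓ hℓ hd x hx h0
    refine hN1 x ⟨hx, h0⟩ ℓ hℓ ?_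
    intro h5
    exact hd (h5.trans (Finset.dvd_prod_of_mem N ((Set.Finite.mem_toFinset hfin).2 ⟨hx, h0⟩)))

variable {k' K F : Type} [Field k'] [Algebra k k'] [Field K] [Algebra k[X] K]
    [Field F] [Algebra k'[X] F] [IsFractionRing k'[X] F] [Algebra K F]

/-- **All the Chebyshev covers with `m` prime to `N`.** -/
theorem cheb_nf (hT : IsTower k k' K F) {a b D : k[X]}
    (hNb : NotNorm b) (hNd : NotNorm (a ^ 2 - 4 * b)) (hO : OnlyTrivial a b)
    (hO' : OnlyTrivial (-2 * a) (a ^ 2 - 4 * b)) (hD : InertIn a b D) {α : k} (hα : α ≠ 0)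
    (h0 : NoTorsion (b * (a ^ 2 - 4 * b) * D) α) :
    ∃ N : ℕ, N ≠ 0 ∧ ∀ m : ℕ, Nat.Coprime m N → ∀ c : k, c ≠ 0 →
      TateAtTwo (F := F) k' (crvT (algebraMap k[X] K ((C c * (a * D)).comp (Ch α m)))
        (algebraMap k[X] K ((C (c ^ 2) * (b * D ^ 2)).comp (Ch α m)))) := by
  have hb0 : b ≠ 0 := by
    rintro rfl
    exact (hNb 0 1 0 0 (by simp)).1 rfl
  have hd0 : a ^ 2 - 4 * b ≠ 0 := by
    intro h0
    exact (hNd 0 1 0 0 (by rw [h0]; simp)).1 rfl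
  obtain ⟨N, hN, hN'⟩ := no_torus_power (mul_ne_zero (mul_ne_zero hb0 hd0) hD.1) hα h0
  refine ⟨2 * N, mul_ne_zero two_ne_zero hN, ?_⟩
  intro m hm c hc
  have hm2 : Nat.Coprime m 2 := hm.coprime_mul_right_right
  have hmN : Nat.Coprime m N := hm.coprime_mul_left_right
  refine cheb_covers hT two_ne_zero hNb hNd hO hO' hD hc hα (Nat.coprime_two_right.1 hm2) ?_
  intro ℓ hℓ hℓm
  refine hN' ℓ hℓ ?_
  intro hℓN
  exact Nat.not_coprime_of_dvd_of_dvd hℓ.one_lt hℓm hℓN hmN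

end nf

end Pool.Agent.T6.H36.CV
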