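import Pool.Agent.T6.H36.CV

/-!
# Chebyshev covers over finite fields: points with rational preimages
-/

set_option autoImplicit false

namespace Pool.Agent.T6.H36.CV

open Polynomial IntermediateField

section above

variable {k : Type} [Field k] [Fintype k] {E : Type} [Field E] [Fintype E] [Algebra k E]
  {Ω : Type} [Field Ω] [Algebra k Ω]

theorem mem_range_of_pow (φ : E →+* Ω) {z : Ω} (hz : z ^ Fintype.card E = z) : ∃ e, φ e = z := by
  classical
  obtain ⟨p, hp⟩ : ∃ p : Polynomial Ω, p = X ^ Fintype.card E - X := ⟨_, rfl⟩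
  have h1 : 1 < Fintype.card E := Fintype.one_lt_card
  have hd : p.natDegree = Fintype.card E := by rw [hp]; exact FiniteField.X_pow_card_sub_X_natDegree_eq Ω h1
  have hp0 : p ≠ 0 := by
    intro h0
    rw [h0, natDegree_zero] at hd
    omega
  have h2 : Finset.univ.image φ ⊆ p.roots.toFinset := by
    intro y hy
    obtain ⟨e, -, rfl⟩ := Finset.mem_image.1 hy
    rw [Multiset.mem_toFinset, mem_roots hp0, IsRoot.def, hp, eval_sub, eval_pow, eval_X, ← map_pow,
      FiniteField.pow_card, sub_self]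
  have h3 : (Finset.univ.image φ).card = Fintype.card E :=
    Finset.card_image_of_injective _ φ.injective
  have h4 : p.roots.toFinset.card ≤ Fintype.card E := by
    rw [← hd]
    exact (Multiset.toFinset_card_le _).trans (card_roots' _)
  have h5 := Finset.eq_of_subset_of_card_le h2 (by rw [h3]; exact h4)
  have h6 : z ∈ p.roots.toFinset := by
    rw [Multiset.mem_toFinset, mem_roots hp0, IsRoot.def, hp, eval_sub, eval_pow, eval_X, hz, sub_self]
  rw [← h5] at h6
  obtain ⟨e, -, he⟩ := Finset.mem_image.1 h6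
  exact ⟨e, he⟩

theorem exists_frob (k E Ω : Type) [Field k] [Fintype k] [Field E] [Fintype E] [Algebra k E]
    [Field Ω] [Algebra k Ω] :
    ∃ ψ : Ω →ₐ[k] Ω, ∀ z, ψ z = z ^ Fintype.card E := by
  refine ⟨FiniteField.frobeniusAlgHom k Ω ^ Module.finrank k E, fun z => ?_⟩
  rw [AlgHom.coe_pow, FiniteField.coe_frobeniusAlgHom, pow_iterate,
    Module.card_eq_pow_finrank (K := k) (V := E)]

theorem fixed_adjoin (ψ : Ω →ₐ[k] Ω) {w : Ω} (hw : ψ w = w) {y : Ω} (hy : y ∈ k⟮w⟯) :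
    ψ y = y := by
  induction hy using adjoin_induction with
  | mem x hx =>
    rw [Set.mem_singleton_iff] at hx
    rw [hx, hw]
  | algebraMap x => exact ψ.commutes x
  | add x y _ _ h1 h2 => rw [map_add, h1, h2]
  | inv x _ h1 => rw [map_inv₀, h1]
  | mul x y _ _ h1 h2 => rw [map_mul, h1, h2]

variable [DecidableEq E]

theorem disc_ne {α : k} {φ : E →ₐ[k] Ω} {x : E} {w : Ω} (hw0 : w ≠ 0)
    (hφ : φ x = w + algebraMap k Ω α / w) :
    φ (aeval x (X ^ 2 - C (4 * α) : k[X])) = (w - algebraMap k Ω α / w) ^ 2 := by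
  rw [map_sub, map_pow, aeval_X, aeval_C, map_sub, map_pow, hφ, AlgHom.commutes, map_mul, map_ofNat]
  field_simp
  ring

/-- The quadratic character of `x ^ 2 - 4 α` in terms of the Frobenius on the torus. -/
theorem char_eq (h2 : (2 : Ω) ≠ 0) {α : k} {φ : E →ₐ[k] Ω} {x : E} {w : Ω}
    [Decidable (w ^ Fintype.card E = w)] (hw0 : w ≠ 0) (hφ : φ x = w + algebraMap k Ω α / w) (hwα : w ^ 2 ≠ algebraMap k Ω α) :
    quadraticChar E (aeval x (X ^ 2 - C (4 * α) : k[X])) =
      if w ^ Fintype.card E = w then 1 else -1 := by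
  classical
  obtain ⟨ψ, hψ⟩ := exists_frob k E Ω
  have hd := disc_ne hw0 hφ
  have hne : w - algebraMap k Ω α / w ≠ 0 := by
    intro h0
    apply hwα
    rw [sub_eq_zero, eq_div_iff hw0] at h0
    rw [pow_two, h0]
  have hx0 : aeval x (X ^ 2 - C (4 * α) : k[X]) ≠ 0 := by
    intro h0
    rw [h0, map_zero] at hd
    exact pow_ne_zero 2 hne hd.symm
  split_ifs with h
  · rw [quadraticChar_one_iff_isSquare hx0]
    obtain ⟨e, he⟩ := mem_range_of_pow (E := E) φ.toRingHom h
    have he' : φ e = w := he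
    have he0 : e ≠ 0 := by
      rintro rfl
      rw [map_zero] at he'
      exact hw0 he'.symm
    refine ⟨e - algebraMap k E α / e, (φ : E →+* Ω).injective ?_⟩
    simp only [AlgHom.coe_toRingHom, RingHom.coe_coe]
    rw [hd, map_mul, map_sub, map_div₀, AlgHom.commutes, he', pow_two]
  · rw [quadraticChar_neg_one_iff_not_isSquare]
    rintro ⟨d, hd'⟩
    apply h
    have h3 : φ d ^ 2 = (w - algebraMap k Ω α / w) ^ 2 := by
      rw [← hd, hd', map_mul, pow_two]
    have h4 : ∀ e : E, ψ (φ e) = φ e := fun e => by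
      rw [hψ, ← map_pow, FiniteField.pow_card]
    have h5 : ψ (w - algebraMap k Ω α / w) = w - algebraMap k Ω α / w := by
      rcases sq_eq_sq_iff_eq_or_eq_neg.1 h3 with h6 | h6
      · rw [← h6]
        exact h4 d
      · have h7 : w - algebraMap k Ω α / w = - φ d := by rw [h6]; ring
        rw [h7, map_neg, h4]
    have h6 : ψ (w + algebraMap k Ω α / w) = w + algebraMap k Ω α / w := by
      rw [← hφ]
      exact h4 x
    rw [← hψ]
    have h7 : (2 : Ω) * ψ w = 2 * w := by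
      have e1 : ψ w + ψ (algebraMap k Ω α / w) = w + algebraMap k Ω α / w := by
        rw [← map_add]; exact h6
      have e2 : ψ w - ψ (algebraMap k Ω α / w) = w - algebraMap k Ω α / w := by
        rw [← map_sub]; exact h5
      linear_combination e1 + e2
    exact mul_left_cancel₀ h2 h7

/-- A point with one preimage on the torus has `ℓ` preimages. -/
theorem preim [IsAlgClosed Ω] {ℓ : ℕ} (hℓ : ℓ.Prime) (hℓ2 : ℓ ≠ 2) (h2 : (2 : Ω) ≠ 0) {α : k}
    (hα : α ≠ 0) {s : ℤ}
    (hs : (s = 1 ∧ ℓ ∣ Fintype.card E - 1) ∨ (s = -1 ∧ ℓ ∣ Fintype.card E + 1))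
    (φ : E →ₐ[k] Ω) {x : E} (hx : quadraticChar E (aeval x (X ^ 2 - C (4 * α) : k[X])) = s)
    {w y : Ω} (hw0 : w ≠ 0) (hφ : φ x = w + algebraMap k Ω α / w) (hy : y ∈ k⟮w⟯)
    (hyw : algebraMap k Ω α * y ^ ℓ = w ^ 2) :
    ∃ e : ℕ → E, Set.InjOn e (Set.Iio ℓ) ∧ ∀ i, aeval (e i) (Ch α ℓ) = x ∧
      quadraticChar E (aeval (e i) (X ^ 2 - C (4 * α) : k[X])) = s := by
  classical
  have hα' : algebraMap k Ω α ≠ 0 := (_root_.map_ne_zero _).2 hα
  obtain ⟨A, hA⟩ : ∃ A, A = algebraMap k Ω α := ⟨_, rfl⟩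
  obtain ⟨ψ, hψ⟩ := exists_frob k E Ω
  have hψA : ψ A = A := by rw [hA]; exact ψ.commutes α
  have hodd : Odd ℓ := hℓ.odd_of_ne_two hℓ2
  obtain ⟨j, hj⟩ := hodd
  have hj2 : (ℓ - 1) / 2 = j := by omega
  have hQ1 : 1 < Fintype.card E := Fintype.one_lt_card
  have hs0 : s ≠ 0 := by rcases hs with ⟨h, -⟩ | ⟨h, -⟩ <;> rw [h] <;> norm_num
  have hwA : w ^ 2 ≠ A := by
    intro h0
    apply hs0
    rw [← hx]
    have h1 : φ (aeval x (X ^ 2 - C (4 * α) : k[X])) = 0 := by
      rw [disc_ne hw0 hφ, ← hA, ← h0]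
      field_simp
      ring
    have h3 : aeval x (X ^ 2 - C (4 * α) : k[X]) = 0 := (map_eq_zero φ).1 h1
    rw [h3, quadraticChar_zero]
  have hy0 : y ≠ 0 := by
    rintro rfl
    rw [zero_pow hℓ.ne_zero, mul_zero] at hyw
    exact pow_ne_zero 2 hw0 hyw.symm
  have hψx : ψ (φ x) = φ x := by rw [hψ, ← map_pow, FiniteField.pow_card]
  -- the Frobenius on `w`
  have hw : (s = 1 ∧ ℓ ∣ Fintype.card E - 1 ∧ ψ w = w) ∨
      (s = -1 ∧ ℓ ∣ Fintype.card E + 1 ∧ ψ w = A / w ∧ ψ w ≠ w) := by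
    have h1 := char_eq h2 hw0 hφ (by rw [← hA]; exact hwA)
    rw [hx, ← hψ] at h1
    by_cases h3 : ψ w = w
    · rw [if_pos h3] at h1
      rcases hs with ⟨h4, h5⟩ | ⟨h4, h5⟩
      · exact Or.inl ⟨h4, h5, h3⟩
      · rw [h1] at h4
        norm_num at h4
    · rw [if_neg h3] at h1
      rcases hs with ⟨h4, h5⟩ | ⟨h4, h5⟩
      · rw [h1] at h4
        norm_num at h4
      · refine Or.inr ⟨h4, h5, ?_, h3⟩
        have hψw0 : ψ w ≠ 0 := (_root_.map_ne_zero ψ).2 hw0
        have h6 : ψ w + A / ψ w = w + A / w := by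
          have := hψx
          rw [hφ, map_add, map_div₀, ← hA, hψA] at this
          exact this
        have h7 : (ψ w - w) * (ψ w * w - A) = 0 := by
          field_simp at h6
          linear_combination h6
        rcases mul_eq_zero.1 h7 with h8 | h8
        · exact absurd (sub_eq_zero.1 h8) h3
        · rw [eq_div_iff hw0]
          exact sub_eq_zero.1 h8
  -- `ℓ` is prime to the characteristic
  have hQ0 : ((Fintype.card E : ℕ) : Ω) = 0 := by
    have h1 : ((Fintype.card E : ℕ) : E) = 0 := FiniteField.cast_card_eq_zero E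
    have h3 := congrArg φ h1
    rwa [map_natCast, map_zero] at h3
  have hℓΩ : (ℓ : Ω) ≠ 0 := by
    intro h0
    rcases hs with ⟨-, c, hc⟩ | ⟨-, c, hc⟩
    · have h1 : Fintype.card E = ℓ * c + 1 := by omega
      rw [h1] at hQ0
      push_cast at hQ0
      rw [h0, zero_mul, zero_add] at hQ0
      exact one_ne_zero hQ0
    · have h1 : ((Fintype.card E + 1 : ℕ) : Ω) = ((ℓ * c : ℕ) : Ω) := by rw [hc]
      push_cast at h1
      rw [hQ0, h0, zero_mul, zero_add] at h1
      exact one_ne_zero h1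
  haveI : NeZero (ℓ : Ω) := ⟨hℓΩ⟩
  obtain ⟨ζ, hζ⟩ := HasEnoughRootsOfUnity.exists_primitiveRoot Ω ℓ
  have hζ1 : ζ ^ ℓ = 1 := hζ.pow_eq_one
  have hζ0 : ζ ≠ 0 := hζ.ne_zero hℓ.ne_zero
  -- the Frobenius on the elements `v i`
  obtain ⟨v, hv⟩ : ∃ v : ℕ → Ω, ∀ i, v i = y * ζ ^ i := ⟨_, fun i => rfl⟩
  have hv0 : ∀ i, v i ≠ 0 := fun i => by
    rw [hv]
    exact mul_ne_zero hy0 (pow_ne_zero _ hζ0)
  have hvl : ∀ i, v i ^ ℓ * A = w ^ 2 := fun i => by
    rw [hv, mul_pow, ← pow_mul, mul_comm i, pow_mul, hζ1, one_pow, mul_one, ← hyw, hA, mul_comm]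
  have hψv : ∀ i, (s = 1 ∧ ψ (v i) = v i) ∨ (s = -1 ∧ ψ (v i) = (v i)⁻¹) := by
    intro i
    rcases hw with ⟨h1, ⟨c, hc⟩, h4⟩ | ⟨h1, h3, h4, -⟩
    · refine Or.inl ⟨h1, ?_⟩
      have e1 : ψ y = y := fixed_adjoin ψ h4 hy
      have e2 : ψ ζ = ζ := by
        rw [hψ, show Fintype.card E = ℓ * c + 1 by omega, pow_succ, pow_mul, hζ1, one_pow, one_mul]
      rw [hv, map_mul, map_pow, e1, e2]
    · refine Or.inr ⟨h1, ?_⟩
      have e2 : ψ ζ = ζ⁻¹ := by
        obtain ⟨c, hc⟩ := h3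
        apply eq_inv_of_mul_eq_one_left
        rw [hψ, ← pow_succ, hc, pow_mul, hζ1, one_pow]
      have e3 : ψ (ψ y) = y := by
        have e4 : (ψ.comp ψ) w = w := by
          rw [AlgHom.comp_apply, h4, map_div₀, h4, hψA, div_div_cancel₀]
          rw [hA]
          exact hα'
        exact fixed_adjoin (ψ.comp ψ) e4 hy
      have e5 : (ψ y * y) ^ ℓ = 1 := by
        have e6 : A * y ^ ℓ = w ^ 2 := by rw [hA]; exact hyw
        have e7 : A * ψ y ^ ℓ = (A / w) ^ 2 := by
          have := congrArg ψ e6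
          rwa [map_mul, map_pow, map_pow, hψA, h4] at this
        have e8 : A * A * (ψ y * y) ^ ℓ = A * A := by
          rw [mul_pow]
          calc A * A * (ψ y ^ ℓ * y ^ ℓ) = (A * ψ y ^ ℓ) * (A * y ^ ℓ) := by ring
            _ = A * A := by rw [e6, e7]; field_simp
        have hAA : A * A ≠ 0 := by rw [hA]; exact mul_ne_zero hα' hα'
        exact mul_left_cancel₀ hAA (by rw [e8, mul_one])
      have hψy0 : ψ y * y ≠ 0 := mul_ne_zero ((_root_.map_ne_zero ψ).2 hy0) hy0
      have e6 : (ψ y * y) ^ (Fintype.card E - 1) = 1 := by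
        apply mul_right_cancel₀ hψy0
        rw [← pow_succ, Nat.sub_add_cancel hQ1.le, one_mul, ← hψ, map_mul, e3, mul_comm]
      have e7 : Nat.gcd ℓ (Fintype.card E - 1) = 1 := by
        rw [← Nat.coprime_iff_gcd_eq_one, Nat.Prime.coprime_iff_not_dvd hℓ]
        intro h5
        have h6 : ℓ ∣ 2 := by
          have := (Nat.dvd_sub h3 h5)
          rwa [show Fintype.card E + 1 - (Fintype.card E - 1) = 2 by omega] at this
        exact hℓ2 ((Nat.prime_dvd_prime_iff_eq hℓ Nat.prime_two).1 h6)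
      have e8 : ψ y * y = 1 := by
        have := pow_gcd_eq_one.2 ⟨e5, e6⟩
        rwa [e7, pow_one] at this
      rw [hv, map_mul, map_pow, e2, mul_inv, inv_pow, eq_inv_of_mul_eq_one_left e8]
  -- the points of the torus
  obtain ⟨u, hu⟩ : ∃ u : ℕ → Ω, ∀ i, u i = w / v i ^ j := ⟨_, fun i => rfl⟩
  have hu0 : ∀ i, u i ≠ 0 := fun i => by
    rw [hu]
    exact div_ne_zero hw0 (pow_ne_zero _ (hv0 i))
  have hu2 : ∀ i, u i ^ 2 = A * v i := fun i => by
    rw [hu, div_pow, div_eq_iff (pow_ne_zero _ (pow_ne_zero _ (hv0 i))), ← hvl i, hj]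
    ring
  have hul : ∀ i, u i ^ ℓ = algebraMap k Ω (α ^ ((ℓ - 1) / 2)) * w := fun i => by
    rw [hj2, map_pow, ← hA]
    have e1 : u i ^ ℓ = (u i ^ 2) ^ j * u i := by rw [← pow_mul, ← pow_succ, hj]
    rw [e1, hu2, mul_pow, hu]
    have := pow_ne_zero j (hv0 i)
    field_simp
  have hψu : ∀ i, (s = 1 ∧ ψ (u i) = u i) ∨ (s = -1 ∧ ψ (u i) = A / u i) := by
    intro i
    rcases hψv i with ⟨h1, h3⟩ | ⟨h1, h3⟩
    · refine Or.inl ⟨h1, ?_⟩
      rcases hw with ⟨-, -, h4⟩ | ⟨h4, -⟩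
      · rw [hu, map_div₀, map_pow, h3, h4]
      · rw [h1] at h4
        norm_num at h4
    · refine Or.inr ⟨h1, ?_⟩
      rcases hw with ⟨h4, -⟩ | ⟨-, -, h4, -⟩
      · rw [h1] at h4
        norm_num at h4
      · rw [hu, map_div₀, map_pow, h3, h4]
        have := pow_ne_zero j (hv0 i)
        rw [inv_pow]
        field_simp
  have hβ : ∀ i, ∃ e : E, φ e = u i + A / u i := by
    intro i
    have h1 : (u i + A / u i) ^ Fintype.card E = u i + A / u i := by
      rw [← hψ, map_add, map_div₀, hψA]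
      rcases hψu i with ⟨-, h3⟩ | ⟨-, h3⟩
      · rw [h3]
      · have hA0 : A ≠ 0 := by rw [hA]; exact hα'
        rw [h3, div_div_cancel₀ hA0, add_comm]
    exact mem_range_of_pow φ.toRingHom h1
  choose e he using hβ
  have huA : ∀ i, u i ^ 2 ≠ A := by
    intro i h0
    have h1 : v i = 1 := by
      have hA0 : A ≠ 0 := by rw [hA]; exact hα'
      rw [hu2] at h0
      exact mul_left_cancel₀ hA0 (by rw [h0, mul_one])
    apply hwA
    rw [← hvl i, h1, one_pow, one_mul]
  refine ⟨e, ?_, fun i => ⟨?_, ?_⟩⟩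
  · intro i hi i' hi' h
    have h1 : u i + A / u i = u i' + A / u i' := by rw [← he, ← he, h]
    have h3 : (u i - u i') * (u i * u i' - A) = 0 := by
      have a1 := hu0 i
      have a2 := hu0 i'
      field_simp at h1
      linear_combination h1
    have h4 : v i = v i' := by
      have hA0 : A ≠ 0 := by rw [hA]; exact hα'
      rcases mul_eq_zero.1 h3 with h5 | h5
      · have h6 : u i = u i' := sub_eq_zero.1 h5
        have h7 := hu2 i
        rw [h6, hu2 i'] at h7
        exact (mul_left_cancel₀ hA0 h7).symm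
      · exfalso
        have h6 : u i * u i' = A := sub_eq_zero.1 h5
        have h7 : (u i * u i') ^ ℓ = A ^ (2 * j) * w ^ 2 := by
          rw [mul_pow, hul, hul, hj2, map_pow, ← hA]
          ring
        rw [h6, hj, pow_succ] at h7
        apply hwA
        exact (mul_left_cancel₀ (pow_ne_zero _ hA0) h7).symm
    rw [hv, hv] at h4
    exact hζ.pow_inj hi hi' (mul_left_cancel₀ hy0 h4)
  · apply (φ : E →+* Ω).injective
    simp only [AlgHom.coe_toRingHom, RingHom.coe_coe]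
    rw [← aeval_algHom_apply, he, hA, Ch_aeval hα (hℓ.odd_of_ne_two hℓ2) hw0 (hul i), hφ]
  · rw [char_eq h2 (hu0 i) (by rw [he, hA]) (by rw [← hA]; exact huA i), ← hψ]
    rcases hψu i with ⟨h1, h3⟩ | ⟨h1, h3⟩
    · rw [if_pos h3, h1]
    · rw [if_neg, h1]
      intro h4
      rcases hw with ⟨h5, -⟩ | ⟨-, -, -, h5⟩
      · rw [h1] at h5
        norm_num at h5
      · apply h5
        have hA0 : algebraMap k Ω (α ^ ((ℓ - 1) / 2)) ≠ 0 :=
          (_root_.map_ne_zero _).2 (pow_ne_zero _ hα)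
        have h6 := hul i
        have h7 := congrArg ψ h6
        rw [map_pow, h4, map_mul, ψ.commutes, h6] at h7
        exact (mul_left_cancel₀ hA0 h7).symm

end above

end Pool.Agent.T6.H36.CV
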