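import Pool.Agent.T6.H36.CV2
import Pool.Agent.T6.H36.CV3
import Pool.Agent.R939.KM.Fin

/-!
# Chebyshev towers over finite fields: counting
-/

set_option autoImplicit false
set_option linter.all false

namespace Pool.Agent.T6.H36.CV

open Polynomial Finset Pool.Agent.R939.EI Pool.Agent.R939.FF Pool.Agent.TH115.GD
  Pool.Agent.R939.KM

/-- The polynomial is not a constant times a square. -/
def NS {F : Type} [Field F] (f : F[X]) : Prop := ∀ (c : F) (h : F[X]), f ≠ C c * h ^ 2

theorem NS.ne_zero {F : Type} [Field F] {f : F[X]} (hf : NS f) : f ≠ 0 := by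
  rintro rfl
  exact hf 0 0 (by simp)

section three

variable {F E : Type} [Field F] [Fintype F] [Field E] [Fintype E] [Algebra F E] [DecidableEq E]

/-- The seven conditions. -/
structure Seven (f g d : F[X]) : Prop where
  n1 : NS f
  n2 : NS g
  n3 : NS (f * g)
  n4 : NS d
  n5 : NS (f * d)
  n6 : NS (g * d)
  n7 : NS (f * g * d)

/-- points at which `f` and `g` are not squares and the character of `d` is `s` -/
noncomputable def setS (E : Type) [Field E] [Fintype E] [Algebra F E] [DecidableEq E] (f g d : F[X]) (s : ℤ) :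
    Finset E :=
  univ.filter fun x : E => quadraticChar E (aeval x f) = -1 ∧ quadraticChar E (aeval x g) = -1 ∧
    quadraticChar E (aeval x d) = s

theorem pointwise {f g d : F[X]} {s : ℤ} (hs : s = 1 ∨ s = -1) (x : E) :
    8 * (if quadraticChar E (aeval x f) = -1 ∧ quadraticChar E (aeval x g) = -1 ∧
      quadraticChar E (aeval x d) = s then (1 : ℝ) else 0) ≤
      (1 : ℝ) - (quadraticChar E (aeval x f) : ℝ) - (quadraticChar E (aeval x g) : ℝ)
      + (quadraticChar E (aeval x (f * g)) : ℝ) + s * (quadraticChar E (aeval x d) : ℝ)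
      - s * (quadraticChar E (aeval x (f * d)) : ℝ) - s * (quadraticChar E (aeval x (g * d)) : ℝ)
      + s * (quadraticChar E (aeval x (f * g * d)) : ℝ) ∧
      (1 : ℝ) - (quadraticChar E (aeval x f) : ℝ) - (quadraticChar E (aeval x g) : ℝ)
      + (quadraticChar E (aeval x (f * g)) : ℝ) + s * (quadraticChar E (aeval x d) : ℝ)
      - s * (quadraticChar E (aeval x (f * d)) : ℝ) - s * (quadraticChar E (aeval x (g * d)) : ℝ)
      + s * (quadraticChar E (aeval x (f * g * d)) : ℝ) ≤
      8 * (if quadraticChar E (aeval x f) = -1 ∧ quadraticChar E (aeval x g) = -1 ∧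
      quadraticChar E (aeval x d) = s then (1 : ℝ) else 0) +
      4 * (if aeval x f = 0 then 1 else 0) + 4 * (if aeval x g = 0 then 1 else 0) +
      4 * (if aeval x d = 0 then 1 else 0) := by
  rw [map_mul, map_mul, map_mul, map_mul, map_mul]
  simp only [map_mul]
  have tri : ∀ z : E, (z = 0 ∧ quadraticChar E z = 0) ∨ (z ≠ 0 ∧ quadraticChar E z = 1) ∨
      (z ≠ 0 ∧ quadraticChar E z = -1) := by
    intro z
    by_cases h : z = 0
    · exact Or.inl ⟨h, by rw [h, quadraticChar_zero]⟩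
    · rcases quadraticChar_dichotomy h with h' | h'
      · exact Or.inr (Or.inl ⟨h, h'⟩)
      · exact Or.inr (Or.inr ⟨h, h'⟩)
  rcases tri (aeval x f) with ⟨h1, h1'⟩ | ⟨h1, h1'⟩ | ⟨h1, h1'⟩ <;>
  rcases tri (aeval x g) with ⟨h2, h2'⟩ | ⟨h2, h2'⟩ | ⟨h2, h2'⟩ <;>
  rcases tri (aeval x d) with ⟨h3, h3'⟩ | ⟨h3, h3'⟩ | ⟨h3, h3'⟩ <;>
  rcases hs with rfl | rfl <;>
  simp only [h1', h2', h3', h1, h2, h3] <;> norm_num

theorem card3 (hF : ringChar F ≠ 2) {f g d : F[X]} (h : Seven f g d) {s : ℤ}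
    (hs : s = 1 ∨ s = -1) :
    (Fintype.card E : ℝ) ≤ 8 * ((setS E f g d s).card : ℝ) +
      24 * (f.natDegree + g.natDegree + d.natDegree : ℕ) * Real.sqrt (Fintype.card E) ∧
    8 * ((setS E f g d s).card : ℝ) ≤ (Fintype.card E : ℝ) +
      20 * (f.natDegree + g.natDegree + d.natDegree : ℕ) * Real.sqrt (Fintype.card E) := by
  have b1 := sum_bound (E := E) hF h.n1
  have b2 := sum_bound (E := E) hF h.n2
  have b3 := sum_bound (E := E) hF h.n3
  have b4 := sum_bound (E := E) hF h.n4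
  have b5 := sum_bound (E := E) hF h.n5
  have b6 := sum_bound (E := E) hF h.n6
  have b7 := sum_bound (E := E) hF h.n7
  have f0 := h.n1.ne_zero
  have g0 := h.n2.ne_zero
  have d0 := h.n4.ne_zero
  rw [natDegree_mul f0 g0] at b3
  rw [natDegree_mul f0 d0] at b5
  rw [natDegree_mul g0 d0] at b6
  rw [natDegree_mul (mul_ne_zero f0 g0) d0, natDegree_mul f0 g0] at b7
  have z1 : ((univ.filter fun x : E => aeval x f = 0).card : ℝ) ≤ f.natDegree := by
    exact_mod_cast card_zeros (E := E) f0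
  have z2 : ((univ.filter fun x : E => aeval x g = 0).card : ℝ) ≤ g.natDegree := by
    exact_mod_cast card_zeros (E := E) g0
  have z3 : ((univ.filter fun x : E => aeval x d = 0).card : ℝ) ≤ d.natDegree := by
    exact_mod_cast card_zeros (E := E) d0
  have hU := Finset.sum_le_sum (s := (univ : Finset E)) fun x _ =>
    (pointwise (f := f) (g := g) (d := d) hs x).1
  have hL := Finset.sum_le_sum (s := (univ : Finset E)) fun x _ =>
    (pointwise (f := f) (g := g) (d := d) hs x).2
  simp only [sum_add_distrib, sum_sub_distrib, ← mul_sum, sum_boole] at hU hL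
  rw [sum_const, card_univ, nsmul_eq_mul, mul_one] at hU hL
  have hsq : 1 ≤ Real.sqrt (Fintype.card E) := by
    rw [show (1 : ℝ) = Real.sqrt 1 by simp]
    apply Real.sqrt_le_sqrt
    have : 1 ≤ Fintype.card E := Fintype.card_pos
    exact_mod_cast this
  have c1 := abs_le.1 b1
  have c2 := abs_le.1 b2
  have c3 := abs_le.1 b3
  have c4 := abs_le.1 b4
  have c5 := abs_le.1 b5
  have c6 := abs_le.1 b6
  have c7 := abs_le.1 b7
  have d1 : (f.natDegree : ℝ) ≤ f.natDegree * Real.sqrt (Fintype.card E) :=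
    le_mul_of_one_le_right (by positivity) hsq
  have d2 : (g.natDegree : ℝ) ≤ g.natDegree * Real.sqrt (Fintype.card E) :=
    le_mul_of_one_le_right (by positivity) hsq
  have d3 : (d.natDegree : ℝ) ≤ d.natDegree * Real.sqrt (Fintype.card E) :=
    le_mul_of_one_le_right (by positivity) hsq
  unfold setS
  push_cast at c3 c5 c6 c7 ⊢
  rcases hs with rfl | rfl
  · push_cast at hU hL
    constructor
    · nlinarith [c1.1, c1.2, c2.1, c2.2, c3.1, c3.2, c4.1, c4.2, c5.1, c5.2, c6.1, c6.2, c7.1, c7.2]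
    · nlinarith [c1.1, c1.2, c2.1, c2.2, c3.1, c3.2, c4.1, c4.2, c5.1, c5.2, c6.1, c6.2, c7.1, c7.2]
  · push_cast at hU hL
    constructor
    · nlinarith [c1.1, c1.2, c2.1, c2.2, c3.1, c3.2, c4.1, c4.2, c5.1, c5.2, c6.1, c6.2, c7.1, c7.2]
    · nlinarith [c1.1, c1.2, c2.1, c2.2, c3.1, c3.2, c4.1, c4.2, c5.1, c5.2, c6.1, c6.2, c7.1, c7.2]

end three

section disc

variable {k : Type} [Field k]

theorem ns_disc (h2 : (2 : k) ≠ 0) {α : k} (hα : α ≠ 0) : NS (X ^ 2 - C (4 * α) : k[X]) := by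
  intro c h e
  have h4 : (4 * α : k) ≠ 0 := by
    have : (4 : k) = 2 * 2 := by norm_num
    rw [this]
    exact mul_ne_zero (mul_ne_zero h2 h2) hα
  have h1 : (X ^ 2 - C (4 * α) : k[X]).Separable :=
    separable_X_pow_sub_C (4 * α) (by exact_mod_cast h2) h4
  have h3 : IsUnit h := h1.squarefree h (by
    rw [e]
    exact ⟨C c, by ring⟩)
  have h5 : (X ^ 2 - C (4 * α) : k[X]).natDegree = 2 := natDegree_X_pow_sub_C
  rw [e] at h5
  have h6 := natDegree_C_mul_le c (h ^ 2)
  rw [h5, natDegree_pow, natDegree_eq_zero_of_isUnit h3] at h6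
  omega

theorem Seven.comp {f g d h : k[X]} (hs : Seven f g d) (hodd : Odd h.natDegree) :
    Seven (f.comp h) (g.comp h) (d.comp h) where
  n1 := comp_ne_sq hodd hs.n1
  n2 := comp_ne_sq hodd hs.n2
  n3 := by rw [← mul_comp]; exact comp_ne_sq hodd hs.n3
  n4 := comp_ne_sq hodd hs.n4
  n5 := by rw [← mul_comp]; exact comp_ne_sq hodd hs.n5
  n6 := by rw [← mul_comp]; exact comp_ne_sq hodd hs.n6
  n7 := by rw [← mul_comp, ← mul_comp]; exact comp_ne_sq hodd hs.n7

end disc

end Pool.Agent.T6.H36.CV
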