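import Pool.Agent.T6.H36.CV4

/-!
# Chebyshev towers over finite fields: twists by primes
-/

set_option autoImplicit false
set_option linter.all false

namespace Pool.Agent.T6.H36.CV

open Polynomial Finset Pool.Agent.R939.EI Pool.Agent.R939.FF Pool.Agent.TH115.GD
  Pool.Agent.R939.KM

section count

variable {k : Type} [Field k] [Fintype k]

/-- the sign for the extension of degree `n` -/
theorem exists_sign {ℓ : ℕ} (hℓ : ℓ.Prime) (hℓk : ℓ ∣ Fintype.card k ^ 2 - 1) (n : ℕ) :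
    ∃ s : ℤ, (s = 1 ∧ ℓ ∣ Fintype.card k ^ n - 1) ∨ (s = -1 ∧ ℓ ∣ Fintype.card k ^ n + 1) := by
  have hq : 1 ≤ Fintype.card k := Fintype.card_pos
  have e : Fintype.card k ^ 2 - 1 = (Fintype.card k + 1) * (Fintype.card k - 1) := by
    have := Nat.sq_sub_sq (Fintype.card k) 1
    rwa [one_pow] at this
  rcases Nat.even_or_odd n with ⟨m, hm⟩ | hn
  · refine ⟨1, Or.inl ⟨rfl, hℓk.trans ?_⟩⟩
    rw [hm, ← two_mul, pow_mul]
    simpa using Nat.sub_dvd_pow_sub_pow (Fintype.card k ^ 2) 1 m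
  · rw [e] at hℓk
    rcases (Nat.Prime.dvd_mul hℓ).1 hℓk with h | h
    · refine ⟨-1, Or.inr ⟨rfl, h.trans ?_⟩⟩
      simpa using hn.nat_add_dvd_pow_add_pow (Fintype.card k) 1
    · refine ⟨1, Or.inl ⟨rfl, h.trans ?_⟩⟩
      simpa using Nat.sub_dvd_pow_sub_pow (Fintype.card k) 1 n

/-- irreducible polynomials modulo which `f` and `g` are not squares and whose torus points are not
`ℓ`-th powers -/
theorem exists_manyT (hk : ringChar k ≠ 2) {ℓ : ℕ} (hℓ : ℓ.Prime) (hℓ2 : ℓ ≠ 2)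
    (hℓk : ℓ ∣ Fintype.card k ^ 2 - 1) {α : k} (hα : α ≠ 0) {f g : k[X]}
    (h7 : Seven f g (X ^ 2 - C (4 * α))) (n : ℕ) (hn : n ≠ 0) :
    ∃ T : Finset k[X], (∀ D ∈ T, D.Monic ∧ Irreducible D ∧ D.natDegree = n ∧
      (∀ r : k[X], ¬ D ∣ f - r ^ 2 ∧ ¬ D ∣ g - r ^ 2) ∧ NoTorusPower D α ℓ) ∧
      (1 - 1 / (ℓ : ℝ)) * (Fintype.card k : ℝ) ^ n ≤ 8 * (n * T.card) +
        (44 * (f.natDegree + g.natDegree + 2 : ℕ) + 8 * Fintype.card k) *
          (Real.sqrt (Fintype.card k)) ^ n := by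
  classical
  obtain ⟨p, hp⟩ := CharP.exists k
  haveI : Fact (Nat.Prime p) := ⟨CharP.char_is_prime k p⟩
  haveI : NeZero n := ⟨hn⟩
  let E := FiniteField.Extension k p n
  letI : Fintype E := Fintype.ofFinite E
  haveI : FiniteDimensional k E := Module.Finite.of_finite
  have hfr : Module.finrank k E = n := FiniteField.finrank_extension k p n
  have hcard : Fintype.card E = Fintype.card k ^ n := by
    rw [Module.card_eq_pow_finrank (K := k) (V := E), hfr]
  have hodd : Odd (Ch α ℓ).natDegree := by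
    rw [Ch_deg hα (hℓ.odd_of_ne_two hℓ2)]
    exact hℓ.odd_of_ne_two hℓ2
  have h2 : (2 : k) ≠ 0 := Ring.two_ne_zero hk
  have h2' : (2 : AlgebraicClosure k) ≠ 0 := by
    have := (_root_.map_ne_zero (algebraMap k (AlgebraicClosure k))).2 h2
    rwa [map_ofNat] at this
  obtain ⟨s, hs⟩ := exists_sign hℓ hℓk n
  rw [← hcard] at hs
  have hs' : s = 1 ∨ s = -1 := by
    rcases hs with ⟨h, -⟩ | ⟨h, -⟩
    · exact Or.inl h
    · exact Or.inr h
  have h1 := (card3 (E := E) hk h7 hs').1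
  have h3 := (card3 (E := E) hk (h7.comp hodd) hs').2
  set A : Finset E := setS E f g (X ^ 2 - C (4 * α)) s with hA
  set B : Finset E := setS E (f.comp (Ch α ℓ)) (g.comp (Ch α ℓ))
    ((X ^ 2 - C (4 * α) : k[X]).comp (Ch α ℓ)) s with hB
  have hAB : ∀ e : E, e ∈ B ↔ aeval e (Ch α ℓ) ∈ A := by
    intro e
    rw [hA, hB, setS, setS, mem_filter, mem_filter, aeval_comp, aeval_comp, aeval_comp]
    simp only [mem_univ, true_and]
  set P := A.filter fun x => ¬ NoTorusPower (minpoly k x) α ℓ with hP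
  -- the bad points
  have h4 : P.card * ℓ ≤ B.card := by
    have h5 : ∀ x ∈ P, ℓ ≤ (B.filter fun e => aeval e (Ch α ℓ) = x).card := by
      intro x hx
      rw [hP, mem_filter] at hx
      obtain ⟨hxA, hbad⟩ := hx
      unfold NoTorusPower at hbad
      push Not at hbad
      obtain ⟨w, hw0, hroot, y, hy, hyw⟩ := hbad
      obtain ⟨φ, hφ⟩ := IntermediateField.exists_algHom_of_splits_of_aeval
        (F := k) (E := E) (K := AlgebraicClosure k) (fun z => ⟨Algebra.IsIntegral.isIntegral z,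
          IsAlgClosed.splits _⟩) hroot
      have hxs : quadraticChar E (aeval x (X ^ 2 - C (4 * α) : k[X])) = s := by
        rw [hA, setS, mem_filter] at hxA
        exact hxA.2.2.2
      obtain ⟨e, he, he'⟩ := preim hℓ hℓ2 h2' hα hs φ hxs hw0 hφ hy hyw
      have h6 : (Finset.range ℓ).image e ⊆ B.filter fun e => aeval e (Ch α ℓ) = x := by
        intro z hz
        obtain ⟨i, -, rfl⟩ := mem_image.1 hz
        rw [mem_filter]
        refine ⟨?_, (he' i).1⟩
        rw [hAB, (he' i).1]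
        exact hxA
      have h8 : ((Finset.range ℓ).image e).card = ℓ := by
        rw [card_image_of_injOn, card_range]
        intro i hi j hj h
        exact he (by simpa using hi) (by simpa using hj) h
      calc ℓ = _ := h8.symm
        _ ≤ _ := card_le_card h6
    have h6 : P.card * ℓ ≤ ∑ x ∈ P, (B.filter fun e => aeval e (Ch α ℓ) = x).card := by
      have := Finset.card_nsmul_le_sum P (fun x => (B.filter fun e => aeval e (Ch α ℓ) = x).card) ℓ h5
      simpa using this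
    refine h6.trans ?_
    rw [← card_biUnion]
    · refine card_le_card ?_
      intro y hy
      obtain ⟨x, -, hx⟩ := mem_biUnion.1 hy
      exact (mem_filter.1 hx).1
    · intro x _ x' _ hne
      rw [Function.onFun, disjoint_left]
      intro y hy hy'
      exact hne ((mem_filter.1 hy).2.symm.trans (mem_filter.1 hy').2)
  obtain ⟨T, hT, hc⟩ := to_polys (F := k) (A \ P) hn hfr
  have hsq : Real.sqrt (Fintype.card E) = (Real.sqrt (Fintype.card k)) ^ n := by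
    rw [hcard]
    push_cast
    rw [Real.sqrt_eq_iff_mul_self_eq (by positivity) (by positivity), ← mul_pow,
      Real.mul_self_sqrt (by positivity)]
  have hq1 : (1 : ℝ) ≤ Fintype.card k := by exact_mod_cast Fintype.card_pos
  have hsq1 : 1 ≤ Real.sqrt (Fintype.card k) := by
    rw [show (1 : ℝ) = Real.sqrt 1 by simp]
    exact Real.sqrt_le_sqrt hq1
  have h5 : ((Fintype.card k ^ (n / 2 + 1) : ℕ) : ℝ) ≤
      Fintype.card k * (Real.sqrt (Fintype.card k)) ^ n := by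
    push_cast
    rw [pow_succ, mul_comm]
    refine mul_le_mul_of_nonneg_left ?_ (by positivity)
    have h5 : (Fintype.card k : ℝ) ^ (n / 2) = (Real.sqrt (Fintype.card k)) ^ (2 * (n / 2)) := by
      rw [pow_mul, Real.sq_sqrt (by positivity)]
    rw [h5]
    exact pow_le_pow_right₀ hsq1 (Nat.mul_div_le n 2)
  refine ⟨T, ?_, ?_⟩
  · intro D hD
    obtain ⟨x, hx, rfl, hdeg⟩ := hT D hD
    have hint : IsIntegral k x := Algebra.IsIntegral.isIntegral x
    rw [mem_sdiff, hP, mem_filter] at hx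
    obtain ⟨hxA, e3⟩ := hx
    have hxA' := hxA
    rw [hA, setS, mem_filter] at hxA'
    obtain ⟨-, e1, e2, -⟩ := hxA'
    have key : ∀ (w r : k[X]), quadraticChar E (aeval x w) = -1 → ¬ minpoly k x ∣ w - r ^ 2 := by
      intro w r hw hdv
      have h5 : aeval x (w - r ^ 2) = 0 := (minpoly.dvd_iff).1 hdv
      rw [map_sub, map_pow, sub_eq_zero] at h5
      rw [h5] at hw
      by_cases h0 : aeval x r = 0
      · rw [h0, zero_pow two_ne_zero, MulChar.map_zero] at hw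
        norm_num at hw
      · rw [quadraticChar_sq_one' h0] at hw
        norm_num at hw
    refine ⟨minpoly.monic hint, minpoly.irreducible hint, hdeg,
      fun r => ⟨key f r e1, key g r e2⟩, ?_⟩
    by_contra hcon
    exact e3 ⟨hxA, hcon⟩
  · have hℓ0 : (0 : ℝ) < ℓ := by exact_mod_cast hℓ.pos
    have h6 : (A \ P).card + P.card = A.card :=
      card_sdiff_add_card_eq_card (filter_subset _ A)
    have h6' : ((A \ P).card : ℝ) + P.card = A.card := by exact_mod_cast h6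
    have h8 : (P.card : ℝ) ≤ B.card / ℓ := by
      rw [le_div_iff₀ hℓ0]
      exact_mod_cast h4
    have h9 : ((A \ P).card : ℝ) ≤ n * T.card + Fintype.card k * (Real.sqrt (Fintype.card k)) ^ n := by
      have h10 : ((A \ P).card : ℝ) ≤ n * T.card + ((Fintype.card k ^ (n / 2 + 1) : ℕ) : ℝ) := by
        exact_mod_cast hc
      linarith
    have hd2 : (X ^ 2 - C (4 * α) : k[X]).natDegree = 2 := natDegree_X_pow_sub_C
    rw [natDegree_comp, natDegree_comp, natDegree_comp, Ch_deg hα (hℓ.odd_of_ne_two hℓ2), hd2] at h3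
    rw [hd2] at h1
    rw [hsq, hcard] at h1 h3
    set Q : ℝ := (Real.sqrt (Fintype.card k)) ^ n with hQ
    have h11 : 8 * ((B.card : ℝ) / ℓ) ≤ (Fintype.card k : ℝ) ^ n / ℓ +
        20 * (f.natDegree + g.natDegree + 2 : ℕ) * Q := by
      have e : (Fintype.card k : ℝ) ^ n / ℓ + 20 * (f.natDegree + g.natDegree + 2 : ℕ) * Q =
          ((Fintype.card k : ℝ) ^ n + 20 *
            ((f.natDegree * ℓ + g.natDegree * ℓ + 2 * ℓ : ℕ) : ℝ) * Q) / ℓ := by
        push_cast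
        field_simp
      rw [e, ← mul_div_assoc]
      apply div_le_div_of_nonneg_right _ hℓ0.le
      exact_mod_cast h3
    have e2 : (1 - 1 / (ℓ : ℝ)) * (Fintype.card k : ℝ) ^ n = (Fintype.card k : ℝ) ^ n -
        (Fintype.card k : ℝ) ^ n / ℓ := by ring
    rw [e2]
    push_cast at h1 h11 ⊢
    linarith

/-- the asymptotic form -/
theorem exists_eighthT (hk : ringChar k ≠ 2) {ℓ : ℕ} (hℓ : ℓ.Prime) (hℓ2 : ℓ ≠ 2)
    (hℓk : ℓ ∣ Fintype.card k ^ 2 - 1) {α : k} (hα : α ≠ 0) {f g : k[X]}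
    (h7 : Seven f g (X ^ 2 - C (4 * α))) {η : ℝ} (hη : 0 < η) :
    ∃ n0 : ℕ, ∀ n : ℕ, n0 ≤ n → ∃ T : Finset k[X], (∀ D ∈ T, D.Monic ∧ Irreducible D ∧
      D.natDegree = n ∧ (∀ r : k[X], ¬ D ∣ f - r ^ 2 ∧ ¬ D ∣ g - r ^ 2) ∧ NoTorusPower D α ℓ) ∧
      (1 / 8 * (1 - 1 / (ℓ : ℝ)) - η) * (Fintype.card k : ℝ) ^ n ≤ n * T.card := by
  set A : ℝ := (44 * (f.natDegree + g.natDegree + 2 : ℕ) + 8 * Fintype.card k) / (8 * η) with hA
  obtain ⟨N, hN⟩ := exists_nat_ge A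
  refine ⟨max 4 N, fun n hn => ?_⟩
  have hn4 : 4 ≤ n := (le_max_left _ _).trans hn
  have hnN : N ≤ n := (le_max_right _ _).trans hn
  obtain ⟨T, hT, hc⟩ := exists_manyT hk hℓ hℓ2 hℓk hα h7 n (by omega)
  refine ⟨T, hT, ?_⟩
  set Q : ℝ := (Real.sqrt (Fintype.card k)) ^ n with hQ
  have hq2 : (2 : ℝ) ≤ Fintype.card k := by exact_mod_cast Fintype.one_lt_card
  have hQQ : (Fintype.card k : ℝ) ^ n = Q * Q := by
    rw [hQ, ← mul_pow, Real.mul_self_sqrt (by positivity)]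
  have hQ0 : 0 ≤ Q := by positivity
  have hQn : (n : ℝ) ≤ Q := by
    have h1 : (n : ℝ) * n ≤ Q * Q := by
      rw [← hQQ]
      have h2 : n ^ 2 ≤ 2 ^ n := sq_le_pow n hn4
      have h3 : (n : ℝ) ^ 2 ≤ 2 ^ n := by exact_mod_cast h2
      calc (n : ℝ) * n = n ^ 2 := by ring
        _ ≤ 2 ^ n := h3
        _ ≤ (Fintype.card k : ℝ) ^ n := pow_le_pow_left₀ (by norm_num) hq2 n
    nlinarith
  have hAQ : (44 * (f.natDegree + g.natDegree + 2 : ℕ) + 8 * (Fintype.card k : ℝ)) ≤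
      8 * η * Q := by
    have h1 : A ≤ Q := hN.trans ((by exact_mod_cast hnN : (N : ℝ) ≤ n).trans hQn)
    rw [hA, div_le_iff₀ (by positivity)] at h1
    linarith
  have h5 : (44 * (f.natDegree + g.natDegree + 2 : ℕ) + 8 * (Fintype.card k : ℝ)) * Q ≤
      8 * η * Q * Q := mul_le_mul_of_nonneg_right hAQ hQ0
  rw [hQQ] at hc ⊢
  nlinarith

end count

section main

variable {k k' K F : Type} [Field k] [Field k'] [Algebra k k'] [Field K] [Algebra k[X] K]
    [Field F] [Algebra k'[X] F] [IsFractionRing k'[X] F] [Algebra K F]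

theorem NoTorusPower.mul {f g : k[X]} {α : k} {ℓ : ℕ} (hf : NoTorusPower f α ℓ)
    (hg : NoTorusPower g α ℓ) : NoTorusPower (f * g) α ℓ := by
  intro x hx h0
  rw [map_mul] at h0
  rcases mul_eq_zero.1 h0 with h | h
  · exact hf x hx h
  · exact hg x hx h

/-- **Twists by primes in Chebyshev towers.** -/
theorem cheb_prime_twists [Fintype k] (hT : IsTower k k' K F) (hk : ringChar k ≠ 2) {a b : k[X]}
    (hNb : NotNorm b) (hNd : NotNorm (a ^ 2 - 4 * b)) (hO : OnlyTrivial a b)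
    (hO' : OnlyTrivial (-2 * a) (a ^ 2 - 4 * b)) {α : k} (hα : α ≠ 0)
    (hbd : NS (b * (a ^ 2 - 4 * b))) (h1 : NS (b * (X ^ 2 - C (4 * α))))
    (h2 : NS ((a ^ 2 - 4 * b) * (X ^ 2 - C (4 * α))))
    (h3 : NS (b * (a ^ 2 - 4 * b) * (X ^ 2 - C (4 * α))))
    {ℓ : ℕ} (hℓ : ℓ.Prime) (hℓ2 : ℓ ≠ 2) (hℓk : ℓ ∣ Fintype.card k ^ 2 - 1)
    (hp : NoTorusPower (b * (a ^ 2 - 4 * b)) α ℓ) {η : ℝ} (hη : 0 < η) :
    ∃ n0 : ℕ, ∀ n : ℕ, n0 ≤ n → ∃ T : Finset k[X],
      (∀ D ∈ T, D.Monic ∧ Irreducible D ∧ D.natDegree = n ∧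
        ∀ (c : k) (j : ℕ), c ≠ 0 →
          TateAtTwo (F := F) k' (crvT (algebraMap k[X] K ((C c * (a * D)).comp (Ch α (ℓ ^ j))))
            (algebraMap k[X] K ((C (c ^ 2) * (b * D ^ 2)).comp (Ch α (ℓ ^ j)))))) ∧
      (1 / 8 * (1 - 1 / (ℓ : ℝ)) - η) * (Fintype.card k : ℝ) ^ n ≤ n * T.card := by
  have h2' : (2 : k) ≠ 0 := Ring.two_ne_zero hk
  obtain ⟨n0, hn⟩ := exists_eighthT hk hℓ hℓ2 hℓk hα (f := b) (g := a ^ 2 - 4 * b)
    ⟨ne_sq_of_notNorm hNb, ne_sq_of_notNorm hNd, hbd, ns_disc h2' hα, h1, h2, h3⟩ hη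
  refine ⟨n0, fun n hnn => ?_⟩
  obtain ⟨T, hT', hc⟩ := hn n hnn
  refine ⟨T, fun D hD => ?_, hc⟩
  obtain ⟨h3, h4, h5, h6, h7⟩ := hT' D hD
  refine ⟨h3, h4, h5, ?_⟩
  intro c j hc
  refine cheb_covers hT h2' hNb hNd hO hO' ⟨h4.ne_zero, ?_⟩ hc hα ((hℓ.odd_of_ne_two hℓ2).pow) ?_
  · intro π hπ hdv r
    have has : Associated π D := (hπ.associated_of_dvd h4 hdv)
    refine ⟨fun h8 => (h6 r).1 (has.symm.dvd.trans h8), fun h8 => (h6 r).2 (has.symm.dvd.trans h8)⟩
  · intro ℓ' hℓ' hdv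
    have e : ℓ' = ℓ := (Nat.prime_dvd_prime_iff_eq hℓ' hℓ).1 (hℓ'.dvd_of_dvd_pow hdv)
    subst e
    exact hp.mul h7

end main

end Pool.Agent.T6.H36.CV
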