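import Pool.Agent.T6.H36.CV5
import Pool.Agent.R915.It.Main

/-!
# An example over the field with five elements
-/

set_option autoImplicit false

namespace Pool.Agent.T6.H36.CV

open Polynomial Pool.Agent.R939.EI Pool.Agent.TH115.GD Pool.Agent.R915.It

instance fact5 : Fact (Nat.Prime 5) := ⟨by norm_num⟩

theorem five_torus {Ω : Type} [Field Ω] [Algebra (ZMod 5) Ω] {x : Ω} (hx : x ≠ 0)
    (h : (x + 1 / x) ^ 2 = 1) : x ^ 6 = 1 ∧ x ^ 2 ≠ 1 := by
  haveI : CharP Ω 5 := charP_of_injective_algebraMap (algebraMap (ZMod 5) Ω).injective 5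
  have h5 : (5 : Ω) = 0 := by exact_mod_cast CharP.cast_eq_zero Ω 5
  have h1 : (x ^ 2 + 1) ^ 2 = x ^ 2 := by
    field_simp at h
    linear_combination h
  constructor
  · have h2 : x ^ 6 - 1 = (x ^ 2 - 1) * ((x ^ 2 + 1) ^ 2 - x ^ 2) := by ring
    rw [h1, sub_self, mul_zero, sub_eq_zero] at h2
    exact h2
  · intro h2
    rw [h2] at h1
    have h3 : (3 : Ω) = 0 := by linear_combination h1
    have h4 : (1 : Ω) = 0 := by linear_combination 2 * h3 - h5
    exact one_ne_zero h4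

theorem five_noTorus {f : (ZMod 5)[X]} (hf : f ∣ C 3 * (X - C 1) * (C 3 * (X + C 1))) :
    NoTorusPower f 1 3 := by
  intro x hx h0 y hy hxy
  haveI : CharP (AlgebraicClosure (ZMod 5)) 5 :=
    charP_of_injective_algebraMap (algebraMap (ZMod 5) (AlgebraicClosure (ZMod 5))).injective 5
  obtain ⟨g, hg⟩ := hf
  have h1 : aeval (x + algebraMap (ZMod 5) (AlgebraicClosure (ZMod 5)) 1 / x)
      (C 3 * (X - C 1) * (C 3 * (X + C 1)) : (ZMod 5)[X]) = 0 := by
    rw [hg, map_mul, h0, zero_mul]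
  have h3 : (algebraMap (ZMod 5) (AlgebraicClosure (ZMod 5)) 3) ≠ 0 :=
    (_root_.map_ne_zero _).2 (by decide)
  rw [map_mul, map_mul, map_mul, aeval_C, map_sub, map_add, aeval_X, aeval_C, map_one] at h1
  have h2 : (x + 1 / x) ^ 2 = 1 := by
    have h4 : algebraMap (ZMod 5) (AlgebraicClosure (ZMod 5)) 3 *
        algebraMap (ZMod 5) (AlgebraicClosure (ZMod 5)) 3 * ((x + 1 / x) ^ 2 - 1) = 0 := by
      linear_combination h1
    exact sub_eq_zero.1 ((mul_eq_zero.1 h4).resolve_left (mul_ne_zero h3 h3))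
  obtain ⟨h6, h7⟩ := five_torus hx h2
  rw [map_one, one_mul] at hxy
  -- the Frobenius of the field with 25 elements
  obtain ⟨ψ, hψ⟩ : ∃ ψ : AlgebraicClosure (ZMod 5) →ₐ[ZMod 5] AlgebraicClosure (ZMod 5),
      ∀ z, ψ z = z ^ 25 := by
    refine ⟨FiniteField.frobeniusAlgHom (ZMod 5) (AlgebraicClosure (ZMod 5)) ^ 2, fun z => ?_⟩
    rw [AlgHom.coe_pow, FiniteField.coe_frobeniusAlgHom, pow_iterate, ZMod.card]
  have hψx : ψ x = x := by
    rw [hψ]
    calc x ^ 25 = (x ^ 6) ^ 4 * x := by ring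
      _ = x := by rw [h6, one_pow, one_mul]
  have hψy : ψ y = y := fixed_adjoin ψ hψx hy
  have hy0 : y ≠ 0 := by
    rintro rfl
    rw [zero_pow (by norm_num)] at hxy
    exact pow_ne_zero 2 hx hxy.symm
  have hy24 : y ^ 24 = 1 := by
    apply mul_right_cancel₀ hy0
    rw [one_mul, ← pow_succ, ← hψ, hψy]
  have h16 : x ^ 16 = 1 := by
    calc x ^ 16 = (x ^ 2) ^ 8 := by ring
      _ = (y ^ 3) ^ 8 := by rw [hxy]
      _ = y ^ 24 := by ring
      _ = 1 := hy24
  apply h7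
  have h8 : x ^ 4 = 1 := by
    calc x ^ 4 = x ^ 16 / (x ^ 6) ^ 2 := by
          rw [h6, one_pow, div_one, h16]
          have : x ^ 16 = (x ^ 6) ^ 2 * x ^ 4 := by ring
          rw [h16, h6, one_pow, one_mul] at this
          exact this.symm
      _ = 1 := by rw [h16, h6]; norm_num
  calc x ^ 2 = x ^ 6 / x ^ 4 := by field_simp
    _ = 1 := by rw [h6, h8]; norm_num

theorem example5 {k' K F : Type} [Field k'] [Algebra (ZMod 5) k'] [Field K]
    [Algebra (ZMod 5)[X] K] [Field F] [Algebra k'[X] F] [IsFractionRing k'[X] F] [Algebra K F]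
    (hT : IsTower (ZMod 5) k' K F) (j : ℕ) {e : ZMod 5} (he : e ≠ 0) :
    TateAtTwo (F := F) k' (crvT (algebraMap (ZMod 5)[X] K (C e))
      (algebraMap (ZMod 5)[X] K (C (3 * e ^ 2) * (dickson 1 1 (3 ^ j) - 1)))) := by
  have h2 : (2 : ZMod 5) ≠ 0 := by decide
  have hb : Irreducible (C 3 * (X - C 1) : (ZMod 5)[X]) := by
    refine (irreducible_isUnit_mul (isUnit_C.2 (isUnit_iff_ne_zero.2 (by decide)))).2 ?_
    exact irreducible_X_sub_C 1
  have ed : (1 : (ZMod 5)[X]) ^ 2 - 4 * (C 3 * (X - C 1)) = C 3 * (X + C 1) := by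
    have h4 : (4 : (ZMod 5)[X]) = C 4 := (map_ofNat C 4).symm
    have h1 : (1 : (ZMod 5)[X]) = C 1 := C_1.symm
    have e1 : (1 : (ZMod 5)[X]) ^ 2 - 4 * (C 3 * (X - C 1)) = C (-(4 * 3)) * X + C (1 + 4 * 3) := by
      rw [h4]
      simp only [C_neg, C_mul, C_add, C_1]
      ring
    have e2 : (C 3 * (X + C 1) : (ZMod 5)[X]) = C 3 * X + C 3 := by
      simp only [C_1]
      ring
    rw [e1, e2]
    have c1 : (-(4 * 3) : ZMod 5) = 3 := by decide
    have c2 : (1 + 4 * 3 : ZMod 5) = 3 := by decide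
    rw [c1, c2]
  have hd : Irreducible ((1 : (ZMod 5)[X]) ^ 2 - 4 * (C 3 * (X - C 1))) := by
    rw [ed]
    refine (irreducible_isUnit_mul (isUnit_C.2 (isUnit_iff_ne_zero.2 (by decide)))).2 ?_
    have : (X + C 1 : (ZMod 5)[X]) = X - C (-1) := by rw [C_neg, sub_neg_eq_add]
    rw [this]
    exact irreducible_X_sub_C (-1)
  have hbd : (C 3 * (X - C 1) : (ZMod 5)[X]).natDegree = 1 := by
    rw [natDegree_C_mul (by decide), natDegree_X_sub_C]
  have hdd : ((1 : (ZMod 5)[X]) ^ 2 - 4 * (C 3 * (X - C 1))).natDegree = 1 := by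
    rw [ed, natDegree_C_mul (by decide), natDegree_X_add_C]
  have h1 := cheb_covers (F := F) hT h2 (a := 1) (b := C 3 * (X - C 1)) (D := 1) (c := e) (α := 1)
    (m := 3 ^ j) (notNorm_irr_odd hb (by rw [hbd]; decide))
    (notNorm_irr_odd hd (by rw [hdd]; decide)) (onlyTrivial_irr hb) (onlyTrivial_irr hd)
    ⟨one_ne_zero, fun π hπ hdv => absurd (isUnit_of_dvd_one hdv) hπ.not_isUnit⟩ he one_ne_zero
    ((by decide : Odd 3).pow) (fun ℓ hℓ hd' => by
      have : ℓ = 3 := (Nat.prime_dvd_prime_iff_eq hℓ (by norm_num)).1 (hℓ.dvd_of_dvd_pow hd')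
      subst this
      exact five_noTorus (by rw [mul_one, ed]))
  have e0 : Ch (1 : ZMod 5) (3 ^ j) = dickson 1 1 (3 ^ j) := by
    unfold Ch
    rw [one_pow, inv_one, C_1, one_mul]
  have e1 : (C e * (1 * 1) : (ZMod 5)[X]).comp (Ch (1 : ZMod 5) (3 ^ j)) = C e := by
    rw [mul_one, mul_one, C_comp]
  have e2 : (C (e ^ 2) * ((C 3 * (X - C 1)) * 1 ^ 2) : (ZMod 5)[X]).comp
      (Ch (1 : ZMod 5) (3 ^ j)) = C (3 * e ^ 2) * (dickson 1 1 (3 ^ j) - 1) := by
    rw [one_pow, mul_one, mul_comp, mul_comp, sub_comp, X_comp, C_comp, C_comp, C_comp, e0, C_mul,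
      C_1]
    ring
  rw [e1, e2] at h1
  exact h1

end Pool.Agent.T6.H36.CV
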