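import Mathlib

/-! Elementary facts on the units modulo a prime `n = 2wh+1` with `h` an odd prime and `w ∈ {1,2}`. -/

namespace Pool.Agent.T6.H36.Comb

open Polynomial

/-- The hypotheses on `h` and `n`. -/
structure Good (w h n : ℕ) : Prop where
  hw : w = 1 ∨ w = 2
  hh : h.Prime
  hodd : Odd h
  hn : n = 2 * w * h + 1
  hp : n.Prime
  h8 : n % 8 = 3 ∨ n % 8 = 5

variable {w h n : ℕ}

namespace Good

theorem w_pos (g : Good w h n) : 0 < w := by rcases g.hw with h | h <;> omega

theorem three_le (g : Good w h n) : 3 ≤ h := by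
  have := g.hh.two_le
  obtain ⟨k, hk⟩ := g.hodd
  omega

theorem n_ge (g : Good w h n) : 11 ≤ n := by
  have h1 := g.three_le
  have h2 := g.hn
  have h3 := g.h8
  rcases g.hw with rfl | rfl <;> omega

theorem n_odd' (g : Good w h n) : Odd n := ⟨w * h, by rw [g.hn]; ring⟩

theorem cop (g : Good w h n) : Nat.Coprime 2 n := by
  rw [Nat.coprime_primes Nat.prime_two g.hp]
  have := g.n_ge; omega

/-- The class of two. -/
noncomputable def two (g : Good w h n) : (ZMod n)ˣ := ZMod.unitOfCoprime 2 g.cop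

theorem two_coe (g : Good w h n) : ((g.two : (ZMod n)ˣ) : ZMod n) = 2 := by
  unfold two; rw [ZMod.coe_unitOfCoprime]; norm_num

theorem two_pow (g : Good w h n) : g.two ^ (w * h) = -1 := by
  have : Fact n.Prime := ⟨g.hp⟩
  have h1 : ¬ IsSquare (2 : ZMod n) := by
    rw [ZMod.exists_sq_eq_two_iff (by have := g.n_ge; omega)]
    have := g.h8
    omega
  have h20 : (2 : ZMod n) ≠ 0 := by
    rw [← g.two_coe]; exact g.two.ne_zero
  have h2 : (2 : ZMod n) ^ (n / 2) ≠ 1 := by
    intro h; exact h1 ((ZMod.euler_criterion n h20).2 h)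
  have h3 := (ZMod.pow_div_two_eq_neg_one_or_one n h20).resolve_left h2
  have h4 : n / 2 = w * h := by
    have h5 := g.hn
    have h6 : 2 * w * h = 2 * (w * h) := by ring
    omega
  rw [h4] at h3
  apply Units.ext
  push_cast
  rw [g.two_coe, h3]

theorem neg_one_ne (g : Good w h n) : (-1 : (ZMod n)ˣ) ≠ 1 := by
  intro h
  have h' := congrArg (fun u : (ZMod n)ˣ => (u : ZMod n)) h
  simp only [Units.val_neg, Units.val_one] at h'
  have : Fact (2 < n) := ⟨by have := g.n_ge; omega⟩
  exact ZMod.neg_one_ne_one h'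

theorem two_order (g : Good w h n) : orderOf g.two = 2 * w * h := by
  have : Fact n.Prime := ⟨g.hp⟩
  have hh0 : 0 < h := g.hh.pos
  have hw0 := g.w_pos
  have h4 : g.two ^ (2 * w * h) = 1 := by
    rw [show 2 * w * h = w * h * 2 by ring, pow_mul, g.two_pow, neg_one_sq]
  apply orderOf_eq_of_pow_and_pow_div_prime (by positivity) h4
  intro q hq hqd
  rcases (Nat.Prime.dvd_mul hq).1 hqd with h2 | h2
  · have : q = 2 := by
      have : q ∣ 2 ^ 2 := by
        rcases g.hw with rfl | rfl
        · exact h2.trans (by norm_num)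
        · simpa using h2
      exact (Nat.prime_dvd_prime_iff_eq hq Nat.prime_two).1 (hq.dvd_of_dvd_pow this)
    subst this
    rw [show 2 * w * h / 2 = w * h by rw [mul_assoc]; exact Nat.mul_div_cancel_left _ (by norm_num),
      g.two_pow]
    exact g.neg_one_ne
  · have : q = h := (Nat.prime_dvd_prime_iff_eq hq g.hh).1 h2
    subst this
    rw [Nat.mul_div_cancel _ hq.pos]
    intro h5
    have h6 := congrArg (fun u : (ZMod n)ˣ => (u : ZMod n)) h5
    simp only [Units.val_pow_eq_pow_val, Units.val_one, g.two_coe] at h6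
    have h7 : ((15 : ℕ) : ZMod n) = 0 := by
      rcases g.hw with rfl | rfl
      · push_cast
        linear_combination 5 * h6
      · push_cast
        linear_combination h6
    rw [ZMod.natCast_eq_zero_iff] at h7
    have h8 := Nat.le_of_dvd (by norm_num) h7
    have h9 := g.n_ge
    have h10 := g.h8
    interval_cases n <;> omega

theorem exists_pow (g : Good w h n) (u : (ZMod n)ˣ) : ∃ k : ℕ, g.two ^ k = u := by
  have : Fact n.Prime := ⟨g.hp⟩
  have h1 : Subgroup.zpowers g.two = ⊤ := by
    apply Subgroup.eq_top_of_card_eq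
    rw [Nat.card_zpowers, g.two_order, Nat.card_eq_fintype_card, ZMod.card_units, g.hn]
    rfl
  have h2 : u ∈ Subgroup.zpowers g.two := by rw [h1]; trivial
  obtain ⟨k, hk⟩ := (isOfFinOrder_of_finite g.two).mem_powers_iff_mem_zpowers.2 h2
  exact ⟨k, hk⟩

/-- The subgroup of index `2w`. -/
def H (h n : ℕ) : Subgroup (ZMod n)ˣ := (powMonoidHom h : (ZMod n)ˣ →* (ZMod n)ˣ).ker

theorem mem_H {x : (ZMod n)ˣ} : x ∈ H h n ↔ x ^ h = 1 := Iff.rfl

theorem pow_mem_H (g : Good w h n) (k : ℕ) : g.two ^ k ∈ H h n ↔ 2 * w ∣ k := by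
  rw [mem_H, ← pow_mul, ← orderOf_dvd_iff_pow_eq_one, g.two_order]
  exact Nat.mul_dvd_mul_iff_right g.hh.pos

theorem exists_16 (g : Good w h n) {b : (ZMod n)ˣ} (hb : b ∈ H h n) :
    ∃ j : ℕ, (g.two ^ w * g.two ^ w) ^ j = b := by
  obtain ⟨k, rfl⟩ := g.exists_pow b
  obtain ⟨j, rfl⟩ := (g.pow_mem_H k).1 hb
  refine ⟨j, ?_⟩
  rw [← pow_add, ← two_mul, ← pow_mul]

theorem neg_u_mem (g : Good w h n) : -(g.two ^ w) ∈ H h n := by
  rw [mem_H, Odd.neg_pow g.hodd, ← pow_mul, g.two_pow, neg_neg]

theorem neg_mul_u (g : Good w h n) {x : (ZMod n)ˣ} : x * g.two ^ w ∈ H h n ↔ -x ∈ H h n := by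
  have h1 := g.neg_u_mem
  have : x * g.two ^ w = (-x) * (-(g.two ^ w)) := by rw [neg_mul_neg]
  rw [this, Subgroup.mul_mem_cancel_right _ h1]

theorem neg_one_notMem (g : Good w h n) : (-1 : (ZMod n)ˣ) ∉ H h n := by
  rw [← g.two_pow, g.pow_mem_H]
  obtain ⟨k, hk⟩ := g.hodd
  rcases g.hw with rfl | rfl <;> omega

/-- The cosets. -/
theorem cases (g : Good w h n) (x : (ZMod n)ˣ) :
    x ∈ H h n ∨ -x ∈ H h n ∨
      (w = 2 ∧ (x * g.two ∈ H h n ∨ -(x * g.two) ∈ H h n)) := by
  obtain ⟨k, rfl⟩ := g.exists_pow x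
  rw [← g.neg_mul_u, ← g.neg_mul_u, ← pow_add, ← pow_succ, ← pow_add]
  rw [g.pow_mem_H, g.pow_mem_H, g.pow_mem_H, g.pow_mem_H]
  rcases g.hw with rfl | rfl <;> omega

/-- If `x` is not in `H` then `x` or its square is in `-H`. -/
theorem cases' (g : Good w h n) {x : (ZMod n)ˣ} (hx : x ∉ H h n) :
    -x ∈ H h n ∨ -(x ^ 2) ∈ H h n := by
  obtain ⟨k, rfl⟩ := g.exists_pow x
  rw [g.pow_mem_H] at hx
  rw [← g.neg_mul_u, ← g.neg_mul_u, ← pow_mul, ← pow_add, ← pow_add]
  rw [g.pow_mem_H, g.pow_mem_H]
  rcases g.hw with rfl | rfl <;> omega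

open scoped Classical in
/-- The sum over a coset vanishes. -/
theorem sum_H (g : Good w h n) [NeZero n] :
    ∑ b ∈ (Finset.univ.filter (fun b : (ZMod n)ˣ => b ∈ H h n)), (b : ZMod n) = 0 := by
  have : Fact n.Prime := ⟨g.hp⟩
  set S := ∑ b ∈ (Finset.univ.filter (fun b : (ZMod n)ˣ => b ∈ H h n)), (b : ZMod n) with hS
  have h1 : ((g.two ^ (2 * w) : (ZMod n)ˣ) : ZMod n) * S = S := by
    rw [hS, Finset.mul_sum]
    apply Finset.sum_bij (fun b _ => g.two ^ (2 * w) * b)
    · intro b hb
      simp only [Finset.mem_filter, Finset.mem_univ, true_and] at hb ⊢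
      exact Subgroup.mul_mem _ ((g.pow_mem_H (2 * w)).2 (dvd_refl _)) hb
    · intro b _ b' _ hbb
      exact mul_left_cancel hbb
    · intro b hb
      simp only [Finset.mem_filter, Finset.mem_univ, true_and] at hb
      refine ⟨(g.two ^ (2 * w))⁻¹ * b, ?_, by rw [mul_inv_cancel_left]⟩
      simp only [Finset.mem_filter, Finset.mem_univ, true_and]
      exact Subgroup.mul_mem _ (Subgroup.inv_mem _ ((g.pow_mem_H (2 * w)).2 (dvd_refl _))) hb
    · intro b _
      rw [Units.val_mul]
  have h2 : (((g.two ^ (2 * w) : (ZMod n)ˣ) : ZMod n) - 1) * S = 0 := by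
    linear_combination h1
  rcases mul_eq_zero.1 h2 with h3 | h3
  · exfalso
    have h4 : g.two ^ (2 * w) = 1 := by
      apply Units.ext
      rw [Units.val_one]
      exact sub_eq_zero.1 h3
    have h5 := orderOf_dvd_iff_pow_eq_one.2 h4
    rw [g.two_order] at h5
    have h6 := g.w_pos
    have h7 := Nat.le_of_dvd (by positivity) h5
    have h8 := g.three_le
    rcases g.hw with rfl | rfl <;> omega
  · exact h3

end Good

/-- Factorisation of `X^(wh)+1`. -/
theorem exists_psi (g : Good w h n) : ∃ Q : ℤ[X], (1 + X ^ w) * Q = X ^ (w * h) + 1 ∧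
    Irreducible (Q.map (Int.castRingHom ℚ)) := by
  refine ⟨cyclotomic (2 * w * h) ℤ, ?_, ?_⟩
  · have hh0 : 0 < h := g.hh.pos
    have hw0 := g.w_pos
    have hwh : 0 < w * h := by positivity
    have h1 := prod_cyclotomic_eq_X_pow_sub_one (show 0 < 2 * w * h by positivity) ℤ
    have h2 := prod_cyclotomic_eq_X_pow_sub_one hwh ℤ
    have hh3 := g.three_le
    obtain ⟨hk, hkodd⟩ := g.hodd
    have h3 : (2 * w * h).divisors = (w * h).divisors ∪ {2 * w, 2 * w * h} := by
      ext d
      simp only [Nat.mem_divisors, Finset.mem_union, Finset.mem_insert, Finset.mem_singleton]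
      constructor
      · rintro ⟨hd, -⟩
        by_cases hd2 : d ∣ w * h
        · exact Or.inl ⟨hd2, hwh.ne'⟩
        · right
          have h4d : 2 * w ∣ d := by
            by_contra h4d
            apply hd2
            by_cases h2d : 2 ∣ d
            · obtain ⟨e, rfl⟩ := h2d
              rcases g.hw with rfl | rfl
              · exact absurd ⟨e, by ring⟩ h4d
              · have he : ¬ 2 ∣ e := by
                  rintro ⟨f, rfl⟩; exact h4d ⟨f, by ring⟩
                have h5 : e ∣ 2 * h := by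
                  have : 2 * e ∣ 2 * (2 * h) := by rw [← mul_assoc]; exact hd
                  exact Nat.dvd_of_mul_dvd_mul_left (by norm_num) this
                have h6 : Nat.Coprime e 2 := ((Nat.prime_two.coprime_iff_not_dvd).2 he).symm
                exact Nat.mul_dvd_mul_left 2 (h6.dvd_of_dvd_mul_left h5)
            · have h6 : Nat.Coprime d 2 := ((Nat.prime_two.coprime_iff_not_dvd).2 h2d).symm
              rw [mul_assoc] at hd
              exact h6.dvd_of_dvd_mul_left hd
          obtain ⟨e, rfl⟩ := h4d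
          have he : e ∣ h := Nat.dvd_of_mul_dvd_mul_left (by positivity) hd
          rcases (Nat.dvd_prime g.hh).1 he with rfl | rfl
          · left; ring
          · right; rfl
      · rintro (⟨hd, -⟩ | rfl | rfl)
        · exact ⟨hd.trans ⟨2, by ring⟩, by positivity⟩
        · exact ⟨⟨h, rfl⟩, by positivity⟩
        · exact ⟨dvd_refl _, by positivity⟩
    have hd : Disjoint (w * h).divisors {2 * w, 2 * w * h} := by
      rw [Finset.disjoint_right]
      intro d hd
      simp only [Finset.mem_insert, Finset.mem_singleton] at hd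
      intro hd2
      have h5 := (Nat.mem_divisors.1 hd2).1
      rcases hd with rfl | rfl
      · obtain ⟨e, he⟩ := h5
        have h6 : w * h = w * (2 * e) := by rw [he]; ring
        have h7 := Nat.eq_of_mul_eq_mul_left hw0 h6
        omega
      · have := Nat.le_of_dvd hwh h5
        nlinarith
    have hne : (2 * w : ℕ) ≠ 2 * w * h := by
      intro h0
      have h6 : 2 * w * 1 = 2 * w * h := by rw [← h0]; ring
      have h7 := Nat.eq_of_mul_eq_mul_left (show 0 < 2 * w by positivity) h6
      omega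
    rw [h3, Finset.prod_union hd, h2, Finset.prod_pair hne] at h1
    have h4 : cyclotomic (2 * w) ℤ = X ^ w + 1 := by
      rcases g.hw with rfl | rfl
      · rw [mul_one, cyclotomic_two, pow_one]
      · have := cyclotomic_prime_pow_eq_geom_sum (R := ℤ) Nat.prime_two 
          (n := 1)
        norm_num [Finset.sum_range_succ] at this
        norm_num
        rw [this]; ring
    rw [h4] at h1
    have h5 : (X ^ (w * h) - 1 : ℤ[X]) ≠ 0 := by
      have := X_pow_sub_C_ne_zero (R := ℤ) hwh 1
      simpa using this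
    apply mul_left_cancel₀ h5
    rw [show (X : ℤ[X]) ^ (2 * w * h) = X ^ (w * h) * X ^ (w * h) by rw [← pow_add]; congr 1; ring] at h1
    linear_combination h1
  · rw [map_cyclotomic]
    exact cyclotomic.irreducible_rat (by have := g.three_le; have := g.w_pos; positivity)

end Pool.Agent.T6.H36.Comb
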