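import Pool.Agent.T6.H36.Dat

/-! The lattice of multiplicative relations is symmetric. -/

namespace Pool.Agent.T6.H36.Two

open Polynomial Comb Rel

namespace Dat

variable {w h n p a : ℕ} {L : Type} [Field L] [CharZero L] (D : Dat w h n p a L)

section lattice

variable [NeZero n]

/-- The monomial with exponents `f`. -/
noncomputable def mon (f : (ZMod n)ˣ → ℤ) : L := ∏ t, D.α t ^ f t

theorem mon_add (f f' : (ZMod n)ˣ → ℤ) : D.mon (f + f') = D.mon f * D.mon f' := by
  unfold mon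
  rw [← Finset.prod_mul_distrib]
  exact Finset.prod_congr rfl (fun t _ => zpow_add₀ (D.α_ne t) _ _)

theorem mon_zero : D.mon 0 = 1 := by
  unfold mon
  exact Finset.prod_eq_one (fun t _ => zpow_zero _)

theorem mon_smul (N : ℤ) (f : (ZMod n)ˣ → ℤ) : D.mon (N • f) = D.mon f ^ N := by
  unfold mon
  rw [← Finset.prod_zpow]
  refine Finset.prod_congr rfl (fun t _ => ?_)
  rw [Pi.smul_apply, smul_eq_mul, mul_comm, zpow_mul]

theorem mon_tr (u : (ZMod n)ˣ) (f : (ZMod n)ˣ → ℤ) : D.mon (tr u f) = D.cc u (D.mon f) := by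
  unfold mon
  rw [map_prod]
  refine (Fintype.prod_bijective (fun t => u * t) (Group.mulLeft_bijective u) _ _ ?_).symm
  intro t
  rw [map_zpow₀, cc_α, tr_apply, inv_mul_cancel_left]

theorem RU_zpow {x : L} (hx : RU x) (k : ℤ) : RU (x ^ k) := by
  rcases k with k | k
  · rw [Int.ofNat_eq_natCast, zpow_natCast]; exact RU_pow hx k
  · rw [zpow_negSucc]; exact RU_inv (RU_pow hx _)

theorem RU_of_zpow {x : L} {k : ℤ} (hk : k ≠ 0) (hx : RU (x ^ k)) : RU x := by
  rcases k with k | k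
  · rw [Int.ofNat_eq_natCast, zpow_natCast] at hx
    exact RU_of_pow (by rintro rfl; exact hk rfl) hx
  · rw [zpow_negSucc] at hx
    have := RU_inv hx
    rw [inv_inv] at this
    exact RU_of_pow (Nat.succ_ne_zero _) this

/-- The lattice of relations. -/
noncomputable def E : Submodule ℤ ((ZMod n)ˣ → ℤ) where
  carrier := {f | RU (D.mon f)}
  zero_mem' := by
    show RU (D.mon 0)
    rw [mon_zero]; exact RU_one
  add_mem' := by
    intro f f' hf hf'
    show RU (D.mon (f + f'))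
    rw [mon_add]; exact RU_mul hf hf'
  smul_mem' := by
    intro N f hf
    show RU (D.mon (N • f))
    rw [mon_smul]; exact RU_zpow hf N

theorem mem_E {f : (ZMod n)ˣ → ℤ} : f ∈ D.E ↔ RU (D.mon f) := Iff.rfl

theorem E_tr (u : (ZMod n)ˣ) {f : (ZMod n)ˣ → ℤ} (hf : f ∈ D.E) : tr u f ∈ D.E := by
  rw [mem_E, mon_tr]; exact RU_map hf _

theorem E_sat (N : ℤ) (f : (ZMod n)ˣ → ℤ) (hN : N ≠ 0) (hf : N • f ∈ D.E) : f ∈ D.E := by
  rw [mem_E, mon_smul] at hf
  exact RU_of_zpow hN hf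

end lattice

section lemmaP

variable [FiniteDimensional ℚ L] [IsGalois ℚ L]

/-- Square roots of odd powers of `p`. -/
theorem lemmaP (h8 : p % 8 ≠ n % 8) {γ : L} {r : ℕ} (hr : Odd r) (hγ : γ ^ 2 = (p : L) ^ r ∨ γ ^ 2 = -(p : L) ^ r)
    (hc : γ * D.cc (-1) γ = (p : L) ^ r) : D.c γ = γ ∧ ∃ τ : L ≃ₐ[ℚ] L, τ γ = -γ := by
  obtain ⟨k, rfl⟩ := hr
  have hp0 : (p : L) ≠ 0 := D.p_ne
  have hpk : (p : L) ^ k ≠ 0 := pow_ne_zero _ hp0
  have hodd : Odd (p : ℤ) := by
    rw [Int.odd_coe_nat]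
    exact D.hp.odd_of_ne_two D.hp2
  set δ : L := γ / (p : L) ^ k with hδ
  have hγδ : γ = δ * (p : L) ^ k := by rw [hδ, div_mul_cancel₀ _ hpk]
  have hτ : ∀ τ : L ≃ₐ[ℚ] L, τ γ = τ δ * (p : L) ^ k := by
    intro τ; rw [hγδ, map_mul, map_pow, map_natCast]
  have hγ0 : γ ≠ 0 := by
    rintro h0
    rw [h0, zero_mul] at hc
    exact pow_ne_zero _ hp0 hc.symm
  have hδ0 : δ ≠ 0 := div_ne_zero hγ0 hpk
  have e1 : (p : L) ^ (2 * k + 1) = (p : L) * ((p : L) ^ k) ^ 2 := by ring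
  have hpm : ∀ τ : L ≃ₐ[ℚ] L, (∃ d : ℤ, δ ^ 2 = d) → τ δ = δ ∨ τ δ = -δ := by
    intro τ ⟨d, hd⟩
    apply sq_eq_sq_iff_eq_or_eq_neg.1
    rw [← map_pow, hd, map_intCast]
  -- the value of the element of order two
  have hccδ : (∃ d : ℤ, δ ^ 2 = d) → D.cc (-1) δ = if w = 1 then D.c δ else δ := by
    intro hd
    have h1 : (D.c * D.c) δ = δ := by
      rw [AlgEquiv.mul_apply]
      rcases hpm D.c hd with h5 | h5
      · rw [h5, h5]
      · rw [h5, map_neg, h5, neg_neg]
    have h1' : ∀ j : ℕ, (D.c ^ (2 * j)) δ = δ := by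
      intro j
      rw [pow_mul, pow_two]
      induction j with
      | zero => rw [pow_zero]; rfl
      | succ j ih => rw [pow_succ', AlgEquiv.mul_apply, ih, h1]
    unfold cc
    have h3 := (D.g.exists_pow (-1)).choose_spec
    set m := (D.g.exists_pow (-1)).choose with hm
    rw [← D.g.two_pow] at h3
    have h5 := pow_eq_pow_iff_modEq.1 h3
    rw [D.g.two_order] at h5
    have hw0 := D.g.w_pos
    have hh0 := D.g.hh.pos
    have hwh : 0 < w * h := by positivity
    have h6 : m % (2 * w * h) = w * h := by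
      rw [h5, Nat.mod_eq_of_lt (by nlinarith)]
    have h7 := Nat.div_add_mod m (2 * w * h)
    rw [h6] at h7
    obtain ⟨e, he⟩ := D.g.hodd
    split_ifs with hw1
    · have h8 : m = 2 * (w * h * (m / (2 * w * h)) + e) + 1 := by
        refine h7.symm.trans ?_
        rw [hw1, he]; ring
      rw [h8, pow_succ, AlgEquiv.mul_apply]
      rcases hpm D.c hd with h9 | h9
      · rw [h9, h1']
      · rw [h9, map_neg, h1']
    · have hw2 : w = 2 := D.g.hw.resolve_left hw1
      have h8 : m = 2 * (w * h * (m / (2 * w * h)) + h) := by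
        refine h7.symm.trans ?_
        rw [hw2]; ring
      rw [h8, h1']
  have hn8 : (w = 1 → n % 8 = 3) ∧ (w = 2 → n % 8 = 5) := by
    have h1 := D.g.h8
    have h2 := D.g.hn
    obtain ⟨e, he⟩ := D.g.hodd
    constructor
    · rintro rfl; omega
    · rintro rfl; omega
  have h2L : (2 : L) ≠ 0 := two_ne_zero
  rcases hγ with hγ | hγ
  · have hδ2 : δ ^ 2 = ((p : ℤ) : L) := by
      apply mul_right_cancel₀ (pow_ne_zero 2 hpk)
      rw [← mul_pow, ← hγδ, hγ, e1, Int.cast_natCast]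
    obtain ⟨h1, h2⟩ := D.sqrt hodd hδ2
    have h3 : D.c δ = δ := by
      by_cases hw1 : w = 1
      · have h4 := hccδ ⟨_, hδ2⟩
        rw [if_pos hw1] at h4
        rw [← h4]
        -- `γ * cc γ = γ ^ 2`
        rw [hτ, ← hγ, pow_two, hγδ] at hc
        have h5 : δ * (p : L) ^ k ≠ 0 := mul_ne_zero hδ0 hpk
        exact mul_right_cancel₀ hpk (mul_left_cancel₀ h5 hc)
      · have hw2 : w = 2 := D.g.hw.resolve_left hw1
        apply h2
        obtain ⟨e, he⟩ := h1
        have := hn8.2 hw2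
        exact ⟨e / 2, by omega⟩
    refine ⟨by rw [hτ, h3, ← hγδ], ?_⟩
    by_contra hno
    push Not at hno
    have h4 : ∀ τ : L ≃ₐ[ℚ] L, τ δ = δ := by
      intro τ
      rcases hpm τ ⟨p, hδ2⟩ with h5 | h5
      · exact h5
      · exfalso
        apply hno τ
        rw [hτ, h5, neg_mul, ← hγδ]
    have h6 := (IsGalois.mem_bot_iff_fixed δ).2 h4
    obtain ⟨x, hx⟩ := IntermediateField.mem_bot.1 h6
    have h7 : x ^ 2 = (p : ℚ) := by
      apply (algebraMap ℚ L).injective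
      rw [map_pow, hx, hδ2]; simp
    have h8 : Irrational (√(p : ℝ)) := D.hp.irrational_sqrt
    apply h8
    refine ⟨|x|, ?_⟩
    rw [eq_comm, Real.sqrt_eq_iff_mul_self_eq (by positivity) (by positivity), eq_comm]
    have : |x| * |x| = (p : ℚ) := by rw [abs_mul_abs_self, ← pow_two, h7]
    exact_mod_cast this
  · exfalso
    have hδ2 : δ ^ 2 = ((-(p : ℤ) : ℤ) : L) := by
      apply mul_right_cancel₀ (pow_ne_zero 2 hpk)
      rw [← mul_pow, ← hγδ, hγ, e1]; push_cast; ring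
    obtain ⟨h1, h2⟩ := D.sqrt hodd.neg hδ2
    have h4 := hccδ ⟨_, hδ2⟩
    have hcc : D.cc (-1) δ = -δ := by
      rw [hτ] at hc
      have h5 : γ ≠ 0 := hγ0
      apply mul_right_cancel₀ hpk
      apply mul_left_cancel₀ h5
      rw [hc, neg_mul, ← hγδ, mul_neg, ← pow_two, hγ, neg_neg]
    have hne : δ ≠ -δ := by
      intro h0
      have : (2 : L) * δ = 0 := by linear_combination h0
      exact mul_ne_zero h2L hδ0 this
    by_cases hw1 : w = 1
    · rw [if_pos hw1, hcc] at h4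
      obtain ⟨e, he⟩ := h1
      have h5 := hn8.1 hw1
      have h6 : ∃ e, -(p : ℤ) = 8 * e + 1 := ⟨e / 2, by omega⟩
      rw [h2 h6] at h4
      exact hne h4.symm
    · rw [if_neg hw1, hcc] at h4
      exact hne h4.symm

end lemmaP

end Dat

end Pool.Agent.T6.H36.Two
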