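import Pool.Agent.T6.H36.Core

/-! Roots of unity and the first two steps of the main argument. -/

namespace Pool.Agent.T6.H36.Two

open Polynomial Comb Rel

namespace Dat

variable {w h n p a : ℕ} {L : Type} [Field L] [CharZero L] (D : Dat w h n p a L)

/-- `z` is the root of unity of order `n` with residue `ζ`. -/
def Z (z : L) : Prop := z ^ n = 1 ∧ D.R z (D.ψ 1)

/-- Powers of `z` indexed by classes modulo `n`. -/
noncomputable def zz (z : L) (x : ZMod n) : L := z ^ x.val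

include D in
theorem n_odd : Odd n := D.g.n_odd'

theorem exists_Z {y : L} (hy : RU y) {x : ZMod n} (hx : x ≠ 0) (hR : D.R y (D.ψ x)) :
    ∃ z : L, D.Z z := by
  haveI : Fact n.Prime := ⟨D.g.hp⟩
  haveI := D.neZero
  have h1 : y ^ n = 1 ∨ y ^ n = -1 := by
    apply D.pm (RU_pow hy n)
    have := D.R_pow hR n
    rwa [← D.ψ_nsmul, CharP.cast_eq_zero, zero_mul, ψ_zero] at this
  have h2 : (y ^ 2) ^ n = 1 := by
    rw [← pow_mul, mul_comm, pow_mul]
    rcases h1 with h1 | h1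
    · rw [h1, one_pow]
    · rw [h1, neg_one_sq]
  set m := ((2 * x : ZMod n)⁻¹).val with hm
  refine ⟨(y ^ 2) ^ m, ?_, ?_⟩
  · rw [← pow_mul, mul_comm, pow_mul, h2, one_pow]
  · have := D.R_pow (D.R_pow hR 2) m
    rw [← D.ψ_nsmul, ← D.ψ_nsmul, hm, ZMod.natCast_val, ZMod.cast_id, Nat.cast_ofNat,
      inv_mul_cancel₀] at this
    · exact this
    · apply mul_ne_zero _ hx
      rw [← D.g.two_coe]
      exact D.g.two.ne_zero

section Zlem

variable {D} {z : L} (hz : D.Z z)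

include hz

theorem zz_add (x y : ZMod n) : zz z (x + y) = zz z x * zz z y := by
  haveI := D.neZero
  unfold zz
  rw [← pow_add, ZMod.val_add]
  conv_rhs => rw [← Nat.div_add_mod (x.val + y.val) n, pow_add, pow_mul, hz.1, one_pow, one_mul]

omit hz in
theorem zz_zero : zz z (0 : ZMod n) = 1 := by unfold zz; rw [ZMod.val_zero, pow_zero]

theorem zz_R (x : ZMod n) : D.R (zz z x) (D.ψ x) := by
  haveI := D.neZero
  have := D.R_pow hz.2 x.val
  rwa [← D.ψ_nsmul, ZMod.natCast_val, ZMod.cast_id, mul_one] at this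

theorem zz_pow (x : ZMod n) : zz z x ^ n = 1 := by
  unfold zz; rw [← pow_mul, mul_comm, pow_mul, hz.1, one_pow]

theorem zz_RU (x : ZMod n) : RU (zz z x) := ⟨n, D.neZero.out, zz_pow hz x⟩

theorem zz_ne (x : ZMod n) : zz z x ≠ 0 := RU_ne (zz_RU hz x)

theorem zz_inj {x y : ZMod n} (hxy : zz z x = zz z y) : x = y := by
  have h1 := zz_R hz x
  rw [hxy] at h1
  exact D.ψ_inj (D.R_unique h1 (zz_R hz y))

theorem zz_unique {x : ZMod n} {y : L} (hy : y ^ n = 1) (hR : D.R y (D.ψ x)) : y = zz z x := by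
  have h1 : y / zz z x = 1 := by
    apply D.one_of_odd D.n_odd
    · rw [div_pow, hy, zz_pow hz, div_one]
    · have := D.R_div hR (zz_R hz x) (D.ψ_ne x)
      rwa [div_self (D.ψ_ne x)] at this
  rw [div_eq_iff (zz_ne hz x), one_mul] at h1
  exact h1

theorem zz_pm {x : ZMod n} {y : L} (hy : RU y) (hR : D.R y (D.ψ x)) : y = zz z x ∨ y = -zz z x := by
  have h1 : y / zz z x = 1 ∨ y / zz z x = -1 := by
    apply D.pm
    · exact RU_div hy (zz_RU hz x)
    · have := D.R_div hR (zz_R hz x) (D.ψ_ne x)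
      rwa [div_self (D.ψ_ne x)] at this
  rcases h1 with h1 | h1
  · left
    rw [div_eq_iff (zz_ne hz x), one_mul] at h1
    exact h1
  · right
    rw [div_eq_iff (zz_ne hz x), neg_one_mul] at h1
    exact h1

theorem zz_neg (x : ZMod n) : zz z (-x) = (zz z x)⁻¹ := by
  apply eq_inv_of_mul_eq_one_left
  rw [← zz_add hz, neg_add_cancel, zz_zero]

theorem zz_sub (x y : ZMod n) : zz z (x - y) = zz z x / zz z y := by
  rw [sub_eq_add_neg, zz_add hz, zz_neg hz, div_eq_mul_inv]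

theorem zz_cc (u : (ZMod n)ˣ) (x : ZMod n) : D.cc u (zz z x) = zz z ((u : ZMod n) * x) := by
  apply zz_unique hz
  · rw [← map_pow, zz_pow hz, map_one]
  · exact D.R_cc u (zz_R hz x)

theorem zz_nsmul (k : ℕ) (x : ZMod n) : zz z ((k : ZMod n) * x) = zz z x ^ k := by
  induction k with
  | zero => rw [Nat.cast_zero, zero_mul, zz_zero, pow_zero]
  | succ k ih => rw [Nat.cast_succ, add_mul, one_mul, zz_add hz, ih, pow_succ]

theorem zz_one : zz z (1 : ZMod n) = z := by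
  haveI : Fact n.Prime := ⟨D.g.hp⟩
  unfold zz
  rw [ZMod.val_one, pow_one]

theorem zz_map (τ : L ≃ₐ[ℚ] L) : ∃ χ : ZMod n, ∀ x, τ (zz z x) = zz z (χ * x) := by
  haveI : Fact n.Prime := ⟨D.g.hp⟩
  haveI := D.neZero
  have hprim : IsPrimitiveRoot z n := by
    apply IsPrimitiveRoot.mk_of_lt _ D.g.hp.pos hz.1
    intro l hl0 hln hl
    have h1 : zz z ((l : ℕ) : ZMod n) = zz z (0 : ZMod n) := by
      unfold zz
      rw [ZMod.val_natCast_of_lt hln, hl, ZMod.val_zero, pow_zero]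
    have h2 := zz_inj hz h1
    rw [ZMod.natCast_eq_zero_iff] at h2
    exact absurd (Nat.le_of_dvd hl0 h2) (not_le.2 hln)
  obtain ⟨i, _, hi⟩ := hprim.eq_pow_of_pow_eq_one (ξ := τ z) (by rw [← map_pow, hz.1, map_one])
  refine ⟨(i : ZMod n), fun x => ?_⟩
  rw [zz_nsmul hz]
  show τ (z ^ x.val) = (z ^ x.val) ^ i
  rw [map_pow, ← hi, ← pow_mul, ← pow_mul, mul_comm]

theorem cc_R_neg_absurd {x : ZMod n} (h1 : zz z x = -zz z x) : False := by
  have : (2 : L) * zz z x = 0 := by linear_combination h1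
  exact mul_ne_zero two_ne_zero (zz_ne hz x) this

end Zlem

section main

variable [FiniteDimensional ℚ L] [IsGalois ℚ L]

/-- The abelian variety is not supersingular. -/
theorem lemmaS (h8 : p % 8 ≠ n % 8) : ¬ RU (D.α 1 / D.α (-1)) := by
  intro hRU
  haveI : Fact n.Prime := ⟨D.g.hp⟩
  have hR : D.R (D.α 1 / D.α (-1)) (D.ψ 2) := by
    have := D.R_div (D.Rα 1) (D.Rα (-1)) (D.ψ_ne _)
    rw [← D.ψ_sub, Units.val_neg, Units.val_one] at this
    have e : (1 : ZMod n) - -1 = 2 := by ring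
    rwa [e] at this
  obtain ⟨z, hz⟩ := D.exists_Z hRU (x := 2) (by rw [← D.g.two_coe]; exact D.g.two.ne_zero) hR
  have hq := D.α_mul_neg 1
  have ha0 := D.α_ne (-1)
  have hz1 := zz_ne hz 1
  set β := D.α 1 / zz z (1 : ZMod n) with hβ
  have hz2 : zz z (2 : ZMod n) = zz z (1 : ZMod n) ^ 2 := by
    rw [← zz_nsmul hz]; congr 1; norm_num
  have hβ2 : β ^ 2 = (p : L) ^ a ∨ β ^ 2 = -(p : L) ^ a := by
    have e1 : D.α 1 ^ 2 = (D.α 1 / D.α (-1)) * (p : L) ^ a := by
      rw [← hq]; field_simp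
    rcases zz_pm hz hRU hR with h1 | h1
    · left
      rw [hβ, div_pow, e1, h1, hz2]; field_simp
    · right
      rw [hβ, div_pow, e1, h1, hz2]; field_simp
  have hall : ∀ u : (ZMod n)ˣ, D.cc u β = D.α u / zz z (u : ZMod n) := by
    intro u
    rw [hβ, map_div₀, cc_α, mul_one, zz_cc hz, mul_one]
  have hcc : β * D.cc (-1) β = (p : L) ^ a := by
    rw [hall, hβ, ← hq, Units.val_neg, Units.val_one, zz_neg hz]
    field_simp
  obtain ⟨h1, τ, h2⟩ := D.lemmaP h8 D.ha hβ2 hcc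
  have h3 : ∀ u : (ZMod n)ˣ, D.α u = β * zz z (u : ZMod n) := by
    intro u
    have := D.cc_fix u h1
    rw [hall, div_eq_iff (zz_ne hz _)] at this
    exact this
  have hβ0 : β ≠ 0 := div_ne_zero (D.α_ne 1) hz1
  obtain ⟨χ, hχ⟩ := zz_map hz τ
  have h4 := D.hπ τ 1
  rw [h3, map_mul, h2, hχ, h3, neg_mul, ← mul_neg] at h4
  have h5 := mul_left_cancel₀ hβ0 h4
  rw [Units.val_one, mul_one] at h5
  have h6 : χ = (D.π τ 1 : ZMod n) := by
    apply D.ψ_inj
    have := D.R_neg' (zz_R hz χ)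
    rw [h5] at this
    exact D.R_unique this (zz_R hz _)
  rw [← h6] at h5
  exact cc_R_neg_absurd hz h5.symm

end main

end Dat

end Pool.Agent.T6.H36.Two
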