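import Pool.Agent.T6.H36.Emb

/-! Embeddings of number fields and automorphisms. -/

namespace Pool.Agent.T6.H36.Lift

open Polynomial

theorem exists_aut {L M : Type} [Field L] [CharZero L] [Field M] [CharZero M] [Normal ℚ L]
    (j : L →+* M) (φ : M →+* M) : ∃ σ : L ≃ₐ[ℚ] L, ∀ x, j (σ x) = φ (j x) := by
  letI : Algebra L M := j.toAlgebra
  haveI : IsScalarTower ℚ L M := IsScalarTower.of_algebraMap_eq' (Subsingleton.elim _ _)
  let φ' : M →ₐ[ℚ] M := φ.toRatAlgHom
  refine ⟨φ'.restrictNormal' L, fun x => ?_⟩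
  exact φ'.restrictNormal_commutes L x

/-- If the roots of unity of order `n` generate `L`, then `L` embeds in any field of characteristic
zero with a primitive root of unity of order `n`. -/
theorem exists_emb {L M : Type} [Field L] [CharZero L] [Field M] [CharZero M]
    [FiniteDimensional ℚ L] [IsGalois ℚ L] {n : ℕ} (hn : 0 < n) {z : L} (hz : z ^ n = 1)
    (hgen : ∀ τ : L ≃ₐ[ℚ] L, τ z = z → τ = 1) {ω : M} (hω : IsPrimitiveRoot ω n) :
    Nonempty (L →+* M) := by
  have h1 : IntermediateField.adjoin ℚ ({z} : Set L) = ⊤ := by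
    have h2 : (IntermediateField.adjoin ℚ ({z} : Set L)).fixingSubgroup = ⊥ := by
      rw [eq_bot_iff]
      intro τ hτ
      rw [Subgroup.mem_bot]
      apply hgen
      rw [IntermediateField.mem_fixingSubgroup_iff] at hτ
      exact hτ z (IntermediateField.mem_adjoin_simple_self ℚ z)
    rw [← IsGalois.fixedField_fixingSubgroup (IntermediateField.adjoin ℚ ({z} : Set L)), h2]
    exact IntermediateField.fixedField_bot
  have h3 : Nonempty (L →ₐ[ℚ] M) := by
    apply IntermediateField.nonempty_algHom_of_adjoin_splits (S := {z}) _ h1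
    intro s hs
    rw [Set.mem_singleton_iff] at hs
    subst hs
    refine ⟨Algebra.IsIntegral.isIntegral _, ?_⟩
    have h4 : minpoly ℚ s ∣ X ^ n - 1 := by
      apply minpoly.dvd
      rw [map_sub, map_pow, aeval_X, map_one, hz, sub_self]
    have h5 : ((X ^ n - 1 : ℚ[X]).map (algebraMap ℚ M)).Splits := by
      rw [Polynomial.map_sub, Polynomial.map_pow, map_X, Polynomial.map_one]
      exact X_pow_sub_one_splits hω
    apply Splits.of_dvd h5
    · have : (X ^ n - 1 : M[X]) ≠ 0 := by
        have := X_pow_sub_C_ne_zero (R := M) hn 1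
        rwa [C_1] at this
      rw [Polynomial.map_sub, Polynomial.map_pow, map_X, Polynomial.map_one]
      exact this
    · exact Polynomial.map_dvd _ h4
  exact ⟨h3.some.toRingHom⟩

/-- Existence of roots of unity. -/
theorem exists_root (p : ℕ) [hp : Fact p.Prime] (k : Type) [Field k] [CharP k p] [IsAlgClosed k]
    {n : ℕ} (hn : ¬ p ∣ n) : ∃ ω : Emb.M p k, IsPrimitiveRoot ω n := by
  have hn0 : (n : k) ≠ 0 := fun h => hn ((CharP.cast_eq_zero_iff k p n).1 h)
  haveI : NeZero (n : k) := ⟨hn0⟩
  obtain ⟨r, hr⟩ := HasEnoughRootsOfUnity.exists_primitiveRoot k n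
  have h1 : IsPrimitiveRoot (WittVector.teichmuller p r) n := by
    apply IsPrimitiveRoot.mk_of_lt _ (Nat.pos_of_ne_zero (by rintro rfl; exact hn (dvd_zero _)))
    · rw [← map_pow, hr.pow_eq_one, map_one]
    · intro l hl0 hln hl
      rw [← map_pow] at hl
      have h2 := congrArg (WittVector.constantCoeff (p := p)) hl
      rw [map_one] at h2
      have h3 : r ^ l = 1 := by
        rw [← h2]
        exact (WittVector.teichmuller_coeff_zero p (r ^ l)).symm
      exact hr.pow_ne_one_of_pos_of_lt hl0.ne' hln h3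
  exact ⟨algebraMap _ _ (WittVector.teichmuller p r), h1.map_of_injective
    (IsFractionRing.injective (WittVector p k) (Emb.M p k))⟩

/-- The Frobenius on roots of unity. -/
theorem phi_root {p : ℕ} [hp : Fact p.Prime] {k : Type} [Field k] [CharP k p] [IsAlgClosed k]
    {n : ℕ} (hn : ¬ p ∣ n) {x : Emb.M p k} (hx : x ^ n = 1) : Emb.phi p k x = x ^ p := by
  have hn0 : n ≠ 0 := by rintro rfl; exact hn (dvd_zero _)
  obtain ⟨w, hw, hw'⟩ := Emb.exists_of_pow hn0 (hx.trans (map_one _).symm)
  rw [← hw, Emb.phi_alg, Witt.frob_root hn hw', map_pow]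

end Pool.Agent.T6.H36.Lift
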