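import Pool.Agent.T6.H36.Core2
import Pool.Agent.T6.H36.Lift

/-! The relation of type `(1+T^2)`. -/

namespace Pool.Agent.T6.H36.Two

open Polynomial Comb Rel Good

namespace Dat

variable {w h n p a : ℕ} {L : Type} [Field L] [CharZero L] (D : Dat w h n p a L)

section main

variable [FiniteDimensional ℚ L] [IsGalois ℚ L]

theorem lemmaC (h8 : p % 8 ≠ n % 8) (hpn : p ≠ n) (hph : ((p : ℕ) : ZMod n) ^ h ≠ 1) :
    ¬ RU (D.α 1 * D.α (D.g.two ^ w) / (p : L) ^ a) := by
  classical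
  intro hRU
  haveI hnp : Fact n.Prime := ⟨D.g.hp⟩
  haveI := D.neZero
  set f := D.g.two ^ w with hf
  have hfc : (f : ZMod n) = 2 ^ w := by
    rw [hf, Units.val_pow_eq_pow_val, D.g.two_coe]
  have hq0 : (p : L) ^ a ≠ 0 := pow_ne_zero _ D.p_ne
  have hRq : D.R ((p : L) ^ a) 1 := by
    have := D.R_pow D.R_p a
    rwa [one_pow] at this
  set c5 : ZMod n := 1 + 2 ^ w with hc5
  have hR : D.R (D.α 1 * D.α f / (p : L) ^ a) (D.ψ c5) := by
    have := D.R_div (D.R_mul (D.Rα 1) (D.Rα f)) hRq one_ne_zero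
    rw [← D.ψ_add, Units.val_one, hfc, div_one] at this
    exact this
  have h5 : c5 ≠ 0 := by
    intro h0
    have h1 : ((1 + 2 ^ w : ℕ) : ZMod n) = 0 := by
      push_cast
      exact h0
    rw [ZMod.natCast_eq_zero_iff] at h1
    have h2 := Nat.le_of_dvd (by positivity) h1
    have h3 := D.g.n_ge
    rcases D.g.hw with rfl | rfl <;> omega
  obtain ⟨z, hz⟩ := D.exists_Z hRU h5 hR
  -- the sign
  obtain ⟨s, hs, hs1⟩ : ∃ s : L, (s = 1 ∨ s = -1) ∧
      D.α 1 * D.α f / (p : L) ^ a = s * zz z c5 := by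
    rcases zz_pm hz hRU hR with h1 | h1
    · exact ⟨1, Or.inl rfl, by rw [h1, one_mul]⟩
    · exact ⟨-1, Or.inr rfl, by rw [h1, neg_one_mul]⟩
  have hs0 : s ≠ 0 := by
    rcases hs with rfl | rfl
    · exact one_ne_zero
    · exact neg_ne_zero.2 one_ne_zero
  have hsc : ∀ τ : L ≃ₐ[ℚ] L, τ s = s := by
    intro τ
    rcases hs with rfl | rfl
    · exact map_one τ
    · rw [map_neg, map_one]
  have C1 : ∀ t : (ZMod n)ˣ, D.α t * D.α (t * f) = s * zz z (t * c5 : ZMod n) * (p : L) ^ a := by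
    intro t
    have := congrArg (D.cc t) hs1
    rw [map_div₀, map_mul, map_mul, cc_α, cc_α, mul_one, map_pow, map_natCast, hsc, zz_cc hz,
      div_eq_iff hq0] at this
    exact this
  have C2 : ∀ t : (ZMod n)ˣ, D.α (t * f * f)
      = D.α t * zz z (t * (2 ^ w * 2 ^ w - 1) : ZMod n) := by
    intro t
    have h1 := C1 t
    have h2 := C1 (t * f)
    have h3 : zz z (((t * f : (ZMod n)ˣ) : ZMod n) * c5)
        = zz z (t * c5 : ZMod n) * zz z (t * (2 ^ w * 2 ^ w - 1) : ZMod n) := by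
      rw [← zz_add hz]
      congr 1
      rw [Units.val_mul, hfc]; ring
    rw [h3] at h2
    have ha := D.α_ne (t * f)
    apply mul_left_cancel₀ ha
    rw [h2]
    linear_combination (-zz z ((t : ZMod n) * (2 ^ w * 2 ^ w - 1))) * h1
  have hff : ((f * f : (ZMod n)ˣ) : ZMod n) = 2 ^ w * 2 ^ w := by
    rw [Units.val_mul, hfc]
  have C3 : ∀ (j : ℕ) (t : (ZMod n)ˣ), D.α ((f * f) ^ j * t)
      = D.α t * zz z ((((f * f) ^ j : (ZMod n)ˣ) : ZMod n) * (t : ZMod n) - (t : ZMod n)) := by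
    intro j
    induction j with
    | zero =>
      intro t
      rw [pow_zero, Units.val_one, one_mul, one_mul, sub_self, zz_zero, mul_one]
    | succ j ih =>
      intro t
      have e1 : (f * f) ^ (j + 1) * t = ((f * f) ^ j * t) * f * f := by
        rw [pow_succ]
        simp only [mul_assoc, mul_comm, mul_left_comm]
      rw [e1, C2, ih, mul_assoc, ← zz_add hz]
      congr 2
      rw [pow_succ, Units.val_mul, Units.val_mul, hff]
      ring
  have C3' : ∀ b ∈ H h n, ∀ t : (ZMod n)ˣ, D.α (b * t)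
      = D.α t * zz z ((b : ZMod n) * (t : ZMod n) - (t : ZMod n)) := by
    intro b hb t
    obtain ⟨j, rfl⟩ := D.g.exists_16 hb
    exact C3 j t
  have C4 : ∀ x : (ZMod n)ˣ, RU (D.α x / D.α 1) → x ∈ H h n := by
    intro x hx
    by_contra hxH
    have hx2 : RU (D.α (x ^ 2) / D.α 1) := by
      have h1 := RU_map hx (D.cc x)
      rw [map_div₀, cc_α, cc_α, mul_one, ← pow_two] at h1
      have h2 := RU_mul h1 hx
      rwa [div_mul_div_cancel₀ (D.α_ne x)] at h2
    have key : ∀ y : (ZMod n)ˣ, RU (D.α y / D.α 1) → -y ∈ H h n → False := by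
      intro y hy hyH
      have h1 := C3' (-y) hyH (-1)
      rw [neg_mul_neg, mul_one] at h1
      rw [h1] at hy
      have h2 := RU_div hy (zz_RU hz (((-y : (ZMod n)ˣ) : ZMod n) * ((-1 : (ZMod n)ˣ) : ZMod n) - ((-1 : (ZMod n)ˣ) : ZMod n)))
      have h3 : RU (D.α (-1) / D.α 1) := by
        have h5 := zz_ne hz (((-y : (ZMod n)ˣ) : ZMod n) * ((-1 : (ZMod n)ˣ) : ZMod n) - ((-1 : (ZMod n)ˣ) : ZMod n))
        rw [div_right_comm, mul_div_cancel_right₀ _ h5] at h2
        exact h2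
      have h4 := RU_inv h3
      rw [inv_div] at h4
      exact D.lemmaS h8 h4
    rcases D.g.cases' hxH with h1 | h1
    · exact key x hx h1
    · exact key (x ^ 2) hx2 h1
  have C5 : ∀ (τ : L ≃ₐ[ℚ] L) (b : (ZMod n)ˣ), b ∈ H h n → ∀ t : (ZMod n)ˣ,
      D.π τ (b * t) * (D.π τ t)⁻¹ ∈ H h n := by
    intro τ b hb t
    apply C4
    have h1 : RU (D.α (b * t) / D.α t) := by
      rw [C3' b hb t, mul_div_cancel_left₀ _ (D.α_ne t)]
      exact zz_RU hz _
    have h2 := RU_map (RU_map h1 τ) (D.cc (D.π τ t)⁻¹)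
    rw [map_div₀, hπ, hπ, map_div₀, cc_α, cc_α, inv_mul_cancel] at h2
    rwa [mul_comm]
  have C6 : ∀ (τ : L ≃ₐ[ℚ] L) (χ : ZMod n), (∀ x, τ (zz z x) = zz z (χ * x)) →
      ∀ b ∈ H h n, ∀ t : (ZMod n)ˣ,
      (D.π τ (b * t) : ZMod n) - D.π τ t = χ * ((b : ZMod n) * t - t) := by
    intro τ χ hχ b hb t
    have h1 := C3' _ (C5 τ b hb t) (D.π τ t)
    rw [inv_mul_cancel_right] at h1
    have h2 := congrArg τ (C3' b hb t)
    rw [map_mul, hπ, hπ, hχ, h1] at h2
    have h3 := zz_inj hz (mul_left_cancel₀ (D.α_ne _) h2)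
    rw [Units.val_mul, Units.inv_mul_cancel_right] at h3
    exact h3
  set S := Finset.univ.filter (fun b : (ZMod n)ˣ => b ∈ H h n) with hS
  have hScard : ((S.card : ℕ) : ZMod n) ≠ 0 := by
    intro h0
    rw [ZMod.natCast_eq_zero_iff] at h0
    have h1 : 0 < S.card := Finset.card_pos.2 ⟨1, by
      rw [hS, Finset.mem_filter]
      exact ⟨Finset.mem_univ _, Subgroup.one_mem _⟩⟩
    have h2 := Nat.le_of_dvd h1 h0
    have h3 : S.card ≤ n - 1 := by
      have := Finset.card_le_univ S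
      rwa [ZMod.card_units] at this
    have := D.g.n_ge
    omega
  have C7 : ∀ (τ : L ≃ₐ[ℚ] L) (χ : ZMod n), (∀ x, τ (zz z x) = zz z (χ * x)) →
      ∀ t : (ZMod n)ˣ, (D.π τ t : ZMod n) = χ * t := by
    intro τ χ hχ t
    have h1 : ∑ b ∈ S, ((D.π τ (b * t) : ZMod n) - D.π τ t)
        = ∑ b ∈ S, χ * ((b : ZMod n) * t - t) := by
      apply Finset.sum_congr rfl
      intro b hb
      exact C6 τ χ hχ b (Finset.mem_filter.1 hb).2 t
    have h2 : ∑ b ∈ S, (D.π τ (b * t) : ZMod n) = 0 := by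
      have h3 : ∑ b ∈ S, (D.π τ (b * t) : ZMod n)
          = ∑ b ∈ S, (b : ZMod n) * (D.π τ t : ZMod n) := by
        apply Finset.sum_bij (fun b _ => D.π τ (b * t) * (D.π τ t)⁻¹)
        · intro b hb
          rw [hS, Finset.mem_filter] at hb ⊢
          exact ⟨Finset.mem_univ _, C5 τ b hb.2 t⟩
        · intro b _ b' _ hbb
          exact mul_right_cancel (D.π_inj τ (mul_right_cancel hbb))
        · intro b hb
          have hinj : Function.Injective (fun b : S => (⟨D.π τ (b * t) * (D.π τ t)⁻¹,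
            Finset.mem_filter.2 ⟨Finset.mem_univ _, C5 τ b (Finset.mem_filter.1 b.2).2 t⟩⟩ : S)) := by
            intro b b' hbb
            have := congrArg Subtype.val hbb
            exact Subtype.ext (mul_right_cancel (D.π_inj τ (mul_right_cancel this)))
          obtain ⟨b', hb'⟩ := (Finite.injective_iff_surjective.1 hinj) ⟨b, hb⟩
          exact ⟨b'.1, b'.2, congrArg Subtype.val hb'⟩
        · intro b _
          rw [Units.val_mul, Units.inv_mul_cancel_right]
      rw [h3, ← Finset.sum_mul, D.g.sum_H, zero_mul]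
    rw [Finset.sum_sub_distrib, h2, zero_sub, Finset.sum_const, nsmul_eq_mul, ← Finset.mul_sum,
      Finset.sum_sub_distrib, ← Finset.sum_mul, D.g.sum_H, zero_mul, zero_sub, Finset.sum_const,
      nsmul_eq_mul] at h1
    have h4 : ((S.card : ℕ) : ZMod n) * ((D.π τ t : ZMod n) - χ * t) = 0 := by
      linear_combination -h1
    exact sub_eq_zero.1 ((mul_eq_zero.1 h4).resolve_left hScard)
  -- the field is generated by `z`
  have hgen : ∀ τ : L ≃ₐ[ℚ] L, τ z = z → τ = 1 := by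
    intro τ hτ
    obtain ⟨χ, hχ⟩ := zz_map hz τ
    have h1 := hχ 1
    rw [zz_one hz, hτ, mul_one] at h1
    have h2 : χ = 1 := by
      apply zz_inj hz
      rw [← h1, zz_one hz]
    apply D.gen
    intro t
    rw [hπ]
    congr 1
    apply Units.ext
    rw [C7 τ χ hχ t, h2, one_mul]
  haveI : Fact p.Prime := ⟨D.hp⟩
  have hpn' : ¬ p ∣ n := by
    rw [Nat.prime_dvd_prime_iff_eq D.hp D.g.hp]; exact hpn
  haveI := Emb.charZeroM p (AlgebraicClosure (ZMod p))
  obtain ⟨ω, hω⟩ := Lift.exists_root p (AlgebraicClosure (ZMod p)) hpn'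
  obtain ⟨j⟩ := Lift.exists_emb D.g.hp.pos hz.1 hgen hω
  obtain ⟨σ, hσ⟩ := Lift.exists_aut j (Emb.phi p (AlgebraicClosure (ZMod p)))
  have hσz : σ z = z ^ p := by
    apply j.injective
    rw [hσ, Lift.phi_root hpn', map_pow]
    rw [← map_pow, hz.1, map_one]
  have hχ : ∀ x, σ (zz z x) = zz z ((p : ZMod n) * x) := by
    intro x
    rw [zz_nsmul hz]
    show σ (z ^ x.val) = (z ^ x.val) ^ p
    rw [map_pow, hσz, ← pow_mul, ← pow_mul, mul_comm]
  have hσα := C7 σ p hχ
  set P : (ZMod n)ˣ := ZMod.unitOfCoprime p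
    ((Nat.coprime_primes D.hp D.g.hp).2 hpn) with hP
  have hPc : (P : ZMod n) = p := by rw [hP, ZMod.coe_unitOfCoprime]
  have hPH : P ∉ H h n := by
    intro hmem
    rw [mem_H] at hmem
    apply hph
    rw [← hPc, ← Units.val_pow_eq_pow_val, hmem, Units.val_one]
  have hσα' : ∀ t, σ (D.α t) = D.α (P * t) := by
    intro t
    rw [hπ]
    congr 1
    apply Units.ext
    rw [hσα t, Units.val_mul, hPc]
  have hiter : ∀ (k : ℕ) (x : L), j ((σ ^ k) x)
      = (Emb.phi p (AlgebraicClosure (ZMod p)))^[k] (j x) := by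
    intro k
    induction k with
    | zero => intro x; rfl
    | succ k ih =>
      intro x
      rw [pow_succ', AlgEquiv.mul_apply, hσ, ih, Function.iterate_succ_apply']
  have hiterα : ∀ (k : ℕ), (σ ^ k) (D.α 1) = D.α (P ^ k) := by
    intro k
    induction k with
    | zero => rw [pow_zero, pow_zero]; rfl
    | succ k ih => rw [pow_succ', AlgEquiv.mul_apply, ih, hσα', ← pow_succ']
  have hfinal : ∀ k : ℕ, -(P ^ k) ∈ H h n → False := by
    intro k hk
    have h1 := C3' _ hk (-1)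
    rw [neg_mul_neg, mul_one] at h1
    set y := ((-(P ^ k) : (ZMod n)ˣ) : ZMod n) * ((-1 : (ZMod n)ˣ) : ZMod n)
      - ((-1 : (ZMod n)ˣ) : ZMod n) with hy
    have h2 : D.α 1 * (σ ^ k) (D.α 1) = (p : L) ^ a * zz z y := by
      rw [hiterα, h1, ← mul_assoc, D.α_mul_neg]
    have h3 := congrArg j h2
    rw [map_mul, hiter, map_mul, map_pow, map_natCast] at h3
    have h4 := Emb.even_of_mul (N := n) (NeZero.ne n)
      (by rw [← map_pow, zz_pow hz, map_one]) h3
    exact (Nat.not_even_iff_odd.2 D.ha) h4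
  rcases D.g.cases' hPH with h1 | h1
  · exact hfinal 1 (by rwa [pow_one])
  · exact hfinal 2 h1

end main

end Dat

end Pool.Agent.T6.H36.Two
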