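import Pool.Agent.T6.H36.Core3

/-! There are no multiplicative relations. -/

namespace Pool.Agent.T6.H36.Two

open Polynomial Comb Rel Good

namespace Dat

variable {w h n p a : ℕ} {L : Type} [Field L] [CharZero L] (D : Dat w h n p a L)

section comb

variable (g : Good w h n)

include g

theorem eq_on_H {f : (ZMod n)ˣ → ℤ} (hf : ∀ t, f (g.two ^ w * t) = -f t) {b : (ZMod n)ˣ}
    (hb : b ∈ H h n) (t : (ZMod n)ˣ) : f (b * t) = f t := by
  obtain ⟨j, rfl⟩ := g.exists_16 hb
  clear hb
  induction j with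
  | zero => rw [pow_zero, one_mul]
  | succ j ih =>
    rw [pow_succ', mul_assoc, mul_assoc, hf, hf, neg_neg]
    exact ih

theorem card_H [NeZero n] [DecidablePred (fun b : (ZMod n)ˣ => b ∈ H h n)] :
    (Finset.univ.filter (fun b : (ZMod n)ˣ => b ∈ H h n)).card = h := by
  have h1 : H h n = Subgroup.zpowers (g.two ^ w * g.two ^ w) := by
    ext b
    constructor
    · intro hb
      obtain ⟨j, rfl⟩ := g.exists_16 hb
      exact Subgroup.npow_mem_zpowers _ _
    · intro hb
      obtain ⟨j, rfl⟩ := Subgroup.mem_zpowers_iff.1 hb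
      refine Subgroup.zpow_mem _ ?_ _
      rw [← pow_add, ← two_mul]
      exact (g.pow_mem_H (2 * w)).2 (dvd_refl _)
  have h2 : Nat.card (H h n) = h := by
    have hw0 := g.w_pos
    rw [h1, Nat.card_zpowers, ← pow_add, ← two_mul,
      orderOf_pow_of_dvd (by positivity) (by rw [g.two_order]; exact ⟨h, rfl⟩), g.two_order]
    exact Nat.mul_div_cancel_left h (by positivity)
  conv_rhs => rw [← h2]
  rw [Nat.card_eq_fintype_card, Fintype.card_subtype]

end comb

open scoped Classical in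
/-- The indicator of `H` minus the indicator of `-H`. -/
noncomputable def B0 (h n : ℕ) (t : (ZMod n)ˣ) : ℤ :=
  (if t ∈ H h n then 1 else 0) - (if -t ∈ H h n then 1 else 0)

theorem B0_neg (t : (ZMod n)ˣ) : B0 h n (-t) = -B0 h n t := by
  unfold B0; rw [neg_neg]; ring

theorem disj (g : Good w h n) {t : (ZMod n)ˣ} (ht : t ∈ H h n) : -t ∉ H h n := by
  intro ht'
  apply g.neg_one_notMem
  have := Subgroup.mul_mem _ ht' (Subgroup.inv_mem _ ht)
  rwa [neg_mul, mul_inv_cancel] at this

theorem B0_one (g : Good w h n) {t : (ZMod n)ˣ} (ht : t ∈ H h n) : B0 h n t = 1 := by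
  unfold B0; rw [if_pos ht, if_neg (disj g ht), sub_zero]

theorem mem_of_B0 {t : (ZMod n)ˣ} (ht : B0 h n t = 1) : t ∈ H h n := by
  unfold B0 at ht
  by_contra h0
  rw [if_neg h0] at ht
  split_ifs at ht <;> omega

theorem B0_zero (g : Good w h n) (hw2 : w = 2) {t : (ZMod n)ˣ}
    (ht : t * g.two ∈ H h n ∨ -(t * g.two) ∈ H h n) : B0 h n t = 0 := by
  subst hw2
  obtain ⟨k, rfl⟩ := g.exists_pow t
  unfold B0
  rw [← g.neg_mul_u, ← pow_succ, ← pow_add, g.pow_mem_H, g.pow_mem_H] at ht
  rw [← g.neg_mul_u, ← pow_add, g.pow_mem_H, g.pow_mem_H, if_neg, if_neg]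
  · rfl
  · omega
  · omega

section lattice

variable [NeZero n]

theorem mon_single (u : (ZMod n)ˣ) [DecidableEq (ZMod n)ˣ] : D.mon (Pi.single u 1) = D.α u := by
  unfold mon
  rw [Finset.prod_eq_single u]
  · rw [Pi.single_eq_same, zpow_one]
  · intro t _ ht
    rw [Pi.single_eq_of_ne ht, zpow_zero]
  · intro h; exact absurd (Finset.mem_univ _) h

theorem mon_sub (f f' : (ZMod n)ˣ → ℤ) : D.mon (f - f') = D.mon f / D.mon f' := by
  have h1 : D.mon (f - f') * D.mon f' = D.mon f := by rw [← mon_add, sub_add_cancel]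
  rw [eq_div_iff, h1]
  unfold mon
  exact Finset.prod_ne_zero_iff.2 (fun t _ => zpow_ne_zero _ (D.α_ne t))

theorem mon_neg (f : (ZMod n)ˣ → ℤ) : D.mon (-f) = (D.mon f)⁻¹ := by
  rw [← zero_sub, mon_sub, mon_zero, one_div]

theorem mon_oo : D.mon (oo n) = D.α 1 / D.α (-1) := by
  classical
  have h1 : oo n = Pi.single 1 1 - Pi.single (-1) 1 := by
    unfold oo
    congr
  rw [h1, mon_sub, mon_single, mon_single]

section main

variable [FiniteDimensional ℚ L] [IsGalois ℚ L]

variable (h8 : p % 8 ≠ n % 8) (hC : ¬ RU (D.α 1 * D.α (D.g.two ^ w) / (p : L) ^ a))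

include hC

theorem anti {f : (ZMod n)ˣ → ℤ} (hf : f ∈ D.E) (hodd : ∀ t, f (-t) = -f t) (t : (ZMod n)ˣ) :
    f (D.g.two ^ w * t) = -f t := by
  by_contra hne
  have hq0 : (p : L) ^ a ≠ 0 := pow_ne_zero _ D.p_ne
  have h1 := Rel.main D.g D.E (fun f hf => D.E_tr _ hf) D.E_sat hf hodd (t := D.g.two ^ w * t) (by
    rw [inv_mul_cancel_left]
    intro h0
    apply hne
    omega)
  rw [mem_E, mon_add, mon_tr, mon_oo, map_div₀, cc_α, cc_α, mul_one, mul_neg, mul_one, α_neg,
    α_neg] at h1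
  apply hC
  apply RU_of_pow (two_ne_zero)
  have h2 := D.α_ne 1
  have h3 := D.α_ne (D.g.two ^ w)
  have e : (D.α 1 * D.α (D.g.two ^ w) / (p : L) ^ a) ^ 2
      = D.α 1 / ((p : L) ^ a / D.α 1) * (D.α (D.g.two ^ w) / ((p : L) ^ a / D.α (D.g.two ^ w))) := by
    field_simp
  rw [e]
  exact h1

theorem B0_mem {f : (ZMod n)ˣ → ℤ} (hf : f ∈ D.E) (hodd : ∀ t, f (-t) = -f t) (hf0 : f ≠ 0) :
    B0 h n ∈ D.E := by
  have hanti := D.anti hC hf hodd
  have hH := fun {b} hb t => eq_on_H D.g hanti (b := b) hb t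
  set v0 := f 1 with hv0
  have e1 : ∀ t ∈ H h n, f t = v0 := by
    intro t ht
    have := hH ht 1
    rwa [mul_one] at this
  by_cases hw1 : w = 1
  · have hv0' : v0 ≠ 0 := by
      intro h0
      apply hf0
      ext t
      rw [Pi.zero_apply]
      rcases D.g.cases t with ht | ht | ht
      · rw [e1 t ht, h0]
      · have := e1 _ ht
        rw [hodd] at this; omega
      · exact absurd ht.1 (by omega)
    apply D.E_sat _ _ hv0'
    have h1 : v0 • B0 h n = f := by
      ext t
      rw [Pi.smul_apply, smul_eq_mul]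
      rcases D.g.cases t with ht | ht | ht
      · rw [B0_one D.g ht, e1 t ht, mul_one]
      · have a1 := e1 _ ht
        have a3 := B0_one D.g ht
        rw [hodd] at a1
        rw [B0_neg] at a3
        rw [show B0 h n t = -1 by omega]; omega
      · exact absurd ht.1 (by omega)
    rw [h1]
    exact hf
  have hw2 : w = 2 := D.g.hw.resolve_left hw1
  set v1 := f D.g.two with hv1
  have hinv : ∀ t, f ((D.g.two ^ 2)⁻¹ * t) = -f t := by
    intro t
    have h22 : D.g.two ^ w = D.g.two ^ 2 := congrArg (fun m : ℕ => D.g.two ^ m) hw2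
    have := hanti ((D.g.two ^ 2)⁻¹ * t)
    rw [h22, mul_inv_cancel_left] at this
    rw [this, neg_neg]
  have e2 : ∀ t ∈ H h n, f (D.g.two⁻¹ * t) = -v1 := by
    intro t ht
    rw [mul_comm, hH ht, hv1, ← hinv]
    congr 1
    rw [pow_two, mul_inv_rev, inv_mul_cancel_right]
  have hsum : v0 ^ 2 + v1 ^ 2 ≠ 0 := by
    intro h0
    have hv0' : v0 = 0 := by nlinarith [sq_nonneg v0, sq_nonneg v1]
    have hv1' : v1 = 0 := by nlinarith [sq_nonneg v0, sq_nonneg v1]
    apply hf0
    ext t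
    rw [Pi.zero_apply]
    rcases D.g.cases t with ht | ht | ⟨-, ht | ht⟩
    · rw [e1 t ht, hv0']
    · have := e1 _ ht
      rw [hodd] at this; omega
    · have := e2 _ ht
      rw [mul_comm t, inv_mul_cancel_left] at this; omega
    · have := e2 _ ht
      rw [mul_neg, mul_comm t, inv_mul_cancel_left, hodd] at this; omega
  apply D.E_sat _ _ hsum
  have h1 : (v0 ^ 2 + v1 ^ 2) • B0 h n = v0 • f - v1 • tr D.g.two f := by
    ext t
    rw [Pi.smul_apply, Pi.sub_apply, Pi.smul_apply, Pi.smul_apply, tr_apply, smul_eq_mul,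
      smul_eq_mul, smul_eq_mul]
    rcases D.g.cases t with ht | ht | ⟨-, ht | ht⟩
    · rw [B0_one D.g ht, e1 t ht, e2 t ht]; ring
    · have a1 := e1 _ ht
      have a2 := e2 _ ht
      rw [hodd] at a1
      rw [mul_neg, hodd] at a2
      have a3 : B0 h n t = -1 := by
        have := B0_one D.g ht
        rw [B0_neg] at this; omega
      rw [a3, show f t = -v0 by omega, show f (D.g.two⁻¹ * t) = v1 by omega]; ring
    · have a2 := e2 _ ht
      rw [mul_comm t, inv_mul_cancel_left] at a2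
      have a1 := e1 _ ht
      have a4 := hinv (t * D.g.two)
      rw [pow_two, mul_inv_rev, mul_comm t, mul_assoc, inv_mul_cancel_left, mul_comm D.g.two t, a1] at a4
      rw [B0_zero D.g hw2 (Or.inl ht), a2, a4]; ring
    · have a2 := e2 _ ht
      rw [mul_neg, mul_comm t, inv_mul_cancel_left, hodd] at a2
      have a1 := e1 _ ht
      rw [hodd] at a1
      have a4 := hinv (t * D.g.two)
      rw [pow_two, mul_inv_rev, mul_comm t, mul_assoc, inv_mul_cancel_left, mul_comm D.g.two t, a1] at a4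
      rw [B0_zero D.g hw2 (Or.inr ht), show f t = v1 by omega, a4]; ring
  rw [h1]
  exact D.E.sub_mem (D.E.smul_mem _ hf) (D.E.smul_mem _ (D.E_tr _ hf))

include h8

theorem B0_notMem : B0 h n ∉ D.E := by
  classical
  intro hB
  have hq0 : (p : L) ^ a ≠ 0 := pow_ne_zero _ D.p_ne
  set S := Finset.univ.filter (fun b : (ZMod n)ˣ => b ∈ H h n) with hS
  have hmemS : ∀ b, b ∈ S ↔ b ∈ H h n := by
    intro b; rw [hS, Finset.mem_filter]; exact ⟨fun h => h.2, fun h => ⟨Finset.mem_univ _, h⟩⟩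
  have hcard : S.card = h := card_H D.g
  set γ := ∏ b ∈ S, D.α b with hγ
  have hneg : ∏ b ∈ S, D.α (-b) = (p : L) ^ (a * h) / γ := by
    rw [hγ, eq_div_iff (Finset.prod_ne_zero_iff.2 (fun b _ => D.α_ne b)),
      ← Finset.prod_mul_distrib]
    have h1 : ∀ b, D.α (-b) * D.α b = (p : L) ^ a := fun b => by rw [mul_comm]; exact D.α_mul_neg b
    simp only [h1]
    rw [Finset.prod_const, hcard, ← pow_mul]
  have hγ0 : γ ≠ 0 := Finset.prod_ne_zero_iff.2 (fun b _ => D.α_ne b)
  have hmon : D.mon (B0 h n) = γ ^ 2 / (p : L) ^ (a * h) := by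
    have h1 : B0 h n = (fun t => if t ∈ S then (1 : ℤ) else 0) - (fun t => if -t ∈ S then 1 else 0) := by
      ext t
      unfold B0
      rw [Pi.sub_apply]
      simp only [hmemS]
    have h2 : D.mon (fun t => if t ∈ S then (1 : ℤ) else 0) = γ := by
      unfold mon
      rw [hγ, ← Finset.prod_subset (Finset.subset_univ S)]
      · exact Finset.prod_congr rfl (fun b hb => by simp only [if_pos hb, zpow_one])
      · intro b _ hb; simp only [if_neg hb, zpow_zero]
    have h3 : D.mon (fun t => if -t ∈ S then (1 : ℤ) else 0) = (p : L) ^ (a * h) / γ := by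
      rw [← hneg]
      unfold mon
      rw [← Equiv.prod_comp (Equiv.neg (ZMod n)ˣ)]
      simp only [Equiv.neg_apply, neg_neg]
      rw [← Finset.prod_subset (Finset.subset_univ S)]
      · exact Finset.prod_congr rfl (fun b hb => by simp only [if_pos hb, zpow_one])
      · intro b _ hb; simp only [if_neg hb, zpow_zero]
    rw [h1, mon_sub, h2, h3]
    field_simp
  have hRγ : D.R γ 1 := by
    have h1 := D.R_prod S D.α (fun b => D.ψ b) (fun b _ => D.Rα b)
    have h2 : ∏ b ∈ S, D.ψ b = 1 := by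
      have h3 : ∀ T : Finset (ZMod n)ˣ, ∏ b ∈ T, D.ψ b = D.ψ (∑ b ∈ T, (b : ZMod n)) := by
        intro T
        induction T using Finset.induction_on with
        | empty => rw [Finset.prod_empty, Finset.sum_empty, ψ_zero]
        | insert b T hb ih => rw [Finset.prod_insert hb, Finset.sum_insert hb, ψ_add, ih]
      rw [h3, D.g.sum_H, ψ_zero]
    rwa [h2] at h1
  have hRp : D.R ((p : L) ^ (a * h)) 1 := by
    have := D.R_pow D.R_p (a * h)
    rwa [one_pow] at this
  rw [mem_E, hmon] at hB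
  have hpm : γ ^ 2 = (p : L) ^ (a * h) ∨ γ ^ 2 = -(p : L) ^ (a * h) := by
    have h1 : D.R (γ ^ 2 / (p : L) ^ (a * h)) 1 := by
      have := D.R_div (D.R_pow hRγ 2) hRp one_ne_zero
      rwa [one_pow, div_one] at this
    have h0 : (p : L) ^ (a * h) ≠ 0 := pow_ne_zero _ D.p_ne
    rcases D.pm hB h1 with h2 | h2
    · left; rwa [div_eq_iff h0, one_mul] at h2
    · right; rwa [div_eq_iff h0, neg_one_mul] at h2
  have hccγ : ∀ u : (ZMod n)ˣ, D.cc u γ = ∏ b ∈ S, D.α (u * b) := by
    intro u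
    rw [hγ, map_prod]
    exact Finset.prod_congr rfl (fun b _ => D.cc_α u b)
  have hcc : γ * D.cc (-1) γ = (p : L) ^ (a * h) := by
    rw [hccγ]
    simp only [neg_one_mul]
    rw [hneg]
    field_simp
  obtain ⟨h1, τ, h2⟩ := D.lemmaP h8 (D.ha.mul D.g.hodd) hpm hcc
  -- the image of `H`
  let e : (ZMod n)ˣ ≃ (ZMod n)ˣ := Equiv.ofBijective (D.π τ) (D.π_bij τ)
  have he : ∀ t, e t = D.π τ t := fun t => rfl
  have heneg : ∀ t, e.symm (-t) = -e.symm t := by
    intro t
    rw [Equiv.symm_apply_eq, he, π_neg, ← he, Equiv.apply_symm_apply]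
  set f : (ZMod n)ˣ → ℤ := fun t => B0 h n (e.symm t) with hf
  have hfE : f ∈ D.E := by
    rw [mem_E]
    have : D.mon f = τ (D.mon (B0 h n)) := by
      unfold mon
      rw [map_prod, ← Equiv.prod_comp e]
      refine Finset.prod_congr rfl (fun t _ => ?_)
      rw [map_zpow₀, hπ, hf]
      simp only [Equiv.symm_apply_apply]
      rfl
    rw [this, hmon]
    exact RU_map hB τ
  have hfodd : ∀ t, f (-t) = -f t := by
    intro t
    rw [hf]
    simp only [heneg, B0_neg]
  have hanti := D.anti hC hfE hfodd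
  have hH := fun {b} hb t => eq_on_H D.g hanti (b := b) hb t
  have hsub : ∀ b ∈ S, e.symm (b * e 1) ∈ S := by
    intro b hb
    rw [hmemS] at hb ⊢
    apply mem_of_B0
    have h3 := hH hb (e 1)
    rw [hf] at h3
    simp only [Equiv.symm_apply_apply] at h3
    rw [h3]
    exact B0_one D.g (Subgroup.one_mem _)
  have hτγ : τ γ = D.cc (e 1) γ := by
    rw [hccγ, hγ, map_prod]
    symm
    apply Finset.prod_bij (fun b _ => e.symm (b * e 1))
    · exact hsub
    · intro b _ b' _ hbb
      exact mul_right_cancel (e.symm.injective hbb)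
    · intro b hb
      have hinj : Function.Injective (fun b : S => (⟨e.symm (b * e 1), hsub b b.2⟩ : S)) := by
        intro b b' hbb
        have := congrArg Subtype.val hbb
        exact Subtype.ext (mul_right_cancel (e.symm.injective this))
      obtain ⟨b', hb'⟩ := (Finite.injective_iff_surjective.1 hinj) ⟨b, hb⟩
      exact ⟨b'.1, b'.2, congrArg Subtype.val hb'⟩
    · intro b _
      rw [hπ, ← he, Equiv.apply_symm_apply, mul_comm]
  rw [D.cc_fix _ h1, h2] at hτγ
  have : (2 : L) * γ = 0 := by linear_combination -hτγ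
  exact mul_ne_zero two_ne_zero hγ0 this

theorem odd_zero {f : (ZMod n)ˣ → ℤ} (hf : f ∈ D.E) (hodd : ∀ t, f (-t) = -f t) : f = 0 := by
  by_contra h0
  exact D.B0_notMem h8 hC (D.B0_mem hC hf hodd h0)

/-- **The lattice of relations is symmetric.** -/
theorem symm {f : (ZMod n)ˣ → ℤ} {k : ℤ} (hf : D.mon f = (p : L) ^ k) (t : (ZMod n)ˣ) :
    f (-t) = f t := by
  set f' : (ZMod n)ˣ → ℤ := f - fun t => f (-t) with hf'
  have hodd : ∀ t, f' (-t) = -f' t := by
    intro t
    rw [hf']
    simp only [Pi.sub_apply, neg_neg]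
    ring
  have hp0 : (p : L) ≠ 0 := D.p_ne
  have h1 : D.mon (fun t => f (-t)) = (p : L) ^ (a * ∑ t, f t) / (p : L) ^ k := by
    rw [← hf, eq_div_iff]
    · unfold mon
      rw [← Equiv.prod_comp (Equiv.neg (ZMod n)ˣ), ← Finset.prod_mul_distrib]
      simp only [Equiv.neg_apply, neg_neg]
      have : ∀ t : (ZMod n)ˣ, D.α (-t) ^ f t * D.α t ^ f t = ((p : L) ^ a) ^ f t := by
        intro t
        rw [← mul_zpow, mul_comm, D.α_mul_neg]
      simp only [this]
      have h7 : ∀ T : Finset (ZMod n)ˣ, ∏ t ∈ T, ((p : L) ^ a) ^ f t = ((p : L) ^ a) ^ (∑ t ∈ T, f t) := by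
        classical
        intro T
        induction T using Finset.induction_on with
        | empty => rw [Finset.prod_empty, Finset.sum_empty, zpow_zero]
        | insert b T hb ih =>
          rw [Finset.prod_insert hb, Finset.sum_insert hb, zpow_add₀ (pow_ne_zero _ hp0), ih]
      rw [h7, zpow_mul, zpow_natCast]
    · unfold mon
      exact Finset.prod_ne_zero_iff.2 (fun t _ => zpow_ne_zero _ (D.α_ne t))
  have h2 : D.mon f' = (p : L) ^ (2 * k - a * ∑ t, f t) := by
    rw [hf', mon_sub, hf, h1]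
    rw [div_div_eq_mul_div, ← zpow_add₀ hp0, ← zpow_sub₀ hp0]
    congr 1
    ring
  have h3 : f' ∈ D.E := by
    rw [mem_E]
    refine ⟨2, two_ne_zero, ?_⟩
    have h4 : D.cc (-1) (D.mon f') = (D.mon f')⁻¹ := by
      rw [← mon_tr, ← mon_neg]
      congr 1
      ext t
      rw [tr_apply, inv_neg_one, neg_one_mul, hodd, Pi.neg_apply]
    have h5 : D.cc (-1) (D.mon f') = D.mon f' := by
      rw [h2, map_zpow₀, map_natCast]
    rw [h5] at h4
    have h6 : D.mon f' ≠ 0 := by rw [h2]; exact zpow_ne_zero _ hp0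
    rw [pow_two]
    nth_rewrite 2 [h4]
    exact mul_inv_cancel₀ h6
  have h4 := congrFun (D.odd_zero h8 hC h3 hodd) t
  rw [hf', Pi.sub_apply, Pi.zero_apply, sub_eq_zero] at h4
  exact h4.symm

end main

end lattice

end Dat

end Pool.Agent.T6.H36.Two
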