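import Pool.Agent.T6.H36.Core4

/-! The case where the large component belongs to the lattice of the relations. -/

namespace Pool.Agent.T6.H36.Two

open Polynomial Comb Rel Good

namespace Dat

variable {w h n p a : ℕ} {L : Type} [Field L] [CharZero L] (D : Dat w h n p a L)

/-- The quotients of the roots in a coset are roots of unity. -/
theorem coset (hRU : RU (D.α 1 * D.α (D.g.two ^ w) / (p : L) ^ a)) :
    ∀ b ∈ H h n, ∀ t : (ZMod n)ˣ, RU (D.α (b * t) / D.α t) := by
  classical
  haveI hnp : Fact n.Prime := ⟨D.g.hp⟩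
  haveI := D.neZero
  set f := D.g.two ^ w with hf
  have hfc : (f : ZMod n) = 2 ^ w := by
    rw [hf, Units.val_pow_eq_pow_val, D.g.two_coe]
  have hq0 : (p : L) ^ a ≠ 0 := pow_ne_zero _ D.p_ne
  have C1 : ∀ t : (ZMod n)ˣ, RU (D.α t * D.α (t * f) / (p : L) ^ a) := by
    intro t
    have := RU_map hRU (D.cc t)
    rw [map_div₀, map_mul, cc_α, cc_α, mul_one, map_pow, map_natCast] at this
    exact this
  have C2 : ∀ t : (ZMod n)ˣ, RU (D.α (t * f * f) / D.α t) := by
    intro t
    have h1 := RU_div (C1 (t * f)) (C1 t)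
    have ha := D.α_ne (t * f)
    have ha' := D.α_ne t
    convert h1 using 1
    field_simp
  have C3 : ∀ (j : ℕ) (t : (ZMod n)ˣ), RU (D.α ((f * f) ^ j * t) / D.α t) := by
    intro j
    induction j with
    | zero =>
      intro t
      rw [pow_zero, one_mul, div_self (D.α_ne t)]
      exact RU_one
    | succ j ih =>
      intro t
      have e1 : (f * f) ^ (j + 1) * t = ((f * f) ^ j * t) * f * f := by
        rw [pow_succ]
        simp only [mul_assoc, mul_comm, mul_left_comm]
      have h1 := RU_mul (C2 ((f * f) ^ j * t)) (ih t)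
      rw [div_mul_div_cancel₀ (D.α_ne _)] at h1
      rwa [e1]
  intro b hb t
  obtain ⟨j, rfl⟩ := D.g.exists_16 hb
  exact C3 j t

end Dat

end Pool.Agent.T6.H36.Two
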