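import Pool.Agent.T6.H36.Comb

/-! Stable lattices of relations. -/

namespace Pool.Agent.T6.H36.Rel

open Polynomial Comb

variable {w h n : ℕ}

/-- Translation of functions. -/
def tr (u : (ZMod n)ˣ) : ((ZMod n)ˣ → ℤ) →ₗ[ℤ] ((ZMod n)ˣ → ℤ) :=
  LinearMap.funLeft ℤ ℤ (fun t => u⁻¹ * t)

theorem tr_apply (u : (ZMod n)ˣ) (D : (ZMod n)ˣ → ℤ) (t : (ZMod n)ˣ) :
    tr u D t = D (u⁻¹ * t) := rfl

theorem tr_pow (u : (ZMod n)ˣ) (k : ℕ) : tr u ^ k = tr (u ^ k) := by
  induction k with
  | zero =>
    ext D t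
    simp [tr_apply]
  | succ k ih =>
    rw [pow_succ, ih]
    ext D t
    simp only [Module.End.mul_apply, LinearMap.comp_apply, LinearMap.coe_single, tr_apply]
    rw [pow_succ, mul_inv_rev, mul_assoc]

theorem clear (u : ℚ[X]) : ∃ (N : ℤ) (v : ℤ[X]), N ≠ 0 ∧
    v.map (Int.castRingHom ℚ) = C (N : ℚ) * u := by
  induction u using Polynomial.induction_on' with
  | add p q hp hq =>
    obtain ⟨N₁, v₁, h₁, e₁⟩ := hp
    obtain ⟨N₂, v₂, h₂, e₂⟩ := hq
    refine ⟨N₁ * N₂, C N₂ * v₁ + C N₁ * v₂, mul_ne_zero h₁ h₂, ?_⟩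
    rw [Polynomial.map_add, Polynomial.map_mul, Polynomial.map_mul, e₁, e₂, map_C, map_C]
    simp only [eq_intCast, Int.cast_mul, C_mul]
    ring
  | monomial m a =>
    refine ⟨a.den, monomial m a.num, by exact_mod_cast a.den_nz, ?_⟩
    rw [Polynomial.map_monomial, C_mul_monomial]
    congr 1
    simp only [eq_intCast, Int.cast_natCast]
    rw [Rat.den_mul_eq_num]

theorem bezout {f Q : ℤ[X]} (hQ : Irreducible (Q.map (Int.castRingHom ℚ)))
    (hf : ¬ Q.map (Int.castRingHom ℚ) ∣ f.map (Int.castRingHom ℚ)) :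
    ∃ (N : ℤ) (a b : ℤ[X]), N ≠ 0 ∧ a * f + b * Q = C N := by
  obtain ⟨u, v, huv⟩ := ((hQ.coprime_iff_not_dvd).2 hf).symm
  obtain ⟨N₁, u', h₁, e₁⟩ := clear u
  obtain ⟨N₂, v', h₂, e₂⟩ := clear v
  refine ⟨N₁ * N₂, C N₂ * u', C N₁ * v', mul_ne_zero h₁ h₂, ?_⟩
  apply Polynomial.map_injective (Int.castRingHom ℚ) (Int.cast_injective)
  rw [Polynomial.map_add, Polynomial.map_mul, Polynomial.map_mul, Polynomial.map_mul,
    Polynomial.map_mul, e₁, e₂, map_C, map_C, map_C]
  simp only [eq_intCast, Int.cast_mul, C_mul]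
  linear_combination (C (N₁ : ℚ) * C (N₂ : ℚ)) * huv

/-- The basic odd function. -/
noncomputable def oo (n : ℕ) : (ZMod n)ˣ → ℤ := by
  classical
  exact Pi.single 1 1 - Pi.single (-1) 1

theorem oo_apply (t : (ZMod n)ˣ) [Decidable (t = 1)] [Decidable (t = -1)] :
    oo n t = (if t = 1 then 1 else 0) - (if t = -1 then 1 else 0) := by
  classical
  unfold oo
  simp only [Pi.sub_apply, Pi.single_apply]
  congr

theorem main (g : Good w h n) (E : Submodule ℤ ((ZMod n)ˣ → ℤ))
    (hT : ∀ D ∈ E, tr g.two D ∈ E) (hsat : ∀ (N : ℤ) (D : (ZMod n)ˣ → ℤ), N ≠ 0 → N • D ∈ E → D ∈ E)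
    {D : (ZMod n)ˣ → ℤ} (hD : D ∈ E) (hodd : ∀ t, D (-t) = -D t) {t : (ZMod n)ˣ}
    (ht : D t + D ((g.two ^ w)⁻¹ * t) ≠ 0) : oo n + tr (g.two ^ w) (oo n) ∈ E := by
  classical
  set T := tr g.two with hTdef
  have hE : ∀ (f : ℤ[X]), ∀ D ∈ E, aeval T f D ∈ E := by
    intro f
    induction f using Polynomial.induction_on' with
    | add p q hp hq =>
      intro D hD
      rw [map_add, LinearMap.add_apply]
      exact E.add_mem (hp D hD) (hq D hD)
    | monomial m a =>
      intro D hD
      rw [aeval_monomial, Module.End.mul_apply, Module.algebraMap_end_apply]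
      apply E.smul_mem
      clear a
      induction m with
      | zero => simpa using hD
      | succ m ih =>
        rw [pow_succ', Module.End.mul_apply]
        exact hT _ ih
  set f : ℤ[X] := ∑ k ∈ Finset.range (w * h), C (D (g.two ^ k)) * X ^ k with hf
  have hfD : aeval T f (oo n) = D := by
    ext s
    rw [hf, map_sum, LinearMap.sum_apply, Finset.sum_apply]
    have h1 : ∀ k, (aeval T (C (D (g.two ^ k)) * X ^ k)) (oo n) s
        = D (g.two ^ k) * oo n ((g.two ^ k)⁻¹ * s) := by
      intro k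
      rw [map_mul, aeval_C, map_pow, aeval_X, Module.End.mul_apply, Module.algebraMap_end_apply,
        hTdef, tr_pow, Pi.smul_apply, tr_apply, smul_eq_mul]
    simp only [h1]
    -- reduce to the case of small exponents
    have key : ∀ j < w * h, ∀ k < w * h, oo n ((g.two ^ k)⁻¹ * g.two ^ j) = if k = j then 1 else 0 := by
      intro j hj k hk
      rw [oo_apply]
      have e1 : (g.two ^ k)⁻¹ * g.two ^ j = 1 ↔ k = j := by
        rw [inv_mul_eq_one]
        constructor
        · intro h
          apply pow_injOn_Iio_orderOf (x := g.two) _ _ h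
          · rw [g.two_order]; simp only [Set.mem_Iio]; nlinarith
          · rw [g.two_order]; simp only [Set.mem_Iio]; nlinarith
        · rintro rfl; rfl
      have e2 : ¬ ((g.two ^ k)⁻¹ * g.two ^ j = -1) := by
        intro h
        rw [inv_mul_eq_iff_eq_mul, ← g.two_pow, ← pow_add] at h
        have := pow_injOn_Iio_orderOf (x := g.two) (by rw [g.two_order]; simp only [Set.mem_Iio]; nlinarith)
          (by rw [g.two_order]; simp only [Set.mem_Iio]; nlinarith) h
        omega
      rw [if_neg e2, sub_zero]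
      by_cases hkj : k = j
      · rw [if_pos (e1.2 hkj), if_pos hkj]
      · rw [if_neg (fun h => hkj (e1.1 h)), if_neg hkj]
    have ooneg : ∀ t, oo n (-t) = - oo n t := by
      intro t
      rw [oo_apply, oo_apply]
      have e1 : -t = 1 ↔ t = -1 := by
        constructor
        · intro h; rw [← h, neg_neg]
        · rintro rfl; rw [neg_neg]
      have e2 : -t = -1 ↔ t = 1 := neg_inj
      simp only [e1, e2]
      ring
    have small : ∀ j < w * h, ∑ k ∈ Finset.range (w * h),
        D (g.two ^ k) * oo n ((g.two ^ k)⁻¹ * g.two ^ j) = D (g.two ^ j) := by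
      intro j hj
      rw [Finset.sum_eq_single j]
      · rw [key j hj j hj, if_pos rfl, mul_one]
      · intro k hk hkj
        rw [key j hj k (Finset.mem_range.1 hk), if_neg hkj, mul_zero]
      · intro hj'; exact absurd (Finset.mem_range.2 hj) hj'
    obtain ⟨m, hm⟩ := g.exists_pow s
    have hm4 : g.two ^ (m % (2 * w * h)) = s := by
      rw [← hm, ← g.two_order, pow_mod_orderOf]
    set m' := m % (2 * w * h) with hm'
    have hlt : m' < 2 * w * h := Nat.mod_lt _ (by have := g.three_le; have := g.w_pos; positivity)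
    rcases lt_or_ge m' (w * h) with h2 | h2
    · rw [← hm4]; exact small m' h2
    · obtain ⟨j, hj⟩ := Nat.exists_eq_add_of_le h2
      have hs : s = -(g.two ^ j) := by
        rw [← hm4, hj, pow_add, g.two_pow, neg_one_mul]
      have hj' : j < w * h := by
        have : 2 * w * h = w * h + w * h := by ring
        omega
      rw [hs, hodd, ← small j hj', ← Finset.sum_neg_distrib]
      apply Finset.sum_congr rfl
      intro k _
      rw [mul_neg, ooneg, mul_neg]
  obtain ⟨Q, hQ1, hQ2⟩ := exists_psi g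
  have hkill : aeval T (X ^ (w * h) + 1 : ℤ[X]) (oo n) = 0 := by
    ext s
    rw [map_add, map_pow, aeval_X, map_one, LinearMap.add_apply, Module.End.one_apply, hTdef, tr_pow,
      g.two_pow, Pi.add_apply, tr_apply, Pi.zero_apply]
    rw [inv_neg_one, neg_one_mul, oo_apply, oo_apply]
    have e1 : -s = 1 ↔ s = -1 := by
      constructor
      · intro h; rw [← h, neg_neg]
      · rintro rfl; rw [neg_neg]
    have e2 : -s = -1 ↔ s = 1 := neg_inj
    simp only [e1, e2]
    ring
  have hnd : ¬ Q.map (Int.castRingHom ℚ) ∣ f.map (Int.castRingHom ℚ) := by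
    rintro ⟨w', hw⟩
    obtain ⟨N, v, hN, hv⟩ := clear w'
    have h1 : C N * f = Q * v := by
      apply Polynomial.map_injective (Int.castRingHom ℚ) (Int.cast_injective)
      rw [Polynomial.map_mul, Polynomial.map_mul, hw, hv, map_C]
      simp only [eq_intCast]
      ring
    have h2 : aeval T ((1 + X ^ w : ℤ[X]) * (C N * f)) (oo n) = 0 := by
      rw [h1, ← mul_assoc, hQ1, mul_comm, map_mul, Module.End.mul_apply, hkill, map_zero]
    rw [mul_left_comm, map_mul, map_mul, Module.End.mul_apply, Module.End.mul_apply, hfD,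
      aeval_C, Module.algebraMap_end_apply] at h2
    have h3 := congrFun ((smul_eq_zero.1 h2).resolve_left hN) t
    rw [map_add, map_one, map_pow, aeval_X, hTdef, tr_pow, LinearMap.add_apply, Pi.add_apply,
      tr_apply, Module.End.one_apply] at h3
    exact ht h3
  obtain ⟨N, a, b, hN, hab⟩ := bezout hQ2 hnd
  apply hsat N _ hN
  have h5 : N • (oo n + tr (g.two ^ w) (oo n)) = aeval T ((1 + X ^ w : ℤ[X]) * a) D := by
    have h6 : aeval T ((1 + X ^ w : ℤ[X]) * C N) (oo n) = N • (oo n + tr (g.two ^ w) (oo n)) := by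
      rw [mul_comm, map_mul, aeval_C, Module.End.mul_apply, Module.algebraMap_end_apply, map_add,
        map_one, map_pow, aeval_X, hTdef, tr_pow, LinearMap.add_apply, Module.End.one_apply]
    rw [← h6, ← hab, mul_add, map_add, LinearMap.add_apply]
    have h7 : aeval T ((1 + X ^ w : ℤ[X]) * (b * Q)) (oo n) = 0 := by
      rw [mul_left_comm, hQ1, map_mul, Module.End.mul_apply, hkill, map_zero]
    rw [h7, add_zero, ← mul_assoc, map_mul, Module.End.mul_apply, hfD]
  rw [h5]
  exact hE _ _ hD

end Pool.Agent.T6.H36.Rel
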