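import Pool.Agent.T6.H36.Emb
import Pool.Agent.T6.H36.Rel

/-! Roots of an integer polynomial which is `1+X+...+X^(n-1)` modulo two. -/

namespace Pool.Agent.T6.H36.Two

open Polynomial Comb Rel

instance fact2 : Fact (Nat.Prime 2) := ⟨Nat.prime_two⟩

/-- The residue field. -/
abbrev κ : Type := AlgebraicClosure (ZMod 2)

/-- Its ring of Witt vectors. -/
abbrev W : Type := WittVector 2 κ

/-- The fraction field. -/
abbrev M2 : Type := Emb.M 2 κ

/-- The embedding of the ring of integers. -/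
noncomputable abbrev emb : W →+* M2 := algebraMap W M2

/-- The data: a Galois number field with a two-adic embedding, and the roots. -/
structure Dat (w h n p a : ℕ) (L : Type) [Field L] [CharZero L] where
  g : Good w h n
  hp : p.Prime
  hp2 : p ≠ 2
  ha : Odd a
  α : (ZMod n)ˣ → L
  ι : L →+* M2
  ζ : κ
  hζ : IsPrimitiveRoot ζ n
  res : ∀ t : (ZMod n)ˣ, ∃ w : W, emb w = ι (α t) ∧
    WittVector.constantCoeff w = ζ ^ (t : ZMod n).val
  perm : ∀ τ : L ≃ₐ[ℚ] L, ∀ t, ∃ s, τ (α t) = α s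
  gen : ∀ τ : L ≃ₐ[ℚ] L, (∀ t, τ (α t) = α t) → τ = 1
  c : L ≃ₐ[ℚ] L
  hc : ∀ x, ι (c x) = Emb.phi 2 κ (ι x)
  pair : ∀ t, ∃ s, α t * α s = (p : L) ^ a

variable {w h n p a : ℕ} {L : Type} [Field L] [CharZero L]

namespace Dat

/-- `x` is integral with residue `r`. -/
def R (D : Dat w h n p a L) (x : L) (r : κ) : Prop :=
  ∃ w : W, emb w = D.ι x ∧ WittVector.constantCoeff w = r

variable (D : Dat w h n p a L)

theorem emb_inj : Function.Injective emb := IsFractionRing.injective W M2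

theorem R_mul {x y : L} {r s : κ} (hx : D.R x r) (hy : D.R y s) : D.R (x * y) (r * s) := by
  obtain ⟨w, hw, hw'⟩ := hx
  obtain ⟨v, hv, hv'⟩ := hy
  exact ⟨w * v, by rw [map_mul, map_mul, hw, hv], by rw [map_mul, hw', hv']⟩

theorem R_one : D.R 1 1 := ⟨1, by rw [map_one, map_one], map_one _⟩

theorem R_neg {x : L} {r : κ} (hx : D.R x r) : D.R (-x) (-r) := by
  obtain ⟨w, hw, hw'⟩ := hx
  exact ⟨-w, by rw [map_neg, map_neg, hw], by rw [map_neg, hw']⟩

theorem R_neg' {x : L} {r : κ} (hx : D.R x r) : D.R (-x) r := by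
  have := D.R_neg hx
  rwa [CharTwo.neg_eq r] at this

theorem R_pow {x : L} {r : κ} (hx : D.R x r) (k : ℕ) : D.R (x ^ k) (r ^ k) := by
  obtain ⟨w, hw, hw'⟩ := hx
  exact ⟨w ^ k, by rw [map_pow, map_pow, hw], by rw [map_pow, hw']⟩

theorem R_unique {x : L} {r s : κ} (hx : D.R x r) (hy : D.R x s) : r = s := by
  obtain ⟨w, hw, hw'⟩ := hx
  obtain ⟨v, hv, hv'⟩ := hy
  rw [← hw', ← hv', emb_inj (hw.trans hv.symm)]

theorem R_inv {x : L} {r : κ} (hx : D.R x r) (hr : r ≠ 0) : D.R x⁻¹ r⁻¹ := by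
  obtain ⟨w, hw, hw'⟩ := hx
  have hu : IsUnit w := WittVector.isUnit_of_coeff_zero_ne_zero w (by
    show WittVector.constantCoeff w ≠ 0; rw [hw']; exact hr)
  obtain ⟨u, rfl⟩ := hu
  refine ⟨((u⁻¹ : Wˣ) : W), ?_, ?_⟩
  · rw [map_inv₀, ← hw]
    apply eq_inv_of_mul_eq_one_left
    rw [← map_mul, Units.inv_mul, map_one]
  · apply eq_inv_of_mul_eq_one_left
    rw [← hw', ← map_mul, Units.inv_mul, map_one]

theorem R_div {x y : L} {r s : κ} (hx : D.R x r) (hy : D.R y s) (hs : s ≠ 0) :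
    D.R (x / y) (r / s) := by
  rw [div_eq_mul_inv, div_eq_mul_inv]
  exact D.R_mul hx (D.R_inv hy hs)

theorem R_prod {ι' : Type*} (s : Finset ι') (f : ι' → L) (r : ι' → κ)
    (hf : ∀ i ∈ s, D.R (f i) (r i)) : D.R (∏ i ∈ s, f i) (∏ i ∈ s, r i) := by
  classical
  induction s using Finset.induction_on with
  | empty => simpa using D.R_one
  | insert i s hi ih =>
    rw [Finset.prod_insert hi, Finset.prod_insert hi]
    exact D.R_mul (hf i (Finset.mem_insert_self _ _))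
      (ih (fun j hj => hf j (Finset.mem_insert_of_mem hj)))

theorem R_p : D.R (p : L) 1 := by
  refine ⟨(p : W), by rw [map_natCast, map_natCast], ?_⟩
  rw [map_natCast]
  have h1 : ((p : ℕ) : κ) = ((p % 2 : ℕ) : κ) := by
    have := Nat.div_add_mod p 2
    conv_lhs => rw [← this]
    push_cast
    rw [CharTwo.two_eq_zero (R := κ), zero_mul, zero_add]
  rw [h1, (Nat.Prime.eq_two_or_odd D.hp).resolve_left D.hp2, Nat.cast_one]

theorem R_c {x : L} {r : κ} (hx : D.R x r) : D.R (D.c x) (r ^ 2) := by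
  obtain ⟨w, hw, hw'⟩ := hx
  refine ⟨WittVector.frobenius w, ?_, ?_⟩
  · rw [D.hc, ← hw, Emb.phi_alg]
  · rw [Witt.res_frob, hw']

/-- Roots of unity. -/
def RU (x : L) : Prop := ∃ N : ℕ, N ≠ 0 ∧ x ^ N = 1

theorem RU_one : RU (1 : L) := ⟨1, one_ne_zero, one_pow _⟩

theorem RU_mul {x y : L} (hx : RU x) (hy : RU y) : RU (x * y) := by
  obtain ⟨N, hN, h1⟩ := hx
  obtain ⟨N', hN', h2⟩ := hy
  refine ⟨N * N', mul_ne_zero hN hN', ?_⟩
  rw [mul_pow, pow_mul, h1, one_pow, mul_comm N, pow_mul, h2, one_pow, mul_one]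

theorem RU_inv {x : L} (hx : RU x) : RU x⁻¹ := by
  obtain ⟨N, hN, h1⟩ := hx
  exact ⟨N, hN, by rw [inv_pow, h1, inv_one]⟩

theorem RU_div {x y : L} (hx : RU x) (hy : RU y) : RU (x / y) := by
  rw [div_eq_mul_inv]; exact RU_mul hx (RU_inv hy)

theorem RU_pow {x : L} (hx : RU x) (k : ℕ) : RU (x ^ k) := by
  obtain ⟨N, hN, h1⟩ := hx
  exact ⟨N, hN, by rw [← pow_mul, mul_comm, pow_mul, h1, one_pow]⟩

theorem RU_of_pow {x : L} {k : ℕ} (hk : k ≠ 0) (hx : RU (x ^ k)) : RU x := by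
  obtain ⟨N, hN, h1⟩ := hx
  exact ⟨k * N, mul_ne_zero hk hN, by rw [pow_mul, h1]⟩

theorem RU_map {x : L} (hx : RU x) (τ : L ≃ₐ[ℚ] L) : RU (τ x) := by
  obtain ⟨N, hN, h1⟩ := hx
  exact ⟨N, hN, by rw [← map_pow, h1, map_one]⟩

theorem RU_ne {x : L} (hx : RU x) : x ≠ 0 := by
  obtain ⟨N, hN, h1⟩ := hx
  rintro rfl
  rw [zero_pow hN] at h1
  exact zero_ne_one h1

/-- A root of unity with residue one is `±1`. -/
theorem pm {x : L} (hx : RU x) (h1 : D.R x 1) : x = 1 ∨ x = -1 := by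
  obtain ⟨N, hN, h2⟩ := hx
  obtain ⟨w, hw, hw'⟩ := h1
  have h3 : w ^ N = 1 := by
    apply emb_inj
    rw [map_pow, hw, ← map_pow, h2, map_one, map_one]
  rcases Witt.eq_pm hN h3 hw' with rfl | rfl
  · left
    apply D.ι.injective
    rw [← hw, map_one, map_one]
  · right
    apply D.ι.injective
    rw [← hw, map_neg, map_neg, map_one, map_one]

/-- A root of unity of odd order with residue one is `1`. -/
theorem one_of_odd {x : L} {N : ℕ} (hN : Odd N) (hx : x ^ N = 1) (h1 : D.R x 1) : x = 1 := by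
  rcases D.pm ⟨N, by rintro rfl; exact absurd hN (by decide), hx⟩ h1 with h | h
  · exact h
  · rw [h, hN.neg_one_pow] at hx
    exfalso
    have : (2 : L) = 0 := by linear_combination -hx
    exact two_ne_zero this

/-- Square roots of integers. -/
theorem sqrt {x : L} {d : ℤ} (hd : Odd d) (hx : x ^ 2 = d) :
    (∃ e, d = 4 * e + 1) ∧ ((∃ e, d = 8 * e + 1) → D.c x = x) := by
  obtain ⟨w, hw, hw'⟩ := Emb.exists_of_pow (p := 2) (k := κ) (x := D.ι x) two_ne_zero (d := (d : W))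
    (by rw [← map_pow, hx, map_intCast, map_intCast])
  refine ⟨?_, ?_⟩
  · obtain ⟨y, e, h1, h2, h3⟩ := Witt.sqrt_aux hd hw'
    exact ⟨e, h2⟩
  · rintro ⟨e, rfl⟩
    have := Witt.frob_sqrt hw'
    apply D.ι.injective
    rw [D.hc, ← hw, Emb.phi_alg, this]

/-- The residue of the root with index `x`. -/
noncomputable def ψ (x : ZMod n) : κ := D.ζ ^ x.val

include D in
theorem neZero : NeZero n := ⟨by have := D.g.n_ge; omega⟩

theorem ψ_add (x y : ZMod n) : D.ψ (x + y) = D.ψ x * D.ψ y := by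
  haveI := D.neZero
  unfold ψ
  rw [← pow_add, ZMod.val_add]
  conv_rhs => rw [← Nat.div_add_mod (x.val + y.val) n, pow_add, pow_mul, D.hζ.pow_eq_one, one_pow,
    one_mul]

theorem ψ_zero : D.ψ 0 = 1 := by unfold ψ; rw [ZMod.val_zero, pow_zero]

theorem ψ_inj {x y : ZMod n} (hxy : D.ψ x = D.ψ y) : x = y := by
  haveI := D.neZero
  exact ZMod.val_injective n (D.hζ.pow_inj (ZMod.val_lt x) (ZMod.val_lt y) hxy)

theorem ψ_ne (x : ZMod n) : D.ψ x ≠ 0 := by
  unfold ψ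
  exact pow_ne_zero _ (D.hζ.ne_zero D.neZero.out)

theorem ψ_nsmul (k : ℕ) (x : ZMod n) : D.ψ (k * x) = D.ψ x ^ k := by
  induction k with
  | zero => rw [Nat.cast_zero, zero_mul, ψ_zero, pow_zero]
  | succ k ih => rw [Nat.cast_succ, add_mul, one_mul, ψ_add, ih, pow_succ]

theorem ψ_neg (x : ZMod n) : D.ψ (-x) = (D.ψ x)⁻¹ := by
  apply eq_inv_of_mul_eq_one_left
  rw [← ψ_add, neg_add_cancel, ψ_zero]

theorem ψ_sub (x y : ZMod n) : D.ψ (x - y) = D.ψ x / D.ψ y := by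
  rw [sub_eq_add_neg, ψ_add, ψ_neg, div_eq_mul_inv]

theorem Rα (t : (ZMod n)ˣ) : D.R (D.α t) (D.ψ t) := D.res t

theorem α_inj : Function.Injective D.α := by
  intro t s hts
  have h1 := D.Rα t
  rw [hts] at h1
  exact Units.ext (D.ψ_inj (D.R_unique h1 (D.Rα s)))

include D in
theorem p_ne : (p : L) ≠ 0 := Nat.cast_ne_zero.2 D.hp.ne_zero

theorem α_mul_neg (t : (ZMod n)ˣ) : D.α t * D.α (-t) = (p : L) ^ a := by
  obtain ⟨s, hs⟩ := D.pair t
  have h1 := D.R_mul (D.Rα t) (D.Rα s)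
  rw [hs, ← ψ_add] at h1
  have h2 := D.R_pow D.R_p a
  rw [one_pow] at h2
  have h3 : D.ψ ((t : ZMod n) + s) = D.ψ 0 := by rw [ψ_zero]; exact D.R_unique h1 h2
  have h4 := D.ψ_inj h3
  have h5 : s = -t := by
    apply Units.ext
    rw [Units.val_neg]
    exact eq_neg_of_add_eq_zero_right h4
  rw [← h5, hs]

theorem α_ne (t : (ZMod n)ˣ) : D.α t ≠ 0 := by
  intro h0
  have := D.α_mul_neg t
  rw [h0, zero_mul] at this
  exact pow_ne_zero _ D.p_ne this.symm

theorem α_neg (t : (ZMod n)ˣ) : D.α (-t) = (p : L) ^ a / D.α t := by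
  rw [eq_div_iff (D.α_ne t), mul_comm, α_mul_neg]

/-- The permutation induced by an automorphism. -/
noncomputable def π (τ : L ≃ₐ[ℚ] L) (t : (ZMod n)ˣ) : (ZMod n)ˣ := (D.perm τ t).choose

theorem hπ (τ : L ≃ₐ[ℚ] L) (t : (ZMod n)ˣ) : τ (D.α t) = D.α (D.π τ t) := (D.perm τ t).choose_spec

theorem π_inj (τ : L ≃ₐ[ℚ] L) : Function.Injective (D.π τ) := by
  intro t s hts
  apply D.α_inj
  apply τ.injective
  rw [hπ, hπ, hts]

theorem π_bij (τ : L ≃ₐ[ℚ] L) : Function.Bijective (D.π τ) := by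
  haveI := D.neZero
  exact Finite.injective_iff_bijective.1 (D.π_inj τ)

theorem π_neg (τ : L ≃ₐ[ℚ] L) (t : (ZMod n)ˣ) : D.π τ (-t) = -D.π τ t := by
  apply D.α_inj
  rw [← hπ, α_neg, α_neg, map_div₀, map_pow, map_natCast, hπ]

theorem c_α (t : (ZMod n)ˣ) : D.c (D.α t) = D.α (D.g.two * t) := by
  rw [hπ]
  congr 1
  apply Units.ext
  apply D.ψ_inj
  have h1 := D.Rα (D.π D.c t)
  rw [← hπ] at h1
  have h2 := D.R_c (D.Rα t)
  rw [D.R_unique h1 h2, ← D.ψ_nsmul, Units.val_mul, D.g.two_coe]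
  norm_num

theorem c_pow_α (k : ℕ) (t : (ZMod n)ˣ) : (D.c ^ k) (D.α t) = D.α (D.g.two ^ k * t) := by
  induction k with
  | zero => rw [pow_zero, pow_zero, one_mul]; rfl
  | succ k ih =>
    rw [pow_succ', AlgEquiv.mul_apply, ih, c_α, ← mul_assoc, ← pow_succ']

/-- The element of the Galois group attached to `u`. -/
noncomputable def cc (u : (ZMod n)ˣ) : L ≃ₐ[ℚ] L := D.c ^ (D.g.exists_pow u).choose

theorem cc_α (u t : (ZMod n)ˣ) : D.cc u (D.α t) = D.α (u * t) := by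
  unfold cc
  rw [c_pow_α, (D.g.exists_pow u).choose_spec]

theorem cc_fix (u : (ZMod n)ˣ) {x : L} (hx : D.c x = x) : D.cc u x = x := by
  unfold cc
  induction (D.g.exists_pow u).choose with
  | zero => rw [pow_zero]; rfl
  | succ k ih => rw [pow_succ', AlgEquiv.mul_apply, ih, hx]

theorem R_cc (u : (ZMod n)ˣ) {x : L} {y : ZMod n} (hx : D.R x (D.ψ y)) :
    D.R (D.cc u x) (D.ψ (u * y)) := by
  have key : ∀ k : ℕ, D.R ((D.c ^ k) x) (D.ψ ((D.g.two : ZMod n) ^ k * y)) := by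
    intro k
    induction k with
    | zero => rw [pow_zero, pow_zero, one_mul]; exact hx
    | succ k ih =>
      have := D.R_c ih
      rw [pow_succ', AlgEquiv.mul_apply, pow_succ', mul_assoc, D.g.two_coe]
      rw [D.g.two_coe, ← D.ψ_nsmul] at this
      exact_mod_cast this
  have h1 := key (D.g.exists_pow u).choose
  have h2 := congrArg (fun v : (ZMod n)ˣ => (v : ZMod n)) (D.g.exists_pow u).choose_spec
  simp only [Units.val_pow_eq_pow_val] at h2
  rw [h2] at h1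
  exact h1

end Dat

end Pool.Agent.T6.H36.Two
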