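import Pool.Agent.T6.H36.Witt

/-! The fraction field of the Witt vectors of an algebraically closed field. -/

namespace Pool.Agent.T6.H36.Emb

open WittVector Polynomial

variable (p : ℕ) [hp : Fact p.Prime] (k : Type) [Field k] [CharP k p] [IsAlgClosed k]

/-- The fraction field of the Witt vectors. -/
abbrev M : Type := FractionRing (WittVector p k)

omit [IsAlgClosed k] in
theorem charZeroM : CharZero (M p k) := by
  have : CharZero (WittVector p k) := Witt.charZero
  exact charZero_of_injective_algebraMap
    (IsFractionRing.injective (WittVector p k) (M p k))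

/-- The Frobenius of the fraction field. -/
noncomputable def phi : M p k →+* M p k := WittVector.FractionRing.frobeniusRingHom p k

theorem phi_alg (w : WittVector p k) :
    phi p k (algebraMap (WittVector p k) (M p k) w)
      = algebraMap (WittVector p k) (M p k) (WittVector.frobenius w) := by
  show (WittVector.FractionRing.frobenius p k) (algebraMap (WittVector p k) (M p k) w) = _
  unfold WittVector.FractionRing.frobenius
  rw [IsFractionRing.ringEquivOfRingEquiv_algebraMap]
  rfl

variable {p k}

theorem exists_of_pow {x : M p k} {N : ℕ} (hN : N ≠ 0) {d : WittVector p k}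
    (hx : x ^ N = algebraMap (WittVector p k) (M p k) d) :
    ∃ w : WittVector p k, algebraMap (WittVector p k) (M p k) w = x ∧ w ^ N = d := by
  obtain ⟨w, hw⟩ := IsIntegrallyClosed.exists_algebraMap_eq_of_isIntegral_pow
    (R := WittVector p k) (K := M p k) (Nat.pos_of_ne_zero hN) (x := x)
    (by rw [hx]; exact isIntegral_algebraMap)
  refine ⟨w, hw, ?_⟩
  apply IsFractionRing.injective (WittVector p k) (M p k)
  rw [map_pow, hw, hx]

/-- Every nonzero element is a power of `p` times a unit. -/
theorem exists_unit {x : M p k} (hx : x ≠ 0) : ∃ (m m' : ℕ) (u : (WittVector p k)ˣ),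
    (p : M p k) ^ m' * x = (p : M p k) ^ m * algebraMap (WittVector p k) (M p k) u := by
  obtain ⟨a, b, hb, rfl⟩ := IsFractionRing.div_surjective (A := WittVector p k) x
  have hb0 : b ≠ 0 := nonZeroDivisors.ne_zero hb
  have ha0 : a ≠ 0 := by
    rintro rfl; apply hx; rw [map_zero, zero_div]
  obtain ⟨m, u, rfl⟩ := WittVector.exists_eq_pow_p_mul' a ha0
  obtain ⟨m', v, rfl⟩ := WittVector.exists_eq_pow_p_mul' b hb0
  refine ⟨m, m', u * v⁻¹, ?_⟩
  have hv : algebraMap (WittVector p k) (M p k) (v : WittVector p k) *
      algebraMap (WittVector p k) (M p k) ((v⁻¹ : (WittVector p k)ˣ) : WittVector p k) = 1 := by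
    rw [← map_mul, Units.mul_inv, map_one]
  have hv0 : algebraMap (WittVector p k) (M p k) (v : WittVector p k) ≠ 0 :=
    left_ne_zero_of_mul_eq_one hv
  have hp0 : (p : M p k) ≠ 0 := WittVector.FractionRing.p_nonzero p k
  rw [map_mul, map_mul, map_pow, map_pow, map_natCast, Units.val_mul, map_mul]
  field_simp
  rw [hv]

theorem phi_p : phi p k (p : M p k) = p := map_natCast _ _

theorem phi_iter_unit (u : (WittVector p k)ˣ) (j : ℕ) : ∃ v : (WittVector p k)ˣ,
    (phi p k)^[j] (algebraMap (WittVector p k) (M p k) u)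
      = algebraMap (WittVector p k) (M p k) v := by
  induction j with
  | zero => exact ⟨u, rfl⟩
  | succ j ih =>
    obtain ⟨v, hv⟩ := ih
    refine ⟨Units.map (WittVector.frobenius (p := p) (R := k) : WittVector p k →* WittVector p k) v, ?_⟩
    rw [Function.iterate_succ_apply', hv, phi_alg]
    rfl

/-- The parity of the valuation. -/
theorem even_of_mul {x u : M p k} {j a N : ℕ} (hN : N ≠ 0) (hu : u ^ N = 1)
    (hx : x * (phi p k)^[j] x = (p : M p k) ^ a * u) : Even a := by
  have hp0 : (p : M p k) ≠ 0 := WittVector.FractionRing.p_nonzero p k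
  have hu0 : u ≠ 0 := by
    rintro rfl; rw [zero_pow hN] at hu; exact zero_ne_one hu
  have hx0 : x ≠ 0 := by
    rintro rfl
    rw [zero_mul] at hx
    exact (mul_ne_zero (pow_ne_zero _ hp0) hu0) hx.symm
  obtain ⟨m, m', v, hv⟩ := exists_unit hx0
  obtain ⟨v', hv'⟩ := phi_iter_unit v j
  have h1 : (p : M p k) ^ m' * (phi p k)^[j] x
      = (p : M p k) ^ m * algebraMap (WittVector p k) (M p k) v' := by
    have h := congrArg ((phi p k)^[j]) hv
    rw [iterate_map_mul, iterate_map_mul, iterate_map_pow, iterate_map_pow, hv'] at h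
    have h2 : (phi p k)^[j] (p : M p k) = p := by
      rw [Function.iterate_fixed phi_p]
    rw [h2] at h
    exact h
  obtain ⟨u', hu', hu''⟩ := exists_of_pow hN (hu.trans (map_one _).symm)
  have hu1 : IsUnit u' := IsUnit.of_pow_eq_one hu'' hN
  have h3 : (p : WittVector p k) ^ (2 * m' + a) * u'
      = (p : WittVector p k) ^ (2 * m) * ((v * v' : (WittVector p k)ˣ) : WittVector p k) := by
    apply IsFractionRing.injective (WittVector p k) (M p k)
    rw [map_mul, map_mul, map_pow, map_pow, map_natCast, hu', Units.val_mul, map_mul]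
    have h4 : ((p : M p k) ^ m' * x) * ((p : M p k) ^ m' * (phi p k)^[j] x)
        = (p : M p k) ^ (2 * m') * ((p : M p k) ^ a * u) := by
      rw [← hx]; ring
    rw [hv, h1] at h4
    rw [pow_add, mul_assoc, ← h4]
    ring
  have h5 := Witt.pow_inj hu1 (Units.isUnit _) h3
  exact ⟨m - m', by omega⟩

/-- Hensel's lemma. -/
theorem hensel {P : ℤ[X]} (hP : P.Monic) {r : k} (hr : eval₂ (Int.castRingHom k) r P = 0)
    (hr' : eval₂ (Int.castRingHom k) r (derivative P) ≠ 0) :
    ∃ w : WittVector p k, eval₂ (Int.castRingHom (WittVector p k)) w P = 0 ∧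
      WittVector.constantCoeff w = r := by
  have hres : ∀ (w : WittVector p k) (R : ℤ[X]), WittVector.constantCoeff
      ((R.map (Int.castRingHom (WittVector p k))).eval w)
        = eval₂ (Int.castRingHom k) (WittVector.constantCoeff w) R := by
    intro w R
    rw [eval_map, hom_eval₂]
    congr 1
    exact RingHom.ext_int _ _
  obtain ⟨w₀, hw₀⟩ := WittVector.constantCoeff_surjective (p := p) (R := k) r
  have hmem : ∀ w : WittVector p k, WittVector.constantCoeff w = 0 ↔
      w ∈ Ideal.span {(p : WittVector p k)} := by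
    intro w
    rw [WittVector.mem_span_p_iff_coeff_zero_eq_zero]
    rfl
  obtain ⟨w, hw1, hw2⟩ := HenselianRing.is_henselian (I := Ideal.span {(p : WittVector p k)})
    (P.map (Int.castRingHom (WittVector p k))) (hP.map _) w₀
    (by rw [← hmem, hres, hw₀, hr])
    (by
      rw [derivative_map]
      apply IsUnit.map
      apply WittVector.isUnit_of_coeff_zero_ne_zero
      show WittVector.constantCoeff _ ≠ 0
      rw [hres, hw₀]
      exact hr')
  refine ⟨w, ?_, ?_⟩
  · rw [IsRoot.def, eval_map] at hw1
    exact hw1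
  · rw [← hmem, map_sub, hw₀, sub_eq_zero] at hw2
    exact hw2

end Pool.Agent.T6.H36.Emb
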