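import Pool.Agent.T6.H36.GVDefs
import Pool.Agent.T6.H36.BN2
import Pool.Agent.T6.H36.TMGen

/-!
# Powers of smooth projective varieties over finite fields
-/

set_option autoImplicit false

namespace Pool.Agent.T6.H36.GV

open Module Polynomial Final TG TM Gen

section relations

variable {Ω : Type} [Field Ω] [CharZero Ω]

/-- Every eigenvalue in a relation has a partner. -/
theorem partner {I : Type} [Fintype I] {m : I → ℕ} [∀ i, NeZero (2 * m i)] {α : XX m → Ω} {Q : Ω}
    (hQ : Q ≠ 0) (hbar : ∀ s, α s * α (bar s) = Q)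
    (hrel : ∀ e : XX m → ℤ, (∃ N : ℕ, N ≠ 0 ∧
        (∏ s : XX m, α s ^ (e s - e ⟨s.1, s.2 + m s.1⟩)) ^ N = 1) →
        ∀ i t, e ⟨i, t + m i⟩ = e ⟨i, t⟩)
    {n N : ℕ} (hN : N ≠ 0) (J : Fin n → XX m) (h : (∏ l, α (J l)) ^ (2 * N) = Q ^ (n * N)) (l : Fin n) :
    ∃ l', J l' = bar (J l) := by
  classical
  have hα0 : ∀ t, α t ≠ 0 := by
    intro t h0
    have := hbar t
    rw [h0, zero_mul] at this
    exact hQ this.symm
  set e : XX m → ℤ := fun t => ((Finset.univ.filter (fun l => J l = t)).card : ℤ) with he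
  have h1 : ∏ t, α t ^ e t = ∏ l, α (J l) := by
    have h2 : ∀ l, α (J l) = ∏ t, if J l = t then α t else 1 := by
      intro l
      rw [Finset.prod_ite_eq, if_pos (Finset.mem_univ _)]
    rw [Finset.prod_congr rfl (fun l _ => h2 l), Finset.prod_comm]
    refine Finset.prod_congr rfl (fun t _ => ?_)
    rw [Finset.prod_ite, Finset.prod_const_one, mul_one, Finset.prod_const]
    show α t ^ ((Finset.univ.filter (fun l => J l = t)).card : ℤ) = _
    rw [zpow_natCast]
  have hbarE : (∏ t, α t ^ e (bar t)) = ∏ t, α (bar t) ^ e t := by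
    let eb : XX m ≃ XX m := ⟨bar, bar, bar_bar, bar_bar⟩
    rw [← Equiv.prod_comp eb]
    refine Finset.prod_congr rfl (fun t _ => ?_)
    show α (bar t) ^ e (bar (bar t)) = _
    rw [bar_bar]
  have h3 : (∏ t, α t ^ e t) * ∏ t, α t ^ e (bar t) = Q ^ n := by
    rw [hbarE, ← Finset.prod_mul_distrib]
    have h4 : ∀ t, α t ^ e t * α (bar t) ^ e t = Q ^ e t := by
      intro t
      rw [← mul_zpow, hbar]
    simp only [h4]
    have h7 : ∀ T : Finset (XX m), ∏ t ∈ T, Q ^ e t = Q ^ (∑ t ∈ T, e t) := by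
      intro T
      induction T using Finset.induction_on with
      | empty => rw [Finset.prod_empty, Finset.sum_empty, zpow_zero]
      | insert b T hb ih =>
        rw [Finset.prod_insert hb, Finset.sum_insert hb, zpow_add₀ hQ, ih]
    rw [h7]
    have h5 : ∑ t, e t = (n : ℤ) := by
      rw [he]
      simp only []
      rw [← Nat.cast_sum, ← Finset.card_eq_sum_card_fiberwise
        (fun x _ => Finset.mem_coe.2 (Finset.mem_univ (J x))), Finset.card_univ, Fintype.card_fin]
    rw [h5, zpow_natCast]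
  have h6 : (∏ t, α t ^ e t) ^ N = (∏ t, α t ^ e (bar t)) ^ N := by
    have h8 : (∏ t, α t ^ e t) ^ (2 * N) = ((∏ t, α t ^ e t) * ∏ t, α t ^ e (bar t)) ^ N := by
      rw [h1, h, ← h1, h3, pow_mul]
    rw [two_mul, pow_add, mul_pow] at h8
    have h9 : (∏ t, α t ^ e t) ^ N ≠ 0 :=
      pow_ne_zero _ (Finset.prod_ne_zero_iff.2 (fun t _ => zpow_ne_zero _ (hα0 t)))
    exact mul_left_cancel₀ h9 h8
  have h10 : (∏ s : XX m, α s ^ (e s - e ⟨s.1, s.2 + m s.1⟩)) ^ N = 1 := by
    have h4 : ∀ s : XX m, α s ^ (e s - e ⟨s.1, s.2 + m s.1⟩) = α s ^ e s / α s ^ e (bar s) :=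
      fun s => zpow_sub₀ (hα0 s) _ _
    simp only [h4]
    rw [Finset.prod_div_distrib, div_pow, h6, div_self]
    exact pow_ne_zero _ (Finset.prod_ne_zero_iff.2 (fun t _ => zpow_ne_zero _ (hα0 t)))
  have h11 : e (bar (J l)) = e (J l) := hrel e ⟨N, hN, h10⟩ _ _
  have h12 : 0 < (Finset.univ.filter (fun l' => J l' = J l)).card :=
    Finset.card_pos.2 ⟨l, by simp⟩
  have h13 : 0 < (Finset.univ.filter (fun l' => J l' = bar (J l))).card := by
    have h14 : (0 : ℤ) < e (bar (J l)) := by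
      rw [h11]
      exact Nat.cast_pos.2 h12
    exact Nat.cast_pos.1 h14
  obtain ⟨l', hl'⟩ := Finset.card_pos.1 h13
  exact ⟨l', (Finset.mem_filter.1 hl').2⟩

end relations

/-- Choose one of the factors. -/
theorem exists_equiv_one {n : ℕ} (i : Fin (n + 1)) :
    ∃ e : Fin 1 ⊕ Fin n ≃ Fin (n + 1), e (Sum.inl 0) = i := by
  classical
  have h1 : Fintype.card {x : Fin (n + 1) // ¬ x = i} = Fintype.card (Fin n) := by
    rw [Fintype.card_subtype_compl, Fintype.card_fin, Fintype.card_subtype_eq, Fintype.card_fin]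
    omega
  let e1 : Fin 1 ≃ {x : Fin (n + 1) // x = i} :=
    ⟨fun _ => ⟨i, rfl⟩, fun _ => 0, fun x => Subsingleton.elim _ _, fun x => Subtype.ext x.2.symm⟩
  let e2 : Fin n ≃ {x : Fin (n + 1) // ¬ x = i} := (Fintype.equivOfCardEq h1).symm
  exact ⟨(Equiv.sumCongr e1 e2).trans (Equiv.sumCompl _), rfl⟩

/-- Choose two of the factors. -/
theorem exists_equiv_two {n : ℕ} {i i' : Fin (n + 2)} (h : i ≠ i') :
    ∃ e : Fin 2 ⊕ Fin n ≃ Fin (n + 2), e (Sum.inl 0) = i ∧ e (Sum.inl 1) = i' := by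
  classical
  let f : Fin 2 → {x : Fin (n + 2) // x = i ∨ x = i'} := ![⟨i, Or.inl rfl⟩, ⟨i', Or.inr rfl⟩]
  have hf : Function.Bijective f := by
    constructor
    · intro a b hab
      fin_cases a <;> fin_cases b
      · rfl
      · exact absurd (congrArg Subtype.val hab) h
      · exact absurd (congrArg Subtype.val hab) h.symm
      · rfl
    · rintro ⟨x, rfl | rfl⟩
      · exact ⟨0, rfl⟩
      · exact ⟨1, rfl⟩
  have h0 : Fintype.card {x : Fin (n + 2) // x = i ∨ x = i'} = 2 := by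
    rw [← Fintype.card_of_bijective hf, Fintype.card_fin]
  have h1 : Fintype.card {x : Fin (n + 2) // ¬ (x = i ∨ x = i')} = Fintype.card (Fin n) := by
    rw [Fintype.card_subtype_compl, Fintype.card_fin, h0, Fintype.card_fin]
    omega
  let e1 : Fin 2 ≃ {x : Fin (n + 2) // x = i ∨ x = i'} := Equiv.ofBijective f hf
  let e2 : Fin n ≃ {x : Fin (n + 2) // ¬ (x = i ∨ x = i')} := (Fintype.equivOfCardEq h1).symm
  exact ⟨(Equiv.sumCongr e1 e2).trans (Equiv.sumCompl _), rfl, rfl⟩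

/-- The polynomial has no root in the integers. -/
theorem no_root {Ω : Type} [Field Ω] [CharZero Ω] {l : ℕ} [Fact l.Prime] {P : ℤ[X]}
    (h : BN.HasBinaryFactors (P.map (Int.castRingHom (ZMod l)))) (a : ℕ)
    (ha : ev P (a : Ω) = 0) : False := by
  have h1 : (P.eval (a : ℤ) : ℤ) = 0 := by
    have h2 : ((P.eval (a : ℤ) : ℤ) : Ω) = 0 := by
      rw [← ha]
      unfold ev
      have h3 := Polynomial.hom_eval₂ P (RingHom.id ℤ) (Int.castRingHom Ω) (a : ℤ)
      rw [← eval₂_id]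
      simpa using h3
    exact_mod_cast h2
  have h2 : (P.map (Int.castRingHom (ZMod l))).IsRoot (a : ZMod l) := by
    rw [IsRoot.def, eval_map]
    have h3 := Polynomial.hom_eval₂ P (RingHom.id ℤ) (Int.castRingHom (ZMod l)) (a : ℤ)
    rw [eval₂_id, h1] at h3
    simpa using h3.symm
  obtain ⟨S, f, -, hf, hP⟩ := h
  rw [hP, IsRoot.def, eval_prod, Finset.prod_eq_zero_iff] at h2
  obtain ⟨k, hk, h3⟩ := h2
  have h4 := Polynomial.degree_eq_one_of_irreducible_of_root (hf k hk).2.1 h3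
  have h5 : (f k).natDegree = 1 := natDegree_eq_of_degree_eq_some (by simpa using h4)
  rw [(hf k hk).2.2, pow_succ] at h5
  have := Nat.one_le_two_pow (n := k)
  omega

end Pool.Agent.T6.H36.GV
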