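import Pool.Agent.T6.H36.GV
import Pool.Agent.T6.H36.Tate

/-!
# Powers of smooth projective varieties over finite fields: classes of products of eigenforms
-/

set_option autoImplicit false

namespace Pool.Agent.T6.H36.GV

open Module Polynomial Final TG TM Gen

variable {Ω W : Type} [Field Ω] [AddCommGroup W] [Module Ω W] [FiniteDimensional Ω W] {q d : ℕ} {φ : Module.End Ω W}
  {H : Parts Ω W d}
  {Cyc : Classes Ω W}

/-- The index sets of the bases of eigenvectors. -/
def Idx {I : Type} (μ : I → ℕ) (H : Parts Ω W d) :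
    Option (Fin (d + 1)) → Type
  | none => XX μ
  | some k => Fin (finrank Ω (H (some k)))

noncomputable instance {I : Type} [Fintype I] (μ : I → ℕ) [∀ i, NeZero (2 * μ i)]
    (H : Parts Ω W d) : ∀ i, Fintype (Idx μ H i)
  | none => (inferInstance : Fintype (XX μ))
  | some k => (inferInstance : Fintype (Fin (finrank Ω (H (some k)))))

/-- The eigenvalues. -/
def lam {I : Type} {μ : I → ℕ} (q : ℕ) (H : Parts Ω W d) (α : XX μ → Ω) :
    (Σ i, Idx μ H i) → Ω
  | ⟨none, s⟩ => α s
  | ⟨some k, _⟩ => (q : Ω) ^ (k : ℕ)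

/-- The basis of eigenvectors. -/
structure IsEigen {I : Type} {μ : I → ℕ} (q : ℕ) (φ : Module.End Ω W)
    (H : Parts Ω W d) (α : XX μ → Ω)
    (b : Basis (Σ i, Idx μ H i) Ω W) : Prop where
  mem : ∀ x, b x ∈ H x.1
  eigen : ∀ x, φ (b x) = lam q H α x • b x
  coord : ∀ (i) (w : W) (x), w ∈ H i → i ≠ x.1 → b.coord x w = 0

theorem exists_basis (h : IsVariety q d φ H Cyc) {I : Type} [Fintype I] [Nonempty I] {μ : I → ℕ}
    [∀ i, NeZero (2 * μ i)] {α : XX μ → Ω} (hinj : Function.Injective α)
    (hchar : (φ.restrict (h.stable none)).charpoly = ∏ s, (X - C (α s))) :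
    ∃ b : Basis (Σ i, Idx μ H i) Ω W, IsEigen q φ H α b := by
  classical
  haveI : Nonempty (XX μ) := ⟨⟨Classical.arbitrary I, 0⟩⟩
  obtain ⟨e, he⟩ := Tate.exists_eigenbasis hinj (φ.restrict (h.stable none)) hchar
  let v : ∀ i, Basis (Idx μ H i) Ω (H i) := fun i => match i with
    | none => e
    | some k => Module.finBasis Ω (H (some k))
  let b := h.internal.collectedBasis v
  have hmem : ∀ x, b x ∈ H x.1 := fun x => h.internal.collectedBasis_mem v x
  have hcoord : ∀ (i) (w : W) (x : Σ i, Idx μ H i), w ∈ H i → i ≠ x.1 → b.coord x w = 0 := by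
    intro i w x hw hx
    rw [Basis.coord_apply]
    exact h.internal.collectedBasis_repr_of_mem_ne v hx hw
  refine ⟨b, hmem, ?_, hcoord⟩
  rintro ⟨i, t⟩
  cases i with
  | none =>
    have h1 : b ⟨none, t⟩ = (e t : W) := by
      show h.internal.collectedBasis v ⟨none, t⟩ = _
      rw [DirectSum.IsInternal.collectedBasis_coe]
      rfl
    have h2 := congrArg (Subtype.val) (he t)
    rw [LinearMap.restrict_coe_apply] at h2
    rw [h1]
    exact h2
  | some k =>
    have hw := hmem ⟨some k, t⟩
    show φ (b ⟨some k, t⟩) = (q : Ω) ^ (k : ℕ) • b ⟨some k, t⟩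
    apply b.repr.injective
    ext y
    rw [map_smul, Finsupp.smul_apply, smul_eq_mul, ← Basis.coord_apply, ← Basis.coord_apply]
    by_cases hy : some k = y.1
    · have h1 : MultilinearMap.ofSubsingleton Ω W Ω (0 : Fin 1) (b.coord y) ∈ Cyc 1 k := by
        apply h.algebraic
        intro i hi w hw
        exact hcoord i _ y hw (by rw [← hy]; exact hi)
      exact h.frobenius 1 k _ h1 (fun _ => b ⟨some k, t⟩)
    · rw [hcoord (some k) _ y (h.stable _ _ hw) hy, hcoord (some k) _ y hw hy, mul_zero]

/-- The product of coordinate forms. -/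
noncomputable def Mon {B : Type} (b : Basis B Ω W) {n : ℕ} (s : Fin n → B) :
    MultilinearMap Ω (fun _ : Fin n => W) Ω :=
  (MultilinearMap.mkPiAlgebra Ω (Fin n) Ω).compLinearMap (fun i => b.coord (s i))

theorem Mon_apply {B : Type} (b : Basis B Ω W) {n : ℕ} (s : Fin n → B) (w : Fin n → W) :
    Mon b s w = ∏ i, b.coord (s i) (w i) := by
  unfold Mon
  rw [MultilinearMap.compLinearMap_apply, MultilinearMap.mkPiAlgebra_apply]

theorem Mon_pure {I : Type} {μ : I → ℕ} {α : XX μ → Ω} {b : Basis (Σ i, Idx μ H i) Ω W}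
    (hb : IsEigen q φ H α b) {n : ℕ} (s : Fin n → (Σ i, Idx μ H i)) : IsPure H (Mon b s) := by
  intro i
  by_cases hi : (s i).1 = none
  · right
    intro w m hw
    rw [Mon_apply]
    exact Finset.prod_eq_zero (Finset.mem_univ i) (hb.coord _ _ _ hw (by rw [hi]; simp))
  · left
    intro w hw
    rw [Mon_apply]
    exact Finset.prod_eq_zero (Finset.mem_univ i) (hb.coord _ _ _ hw (fun h => hi h.symm))

/-- The pullback by an endomorphism of one factor. -/
noncomputable def pc {n : ℕ} (f : MultilinearMap Ω (fun _ : Fin n => W) Ω) (i : Fin n)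
    (T : Module.End Ω W) : MultilinearMap Ω (fun _ : Fin n => W) Ω :=
  f.compLinearMap (Function.update (fun _ => LinearMap.id) i T)

theorem pc_apply {n : ℕ} (f : MultilinearMap Ω (fun _ : Fin n => W) Ω) (i : Fin n)
    (T : Module.End Ω W) (w : Fin n → W) : pc f i T w = f (Function.update w i (T (w i))) := by
  unfold pc
  rw [MultilinearMap.compLinearMap_apply]
  congr 1
  funext j
  by_cases hj : j = i
  · subst hj
    rw [Function.update_self, Function.update_self]
  · rw [Function.update_of_ne hj, Function.update_of_ne hj]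
    rfl

theorem pc_mem (h : IsVariety q d φ H Cyc) {n m : ℕ} {f : MultilinearMap Ω (fun _ : Fin n => W) Ω}
    (hf : f ∈ Cyc n m) (i : Fin n) (p : Polynomial Ω) : pc f i (aeval φ p) ∈ Cyc n m := by
  induction p using Polynomial.induction_on' with
  | add p p' hp hp' =>
    have h1 : pc f i (aeval φ (p + p')) = pc f i (aeval φ p) + pc f i (aeval φ p') := by
      ext w
      rw [MultilinearMap.add_apply, pc_apply, pc_apply, pc_apply, map_add, LinearMap.add_apply,
        MultilinearMap.map_update_add]
    rw [h1]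
    exact add_mem hp hp'
  | monomial k a =>
    have h2 : ∀ k : ℕ, pc f i (φ ^ k) ∈ Cyc n m := by
      intro k
      induction k with
      | zero =>
        have h3 : pc f i (φ ^ 0) = f := by
          ext w
          rw [pc_apply, pow_zero]
          congr 1
          exact Function.update_eq_self _ _
        rw [h3]
        exact hf
      | succ k ih =>
        refine h.partial_frobenius n m _ ih i _ (fun w => ?_)
        rw [pc_apply, pc_apply, Function.update_self, Function.update_idem, pow_succ]
        rfl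
    have h1 : pc f i (aeval φ (monomial k a)) = a • pc f i (φ ^ k) := by
      ext w
      rw [MultilinearMap.smul_apply, pc_apply, pc_apply, aeval_monomial, Module.End.mul_apply,
        Module.algebraMap_end_apply, MultilinearMap.map_update_smul]
    rw [h1]
    exact Submodule.smul_mem _ _ (h2 k)

end Pool.Agent.T6.H36.GV
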