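import Pool.Agent.T6.H36.GV2

/-!
# Powers of smooth projective varieties over finite fields: the Tate conjecture
-/

set_option autoImplicit false

namespace Pool.Agent.T6.H36.GV

open Module Polynomial Final TG TM Gen

variable {Ω W : Type} [Field Ω] [AddCommGroup W] [Module Ω W] [FiniteDimensional Ω W] {q d : ℕ}
  {φ : Module.End Ω W}
  {H : Parts Ω W d}
  {Cyc : Classes Ω W}

theorem coord_basis {B : Type} [DecidableEq B] (b : Basis B Ω W) (x y : B) :
    b.coord x (b y) = if y = x then 1 else 0 := by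
  rw [Basis.coord_apply, Basis.repr_self, Finsupp.single_apply]

/-- The class of a pair of eigenvectors is algebraic. -/
theorem pair_mem (h : IsVariety q d φ H Cyc) {I : Type} [Fintype I] {μ : I → ℕ}
    [∀ i, NeZero (2 * μ i)] {α : XX μ → Ω} (hinj : Function.Injective α)
    {b : Basis (Σ i, Idx μ H i) Ω W} (hb : IsEigen q φ H α b) (hq : (q : Ω) ≠ 0)
    (hbar : ∀ s, α s * α (bar s) = (q : Ω) ^ d) (hno : ∀ s (k : ℕ), α s ≠ (q : Ω) ^ k) (y : XX μ) :
    Mon b ![⟨none, y⟩, ⟨none, bar y⟩] ∈ Cyc 2 d := by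
  classical
  obtain ⟨Δ, hΔ, hnd⟩ := h.diagonal
  have hα0 : ∀ s, α s ≠ 0 := by
    intro s h0
    have := hbar s
    rw [h0, zero_mul] at this
    exact pow_ne_zero _ hq this.symm
  have hlam : ∀ (z : XX μ) (x : Σ i, Idx μ H i), lam q H α x = α z → x = ⟨none, z⟩ := by
    rintro z ⟨i, t⟩ hx
    cases i with
    | none => rw [hinj (show α t = α z from hx)]
    | some k => exact absurd hx.symm (hno z k)
  set yy : Σ i, Idx μ H i := ⟨none, y⟩ with hyy
  set yb : Σ i, Idx μ H i := ⟨none, bar y⟩ with hyb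
  let Z : Finset Ω := (Finset.univ.image (lam q H α)).erase (α y)
  let p : Polynomial Ω := ∏ z ∈ Z, C ((α y - z)⁻¹) * (X - C z)
  have hp1 : p.eval (α y) = 1 := by
    rw [eval_prod]
    refine Finset.prod_eq_one (fun z hz => ?_)
    rw [eval_mul, eval_C, eval_sub, eval_X, eval_C]
    exact inv_mul_cancel₀ (sub_ne_zero.2 (Finset.ne_of_mem_erase hz).symm)
  have hp0 : ∀ x, x ≠ yy → p.eval (lam q H α x) = 0 := by
    intro x hx
    rw [eval_prod]
    have hz : lam q H α x ∈ Z :=
      Finset.mem_erase.2 ⟨fun h0 => hx (hlam y x h0),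
        Finset.mem_image_of_mem _ (Finset.mem_univ x)⟩
    refine Finset.prod_eq_zero hz ?_
    rw [eval_mul, eval_C, eval_sub, eval_X, eval_C, sub_self, mul_zero]
  have haeval : ∀ x, aeval φ p (b x) = p.eval (lam q H α x) • b x := by
    intro x
    exact Module.End.aeval_apply_of_hasEigenvector
      ⟨Module.End.mem_eigenspace_iff.2 (hb.eigen x), b.ne_zero x⟩
  have hproj : ∀ w, aeval φ p w = b.coord yy w • b yy := by
    have h1 : aeval φ p = (b.coord yy).smulRight (b yy) := by
      refine b.ext (fun x => ?_)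
      rw [LinearMap.smulRight_apply, haeval, coord_basis]
      by_cases hx : x = yy
      · rw [if_pos hx, hx]
        show p.eval (α y) • _ = _
        rw [hp1]
      · rw [if_neg hx, hp0 x hx, zero_smul, zero_smul]
    intro w
    rw [h1, LinearMap.smulRight_apply]
  set g := pc Δ 0 (aeval φ p) with hg
  have hgmem : g ∈ Cyc 2 d := pc_mem h hΔ 0 p
  have hgw : ∀ w, g w = b.coord yy (w 0) * Δ (Function.update w 0 (b yy)) := by
    intro w
    rw [hg, pc_apply, hproj, MultilinearMap.map_update_smul, smul_eq_mul]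
  have hzero : ∀ x, x ≠ yb → Δ ![b yy, b x] = 0 := by
    intro x hx
    by_contra h0
    apply hx
    have h1 := h.frobenius 2 d Δ hΔ ![b yy, b x]
    have h2 : (fun i => φ ((![b yy, b x] : Fin 2 → W) i)) =
        fun i => ((![α y, lam q H α x] : Fin 2 → Ω) i) • (![b yy, b x] : Fin 2 → W) i := by
      funext i
      fin_cases i
      · exact hb.eigen yy
      · exact hb.eigen x
    rw [h2, MultilinearMap.map_smul_univ, smul_eq_mul, Fin.prod_univ_two] at h1
    have h3 : α y * lam q H α x = (q : Ω) ^ d := mul_right_cancel₀ h0 h1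
    rw [← hbar y] at h3
    exact hlam (bar y) x (mul_left_cancel₀ (hα0 y) h3)
  set c : Ω := Δ ![b yy, b yb] with hc
  have hgM : g = c • Mon b ![yy, yb] := by
    refine Module.Basis.ext_multilinear (fun _ => b) (fun v => ?_)
    rw [hgw, MultilinearMap.smul_apply, Mon_apply, Fin.prod_univ_two, smul_eq_mul]
    show b.coord yy (b (v 0)) * _ = c * (b.coord yy (b (v 0)) * b.coord yb (b (v 1)))
    rw [coord_basis, coord_basis]
    have h5 : Function.update (fun i => b (v i)) 0 (b yy) = ![b yy, b (v 1)] := by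
      funext i
      fin_cases i
      · rfl
      · rfl
    rw [h5]
    by_cases hv0 : v 0 = yy
    · rw [if_pos hv0]
      by_cases hv1 : v 1 = yb
      · rw [if_pos hv1, hv1]
        ring
      · rw [if_neg hv1, hzero _ hv1]
        ring
    · rw [if_neg hv0]
      ring
  have hc0 : c ≠ 0 := by
    intro h0
    obtain ⟨w, hw⟩ := hnd (b yy) (b.ne_zero yy)
    apply hw
    have h1 := hgw ![b yy, w]
    rw [hgM, h0, zero_smul, MultilinearMap.zero_apply] at h1
    have h2 : (![b yy, w] : Fin 2 → W) 0 = b yy := rfl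
    have h3 : Function.update (![b yy, w] : Fin 2 → W) 0 (b yy) = ![b yy, w] := by
      funext i
      fin_cases i
      · rfl
      · rfl
    rw [h2, coord_basis, if_pos rfl, one_mul, h3] at h1
    exact h1.symm
  have h9 : Mon b ![yy, yb] = c⁻¹ • g := by
    rw [hgM, smul_smul, inv_mul_cancel₀ hc0, one_smul]
  rw [h9]
  exact Submodule.smul_mem _ _ hgmem

/-- The algebraic classes of the products of eigenforms. -/
theorem mon_mem (h : IsVariety q d φ H Cyc) {I : Type} [Fintype I] {μ : I → ℕ}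
    [∀ i, NeZero (2 * μ i)] {α : XX μ → Ω} (hinj : Function.Injective α)
    {b : Basis (Σ i, Idx μ H i) Ω W} (hb : IsEigen q φ H α b) (hq : (q : Ω) ≠ 0)
    (hbar : ∀ s, α s * α (bar s) = (q : Ω) ^ d) (hno : ∀ s (k : ℕ), α s ≠ (q : Ω) ^ k)
    {N : ℕ} (hpart : ∀ (n : ℕ) (J : Fin n → XX μ),
      (∏ l, α (J l)) ^ (2 * N) = ((q : Ω) ^ d) ^ (n * N) → ∀ l, ∃ l', J l' = bar (J l)) :
    ∀ (n m : ℕ) (s : Fin n → Σ i, Idx μ H i), ∑ i, deg d (s i).1 = 2 * m →
      (∏ i, lam q H α (s i)) ^ N = (q : Ω) ^ (m * N) → Mon b s ∈ Cyc n m := by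
  classical
  intro n
  induction n using Nat.strong_induction_on with
  | _ n ih =>
  intro m s hdeg hprod
  rcases n with _ | n
  · have hm : m = 0 := by
      rw [Finset.univ_eq_empty, Finset.sum_empty] at hdeg
      omega
    subst hm
    exact h.point _
  by_cases hex : ∃ (i : Fin (n + 1)) (k : Fin (d + 1)), (s i).1 = some k
  · obtain ⟨i, k, hik⟩ := hex
    obtain ⟨e, he⟩ := exists_equiv_one i
    have hsum : deg d (s i).1 + ∑ j, deg d (s (e (Sum.inr j))).1 = 2 * m := by
      rw [← hdeg, ← Equiv.sum_comp e, Fintype.sum_sum_type, Fin.sum_univ_one, he]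
    have hprod' : ∏ x, lam q H α (s x) =
        lam q H α (s i) * ∏ j, lam q H α (s (e (Sum.inr j))) := by
      rw [← Equiv.prod_comp e, Fintype.prod_sum_type, Fin.prod_univ_one, he]
    have hlam : lam q H α (s i) = (q : Ω) ^ (k : ℕ) := by
      generalize s i = x at hik
      obtain ⟨j, t⟩ := x
      subst hik
      rfl
    have hdi : deg d (s i).1 = 2 * k := by rw [hik]; rfl
    have hkm : (k : ℕ) ≤ m := by omega
    obtain ⟨m', rfl⟩ := Nat.exists_eq_add_of_le hkm
    have h1 : Mon b (fun j => s (e (Sum.inr j))) ∈ Cyc n m' := by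
      refine ih n (Nat.lt_succ_self n) m' _ (by omega) ?_
      rw [hprod', hlam, mul_pow, add_mul, pow_add, ← pow_mul] at hprod
      exact mul_left_cancel₀ (pow_ne_zero _ hq) hprod
    have h2 : Mon b ![s i] ∈ Cyc 1 k := by
      apply h.algebraic
      intro j hj w hw
      rw [Mon_apply]
      exact Finset.prod_eq_zero (Finset.mem_univ 0) (hb.coord j _ (s i) hw (by rw [hik]; exact hj))
    refine h.product 1 n (n + 1) k m' e _ h2 _ h1 (Mon_pure hb _) (Mon_pure hb _) _ (fun w => ?_)
    rw [Mon_apply, Mon_apply, Mon_apply, ← Equiv.prod_comp e, Fintype.prod_sum_type,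
      Fin.prod_univ_one, Fin.prod_univ_one, he]
    rfl
  · have hall : ∀ i, ∃ t : XX μ, s i = ⟨none, t⟩ := by
      intro i
      have h1 : ∀ k, (s i).1 ≠ some k := fun k hk => hex ⟨i, k, hk⟩
      generalize s i = x at h1
      obtain ⟨j, t⟩ := x
      cases j with
      | none => exact ⟨t, rfl⟩
      | some k => exact absurd rfl (h1 k)
    choose J hJ using hall
    have hsumd : (n + 1) * d = 2 * m := by
      rw [← hdeg]
      have h1 : ∀ i, deg d (s i).1 = d := by
        intro i
        rw [hJ i]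
        rfl
      simp only [h1, Finset.sum_const, Finset.card_univ, Fintype.card_fin, smul_eq_mul]
    have hlam : ∀ i, lam q H α (s i) = α (J i) := by
      intro i
      rw [hJ i]
      rfl
    have hprodJ : (∏ l, α (J l)) ^ N = (q : Ω) ^ (m * N) := by
      rw [← hprod]
      simp only [hlam]
    obtain ⟨l', hl'⟩ := hpart (n + 1) J (by
      rw [mul_comm 2 N, pow_mul, hprodJ, ← pow_mul, ← pow_mul]
      congr 1
      calc m * N * 2 = 2 * m * N := by ring
        _ = (n + 1) * d * N := by rw [hsumd]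
        _ = d * ((n + 1) * N) := by ring) 0
    have hne : (0 : Fin (n + 1)) ≠ l' := by
      intro h0
      rw [← h0] at hl'
      exact bar_ne _ hl'.symm
    rcases n with _ | n
    · exact absurd (Fin.ext (by have := l'.isLt; show 0 = l'.val; omega)) hne
    obtain ⟨e, he0, he1⟩ := exists_equiv_two hne
    have hprod' : ∏ x, lam q H α (s x) =
        (q : Ω) ^ d * ∏ j, lam q H α (s (e (Sum.inr j))) := by
      rw [← Equiv.prod_comp e, Fintype.prod_sum_type, Fin.prod_univ_two, he0, he1, hlam, hlam,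
        hl', hbar]
    have hsum : d + d + ∑ j, deg d (s (e (Sum.inr j))).1 = 2 * m := by
      rw [← hdeg, ← Equiv.sum_comp e, Fintype.sum_sum_type, Fin.sum_univ_two, he0, he1,
        hJ 0, hJ l']
      rfl
    have hdm : d ≤ m := by omega
    obtain ⟨m', rfl⟩ := Nat.exists_eq_add_of_le hdm
    have h1 : Mon b (fun j => s (e (Sum.inr j))) ∈ Cyc n m' := by
      refine ih n (by omega) m' _ (by omega) ?_
      rw [hprod', mul_pow, add_mul, pow_add, ← pow_mul] at hprod
      exact mul_left_cancel₀ (pow_ne_zero _ hq) hprod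
    have h2 : Mon b ![s 0, s l'] ∈ Cyc 2 d := by
      rw [hJ 0, hJ l', hl']
      exact pair_mem h hinj hb hq hbar hno (J 0)
    refine h.product 2 n (n + 2) d m' e _ h2 _ h1 (Mon_pure hb _) (Mon_pure hb _) _ (fun w => ?_)
    rw [Mon_apply, Mon_apply, Mon_apply, ← Equiv.prod_comp e, Fintype.prod_sum_type,
      Fin.prod_univ_two, Fin.prod_univ_two, he0, he1]
    rfl

end Pool.Agent.T6.H36.GV
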