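import Pool.Agent.T6.H36.GV3

/-!
# Powers of smooth projective varieties over finite fields: the main theorem
-/

set_option autoImplicit false

namespace Pool.Agent.T6.H36.GV

open Module Polynomial Final TG TM Gen

variable {Ω W : Type} [Field Ω] [IsAlgClosed Ω] [CharZero Ω] [AddCommGroup W] [Module Ω W]
  [FiniteDimensional Ω W] {q d : ℕ}
  {φ : Module.End Ω W}
  {H : Parts Ω W d}
  {Cyc : Classes Ω W}

/-- An eigenvalue has a partner. -/
theorem exists_partner (h : IsVariety q d φ H Cyc) {l : ℕ} [Fact l.Prime] (hq : (q : Ω) ≠ 0)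
    {P : Polynomial ℤ} (hV : ∀ w ∈ H none, φ w ∈ H none)
    (hP : (φ.restrict hV).charpoly = P.map (Int.castRingHom Ω))
    (hbin : BN.HasBinaryFactors (P.map (Int.castRingHom (ZMod l)))) {x : Ω} (hx : ev P x = 0) :
    ∃ y : Ω, ev P y = 0 ∧ x * y = (q : Ω) ^ d := by
  obtain ⟨Δ, hΔ, hnd⟩ := h.diagonal
  have hroot : (φ.restrict hV).charpoly.IsRoot x := by
    rw [hP, IsRoot.def, eval_map]; exact hx
  obtain ⟨u, hu⟩ :=
    ((Module.End.hasEigenvalue_iff_isRoot_charpoly _ x).2 hroot).exists_hasEigenvector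
  have hTu : φ (u : W) = x • (u : W) := by
    have h1 := congrArg Subtype.val hu.apply_eq_smul
    rw [LinearMap.restrict_coe_apply] at h1
    exact h1
  have hu0 : (u : W) ≠ 0 := fun h0 => hu.2 (Subtype.ext h0)
  -- the functional
  let g : W →ₗ[Ω] Ω :=
    { toFun := fun w => Δ ![(u : W), w]
      map_add' := by
        intro w w'
        have h1 : ∀ w : W, ![(u : W), w] = Function.update ![(u : W), 0] 1 w := by
          intro w
          funext i
          fin_cases i <;> rfl
        rw [h1, h1 w, h1 w', MultilinearMap.map_update_add]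
      map_smul' := by
        intro a w
        have h1 : ∀ w : W, ![(u : W), w] = Function.update ![(u : W), 0] 1 w := by
          intro w
          funext i
          fin_cases i <;> rfl
        rw [h1, h1 w, MultilinearMap.map_update_smul, RingHom.id_apply] }
  have hg : ∀ w, x * g (φ w) = (q : Ω) ^ d * g w := by
    intro w
    have h1 := h.frobenius 2 d Δ hΔ ![(u : W), w]
    have h2 : (fun i => φ ((![(u : W), w] : Fin 2 → W) i)) =
        fun i => ((![x, 1] : Fin 2 → Ω) i) • (![(u : W), φ w] : Fin 2 → W) i := by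
      funext i
      fin_cases i
      · exact hTu
      · show φ w = (1 : Ω) • φ w
        rw [one_smul]
    rw [h2, MultilinearMap.map_smul_univ, smul_eq_mul, Fin.prod_univ_two] at h1
    have h3 : (![x, 1] : Fin 2 → Ω) 0 * (![x, 1] : Fin 2 → Ω) 1 = x := mul_one x
    rw [h3] at h1
    exact h1
  have hx0 : x ≠ 0 := by
    rintro rfl
    obtain ⟨w, hw⟩ := hnd u hu0
    have h1 := hg w
    rw [zero_mul] at h1
    exact hw ((mul_eq_zero.1 h1.symm).resolve_left (pow_ne_zero _ hq))
  refine ⟨(q : Ω) ^ d / x, ?_, mul_div_cancel₀ _ hx0⟩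
  -- `g` vanishes on the algebraic parts
  have halg : ∀ (k : Fin (d + 1)) (w : W), w ∈ H (some k) → g w = 0 := by
    intro k w hw
    have hφw : ∀ (f : Module.Dual Ω W), (∀ i, i ≠ some k → ∀ w, w ∈ H i → f w = 0) →
        f (φ w) = (q : Ω) ^ (k : ℕ) * f w := by
      intro f hf
      have h1 : MultilinearMap.ofSubsingleton Ω W Ω (0 : Fin 1) f ∈ Cyc 1 k := by
        apply h.algebraic
        intro i hi w hw
        exact hf i hi _ hw
      exact h.frobenius 1 k _ h1 (fun _ => w)
    have h1 : φ w = (q : Ω) ^ (k : ℕ) • w := by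
      let v : ∀ i, Basis (Fin (finrank Ω (H i))) Ω (H i) := fun i => Module.finBasis Ω (H i)
      let b := h.internal.collectedBasis v
      apply b.repr.injective
      ext y
      rw [map_smul, Finsupp.smul_apply, smul_eq_mul, ← Basis.coord_apply, ← Basis.coord_apply]
      obtain ⟨j, t⟩ := y
      by_cases hy : some k = j
      · subst hy
        apply hφw
        intro i hi w hw
        rw [Basis.coord_apply]
        exact h.internal.collectedBasis_repr_of_mem_ne v hi hw
      · rw [Basis.coord_apply, Basis.coord_apply,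
          h.internal.collectedBasis_repr_of_mem_ne v hy (h.stable _ _ hw),
          h.internal.collectedBasis_repr_of_mem_ne v hy hw, mul_zero]
    by_contra h0
    have h2 := hg w
    rw [h1, map_smul, smul_eq_mul, ← mul_assoc] at h2
    have h3 : x * (q : Ω) ^ (k : ℕ) = (q : Ω) ^ d := mul_right_cancel₀ h0 h2
    have h4 : x = (((q ^ (d - k) : ℕ)) : Ω) := by
      apply mul_right_cancel₀ (pow_ne_zero (k : ℕ) hq)
      rw [h3, Nat.cast_pow, ← pow_add]
      congr 1
      have := k.isLt
      omega
    rw [h4] at hx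
    exact no_root hbin _ hx
  by_contra hno
  have hno' : ¬ Module.End.HasEigenvalue (φ.restrict hV) ((q : Ω) ^ d / x) := by
    intro h1
    apply hno
    have h2 := (Module.End.hasEigenvalue_iff_isRoot_charpoly _ _).1 h1
    rw [hP, IsRoot.def, eval_map] at h2
    exact h2
  have h2 : LinearMap.ker (φ.restrict hV -
      algebraMap Ω (Module.End Ω (H none)) ((q : Ω) ^ d / x)) = ⊥ := by
    by_contra h3
    apply hno'
    rw [Module.End.hasEigenvalue_iff, Module.End.eigenspace_def]
    exact h3
  have h3 : Function.Surjective (φ.restrict hV -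
      algebraMap Ω (Module.End Ω (H none)) ((q : Ω) ^ d / x)) :=
    LinearMap.injective_iff_surjective.1 (LinearMap.ker_eq_bot.1 h2)
  have hV0 : ∀ v : H none, g v = 0 := by
    intro v
    obtain ⟨v', rfl⟩ := h3 v
    rw [LinearMap.sub_apply, Module.algebraMap_end_apply, Submodule.coe_sub, map_sub,
      Submodule.coe_smul, map_smul, smul_eq_mul, LinearMap.restrict_coe_apply]
    have h4 := hg v'
    have h5 : g (φ v') = (q : Ω) ^ d / x * g v' := by
      field_simp
      linear_combination h4
    rw [h5, sub_self]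
  -- `g` is zero
  have hg0 : g = 0 := by
    let v : ∀ i, Basis (Fin (finrank Ω (H i))) Ω (H i) := fun i => Module.finBasis Ω (H i)
    let b := h.internal.collectedBasis v
    refine b.ext (fun y => ?_)
    have hmem : b y ∈ H y.1 := h.internal.collectedBasis_mem v y
    obtain ⟨j, t⟩ := y
    cases j with
    | none => exact hV0 ⟨_, hmem⟩
    | some k => exact halg k _ hmem
  obtain ⟨w, hw⟩ := hnd u hu0
  exact hw (congrArg (fun F : W →ₗ[Ω] Ω => F w) hg0)

/-- **The Tate conjecture and the semisimplicity for all powers of `X`.** -/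
theorem tate (h : IsVariety q d φ H Cyc) {l : ℕ} [Fact l.Prime] (hlq : ¬ l ∣ q)
    {P : Polynomial ℤ} (hP : IsFrobeniusPolynomial φ (H none) P)
    (hbin : BN.HasBinaryFactors (P.map (Int.castRingHom (ZMod l))))
    (hns : NoSupersingularRoot Ω P (q ^ d))
    {n m : ℕ} (f : Form Ω W n) (hf' : IsGeneralizedTateClass q φ H m f) : f ∈ Cyc n m := by
  classical
  obtain ⟨hdeg, N, k, hN, hf⟩ := hf'
  obtain ⟨hV, hchar⟩ := hP
  have hq' : q ≠ 0 := by rintro rfl; exact hlq (dvd_zero _)
  have hq : (q : Ω) ≠ 0 := Nat.cast_ne_zero.2 hq'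
  have hPm : P.Monic := by
    apply monic_of_injective (f := Int.castRingHom Ω) (RingHom.injective_int _)
    rw [← hchar]
    exact LinearMap.charpoly_monic _
  have hlqd : ¬ l ∣ q ^ d := fun h0 => hlq ((Fact.out : l.Prime).dvd_of_dvd_pow h0)
  obtain ⟨I, _, _, μ, hNZ, α, hinj, hαP, hbar, hrel⟩ :=
    BN.main (K := Ω) hlqd hPm hbin.hasBlocks (IsAlgClosed.splits _)
      (by
        intro x hx
        obtain ⟨y, hy, hxy⟩ := exists_partner h (l := l) hq hV hchar hbin hx
        exact ⟨y, hy, by rw [hxy, Nat.cast_pow]⟩)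
      (fun x hx N hN => hns x hx N hN)
  obtain ⟨b, hb⟩ := exists_basis h (I := I) hinj (by rw [← hαP]; exact hchar)
  have hbar' : ∀ s, α s * α (bar s) = (q : Ω) ^ d := by
    rintro ⟨i, t⟩
    have h1 := hbar i t
    rw [Nat.cast_pow] at h1
    exact h1
  have hαev : ∀ s, ev P (α s) = 0 := by
    intro s
    unfold ev
    rw [← eval_map, hαP, eval_prod]
    refine Finset.prod_eq_zero (Finset.mem_univ s) ?_
    rw [eval_sub, eval_X, eval_C, sub_self]
  have hno : ∀ s (k : ℕ), α s ≠ (q : Ω) ^ k := by
    intro s k h0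
    have h1 := hαev s
    rw [h0, ← Nat.cast_pow] at h1
    exact no_root hbin _ h1
  have hpart : ∀ (n : ℕ) (J : Fin n → XX μ),
      (∏ l, α (J l)) ^ (2 * N) = ((q : Ω) ^ d) ^ (n * N) → ∀ l, ∃ l', J l' = bar (J l) := by
    intro n J hJ
    exact partner (pow_ne_zero _ hq) hbar' hrel hN J hJ
  -- the values of the powers
  have hfrob : ∀ (s : Fin n → Σ i, Idx μ H i) (f : MultilinearMap Ω (fun _ : Fin n => W) Ω),
      frob φ n f (fun i => b (s i)) = (∏ i, lam q H α (s i)) * f (fun i => b (s i)) := by
    intro s f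
    show f (fun i => φ (b (s i))) = _
    simp only [hb.eigen]
    rw [MultilinearMap.map_smul_univ, smul_eq_mul]
  have hfrobN : ∀ (s : Fin n → Σ i, Idx μ H i) (M : ℕ)
      (f : MultilinearMap Ω (fun _ : Fin n => W) Ω),
      (frob φ n ^ M) f (fun i => b (s i)) =
        (∏ i, lam q H α (s i)) ^ M * f (fun i => b (s i)) := by
    intro s M
    induction M with
    | zero => intro f; rw [pow_zero, pow_zero, one_mul]; rfl
    | succ M ih =>
      intro f
      rw [pow_succ, Module.End.mul_apply, ih, hfrob, pow_succ, mul_assoc]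
  have hkey : ∀ (s : Fin n → Σ i, Idx μ H i) (k : ℕ)
      (f : MultilinearMap Ω (fun _ : Fin n => W) Ω),
      (((frob φ n ^ N - algebraMap Ω _ ((q : Ω) ^ (m * N))) ^ k) f) (fun i => b (s i)) =
        ((∏ i, lam q H α (s i)) ^ N - (q : Ω) ^ (m * N)) ^ k * f (fun i => b (s i)) := by
    intro s k
    induction k with
    | zero => intro f; rw [pow_zero, pow_zero, one_mul]; rfl
    | succ k ih =>
      intro f
      rw [pow_succ, Module.End.mul_apply, ih, LinearMap.sub_apply, MultilinearMap.sub_apply,
        hfrobN, Module.algebraMap_end_apply, MultilinearMap.smul_apply, smul_eq_mul, ← sub_mul,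
        pow_succ, mul_assoc]
  have hsum : f = ∑ s : Fin n → Σ i, Idx μ H i, f (fun i => b (s i)) • Mon b s := by
    refine Module.Basis.ext_multilinear (fun _ => b) (fun v => ?_)
    rw [MultilinearMap.sum_apply, Finset.sum_eq_single v]
    · rw [MultilinearMap.smul_apply, Mon_apply, smul_eq_mul]
      simp only [coord_basis, if_true, Finset.prod_const_one, mul_one]
    · intro s _ hs
      obtain ⟨i, hi⟩ := Function.ne_iff.1 hs
      rw [MultilinearMap.smul_apply, Mon_apply, smul_eq_mul]
      rw [Finset.prod_eq_zero (Finset.mem_univ i), mul_zero]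
      rw [coord_basis, if_neg (Ne.symm hi)]
    · intro h0
      exact absurd (Finset.mem_univ _) h0
  rw [hsum]
  refine Submodule.sum_mem _ (fun s _ => ?_)
  by_cases hs : f (fun i => b (s i)) = 0
  · rw [hs, zero_smul]
    exact zero_mem _
  apply Submodule.smul_mem
  refine mon_mem h hinj hb hq hbar' hno hpart n m s ?_ ?_
  · by_contra h0
    exact hs (hdeg (fun i => (s i).1) _ (fun i => hb.mem (s i)) h0)
  · have h1 := hkey s k f
    rw [hf, MultilinearMap.zero_apply] at h1
    rcases mul_eq_zero.1 h1.symm with h2 | h2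
    · exact sub_eq_zero.1 (eq_zero_of_pow_eq_zero h2)
    · exact absurd h2 hs

end Pool.Agent.T6.H36.GV
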