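import Pool.Agent.T6.H36.BNDefs

/-!
# Powers of smooth projective varieties over finite fields: definitions
-/

set_option autoImplicit false

namespace Pool.Agent.T6.H36.GV

open Module

/-- The multilinear forms on `W ^ n`: the classes in the cohomology of `X ^ n` (Künneth), where `W` is
the total homology of `X` with coefficients in `Ω`. -/
abbrev Form (Ω W : Type) [Field Ω] [AddCommGroup W] [Module Ω W] (n : ℕ) : Type :=
  MultilinearMap Ω (fun _ : Fin n => W) Ω

/-- For all `n` and `m` a subspace of the cohomology of `X ^ n`: the space spanned by the classes of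
the algebraic cycles of codimension `m` on `X ^ n`. -/
abbrev Classes (Ω W : Type) [Field Ω] [AddCommGroup W] [Module Ω W] : Type :=
  ∀ n : ℕ, ℕ → Submodule Ω (Form Ω W n)

/-- Submodules of `W`: the part `V` in degree `d` (`none`), and parts in degree `2 m` (`some m`),
`m = 0, …, d`. -/
abbrev Parts (Ω W : Type) [Field Ω] [AddCommGroup W] [Module Ω W] (d : ℕ) : Type :=
  Option (Fin (d + 1)) → Submodule Ω W

/-- The degrees of the parts. -/
def deg (d : ℕ) : Option (Fin (d + 1)) → ℕ
  | none => d
  | some m => 2 * m.val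

variable {Ω W : Type} [Field Ω] [AddCommGroup W] [Module Ω W]

/-- The form `f` on `W ^ n` (a class in the cohomology of `X ^ n`) has degree `k`. -/
def IsOfDegree {d n : ℕ} (H : Parts Ω W d) (k : ℕ) (f : Form Ω W n) : Prop :=
  ∀ (c : Fin n → Option (Fin (d + 1))) (w : Fin n → W), (∀ i, w i ∈ H (c i)) →
    ∑ i, deg d (c i) ≠ k → f w = 0

/-- With respect to each of the `n` factors, the form `f` is either in the part `V` of the cohomology
or in the algebraic part. -/
def IsPure {d n : ℕ} (H : Parts Ω W d) (f : Form Ω W n) : Prop :=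
  ∀ i : Fin n, (∀ w, w i ∈ H none → f w = 0) ∨ ∀ w m, w i ∈ H (some m) → f w = 0

/-- All classes on the part `H (some m)` are classes of algebraic cycles of codimension `m`. -/
def IsAlgebraic {d : ℕ} (H : Parts Ω W d) (Cyc : Classes Ω W) : Prop :=
  ∀ (m : Fin (d + 1)) (f : Form Ω W 1), (∀ i, i ≠ some m → ∀ w, w 0 ∈ H i → f w = 0) → f ∈ Cyc 1 m

/-- The classes of cycles are fixed by the Frobenius, up to the twist. -/
def IsFixed (q : ℕ) (φ : Module.End Ω W) (Cyc : Classes Ω W) : Prop :=
  ∀ (n m : ℕ), ∀ f ∈ Cyc n m, ∀ w, f (fun i => φ (w i)) = (q : Ω) ^ m * f w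

/-- The pullback of the class of a cycle by the Frobenius morphism of one of the factors `X` of `X ^ n`
is the class of a cycle. -/
def HasPartialFrobenius (φ : Module.End Ω W) (Cyc : Classes Ω W) : Prop :=
  ∀ (n m : ℕ), ∀ f ∈ Cyc n m, ∀ (i : Fin n) (g : Form Ω W n),
    (∀ w, g w = f (Function.update w i (φ (w i)))) → g ∈ Cyc n m

/-- The product of the cycles on the product of the factors with the numbers `e (inl i)` and on the
product of the factors with the numbers `e (inr j)` is a cycle (for classes that are pure the sign of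
Koszul is constant). -/
def HasProducts {d : ℕ} (H : Parts Ω W d) (Cyc : Classes Ω W) : Prop :=
  ∀ (a b n m m' : ℕ) (e : Fin a ⊕ Fin b ≃ Fin n), ∀ f ∈ Cyc a m, ∀ g ∈ Cyc b m',
    IsPure H f → IsPure H g → ∀ h : Form Ω W n,
    (∀ w, h w = f (fun i => w (e (Sum.inl i))) * g (fun j => w (e (Sum.inr j)))) →
    h ∈ Cyc n (m + m')

/-- The class of the diagonal of `X × X` is nondegenerate (duality of Poincaré). -/
def HasDiagonal (d : ℕ) (Cyc : Classes Ω W) : Prop :=
  ∃ Δ ∈ Cyc 2 d, ∀ u : W, u ≠ 0 → ∃ w : W, Δ ![u, w] ≠ 0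

/-- `X` is a smooth projective variety of dimension `d` over the field with `q` elements. `W` is its
total homology (the dual of the `ℓ`-adic cohomology) with coefficients extended to `Ω`, `φ` is the
Frobenius on it, and `W` is the direct sum of the part `V = H none`, which is contained in degree `d`, and
of parts `H (some m)`, `m = 0, …, d`, in degree `2 m`, such that the cohomology classes on `H (some m)`
are algebraic. The forms on `W ^ n` are the classes in the cohomology of `X ^ n`, and `Cyc n m` is the
subspace spanned by the classes of the algebraic cycles of codimension `m` on `X ^ n` (over the field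
with `q` elements); `X ^ 0` is a point. -/
structure IsVariety (q d : ℕ) (φ : Module.End Ω W) (H : Parts Ω W d) (Cyc : Classes Ω W) : Prop where
  internal : DirectSum.IsInternal H
  stable : ∀ i, ∀ w ∈ H i, φ w ∈ H i
  algebraic : IsAlgebraic H Cyc
  frobenius : IsFixed q φ Cyc
  partial_frobenius : HasPartialFrobenius φ Cyc
  product : HasProducts H Cyc
  point : ∀ f : Form Ω W 0, f ∈ Cyc 0 0
  diagonal : HasDiagonal d Cyc

/-- The integral polynomial `P` is the characteristic polynomial of the Frobenius on `V`. -/
def IsFrobeniusPolynomial [FiniteDimensional Ω W] (φ : Module.End Ω W) (V : Submodule Ω W)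
    (P : Polynomial ℤ) : Prop :=
  ∃ h : ∀ w ∈ V, φ w ∈ V, (φ.restrict h).charpoly = P.map (Int.castRingHom Ω)

/-- No root of `P` is the product of a root of unity and of a square root of `Q`. -/
def NoSupersingularRoot (Ω : Type) [Field Ω] (P : Polynomial ℤ) (Q : ℕ) : Prop :=
  ∀ x : Ω, Polynomial.aeval x P = 0 → ∀ N : ℕ, N ≠ 0 → x ^ (2 * N) ≠ (Q : Ω) ^ N

/-- The Frobenius on the cohomology of `X ^ n`. -/
noncomputable def frob (φ : Module.End Ω W) (n : ℕ) : Module.End Ω (Form Ω W n) :=
  MultilinearMap.compLinearMapₗ (fun _ => φ)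

/-- The class `f` on `X ^ n` has degree `2 m` and is in the generalized eigenspace of the eigenvalue one
(after the twist by `m`) of the Frobenius over a finite extension of the field with `q` elements. -/
def IsGeneralizedTateClass {d n : ℕ} (q : ℕ) (φ : Module.End Ω W) (H : Parts Ω W d) (m : ℕ)
    (f : Form Ω W n) : Prop :=
  IsOfDegree H (2 * m) f ∧ ∃ N k : ℕ, N ≠ 0 ∧
    ((frob φ n ^ N - algebraMap Ω (Module.End Ω (Form Ω W n)) ((q : Ω) ^ (m * N))) ^ k) f = 0

end Pool.Agent.T6.H36.GV
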