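import Pool.Agent.T6.H36.TMDefs
import Pool.Agent.H204R3.GP.Defs
import Pool.Agent.W401.Cheb.AbsDefs

/-!
# Abelian varieties over number fields with a large field of points of order `l`: definitions
-/

set_option autoImplicit false

namespace Pool.Agent.T6.H36.NF

open NumberField IsDedekindDomain Polynomial Pool.Agent.W401.Cheb Pool.Agent.H204R3.GP

section

variable {K : Type} [Field K] [NumberField K] {ℓ l : ℕ} [Fact ℓ.Prime] [Fact l.Prime]
  {V M : Type} [AddCommGroup V] [Module ℚ_[ℓ] V] [FiniteDimensional ℚ_[ℓ] V]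
  [AddCommGroup M] [Module (ZMod l) M] [FiniteDimensional (ZMod l) M]

/-- `A` is an abelian variety over the number field `K`, `V` is its rational `ℓ`-adic Tate module, `ρ`
the action of the absolute Galois group of `K`, `χ` the `ℓ`-adic cyclotomic character and `ω` the Weil
pairing of a polarization; `M` is the group of the points of order `l` of `A` and `τ` the action of the
Galois group on it. The properties that are used: `ρ` is semisimple on all subgroups of finite
index (Faltings), `τ` is continuous, and for all places `v` outside of a finite set (which contains the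
places of bad reduction and the places over `ℓ` and `l`) the characteristic polynomials of the Frobenius
elements at `v` on `V` and on `M` come from the same polynomial with integral coefficients. -/
structure IsAbelianVariety (ρ : Representation ℚ_[ℓ] (GK K) V) (χ : GK K →* ℚ_[ℓ])
    (ω : V →ₗ[ℚ_[ℓ]] V →ₗ[ℚ_[ℓ]] ℚ_[ℓ]) (τ : Representation (ZMod l) (GK K) M) : Prop where
  alternating : ∀ v, ω v v = 0
  nondegenerate : ∀ u, (∀ v, ω v u = 0) → u = 0
  equivariant : ∀ s u v, ω (ρ s u) (ρ s v) = χ s * ω u v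
  semisimple : FiniteIndexSemisimple ρ
  continuous : IsOpen (MonoidHom.ker τ : Set (GK K))
  frobenius : ∃ S : Set (HeightOneSpectrum (𝓞 K)), S.Finite ∧ ∀ v ∉ S, ∀ s : GK K, IsFrob v s →
    χ s = (Ideal.absNorm v.asIdeal : ℚ_[ℓ]) ∧ ∃ P : ℤ[X],
      (ρ s).charpoly = P.map (Int.castRingHom ℚ_[ℓ]) ∧
      (τ s).charpoly = P.map (Int.castRingHom (ZMod l))

/-- The alternating forms on `V ^ n` are the cohomology classes of `A ^ n`. `C n m` is the set of the
classes of the algebraic cycles of codimension `m` on `A ^ n` and `D n` the set of the classes of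
divisors, up to nonzero rational factors. The properties that are used: a Tate class of degree two is a
combination of classes of divisors (Faltings), and intersections of divisors are algebraic cycles. -/
structure IsCycleClasses (ρ : Representation ℚ_[ℓ] (GK K) V) (χ : GK K →* ℚ_[ℓ])
    (D : ∀ n : ℕ, Set ((Fin n → V) [⋀^Fin 2]→ₗ[ℚ_[ℓ]] ℚ_[ℓ]))
    (C : ∀ n m : ℕ, Set ((Fin n → V) [⋀^Fin m × Fin 2]→ₗ[ℚ_[ℓ]] ℚ_[ℓ])) : Prop where
  divisors : ∀ (n : ℕ) (B : (Fin n → V) [⋀^Fin 2]→ₗ[ℚ_[ℓ]] ℚ_[ℓ]), IsTateClass ρ χ 1 B →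
    B ∈ Submodule.span ℚ_[ℓ] (D n)
  intersections : ∀ (n m : ℕ) (B : Fin m → (Fin n → V) [⋀^Fin 2]→ₗ[ℚ_[ℓ]] ℚ_[ℓ])
    (g : (Fin n → V) [⋀^Fin m × Fin 2]→ₗ[ℚ_[ℓ]] ℚ_[ℓ]), (∀ i, B i ∈ D n) → IsWedge B g →
    g ∈ C n m

/-- Either some element of the Galois group acts on the points of order `l` with eigenvalues of large
orders (`HasLargeOrders`), or the dimension of `A` is a power `2 ^ j` of two and the degree over `K` of
the field of the points of order `l` is divisible by a prime number `r > 2 ^ (j + 1) + 1` modulo which the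
order of `l` is `2 ^ (j + 1)`. -/
def HasLargeTorsionField (τ : Representation (ZMod l) (GK K) M) : Prop :=
  (∃ s : GK K, TM.HasLargeOrders (τ s).charpoly) ∨
  ∃ j r : ℕ, Module.finrank (ZMod l) M = 2 ^ (j + 1) ∧ r.Prime ∧ 2 ^ (j + 1) + 1 < r ∧
    orderOf (l : ZMod r) = 2 ^ (j + 1) ∧ r ∣ (MonoidHom.ker τ).index

end

end Pool.Agent.T6.H36.NF
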