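import Pool.Agent.T6.H36.Dat

/-! Monomials in conjugate numbers which are roots of unity have small orders. -/

namespace Pool.Agent.T6.H36.Ord

open Two.Dat

variable {L : Type} [Field L] [CharZero L] {X : Type} [Fintype X] [DecidableEq X]

/-- The monomial with exponents `f`. -/
noncomputable def mn (α : X → L) (f : X → ℤ) : L := ∏ i, α i ^ f i

section basic

variable {α : X → L} (hα0 : ∀ i, α i ≠ 0)

include hα0

omit [CharZero L] [DecidableEq X] in
theorem mn_add (f f' : X → ℤ) : mn α (f + f') = mn α f * mn α f' := by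
  unfold mn
  rw [← Finset.prod_mul_distrib]
  exact Finset.prod_congr rfl (fun t _ => zpow_add₀ (hα0 t) _ _)

omit [CharZero L] [DecidableEq X] in
theorem mn_ne (f : X → ℤ) : mn α f ≠ 0 :=
  Finset.prod_ne_zero_iff.2 fun i _ => zpow_ne_zero _ (hα0 i)

omit [CharZero L] [DecidableEq X] in
theorem mn_sub (f f' : X → ℤ) : mn α (f - f') = mn α f / mn α f' := by
  rw [eq_div_iff (mn_ne hα0 f'), ← mn_add hα0, sub_add_cancel]

omit hα0 [CharZero L] [DecidableEq X] in
theorem mn_zero : mn α (0 : X → ℤ) = 1 := by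
  unfold mn
  exact Finset.prod_eq_one (fun t _ => zpow_zero _)

omit hα0 [CharZero L] [DecidableEq X] in
theorem mn_smul (N : ℤ) (f : X → ℤ) : mn α (N • f) = mn α f ^ N := by
  unfold mn
  rw [← Finset.prod_zpow]
  refine Finset.prod_congr rfl (fun t _ => ?_)
  rw [Pi.smul_apply, smul_eq_mul, mul_comm, zpow_mul]

omit hα0 [CharZero L] in
theorem mn_single (i : X) : mn α (Pi.single i 1) = α i := by
  unfold mn
  rw [Finset.prod_eq_single i]
  · rw [Pi.single_eq_same, zpow_one]
  · intro t _ ht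
    rw [Pi.single_eq_of_ne ht, zpow_zero]
  · intro h; exact absurd (Finset.mem_univ _) h

end basic

theorem RU_zpow {x : L} (hx : RU x) (k : ℤ) : RU (x ^ k) := by
  rcases k with k | k
  · rw [Int.ofNat_eq_natCast, zpow_natCast]; exact RU_pow hx k
  · rw [zpow_negSucc]; exact RU_inv (RU_pow hx _)

theorem RU_of_zpow {x : L} {k : ℤ} (hk : k ≠ 0) (hx : RU (x ^ k)) : RU x := by
  rcases k with k | k
  · rw [Int.ofNat_eq_natCast, zpow_natCast] at hx
    exact RU_of_pow (by rintro rfl; exact hk rfl) hx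
  · rw [zpow_negSucc] at hx
    have := RU_inv hx
    rw [inv_inv] at this
    exact RU_of_pow (Nat.succ_ne_zero _) this

/-- The lattice of relations. -/
noncomputable def EE (α : X → L) (hα0 : ∀ i, α i ≠ 0) : Submodule ℤ (X → ℤ) where
  carrier := {f | RU (mn α f)}
  zero_mem' := by
    show RU (mn α 0)
    rw [mn_zero]; exact RU_one
  add_mem' := by
    intro f f' hf hf'
    show RU (mn α (f + f'))
    rw [mn_add hα0]; exact RU_mul hf hf'
  smul_mem' := by
    intro N f hf
    show RU (mn α (N • f))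
    rw [mn_smul]; exact RU_zpow hf N

omit [DecidableEq X] in
theorem mem_EE {α : X → L} {hα0 : ∀ i, α i ≠ 0} {f : X → ℤ} : f ∈ EE α hα0 ↔ RU (mn α f) := Iff.rfl

omit [DecidableEq X] in
theorem EE_sat {α : X → L} {hα0 : ∀ i, α i ≠ 0} {N : ℤ} {f : X → ℤ} (hN : N ≠ 0)
    (hf : N • f ∈ EE α hα0) : f ∈ EE α hα0 := by
  rw [mem_EE, mn_smul] at hf
  exact RU_of_zpow hN hf

omit [DecidableEq X] in
/-- A projection onto a saturated lattice. -/
theorem exists_proj (E : Submodule ℤ (X → ℤ)) (hsat : ∀ (N : ℤ) (f : X → ℤ), N ≠ 0 → N • f ∈ E → f ∈ E) :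
    ∃ P : (X → ℤ) →ₗ[ℤ] (X → ℤ), (∀ x, P x ∈ E) ∧ ∀ f ∈ E, P f = f := by
  haveI : Module.IsTorsionFree ℤ ((X → ℤ) ⧸ E) := by
    apply Module.IsTorsionFree.of_smul_eq_zero
    intro N x hx
    by_cases hN : N = 0
    · exact Or.inl hN
    · right
      obtain ⟨f, rfl⟩ := E.mkQ_surjective x
      rw [← map_smul] at hx
      have h1 : N • f ∈ E := (Submodule.Quotient.mk_eq_zero E).1 hx
      exact (Submodule.Quotient.mk_eq_zero E).2 (hsat N f hN h1)
  haveI : Module.Free ℤ ((X → ℤ) ⧸ E) := inferInstance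
  obtain ⟨s, hs⟩ := Module.projective_lifting_property E.mkQ LinearMap.id E.mkQ_surjective
  refine ⟨LinearMap.id - s.comp E.mkQ, ?_, ?_⟩
  · intro x
    have h1 : E.mkQ (s (E.mkQ x)) = E.mkQ x := LinearMap.congr_fun hs (E.mkQ x)
    have h2 : E.mkQ (x - s (E.mkQ x)) = 0 := by rw [map_sub, h1, sub_self]
    exact (Submodule.Quotient.mk_eq_zero E).1 h2
  · intro f hf
    have h1 : E.mkQ f = 0 := (Submodule.Quotient.mk_eq_zero E).2 hf
    show f - s (E.mkQ f) = f
    rw [h1, map_zero, sub_zero]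

/-- A common exponent. -/
theorem exists_exponent (α : X → L) (hα0 : ∀ i, α i ≠ 0) :
    ∃ N : ℕ, 0 < N ∧ ∀ f ∈ EE α hα0, mn α f ^ N = 1 := by
  obtain ⟨S, hS⟩ := IsNoetherian.noetherian (EE α hα0)
  have h1 : ∀ f : X → ℤ, ∃ N : ℕ, 0 < N ∧ (f ∈ EE α hα0 → mn α f ^ N = 1) := by
    intro f
    by_cases hf : f ∈ EE α hα0
    · obtain ⟨N, hN, h⟩ := hf
      exact ⟨N, Nat.pos_of_ne_zero hN, fun _ => h⟩
    · exact ⟨1, one_pos, fun h => absurd h hf⟩
  choose N hN h using h1
  refine ⟨∏ f ∈ S, N f, Finset.prod_pos fun f _ => hN f, ?_⟩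
  intro f hf
  rw [← hS] at hf
  induction hf using Submodule.span_induction with
  | mem f hf =>
    have h2 : f ∈ EE α hα0 := by rw [← hS]; exact Submodule.subset_span hf
    obtain ⟨c, hc⟩ := Finset.dvd_prod_of_mem N (Finset.mem_coe.1 hf)
    rw [hc, pow_mul, h f h2, one_pow]
  | zero => rw [mn_zero, one_pow]
  | add f f' _ _ h1 h2 => rw [mn_add hα0, mul_pow, h1, h2, one_mul]
  | smul c f _ h1 =>
    rw [mn_smul, ← zpow_natCast, ← zpow_mul, mul_comm, zpow_mul, zpow_natCast, h1, one_zpow]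

section gal

variable {α : X → L} (hα0 : ∀ i, α i ≠ 0) (hinj : Function.Injective α)
  (hperm : ∀ (σ : L ≃ₐ[ℚ] L) i, ∃ j, α j = σ (α i))

/-- The permutation of the indices given by an automorphism. -/
noncomputable def pm (α : X → L) (hperm : ∀ (σ : L ≃ₐ[ℚ] L) i, ∃ j, α j = σ (α i))
    (σ : L ≃ₐ[ℚ] L) (i : X) : X := (hperm σ i).choose

omit [Fintype X] [DecidableEq X] in
theorem pm_spec (σ : L ≃ₐ[ℚ] L) (i : X) : α (pm α hperm σ i) = σ (α i) := (hperm σ i).choose_spec

include hinj in
omit [Fintype X] [DecidableEq X] in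
theorem pm_mul (σ τ : L ≃ₐ[ℚ] L) (i : X) : pm α hperm (σ * τ) i = pm α hperm σ (pm α hperm τ i) := by
  apply hinj
  rw [pm_spec hperm, pm_spec hperm, pm_spec hperm]
  rfl

include hinj in
omit [Fintype X] [DecidableEq X] in
theorem pm_one (i : X) : pm α hperm 1 i = i := by
  apply hinj
  rw [pm_spec hperm]
  rfl

/-- The action as a homomorphism to the permutations of the indices. -/
noncomputable def pmHom (hinj : Function.Injective α) : (L ≃ₐ[ℚ] L) →* Equiv.Perm X where
  toFun σ :=
    { toFun := pm α hperm σ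
      invFun := pm α hperm σ⁻¹
      left_inv := fun i => by rw [← pm_mul hinj, inv_mul_cancel, pm_one hinj]
      right_inv := fun i => by rw [← pm_mul hinj, mul_inv_cancel, pm_one hinj] }
  map_one' := by ext i; exact pm_one hinj hperm i
  map_mul' σ τ := by ext i; exact pm_mul hinj hperm σ τ i

/-- The action on exponents. -/
noncomputable def act (hinj : Function.Injective α) (σ : L ≃ₐ[ℚ] L) (f : X → ℤ) : X → ℤ :=
  fun i => f ((pmHom hperm hinj σ).symm i)

theorem act_add (σ : L ≃ₐ[ℚ] L) (f f' : X → ℤ) :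
    act hperm hinj σ (f + f') = act hperm hinj σ f + act hperm hinj σ f' := rfl

theorem act_mul (σ τ : L ≃ₐ[ℚ] L) (f : X → ℤ) :
    act hperm hinj (σ * τ) f = act hperm hinj σ (act hperm hinj τ f) := by
  funext i
  unfold act
  rw [map_mul]
  rfl

theorem act_single (σ : L ≃ₐ[ℚ] L) (i : X) :
    act hperm hinj σ (Pi.single i 1) = Pi.single (pmHom hperm hinj σ i) 1 := by
  funext j
  unfold act
  by_cases h : j = pmHom hperm hinj σ i
  · subst h
    rw [Equiv.symm_apply_apply, Pi.single_eq_same, Pi.single_eq_same]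
  · rw [Pi.single_eq_of_ne h, Pi.single_eq_of_ne]
    intro h1
    exact h (by rw [← h1, Equiv.apply_symm_apply])

theorem mn_act (σ : L ≃ₐ[ℚ] L) (f : X → ℤ) : mn α (act hperm hinj σ f) = σ (mn α f) := by
  unfold mn act
  rw [map_prod, ← Equiv.prod_comp (pmHom hperm hinj σ)]
  refine Finset.prod_congr rfl (fun i _ => ?_)
  rw [Equiv.symm_apply_apply, map_zpow₀]
  congr 1
  exact pm_spec hperm σ i

include hα0 hinj hperm in
/-- If the monomial is a root of unity then its order is prime to every prime `r > |X| + 1`. -/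
theorem order_prime [FiniteDimensional ℚ L] [IsGalois ℚ L]
    (hgen : ∀ τ : L ≃ₐ[ℚ] L, (∀ i, τ (α i) = α i) → τ = 1) {r : ℕ} (hr : r.Prime)
    (hcard : Fintype.card X + 1 < r) {f : X → ℤ} (hf : RU (mn α f)) :
    ∃ N : ℕ, ¬ r ∣ N ∧ mn α f ^ N = 1 := by
  classical
  haveI : Fact r.Prime := ⟨hr⟩
  have hex : ∃ N : ℕ, 0 < N ∧ ∀ f ∈ EE α hα0, mn α f ^ N = 1 := exists_exponent α hα0
  obtain ⟨hN0, hN⟩ := Nat.find_spec hex
  have hmin : ∀ m, m < Nat.find hex → ¬ (0 < m ∧ ∀ f ∈ EE α hα0, mn α f ^ m = 1) :=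
    fun m hm => Nat.find_min hex hm
  generalize Nat.find hex = N at hN0 hN hmin
  by_cases hdvd : ¬ r ∣ N
  · exact ⟨N, hdvd, hN f hf⟩
  exfalso
  push Not at hdvd
  obtain ⟨M, rfl⟩ := hdvd
  have hM0 : 0 < M := Nat.pos_of_mul_pos_left hN0
  have hMlt : M < r * M := by nlinarith [hr.two_le]
  have h1 := hmin M hMlt
  push Not at h1
  obtain ⟨f1, hf1, hne⟩ := h1 hM0
  obtain ⟨P, hP, hP1⟩ := exists_proj (EE α hα0) (fun N f hN h => EE_sat hN h)
  -- the homomorphism `w`
  set w : (X → ℤ) → L := fun x => mn α (P x) ^ M with hw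
  have hw_add : ∀ x y, w (x + y) = w x * w y := by
    intro x y
    show mn α (P (x + y)) ^ M = mn α (P x) ^ M * mn α (P y) ^ M
    rw [map_add, mn_add hα0, mul_pow]
  have hw_r : ∀ x, w x ^ r = 1 := by
    intro x
    show (mn α (P x) ^ M) ^ r = 1
    rw [← pow_mul, mul_comm]
    exact hN _ (hP x)
  set w' : (X → ℤ) → L := fun x => ∏ σ : L ≃ₐ[ℚ] L, σ.symm (w (act hperm hinj σ x)) with hw'
  have hw'_add : ∀ x y, w' (x + y) = w' x * w' y := by
    intro x y
    show ∏ σ : L ≃ₐ[ℚ] L, σ.symm (w (act hperm hinj σ (x + y))) = _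
    rw [← Finset.prod_mul_distrib]
    refine Finset.prod_congr rfl (fun σ _ => ?_)
    rw [act_add, hw_add, map_mul]
  have hw'_r : ∀ x, w' x ^ r = 1 := by
    intro x
    show (∏ σ : L ≃ₐ[ℚ] L, σ.symm (w (act hperm hinj σ x))) ^ r = 1
    rw [← Finset.prod_pow]
    refine Finset.prod_eq_one (fun σ _ => ?_)
    rw [← map_pow, hw_r, map_one]
  have hw'_act : ∀ τ x, w' (act hperm hinj τ x) = τ (w' x) := by
    intro τ x
    show ∏ σ : L ≃ₐ[ℚ] L, σ.symm (w (act hperm hinj σ (act hperm hinj τ x)))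
      = τ (∏ σ : L ≃ₐ[ℚ] L, σ.symm (w (act hperm hinj σ x)))
    rw [map_prod, ← Equiv.prod_comp (Equiv.mulRight τ)
      (fun σ : L ≃ₐ[ℚ] L => τ (σ.symm (w (act hperm hinj σ x))))]
    refine Finset.prod_congr rfl (fun σ _ => ?_)
    rw [Equiv.coe_mulRight, ← act_mul]
    generalize w (act hperm hinj (σ * τ) x) = y
    have : (σ * τ).symm y = τ.symm (σ.symm y) := rfl
    rw [this, AlgEquiv.apply_symm_apply]
  have hw'_E : ∀ x ∈ EE α hα0, w' x = (mn α x ^ M) ^ Fintype.card (L ≃ₐ[ℚ] L) := by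
    intro x hx
    show ∏ σ : L ≃ₐ[ℚ] L, σ.symm (w (act hperm hinj σ x)) = _
    rw [← Finset.card_univ, ← Finset.prod_const]
    refine Finset.prod_congr rfl (fun σ _ => ?_)
    have h2 : act hperm hinj σ x ∈ EE α hα0 := by
      show RU (mn α (act hperm hinj σ x))
      rw [mn_act]
      exact RU_map hx σ
    show σ.symm (mn α (P (act hperm hinj σ x)) ^ M) = _
    rw [hP1 _ h2, mn_act, ← map_pow, AlgEquiv.symm_apply_apply]
  -- `w'` kills the basis vectors
  have hsingle : ∀ i, w' (Pi.single i 1) = 1 := by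
    intro i
    by_contra hu
    set u := w' (Pi.single i 1) with hudef
    have hprim : IsPrimitiveRoot u r := by
      have h3 := IsPrimitiveRoot.orderOf u
      rwa [orderOf_eq_prime (hw'_r _) hu] at h3
    have hconj : ∀ k : Fin (r - 1), ∃ j, w' (Pi.single j 1) = u ^ (k.val + 1) := by
      intro k
      have hk : (k.val + 1).Coprime r := by
        rw [Nat.coprime_comm, hr.coprime_iff_not_dvd]
        intro hd
        have := Nat.le_of_dvd (Nat.succ_pos _) hd
        omega
      have h4 : IsPrimitiveRoot (u ^ (k.val + 1)) r := hprim.pow_of_coprime _ hk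
      have h5 : IsConjRoot ℚ (u ^ (k.val + 1)) u := by
        show minpoly ℚ _ = minpoly ℚ _
        rw [← Polynomial.cyclotomic_eq_minpoly_rat h4 hr.pos,
          ← Polynomial.cyclotomic_eq_minpoly_rat hprim hr.pos]
      obtain ⟨σ, hσ⟩ := isConjRoot_iff_exists_algEquiv.1 h5
      refine ⟨pmHom hperm hinj σ i, ?_⟩
      rw [← act_single, hw'_act]
      exact hσ
    choose j hj using hconj
    have hjinj : Function.Injective j := by
      intro k k' hkk
      have h6 : u ^ (k.val + 1) = u ^ (k'.val + 1) := by rw [← hj, ← hj, hkk]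
      have h7 := hprim.pow_inj (by omega) (by omega) h6
      exact Fin.ext (by omega)
    have h8 := Fintype.card_le_of_injective j hjinj
    rw [Fintype.card_fin] at h8
    omega
  have hall : ∀ x, w' x = 1 := by
    -- `w'` as an additive homomorphism
    have h9 : w' 0 = 1 := by
      have h10 := hw'_add 0 0
      rw [add_zero] at h10
      have h11 : w' 0 ≠ 0 := by
        intro h0
        have := hw'_r 0
        rw [h0, zero_pow hr.ne_zero] at this
        exact zero_ne_one this
      exact (mul_left_cancel₀ h11 (by rw [mul_one]; exact h10)).symm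
    have hneg : ∀ x, w' x = 1 → w' (-x) = 1 := by
      intro x hx
      have := hw'_add x (-x)
      rw [add_neg_cancel, h9, hx, one_mul] at this
      exact this.symm
    have hsum : ∀ (s : Finset X) (g : X → (X → ℤ)), (∀ i ∈ s, w' (g i) = 1) → w' (∑ i ∈ s, g i) = 1 := by
      intro s g hg
      induction s using Finset.induction_on with
      | empty => rw [Finset.sum_empty]; exact h9
      | insert a s ha ih =>
        rw [Finset.sum_insert ha, hw'_add, hg a (Finset.mem_insert_self _ _),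
          ih (fun i hi => hg i (Finset.mem_insert_of_mem hi)), one_mul]
    have hnat : ∀ (k : ℕ) x, w' x = 1 → w' (k • x) = 1 := by
      intro k x hx
      induction k with
      | zero => rw [zero_smul]; exact h9
      | succ k ih => rw [succ_nsmul, hw'_add, ih, hx, one_mul]
    have hint : ∀ (k : ℤ) x, w' x = 1 → w' (k • x) = 1 := by
      intro k x hx
      rcases k with k | k
      · rw [Int.ofNat_eq_natCast, natCast_zsmul]; exact hnat k x hx
      · rw [Int.negSucc_eq, neg_smul]
        apply hneg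
        have : ((k : ℤ) + 1) • x = (k + 1 : ℕ) • x := by
          rw [← natCast_zsmul]; push_cast; rfl
        rw [this]
        exact hnat _ x hx
    intro x
    have h12 : x = ∑ i, x i • (Pi.single i (1 : ℤ) : X → ℤ) := by
      funext j
      rw [Finset.sum_apply, Finset.sum_eq_single j]
      · rw [Pi.smul_apply, Pi.single_eq_same, smul_eq_mul, mul_one]
      · intro b _ hb
        rw [Pi.smul_apply, Pi.single_eq_of_ne hb.symm, smul_zero]
      · intro h; exact absurd (Finset.mem_univ _) h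
    rw [h12]
    exact hsum _ _ (fun i _ => hint _ _ (hsingle i))
  -- conclusion
  have h13 : (mn α f1 ^ M) ^ Fintype.card (L ≃ₐ[ℚ] L) = 1 := by rw [← hw'_E f1 hf1, hall]
  have h14 : orderOf (mn α f1 ^ M) = r := by
    apply orderOf_eq_prime _ hne
    rw [← pow_mul, mul_comm]
    exact hN _ hf1
  have h15 : r ∣ Fintype.card (L ≃ₐ[ℚ] L) := by
    rw [← h14]
    exact orderOf_dvd_of_pow_eq_one h13
  have h16 : Function.Injective (pmHom hperm hinj) := by
    rw [injective_iff_map_eq_one]
    intro τ hτ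
    apply hgen
    intro i
    have h17 := pm_spec hperm τ i
    have h18 : pmHom hperm hinj τ i = i := by rw [hτ]; rfl
    rw [← h17]
    exact congrArg α h18
  have h19 := Subgroup.card_dvd_of_injective _ h16
  rw [Nat.card_perm, Nat.card_eq_fintype_card, Nat.card_eq_fintype_card] at h19
  have h20 := (hr.dvd_factorial).1 (h15.trans h19)
  omega

end gal

end Pool.Agent.T6.H36.Ord
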