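import Pool.Agent.T6.H36.Red

/-!
# The class of schemes generated by abelian varieties of prime type
-/

set_option autoImplicit false

namespace Pool.Agent.T6.H36.Red

open Polynomial Pool.Agent.W495.TA Pool.Agent.W495.FM Pool.Agent.TH117 Pool.Agent.TH117.BL
  Pool.Agent.TH117.GN Comb NumberField

variable {p : ℕ} [Fact p.Prime] {ν : PadicAlgCl p ≃+* ℂ}

theorem elementary_of_order {Z : RedAV p ν} {w h n : ℕ} (g : Good w h n) (hp2 : p ≠ 2)
    (h8 : p % 8 ≠ n % 8) (ha : Odd Z.a) (hZ : HasOrderOnTwoTorsion n Z) :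
    HasElementaryRelations Z := by
  obtain ⟨P, F, h1, h2, h3, h4⟩ := hZ
  have hfin : Module.finrank (ZMod 2) (Fin (n - 1) → ZMod 2) = n - 1 := by
    rw [Module.finrank_fintype_fun_eq_card, Fintype.card_fin]
  refine elementary_of_charpoly g hp2 h8 ha h1 ?_
  rw [← h2, g.charpoly_eq hfin F h3 h4]

theorem elementary_of_jacobian {Z : RedAV p ν} {w h n : ℕ} (g : Good w h n) (hp2 : p ≠ 2)
    (h8 : p % 8 ≠ n % 8) (ha : Odd Z.a) (hZ : IsHyperellipticJacobian n Z) :
    HasElementaryRelations Z := by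
  classical
  obtain ⟨h1, κ, _, _, f, h2, h3, h4, h5⟩ := hZ
  have hn := g.n_ge
  have hκ : (2 : κ) ≠ 0 := by
    intro h0
    obtain ⟨c, hc⟩ := CharP.exists κ
    have hcp : c.Prime := CharP.char_is_prime κ c
    have h6 : c ∣ 2 := by
      rw [← CharP.cast_eq_zero_iff κ c]
      exact_mod_cast h0
    have h7 : c = 2 := (Nat.prime_dvd_prime_iff_eq hcp Nat.prime_two).1 h6
    have h8 : c ∣ Fintype.card κ := by
      rw [← CharP.cast_eq_zero_iff κ c]
      exact Nat.cast_card_eq_zero κ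
    rw [h2, h7] at h8
    have h9 := Nat.prime_two.dvd_of_dvd_pow h8
    exact hp2 ((Nat.prime_dvd_prime_iff_eq Nat.prime_two (Fact.out : p.Prime)).1 h9).symm
  have hpow : ∀ m : ℕ, (Matrix.toLin' (Matrix.diagonal (eig Z))) ^ m
      = Matrix.toLin' (Matrix.diagonal fun w => eig Z w ^ m) := by
    intro m
    rw [← Matrix.toLin'_pow, Matrix.diagonal_pow]
    rfl
  obtain ⟨P, hP, hmod, hc⟩ := Count.main hκ h3 h4 (by omega)
    (Matrix.toLin' (Matrix.diagonal (eig Z)) : Module.End ℂ (Emb Z → ℂ)) (by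
      rw [Module.finrank_fintype_fun_eq_card, h1]) (by
    intro L _ _ _
    rw [hpow, Matrix.trace_toLin'_eq, Matrix.trace_diagonal]
    exact h5 L)
  rw [Matrix.charpoly_toLin', Matrix.charpoly_diagonal] at hc
  exact elementary_of_charpoly g hp2 h8 ha hc hmod

theorem exists_elementary {Y : RedAV p ν} (hY : IsPrimeType Y) :
    ∃ Z : RedAV p ν, HasElementaryRelations Z ∧ IsPowersTimesSupersingular Z Y := by
  obtain ⟨hp2, n, Z, ⟨w, h, hw, hh, hodd, hn, hprime, h8'⟩, h8, ha, hZ, hY⟩ := hY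
  have g : Good w h n := ⟨hw, hh, hodd, hn, hprime, h8'⟩
  refine ⟨Z, ?_, hY⟩
  rcases hZ with hZ | hZ
  · exact elementary_of_order g hp2 h8 ha hZ
  · exact elementary_of_jacobian g hp2 h8 ha hZ

variable {Ω : Type} [Field Ω] [IsAlgClosed Ω] [CharZero Ω] {V : Type} {T : Homology Ω V}

theorem tateHolds {Y : RedAV p ν} {C : Cycles Ω Y} (hY : IsPrimeType Y) (hC : IsChow C) :
    TateHolds C := by
  obtain ⟨Z, h1, h2⟩ := exists_elementary hY
  exact tateHolds_elem h1 h2 hC

theorem tb (hT : IsHomology T) {X : V} (hX : Generated T (IsPrimeTypeAbelian p ν T) X) :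
    TB T X := by
  refine tb_generated hT (fun X hX => ?_) hX
  obtain ⟨Y, C, M, g, hY, hC, hM, hX⟩ := hX
  exact tb_abelian hT hC (tateHolds hY hC) hM hX

theorem isoAbove (hT : IsHomology T) (hW : HasWeights T) :
    IsoAbove T (IsPrimeTypeAbelian p ν T) := fun _ _ _ _ h hX hZ i hi =>
  iso_opened hT hW h (onto_of_dim hT hZ hi) ((tb hT hX).iso hT i)

theorem onto (hT : IsHomology T) (hW : HasWeights T) {X : V}
    (hX : Spread T (Generated T (IsPrimeTypeAbelian p ν T)) X) (i : ℤ) : IsOnto T X i :=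
  onto_spread hT hW (fun _ h1 i => ((tb hT h1).iso hT i).1) hX i

end Pool.Agent.T6.H36.Red
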