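import Pool.Agent.TH117.BL.Defs
import Pool.Agent.W495.FM.HomDefs

/-!
# Abelian varieties over finite fields with a Frobenius endomorphism of prime order on the
points of order two: definitions
-/

set_option autoImplicit false

namespace Pool.Agent.T6.H36.Red

open Polynomial Pool.Agent.W495.TA Pool.Agent.W495.FM Pool.Agent.TH117.BL

/-- `n = 2 w h + 1` is a prime number, `h` is an odd prime number, `w` is one or two, and `n` is
congruent to `3` or `5` modulo `8` (so `2` is a primitive root modulo `n`): for instance
`11, 13, 29, 53, 59, 83, 107, 149, 173, 179`. -/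
def IsGoodPrime (n : ℕ) : Prop :=
  ∃ w h : ℕ, (w = 1 ∨ w = 2) ∧ h.Prime ∧ Odd h ∧ n = 2 * w * h + 1 ∧ n.Prime ∧
    (n % 8 = 3 ∨ n % 8 = 5)

variable {p : ℕ} [Fact p.Prime] {ν : PadicAlgCl p ≃+* ℂ}

/-- The Frobenius endomorphism of `Z` has order `n` on the points of order two: `P` is its
characteristic polynomial and `F` the matrix of its action on the points of order two. -/
def HasOrderOnTwoTorsion (n : ℕ) (Z : RedAV p ν) : Prop :=
  ∃ (P : ℤ[X]) (F : Module.End (ZMod 2) (Fin (n - 1) → ZMod 2)),
    (∏ w : Emb Z, (X - C (eig Z w))) = P.map (Int.castRingHom ℂ) ∧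
    F.charpoly = P.map (Int.castRingHom (ZMod 2)) ∧ F ^ n = 1 ∧ F ≠ 1

/-- The number of the points `(x, y)` over `L` of the affine curve `y ^ 2 = f(x)`. -/
noncomputable def points {κ : Type} [Field κ] (L : Type) [Field L] [Algebra κ L] (f : κ[X]) : ℕ :=
  Set.ncard {z : L × L | z.2 ^ 2 = aeval z.1 f}

/-- `Z` is the Jacobian variety of the curve `y ^ 2 = f(x)`, where `f` is an **irreducible** polynomial
of degree `n` over the field `κ` with `p ^ a` elements: the dimension is right, and the numbers of points
over the finite extensions `L` of `κ` are given by the trace formula (there is one point at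
infinity). -/
def IsHyperellipticJacobian (n : ℕ) (Z : RedAV p ν) : Prop :=
  Fintype.card (Emb Z) = n - 1 ∧
    ∃ (κ : Type) (_ : Field κ) (_ : Fintype κ) (f : κ[X]),
      Fintype.card κ = p ^ Z.a ∧ Irreducible f ∧ f.natDegree = n ∧
      ∀ (L : Type) [Field L] [Fintype L] [Algebra κ L],
        ∑ w : Emb Z, eig Z w ^ Module.finrank κ L = (Fintype.card L : ℂ) - (points L f : ℂ)

/-- The prime number `p` is odd, and the abelian variety `Y` is, over an algebraic closure, isogenous
to the product of a supersingular abelian variety and of a power of an abelian variety `Z` over the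
field with `p ^ a` elements, `a` odd, such that for some good prime number `n`, not congruent to `p`
modulo `8`, the Frobenius endomorphism
of `Z` has order `n = 2 dim Z + 1` on the points of order two of `Z`, or `Z` is the Jacobian variety of
the curve `y ^ 2 = f(x)` with `f` irreducible of degree `n`. -/
def IsPrimeType (Y : RedAV p ν) : Prop :=
  p ≠ 2 ∧ ∃ (n : ℕ) (Z : RedAV p ν), IsGoodPrime n ∧ p % 8 ≠ n % 8 ∧ Odd Z.a ∧
    (HasOrderOnTwoTorsion n Z ∨ IsHyperellipticJacobian n Z) ∧ IsPowersTimesSupersingular Z Y

/-- The groups of motivic and of `ℓ`-adic homology of `X` are those of an abelian variety `Y` as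
above. -/
def IsPrimeTypeAbelian {Ω V : Type} [Field Ω] [CharZero Ω] (p : ℕ) [Fact p.Prime]
    (ν : PadicAlgCl p ≃+* ℂ) (T : Homology Ω V) (X : V) : Prop :=
  ∃ (Y : RedAV p ν) (C : Cycles Ω Y) (M : Motivic C) (g : ℕ), IsPrimeType Y ∧ IsChow C ∧
    IsMotivic M ∧ IsAbelian T X M g

end Pool.Agent.T6.H36.Red
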