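import Pool.Agent.T6.H36.OrdGal
import Pool.Agent.T6.H36.Lift

/-! There are no multiplicative relations between the roots of a polynomial whose reduction modulo a
prime is irreducible with roots of suitable orders. -/

namespace Pool.Agent.T6.H36.TG

open Polynomial Ord Two.Dat

section res

variable {l : ℕ} [Fact l.Prime] {κ : Type} [Field κ] [CharP κ l] [IsAlgClosed κ]
  {L : Type} [Field L] (ι : L →+* Emb.M l κ)

/-- `y` is integral with residue `r`. -/
def RS (y : L) (r : κ) : Prop :=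
  ∃ w : WittVector l κ, algebraMap (WittVector l κ) (Emb.M l κ) w = ι y ∧
    WittVector.constantCoeff w = r

variable {ι}

omit [IsAlgClosed κ] in
theorem emb_inj : Function.Injective (algebraMap (WittVector l κ) (Emb.M l κ)) :=
  IsFractionRing.injective _ _

omit [IsAlgClosed κ] in
theorem RS_mul {x y : L} {r s : κ} (hx : RS ι x r) (hy : RS ι y s) : RS ι (x * y) (r * s) := by
  obtain ⟨w, hw, hw'⟩ := hx
  obtain ⟨v, hv, hv'⟩ := hy
  exact ⟨w * v, by rw [map_mul, map_mul, hw, hv], by rw [map_mul, hw', hv']⟩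

omit [IsAlgClosed κ] in
theorem RS_one : RS ι 1 1 := ⟨1, by rw [map_one, map_one], map_one _⟩

omit [IsAlgClosed κ] in
theorem RS_pow {x : L} {r : κ} (hx : RS ι x r) (k : ℕ) : RS ι (x ^ k) (r ^ k) := by
  obtain ⟨w, hw, hw'⟩ := hx
  exact ⟨w ^ k, by rw [map_pow, map_pow, hw], by rw [map_pow, hw']⟩

omit [IsAlgClosed κ] in
theorem RS_unique {x : L} {r s : κ} (hx : RS ι x r) (hy : RS ι x s) : r = s := by
  obtain ⟨w, hw, hw'⟩ := hx
  obtain ⟨v, hv, hv'⟩ := hy
  rw [← hw', ← hv', emb_inj (hw.trans hv.symm)]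

omit [IsAlgClosed κ] in
theorem RS_inv {x : L} {r : κ} (hx : RS ι x r) (hr : r ≠ 0) : RS ι x⁻¹ r⁻¹ := by
  obtain ⟨w, hw, hw'⟩ := hx
  have hu : IsUnit w := WittVector.isUnit_of_coeff_zero_ne_zero w (by
    show WittVector.constantCoeff w ≠ 0; rw [hw']; exact hr)
  obtain ⟨u, rfl⟩ := hu
  refine ⟨((u⁻¹ : (WittVector l κ)ˣ) : WittVector l κ), ?_, ?_⟩
  · rw [map_inv₀, ← hw]
    apply eq_inv_of_mul_eq_one_left
    rw [← map_mul, Units.inv_mul, map_one]
  · apply eq_inv_of_mul_eq_one_left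
    rw [← hw', ← map_mul, Units.inv_mul, map_one]

omit [IsAlgClosed κ] in
theorem RS_zpow {x : L} {r : κ} (hx : RS ι x r) (hr : r ≠ 0) (k : ℤ) : RS ι (x ^ k) (r ^ k) := by
  rcases k with k | k
  · rw [Int.ofNat_eq_natCast, zpow_natCast, zpow_natCast]; exact RS_pow hx k
  · rw [zpow_negSucc, zpow_negSucc]
    exact RS_inv (RS_pow hx _) (pow_ne_zero _ hr)

omit [IsAlgClosed κ] in
theorem RS_prod {ι' : Type*} (s : Finset ι') (f : ι' → L) (r : ι' → κ)
    (hf : ∀ i ∈ s, RS ι (f i) (r i)) : RS ι (∏ i ∈ s, f i) (∏ i ∈ s, r i) := by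
  classical
  induction s using Finset.induction_on with
  | empty => simpa using RS_one
  | insert i s hi ih =>
    rw [Finset.prod_insert hi, Finset.prod_insert hi]
    exact RS_mul (hf i (Finset.mem_insert_self _ _))
      (ih (fun j hj => hf j (Finset.mem_insert_of_mem hj)))

omit [IsAlgClosed κ] in
theorem RS_nat (q : ℕ) : RS ι (q : L) (q : κ) :=
  ⟨(q : WittVector l κ), by rw [map_natCast, map_natCast], map_natCast _ _⟩

theorem RS_c {c : L → L} (hc : ∀ x, ι (c x) = Emb.phi l κ (ι x)) {x : L} {r : κ}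
    (hx : RS ι x r) : RS ι (c x) (r ^ l) := by
  obtain ⟨w, hw, hw'⟩ := hx
  refine ⟨WittVector.frobenius w, ?_, ?_⟩
  · rw [hc, ← hw, Emb.phi_alg]
  · rw [← hw']
    show (WittVector.frobenius w).coeff 0 = _
    rw [WittVector.coeff_frobenius_charP]
    rfl

end res

theorem pow_val_add {R : Type*} [Monoid R] {n : ℕ} [NeZero n] {x : R} (hx : x ^ n = 1) (i j : ZMod n) :
    x ^ (i + j).val = x ^ i.val * x ^ j.val := by
  rw [ZMod.val_add, ← pow_eq_pow_mod _ hx, pow_add]

section shift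

variable {n : ℕ}

/-- The shift of functions. -/
def sh : (ZMod n → ℤ) →ₗ[ℤ] (ZMod n → ℤ) := LinearMap.funLeft ℤ ℤ (fun t => t - 1)

theorem sh_apply (f : ZMod n → ℤ) (t : ZMod n) : sh f t = f (t - 1) := rfl

theorem sh_pow (k : ℕ) (f : ZMod n → ℤ) (t : ZMod n) : (sh ^ k) f t = f (t - k) := by
  induction k generalizing f with
  | zero => rw [pow_zero, Nat.cast_zero, sub_zero]; rfl
  | succ k ih =>
    rw [pow_succ, Module.End.mul_apply, ih, sh_apply]
    congr 1
    push_cast
    ring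

/-- The basic odd function. -/
def oo (g : ℕ) : ZMod (2 * g) → ℤ := Pi.single 0 1 - Pi.single (g : ZMod (2 * g)) 1

variable {g : ℕ}

theorem two_g : (g : ZMod (2 * g)) + g = 0 := by
  have h1 : ((2 * g : ℕ) : ZMod (2 * g)) = 0 := ZMod.natCast_self _
  rw [← h1]; push_cast; ring

theorem oo_apply (t : ZMod (2 * g)) : oo g t = (if t = 0 then 1 else 0) - (if t = g then 1 else 0) := by
  unfold oo
  rw [Pi.sub_apply, Pi.single_apply, Pi.single_apply]

theorem oo_add (t : ZMod (2 * g)) : oo g (t + g) = -oo g t := by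
  rw [oo_apply, oo_apply]
  have e1 : t + g = 0 ↔ t = g := by
    constructor
    · intro h
      rw [eq_neg_of_add_eq_zero_left h, neg_eq_iff_add_eq_zero, two_g]
    · rintro rfl; exact two_g
  have e2 : t + g = g ↔ t = 0 := add_eq_right
  simp only [e1, e2]
  ring

theorem kill : aeval (sh (n := 2 * g)) (X ^ g + 1 : ℤ[X]) (oo g) = 0 := by
  ext t
  rw [map_add, map_pow, aeval_X, map_one, LinearMap.add_apply, Module.End.one_apply, Pi.add_apply,
    sh_pow, Pi.zero_apply]
  have h1 := oo_add (g := g) (t - g)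
  rw [sub_add_cancel] at h1
  rw [h1]
  ring

/-- The product formula for `X ^ g + 1`. -/
theorem prod_cyc (g0 : 0 < g) (R : Type*) [CommRing R] [IsDomain R] :
    (∏ d ∈ (2 * g).divisors \ g.divisors, cyclotomic d R) = X ^ g + 1 := by
  have hsub : g.divisors ⊆ (2 * g).divisors :=
    Nat.divisors_subset_of_dvd (by omega) (dvd_mul_left g 2)
  have h1 := Finset.prod_sdiff (f := fun d => cyclotomic d R) hsub
  rw [prod_cyclotomic_eq_X_pow_sub_one g0, prod_cyclotomic_eq_X_pow_sub_one (by omega)] at h1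
  have h2 : (X ^ g - 1 : R[X]) ≠ 0 := by
    have := X_pow_sub_C_ne_zero (R := R) g0 1
    rwa [C_1] at this
  apply mul_right_cancel₀ h2
  rw [h1]
  ring

theorem exists_cyc (g0 : 0 < g) {F : ℤ[X]} (hF : F ≠ 0) (hdeg : F.natDegree < g) :
    ∃ d, d ∣ 2 * g ∧ ¬ d ∣ g ∧ ∃ e : ℤ[X], e * cyclotomic d ℤ = X ^ g + 1 ∧
      ∃ (N : ℤ) (a b : ℤ[X]), N ≠ 0 ∧ a * F + b * cyclotomic d ℤ = C N := by
  classical
  have h1 : ∃ d ∈ (2 * g).divisors \ g.divisors,
      ¬ cyclotomic d ℚ ∣ F.map (Int.castRingHom ℚ) := by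
    by_contra hno
    push Not at hno
    have h2 : (∏ d ∈ (2 * g).divisors \ g.divisors, cyclotomic d ℚ) ∣ F.map (Int.castRingHom ℚ) := by
      apply Finset.prod_dvd_of_coprime
      · intro d _ d' _ hdd
        exact cyclotomic.isCoprime_rat hdd
      · exact hno
    rw [prod_cyc g0] at h2
    have h3 : F.map (Int.castRingHom ℚ) ≠ 0 :=
      (Polynomial.map_ne_zero_iff (Int.castRingHom ℚ).injective_int).2 hF
    have h4 := natDegree_le_of_dvd h2 h3
    have h5 : (X ^ g + 1 : ℚ[X]).natDegree = g := by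
      have := natDegree_X_pow_add_C (R := ℚ) (n := g) (r := 1)
      rwa [C_1] at this
    rw [h5] at h4
    have h6 := natDegree_map_le (f := Int.castRingHom ℚ) (p := F)
    omega
  obtain ⟨d, hd, hnd⟩ := h1
  have hd' := hd
  rw [Finset.mem_sdiff, Nat.mem_divisors, Nat.mem_divisors] at hd
  obtain ⟨⟨hd1, _⟩, hd2⟩ := hd
  have hd3 : ¬ d ∣ g := fun h => hd2 ⟨h, g0.ne'⟩
  refine ⟨d, hd1, hd3, ∏ d' ∈ ((2 * g).divisors \ g.divisors).erase d, cyclotomic d' ℤ, ?_, ?_⟩
  · rw [Finset.prod_erase_mul _ _ hd', prod_cyc g0]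
  · have hd0 : 0 < d := Nat.pos_of_ne_zero (by rintro rfl; exact hd3 (by
      have := Nat.eq_zero_of_zero_dvd hd1; omega))
    apply Rel.bezout
    · rw [map_cyclotomic]; exact cyclotomic.irreducible_rat hd0
    · rw [map_cyclotomic]; exact hnd

/-- A lattice of relations which is stable under the shift and contains a nonzero odd function
contains a component. -/
theorem component (g0 : 0 < g) (E : Submodule ℤ (ZMod (2 * g) → ℤ)) (hT : ∀ f ∈ E, sh f ∈ E)
    (hsat : ∀ (N : ℤ) (f : ZMod (2 * g) → ℤ), N ≠ 0 → N • f ∈ E → f ∈ E)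
    {f : ZMod (2 * g) → ℤ} (hf : f ∈ E) (hodd : ∀ t, f (t + g) = -f t) (hf0 : f ≠ 0) :
    ∃ d, d ∣ 2 * g ∧ ¬ d ∣ g ∧ ∃ e : ℤ[X], e * cyclotomic d ℤ = X ^ g + 1 ∧
      aeval sh e (oo g) ∈ E := by
  haveI : NeZero (2 * g) := ⟨by omega⟩
  have hE : ∀ (G : ℤ[X]), ∀ D ∈ E, aeval sh G D ∈ E := by
    intro G
    induction G using Polynomial.induction_on' with
    | add p q hp hq =>
      intro D hD
      rw [map_add, LinearMap.add_apply]
      exact E.add_mem (hp D hD) (hq D hD)
    | monomial m a =>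
      intro D hD
      rw [aeval_monomial, Module.End.mul_apply, Module.algebraMap_end_apply]
      apply E.smul_mem
      clear a
      induction m with
      | zero => simpa using hD
      | succ m ih =>
        rw [pow_succ', Module.End.mul_apply]
        exact hT _ ih
  set F : ℤ[X] := ∑ k ∈ Finset.range g, C (f k) * X ^ k with hFdef
  have hval : ∀ s : ZMod (2 * g), s.val < g → ∀ k < g, oo g (s - k) = if k = s.val then 1 else 0 := by
    intro s hs k hk
    rw [oo_apply]
    have e1 : s - k = 0 ↔ k = s.val := by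
      rw [sub_eq_zero]
      constructor
      · intro h
        rw [h, ZMod.val_cast_of_lt (by omega)]
      · rintro rfl
        exact (ZMod.natCast_zmod_val s).symm
    have e2 : ¬ (s - k = (g : ZMod (2 * g))) := by
      intro h
      have h1 : s = ((g + k : ℕ) : ZMod (2 * g)) := by
        push_cast
        rw [← h]; ring
      have h2 := congrArg ZMod.val h1
      rw [ZMod.val_cast_of_lt (by omega)] at h2
      omega
    rw [if_neg e2, sub_zero]
    by_cases hk' : k = s.val
    · rw [if_pos (e1.2 hk'), if_pos hk']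
    · rw [if_neg (fun h => hk' (e1.1 h)), if_neg hk']
  have hFf : aeval sh F (oo g) = f := by
    ext s
    rw [hFdef, map_sum, LinearMap.sum_apply, Finset.sum_apply]
    have h1 : ∀ k : ℕ, (aeval sh (C (f k) * X ^ k : ℤ[X])) (oo g) s = f k * oo g (s - k) := by
      intro k
      rw [map_mul, aeval_C, map_pow, aeval_X, Module.End.mul_apply, Module.algebraMap_end_apply,
        Pi.smul_apply, sh_pow, smul_eq_mul]
    simp only [h1]
    have small : ∀ s : ZMod (2 * g), s.val < g → ∑ k ∈ Finset.range g, f k * oo g (s - k) = f s := by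
      intro s hs
      rw [Finset.sum_eq_single s.val]
      · rw [hval s hs _ hs, if_pos rfl, mul_one, ZMod.natCast_zmod_val]
      · intro k hk hks
        rw [hval s hs k (Finset.mem_range.1 hk), if_neg hks, mul_zero]
      · intro h; exact absurd (Finset.mem_range.2 hs) h
    by_cases hs : s.val < g
    · exact small s hs
    · have hs' : (s + g).val < g := by
        have h2 : (g : ZMod (2 * g)).val = g := ZMod.val_cast_of_lt (by omega)
        rw [ZMod.val_add, h2]
        have h3 := ZMod.val_lt s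
        rw [Nat.mod_eq_sub_mod (by omega), Nat.mod_eq_of_lt (by omega)]
        omega
      have h4 := small _ hs'
      rw [hodd] at h4
      rw [← neg_inj, ← h4, ← Finset.sum_neg_distrib]
      refine Finset.sum_congr rfl (fun k _ => ?_)
      have h5 : s + g - k = (s - k) + g := by ring
      rw [h5, oo_add, mul_neg]
  have hF0 : F ≠ 0 := by
    intro h0
    apply hf0
    rw [← hFf, h0, map_zero, LinearMap.zero_apply]
  have hFdeg : F.natDegree < g := by
    apply (natDegree_lt_iff_degree_lt hF0).2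
    refine (degree_sum_le _ _).trans_lt ?_
    rw [Finset.sup_lt_iff (WithBot.bot_lt_coe _)]
    intro k hk
    refine (degree_C_mul_X_pow_le _ _).trans_lt ?_
    exact_mod_cast Finset.mem_range.1 hk
  obtain ⟨d, hd1, hd2, e, he, N, a, b, hN, hab⟩ := exists_cyc g0 hF0 hFdeg
  refine ⟨d, hd1, hd2, e, he, ?_⟩
  apply hsat N _ hN
  have h5 : N • (aeval sh e (oo g)) = aeval sh (e * a) f := by
    have h6 : aeval sh (e * C N : ℤ[X]) (oo g) = N • (aeval sh e (oo g)) := by
      rw [mul_comm e (C N), map_mul, aeval_C, Module.End.mul_apply, Module.algebraMap_end_apply]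
    rw [← h6, ← hab, mul_add, map_add, LinearMap.add_apply]
    have h7 : aeval sh (e * (b * cyclotomic d ℤ)) (oo g) = 0 := by
      rw [mul_left_comm, he, map_mul, Module.End.mul_apply, kill, map_zero]
    rw [h7, add_zero, ← mul_assoc, map_mul, Module.End.mul_apply, hFf]
  rw [h5]
  exact hE _ _ hf

end shift

/-- The data: a Galois number field with an embedding, and the roots. -/
structure DG (l g : ℕ) [Fact l.Prime] (κ : Type) [Field κ] [CharP κ l] [IsAlgClosed κ]
    (L : Type) [Field L] [CharZero L] where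
  g0 : 0 < g
  q : ℕ
  hq : ¬ l ∣ q
  α : ZMod (2 * g) → L
  ι : L →+* Emb.M l κ
  x : κ
  hx : x ^ l ^ (2 * g) = x
  hinj : Function.Injective (fun i : ZMod (2 * g) => x ^ l ^ i.val)
  res : ∀ i, RS ι (α i) (x ^ l ^ i.val)
  perm : ∀ τ : L ≃ₐ[ℚ] L, ∀ t, ∃ s, α s = τ (α t)
  gen : ∀ τ : L ≃ₐ[ℚ] L, (∀ t, τ (α t) = α t) → τ = 1
  c : L ≃ₐ[ℚ] L
  hc : ∀ y, ι (c y) = Emb.phi l κ (ι y)
  pair : ∀ t, ∃ s, α t * α s = q
  hr : ∀ d, d ∣ 2 * g → ¬ d ∣ g → ∃ r, r.Prime ∧ 2 * g + 1 < r ∧ r ∣ orderOf x ∧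
    orderOf (l : ZMod r) = d

namespace DG

variable {l g : ℕ} [Fact l.Prime] {κ : Type} [Field κ] [CharP κ l] [IsAlgClosed κ]
  {L : Type} [Field L] [CharZero L] (D : DG l g κ L)

include D in
theorem neZero : NeZero (2 * g) := ⟨by have := D.g0; omega⟩

/-- The residues. -/
noncomputable def ψ (i : ZMod (2 * g)) : κ := D.x ^ l ^ i.val

theorem pow_mod (m : ℕ) : D.x ^ l ^ m = D.x ^ l ^ (m % (2 * g)) := by
  have h1 : ∀ k : ℕ, D.x ^ l ^ (2 * g * k) = D.x := by
    intro k
    induction k with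
    | zero => rw [mul_zero, pow_zero, pow_one]
    | succ k ih => rw [mul_add, mul_one, pow_add, pow_mul, ih, D.hx]
  conv_lhs => rw [← Nat.div_add_mod m (2 * g), pow_add, pow_mul, h1]

theorem ψ_add (i : ZMod (2 * g)) (k : ℕ) : D.ψ (i + k) = D.ψ i ^ l ^ k := by
  haveI := D.neZero
  unfold ψ
  rw [← pow_mul, ← pow_add, ZMod.val_add, ← pow_mod, pow_mod, Nat.add_mod, ZMod.val_natCast,
    Nat.mod_mod, ← Nat.add_mod, ← pow_mod]

theorem ψ_inj {i j : ZMod (2 * g)} (h : D.ψ i = D.ψ j) : i = j := D.hinj h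

theorem α_inj : Function.Injective D.α := by
  intro i j h
  have h1 := D.res i
  rw [h] at h1
  exact D.ψ_inj (RS_unique h1 (D.res j))

theorem c_α (i : ZMod (2 * g)) : D.c (D.α i) = D.α (i + 1) := by
  obtain ⟨s, hs⟩ := D.perm D.c i
  rw [← hs]
  congr 1
  apply D.ψ_inj
  have h1 := RS_c (c := fun y => D.c y) D.hc (D.res i)
  rw [← hs] at h1
  have h2 := RS_unique h1 (D.res s)
  have h3 := D.ψ_add i 1
  rw [pow_one, Nat.cast_one] at h3
  rw [h3]
  exact h2.symm

theorem x_ne : D.x ≠ 0 := by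
  intro h0
  haveI := D.neZero
  have h1 : (0 : ZMod (2 * g)) = 1 := by
    apply D.ψ_inj
    unfold ψ
    have hl : l ≠ 0 := (Fact.out : l.Prime).ne_zero
    rw [h0, zero_pow (pow_ne_zero _ hl), zero_pow (pow_ne_zero _ hl)]
  have h2 : Fact (1 < 2 * g) := ⟨by have := D.g0; omega⟩
  exact zero_ne_one h1

theorem α_ne (i : ZMod (2 * g)) : D.α i ≠ 0 := by
  intro h0
  have h1 := D.res i
  rw [h0] at h1
  obtain ⟨w, hw, hw'⟩ := h1
  rw [map_zero] at hw
  have h2 : w = 0 := emb_inj (by rw [hw, map_zero])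
  rw [h2, map_zero] at hw'
  exact pow_ne_zero _ D.x_ne hw'.symm

theorem c_pow_α (k : ℕ) (i : ZMod (2 * g)) : (D.c ^ k) (D.α i) = D.α (i + k) := by
  induction k with
  | zero => rw [pow_zero, Nat.cast_zero, add_zero]; rfl
  | succ k ih =>
    rw [pow_succ', AlgEquiv.mul_apply, ih, c_α]
    congr 1
    push_cast
    ring

theorem x_pow : D.x ^ (l ^ (2 * g) - 1) = 1 := by
  have hl : 0 < l ^ (2 * g) := pow_pos (Fact.out : l.Prime).pos _
  have h1 : D.x ^ (l ^ (2 * g) - 1) * D.x = 1 * D.x := by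
    rw [← pow_succ, Nat.sub_add_cancel hl, D.hx, one_mul]
  exact mul_right_cancel₀ D.x_ne h1

theorem q_ne : (D.q : κ) ≠ 0 := by
  rw [Ne, CharP.cast_eq_zero_iff κ l]
  exact D.hq

/-- The pairing. -/
theorem α_mul (i : ZMod (2 * g)) : D.α i * D.α (i + g) = D.q := by
  haveI := D.neZero
  obtain ⟨s, hs⟩ := D.pair 0
  have h1 : ∀ i, D.α i * D.α (i + s) = D.q := by
    intro i
    have h2 := congrArg (D.c ^ i.val) hs
    rw [map_mul, c_pow_α, c_pow_α, map_natCast, zero_add, ZMod.natCast_zmod_val, add_comm s] at h2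
    exact h2
  have h2 : s + s = 0 := by
    apply D.α_inj
    apply mul_left_cancel₀ (D.α_ne s)
    rw [h1, mul_comm, hs]
  have h3 : s = 0 ∨ s = g := by
    have h4 : 2 * g ∣ s.val + s.val := by
      rw [← CharP.cast_eq_zero_iff (ZMod (2 * g)) (2 * g)]
      push_cast
      rw [ZMod.natCast_zmod_val]
      exact h2
    obtain ⟨k, hk⟩ := h4
    have h5 := ZMod.val_lt s
    have h6 : k < 2 := by
      by_contra hk2
      push Not at hk2
      nlinarith [D.g0]
    interval_cases k
    · left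
      rw [← ZMod.val_eq_zero]; omega
    · right
      rw [← ZMod.natCast_zmod_val s]
      congr 1
      omega
  rcases h3 with rfl | rfl
  · -- the squares of the roots are `q`
    exfalso
    have h4 := RS_unique (RS_mul (D.res 0) (D.res 0)) (by rw [hs]; exact RS_nat D.q)
    rw [ZMod.val_zero, pow_zero, pow_one] at h4
    have hl := (Fact.out : l.Prime)
    have h5 : (D.q : κ) ^ (l - 1) = 1 := by
      have h6 : (D.q : κ) ^ l = D.q := by
        rw [← Nat.cast_pow]
        have h7 : ((D.q ^ l : ℕ) : ZMod l) = (D.q : ZMod l) := by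
          push_cast
          exact ZMod.pow_card _
        rw [← map_natCast (ZMod.castHom (dvd_refl l) κ) (D.q ^ l), h7, map_natCast]
      have h8 : (D.q : κ) ^ (l - 1) * D.q = 1 * D.q := by
        rw [← pow_succ, Nat.sub_add_cancel hl.pos, h6, one_mul]
      exact mul_right_cancel₀ D.q_ne h8
    have h9 : orderOf D.x ∣ 2 * (l - 1) := by
      apply orderOf_dvd_of_pow_eq_one
      rw [pow_mul, pow_two, h4, h5]
    have hg := D.g0
    obtain ⟨r, hr, hrg, hrx, hrl⟩ := D.hr (2 * g) dvd_rfl (fun h => by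
      have := Nat.le_of_dvd hg h; omega)
    have h10 : r ∣ l - 1 := by
      rcases (Nat.Prime.dvd_mul hr).1 (hrx.trans h9) with h | h
      · have := Nat.le_of_dvd two_pos h; omega
      · exact h
    have h11 : (l : ZMod r) = 1 := by
      have h12 : ((l - 1 : ℕ) : ZMod r) = 0 := (CharP.cast_eq_zero_iff (ZMod r) r _).2 h10
      rw [Nat.cast_sub hl.pos, Nat.cast_one, sub_eq_zero] at h12
      exact h12
    rw [h11, orderOf_one] at hrl
    omega
  · exact h1 i

theorem α_add (i : ZMod (2 * g)) : D.α (i + g) = D.q / D.α i := by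
  rw [eq_div_iff (D.α_ne i), mul_comm, α_mul]

/-- The value at the residues of order `r`. -/
noncomputable def lam (r : ℕ) [NeZero (2 * g)] (f : ZMod (2 * g) → ℤ) : ZMod r :=
  ∑ t, (l : ZMod r) ^ t.val * (f t : ZMod r)

omit [Fact l.Prime] in
theorem lam_sh {r : ℕ} [NeZero (2 * g)] (hl : (l : ZMod r) ^ (2 * g) = 1) (hg : 1 < 2 * g)
    (f : ZMod (2 * g) → ℤ) : lam (l := l) r (sh f) = l * lam (l := l) r f := by
  have : Fact (1 < 2 * g) := ⟨hg⟩
  unfold lam
  rw [Finset.mul_sum, ← Equiv.sum_comp (Equiv.addRight (1 : ZMod (2 * g)))]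
  refine Finset.sum_congr rfl (fun t _ => ?_)
  rw [Equiv.coe_addRight, sh_apply, add_sub_cancel_right, pow_val_add hl, ZMod.val_one, pow_one]
  ring

omit [Fact l.Prime] in
theorem lam_add {r : ℕ} [NeZero (2 * g)] (f f' : ZMod (2 * g) → ℤ) :
    lam (l := l) r (f + f') = lam (l := l) r f + lam (l := l) r f' := by
  unfold lam
  rw [← Finset.sum_add_distrib]
  refine Finset.sum_congr rfl (fun t _ => ?_)
  rw [Pi.add_apply]; push_cast; ring

omit [Fact l.Prime] in
theorem lam_smul {r : ℕ} [NeZero (2 * g)] (N : ℤ) (f : ZMod (2 * g) → ℤ) :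
    lam (l := l) r (N • f) = N * lam (l := l) r f := by
  unfold lam
  rw [Finset.mul_sum]
  refine Finset.sum_congr rfl (fun t _ => ?_)
  rw [Pi.smul_apply, smul_eq_mul]; push_cast; ring

omit [Fact l.Prime] in
theorem lam_aeval {r : ℕ} [NeZero (2 * g)] (hl : (l : ZMod r) ^ (2 * g) = 1) (hg : 1 < 2 * g)
    (G : ℤ[X]) (f : ZMod (2 * g) → ℤ) :
    lam (l := l) r (aeval sh G f) = eval₂ (Int.castRingHom (ZMod r)) (l : ZMod r) G
      * lam (l := l) r f := by
  induction G using Polynomial.induction_on' generalizing f with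
  | add p q hp hq =>
    rw [map_add, LinearMap.add_apply, lam_add, hp, hq, eval₂_add, add_mul]
  | monomial m a =>
    rw [aeval_monomial, Module.End.mul_apply, Module.algebraMap_end_apply, lam_smul,
      eval₂_monomial, eq_intCast, mul_assoc]
    congr 1
    induction m with
    | zero => rw [pow_zero, pow_zero, one_mul]; rfl
    | succ m ih => rw [pow_succ', Module.End.mul_apply, lam_sh hl hg, ih, pow_succ']; ring

omit [Fact l.Prime] in
theorem lam_oo {r : ℕ} [NeZero (2 * g)] (hg : 0 < g) :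
    lam (l := l) r (oo g) = 1 - (l : ZMod r) ^ g := by
  unfold lam
  simp only [oo_apply]
  have h1 : ∀ t : ZMod (2 * g), (l : ZMod r) ^ t.val *
      ((((if t = 0 then 1 else 0) - (if t = (g : ZMod (2 * g)) then 1 else 0) : ℤ)) : ZMod r)
      = (if t = 0 then (l : ZMod r) ^ t.val else 0)
        - (if t = (g : ZMod (2 * g)) then (l : ZMod r) ^ t.val else 0) := by
    intro t
    split_ifs <;> push_cast <;> ring
  simp only [h1]
  rw [Finset.sum_sub_distrib, Finset.sum_ite_eq', Finset.sum_ite_eq', if_pos (Finset.mem_univ _),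
    if_pos (Finset.mem_univ _), ZMod.val_zero, pow_zero, ZMod.val_cast_of_lt (by omega)]

/-- The lattice of the relations. -/
noncomputable def E [NeZero (2 * g)] : Submodule ℤ (ZMod (2 * g) → ℤ) := EE D.α D.α_ne

theorem E_sh [NeZero (2 * g)] {f : ZMod (2 * g) → ℤ} (hf : f ∈ D.E) : sh f ∈ D.E := by
  show RU (mn D.α (sh f))
  have h1 : mn D.α (sh f) = D.c (mn D.α f) := by
    unfold mn
    rw [map_prod, ← Equiv.prod_comp (Equiv.addRight (1 : ZMod (2 * g)))]
    refine Finset.prod_congr rfl (fun t _ => ?_)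
    rw [Equiv.coe_addRight, sh_apply, add_sub_cancel_right, map_zpow₀, c_α]
  rw [h1]
  exact RU_map hf _

/-- The component does not belong to the lattice of the relations. -/
theorem not_component [FiniteDimensional ℚ L] [IsGalois ℚ L] [NeZero (2 * g)] {d : ℕ}
    (hd : d ∣ 2 * g) (hdg : ¬ d ∣ g) {e : ℤ[X]} (he : e * cyclotomic d ℤ = X ^ g + 1) :
    aeval sh e (oo g) ∉ D.E := by
  classical
  intro hE
  have hg := D.g0
  obtain ⟨r, hr, hrg, hrx, hrl⟩ := D.hr d hd hdg
  haveI : Fact r.Prime := ⟨hr⟩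
  obtain ⟨N, hN, hNe⟩ := order_prime D.α_ne D.α_inj D.perm D.gen hr (by
    rw [ZMod.card]; exact hrg) (f := aeval sh e (oo g)) hE
  generalize hh : aeval sh e (oo g) = h at hNe
  -- the residue
  have h1 : RS D.ι (mn D.α h) (∏ t, D.ψ t ^ h t) := by
    unfold mn
    exact RS_prod _ _ _ (fun t _ => RS_zpow (D.res t) (pow_ne_zero _ D.x_ne) _)
  have h2 : (∏ t, D.ψ t ^ h t) ^ N = 1 := by
    have h3 := RS_pow h1 N
    rw [hNe] at h3
    exact RS_unique h3 RS_one
  obtain ⟨m, hm⟩ := hrx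
  have hx0 : orderOf D.x ≠ 0 := by
    intro h0
    rw [orderOf_eq_zero_iff'] at h0
    have hl : 1 < l ^ (2 * g) := Nat.one_lt_pow (by omega) (Fact.out : l.Prime).one_lt
    exact h0 _ (by omega) D.x_pow
  have hm0 : m ≠ 0 := by
    rintro rfl
    exact hx0 (by rw [hm, mul_zero])
  have hz : IsPrimitiveRoot (D.x ^ m) r :=
    (IsPrimitiveRoot.orderOf D.x).pow (Nat.pos_of_ne_zero hx0) (by rw [hm, mul_comm])
  have hz0 : D.x ^ m ≠ 0 := pow_ne_zero _ D.x_ne
  have h3 : (D.x ^ m) ^ ((∑ t, (l : ℤ) ^ t.val * h t) * N) = 1 := by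
    have h4 : (D.x ^ m) ^ (∑ t, (l : ℤ) ^ t.val * h t) = (∏ t, D.ψ t ^ h t) ^ m := by
      rw [← Finset.prod_pow]
      have h5 : ∀ s : Finset (ZMod (2 * g)), (D.x ^ m) ^ (∑ t ∈ s, (l : ℤ) ^ t.val * h t)
          = ∏ t ∈ s, (D.ψ t ^ h t) ^ m := by
        intro s
        induction s using Finset.induction_on with
        | empty => rw [Finset.sum_empty, Finset.prod_empty, zpow_zero]
        | insert b s hb ih =>
          rw [Finset.sum_insert hb, Finset.prod_insert hb, zpow_add₀ hz0, ih]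
          congr 1
          unfold ψ
          rw [zpow_mul, ← Nat.cast_pow, zpow_natCast, ← zpow_natCast (_ ^ h b) m, ← zpow_mul,
            ← pow_mul, mul_comm m, pow_mul, ← zpow_natCast (D.x ^ l ^ b.val) m, ← zpow_mul,
            mul_comm (m : ℤ)]
      exact h5 _
    rw [zpow_mul, h4, zpow_natCast, ← pow_mul, mul_comm m N, pow_mul, h2, one_pow]
  have h4 : (r : ℤ) ∣ (∑ t, (l : ℤ) ^ t.val * h t) * N := (hz.zpow_eq_one_iff_dvd _).1 h3
  have h5 : (r : ℤ) ∣ ∑ t, (l : ℤ) ^ t.val * h t := by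
    rcases (Int.Prime.dvd_mul' hr h4) with h | h
    · exact h
    · exact absurd (Int.natCast_dvd_natCast.1 h) hN
  have h6 : lam (l := l) r h = 0 := by
    have h7 : ((∑ t, (l : ℤ) ^ t.val * h t : ℤ) : ZMod r) = 0 :=
      (ZMod.intCast_zmod_eq_zero_iff_dvd _ _).2 h5
    rw [← h7]
    unfold lam
    push_cast
    rfl
  have hlr : (l : ZMod r) ^ (2 * g) = 1 := by
    obtain ⟨k, hk⟩ := hd
    rw [hk, pow_mul, ← hrl, pow_orderOf_eq_one, one_pow]
  have hl1 : (l : ZMod r) ^ g ≠ 1 := by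
    intro h7
    apply hdg
    rw [← hrl]
    exact orderOf_dvd_of_pow_eq_one h7
  rw [← hh, lam_aeval hlr (by omega), lam_oo hg] at h6
  have h7 := (mul_eq_zero.1 h6).resolve_right (sub_ne_zero.2 (Ne.symm hl1))
  have hd0 : 0 < d := Nat.pos_of_ne_zero (by rintro rfl; exact hdg (by
      have := Nat.eq_zero_of_zero_dvd hd; omega))
  have hd2 : d ≤ 2 * g := Nat.le_of_dvd (by omega) hd
  have h8 : eval₂ (Int.castRingHom (ZMod r)) (l : ZMod r) (cyclotomic d ℤ) = 0 := by
    haveI : NeZero (d : ZMod r) := ⟨by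
      intro h0
      have := Nat.le_of_dvd hd0 ((CharP.cast_eq_zero_iff (ZMod r) r d).1 h0)
      omega⟩
    rw [← eval_map, map_cyclotomic]
    have h9 : IsPrimitiveRoot (l : ZMod r) d := by
      rw [← hrl]; exact IsPrimitiveRoot.orderOf _
    exact isRoot_cyclotomic_iff.2 h9
  have h9 := congrArg (fun Q : ℤ[X] => eval₂ (Int.castRingHom (ZMod r)) (l : ZMod r)
    (derivative Q)) he
  simp only [derivative_mul, derivative_add, derivative_X_pow, derivative_one, add_zero, eval₂_add,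
    eval₂_mul, h7, h8, mul_zero, zero_mul, eval₂_pow, eval₂_X, map_natCast, eval₂_natCast] at h9
  have hg0 : (g : ZMod r) ≠ 0 := by
    intro h0
    have := Nat.le_of_dvd hg ((CharP.cast_eq_zero_iff (ZMod r) r g).1 h0)
    omega
  have hl0 : (l : ZMod r) ≠ 0 := by
    intro h0
    rw [h0, zero_pow (by omega)] at hlr
    exact zero_ne_one hlr
  exact mul_ne_zero hg0 (pow_ne_zero _ hl0) h9.symm

/-- **All relations are symmetric.** -/
theorem symm [FiniteDimensional ℚ L] [IsGalois ℚ L] [NeZero (2 * g)] {e : ZMod (2 * g) → ℤ}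
    (he : RU (mn D.α (e - fun t => e (t + g)))) (t : ZMod (2 * g)) : e (t + g) = e t := by
  by_contra hne
  obtain ⟨d, hd, hdg, e', he', hmem⟩ := component D.g0 D.E (fun f hf => D.E_sh hf)
    (fun N f hN h => EE_sat hN h) (f := e - fun t => e (t + g)) he (by
      intro s
      simp only [Pi.sub_apply]
      have h1 : s + g + g = s := by rw [add_assoc, two_g, add_zero]
      rw [h1]; ring) (by
      intro h0
      have h1 := congrFun h0 t
      rw [Pi.sub_apply, Pi.zero_apply, sub_eq_zero] at h1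
      exact hne h1.symm)
  exact D.not_component hd hdg he' hmem

end DG

end Pool.Agent.T6.H36.TG
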