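import Pool.Agent.T6.H36.TG
import Pool.Agent.T6.H36.Final

/-! The order of the Frobenius endomorphism on the points of order `l`. -/

namespace Pool.Agent.T6.H36.TG

open Polynomial Ord Two.Dat Final

/-- For every divisor `d` of `2 g` that does not divide `g`, some prime number `r > 2 g + 1` divides
`N` and the order of `l` modulo `r` is `d`. -/
def HasPrimes (l g N : ℕ) : Prop :=
  ∀ d : ℕ, d ∣ 2 * g → ¬ d ∣ g →
    ∃ r : ℕ, r.Prime ∧ 2 * g + 1 < r ∧ r ∣ N ∧ orderOf (l : ZMod r) = d

/-- The algebraic closure. -/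
abbrev kk (l : ℕ) [Fact l.Prime] : Type := AlgebraicClosure (ZMod l)

theorem exists_order {l : ℕ} [Fact l.Prime] {x : kk l} (hx : x ≠ 0) : 0 < orderOf x := by
  have hint : IsIntegral (ZMod l) x := Algebra.IsIntegral.isIntegral x
  haveI : FiniteDimensional (ZMod l) (IntermediateField.adjoin (ZMod l) ({x} : Set (kk l))) :=
    IntermediateField.adjoin.finiteDimensional hint
  haveI : Finite (IntermediateField.adjoin (ZMod l) ({x} : Set (kk l))) :=
    Module.finite_of_finite (ZMod l)
  letI := Fintype.ofFinite (IntermediateField.adjoin (ZMod l) ({x} : Set (kk l)))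
  have h1 := FiniteField.pow_card (⟨x, IntermediateField.mem_adjoin_simple_self (ZMod l) x⟩ :
    IntermediateField.adjoin (ZMod l) ({x} : Set (kk l)))
  have h2 := congrArg Subtype.val h1
  simp only [SubmonoidClass.mk_pow] at h2
  have h3 : 1 < Fintype.card (IntermediateField.adjoin (ZMod l) ({x} : Set (kk l))) :=
    Fintype.one_lt_card
  rw [orderOf_pos_iff, isOfFinOrder_iff_pow_eq_one]
  refine ⟨Fintype.card (IntermediateField.adjoin (ZMod l) ({x} : Set (kk l))) - 1, by omega, ?_⟩
  apply mul_right_cancel₀ hx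
  rw [← pow_succ, Nat.sub_add_cancel (by omega), h2, one_mul]

/-- A prime number that divides the order of an automorphism divides the order of an eigenvalue. -/
theorem exists_root_of_dvd {l : ℕ} [Fact l.Prime] {M : Type} [AddCommGroup M] [Module (ZMod l) M]
    [FiniteDimensional (ZMod l) M] {F : Module.End (ZMod l) M} (hF : IsUnit F) {r : ℕ}
    (hr : r.Prime) (hrl : r ≠ l) (hdvd : r ∣ orderOf F) :
    ∃ x : kk l, eval₂ (algebraMap (ZMod l) (kk l)) x F.charpoly = 0 ∧ r ∣ orderOf x := by
  classical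
  set P := F.charpoly with hP
  have hPm : P.Monic := LinearMap.charpoly_monic F
  have hsplit : (P.map (algebraMap (ZMod l) (kk l))).Splits := IsAlgClosed.splits _
  set R := (P.map (algebraMap (ZMod l) (kk l))).roots with hR
  have hprod : P.map (algebraMap (ZMod l) (kk l)) = (R.map (fun x => X - C x)).prod :=
    hsplit.eq_prod_roots_of_monic (hPm.map _)
  have hmem : ∀ x ∈ R, eval₂ (algebraMap (ZMod l) (kk l)) x P = 0 := by
    intro x hx
    rw [← eval_map]
    exact (mem_roots'.1 hx).2
  have hne : ∀ x ∈ R, x ≠ 0 := by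
    rintro x hx rfl
    have h1 := hmem 0 hx
    rw [eval₂_at_zero, map_eq_zero] at h1
    have h2 := LinearMap.det_eq_sign_charpoly_coeff F
    rw [← hP, h1, mul_zero] at h2
    have h3 : IsUnit (LinearMap.det F) := hF.map _
    rw [h2] at h3
    exact not_isUnit_zero h3
  set m := (R.map orderOf).prod with hm
  have hdvdm : ∀ x ∈ R, x ^ m = 1 := by
    intro x hx
    obtain ⟨c, hc⟩ := Multiset.dvd_prod (Multiset.mem_map_of_mem orderOf hx)
    rw [hm, hc, pow_mul, pow_orderOf_eq_one, one_pow]
  have h1 : P.map (algebraMap (ZMod l) (kk l)) ∣ (X ^ m - 1) ^ Multiset.card R := by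
    rw [hprod]
    have h2 := Multiset.prod_dvd_prod_of_dvd (S := R) (fun x => (X - C x : (kk l)[X]))
      (fun _ => (X ^ m - 1 : (kk l)[X])) (by
        intro x hx
        rw [dvd_iff_isRoot, IsRoot.def, eval_sub, eval_pow, eval_X, eval_one, hdvdm x hx, sub_self])
    rwa [Multiset.map_const', Multiset.prod_replicate] at h2
  have h2 : P ∣ (X ^ m - 1) ^ Multiset.card R := by
    rw [← map_dvd_map' (algebraMap (ZMod l) (kk l))]
    simpa using h1
  have h3 : P ∣ X ^ (m * l ^ Multiset.card R) - 1 := by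
    have h4 : Multiset.card R ≤ l ^ Multiset.card R :=
      (Nat.lt_pow_self (Fact.out : l.Prime).one_lt).le
    have h5 : (X ^ (m * l ^ Multiset.card R) - 1 : (ZMod l)[X])
        = (X ^ m - 1) ^ l ^ Multiset.card R := by
      rw [sub_pow_char_pow, one_pow, pow_mul]
    rw [h5]
    exact h2.trans (pow_dvd_pow _ h4)
  have h4 : F ^ (m * l ^ Multiset.card R) = 1 := by
    obtain ⟨c, hc⟩ := h3
    have h5 := congrArg (aeval F) hc
    rw [map_mul, LinearMap.aeval_self_charpoly, zero_mul, map_sub, map_pow, aeval_X, map_one,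
      sub_eq_zero] at h5
    exact h5
  have h5 : r ∣ m * l ^ Multiset.card R := hdvd.trans (orderOf_dvd_of_pow_eq_one h4)
  have h6 : r ∣ m := by
    rcases (Nat.Prime.dvd_mul hr).1 h5 with h | h
    · exact h
    · exact absurd ((Nat.prime_dvd_prime_iff_eq hr (Fact.out : l.Prime)).1 (hr.dvd_of_dvd_pow h)) hrl
  obtain ⟨x, hx, hx'⟩ := (Nat.Prime.prime hr).exists_mem_multiset_map_dvd h6
  exact ⟨x, hmem x hx, hx'⟩

/-- The roots of the characteristic polynomial modulo `l`. -/
theorem exists_x {l g : ℕ} [Fact l.Prime] (g0 : 0 < g) {M : Type} [AddCommGroup M]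
    [Module (ZMod l) M] [FiniteDimensional (ZMod l) M] {F : Module.End (ZMod l) M}
    (hM : Module.finrank (ZMod l) M = 2 * g) (hF : IsUnit F) (hr : HasPrimes l g (orderOf F)) :
    ∃ x : kk l, x ^ l ^ (2 * g) = x ∧
      (Function.Injective fun i : ZMod (2 * g) => x ^ l ^ i.val) ∧
      (∀ i : ZMod (2 * g), eval₂ (algebraMap (ZMod l) (kk l)) (x ^ l ^ i.val) F.charpoly = 0) ∧
      HasPrimes l g (orderOf x) := by
  classical
  haveI : NeZero (2 * g) := ⟨by omega⟩
  have hl := (Fact.out : l.Prime)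
  have hrl : ∀ r d : ℕ, d ∣ 2 * g → orderOf (l : ZMod r) = d → r ≠ l := by
    rintro r d hd h rfl
    haveI : Fact (1 < r) := ⟨hl.one_lt⟩
    rw [ZMod.natCast_self] at h
    have h1 : orderOf (0 : ZMod r) = 0 := by
      rw [orderOf_eq_zero_iff']
      intro n hn h0
      rw [zero_pow hn.ne'] at h0
      exact zero_ne_one h0
    rw [h1] at h
    rw [← h] at hd
    have := Nat.eq_zero_of_zero_dvd hd
    omega
  obtain ⟨r, hrp, hrg, hrF, hrd⟩ := hr (2 * g) dvd_rfl (fun h => by
    have := Nat.le_of_dvd g0 h; omega)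
  obtain ⟨x, hx, hrx⟩ := exists_root_of_dvd hF hrp (hrl r _ dvd_rfl hrd) hrF
  set P := F.charpoly with hP
  have hPm : P.Monic := LinearMap.charpoly_monic F
  have hPdeg : P.natDegree = 2 * g := by rw [hP, LinearMap.charpoly_natDegree, hM]
  have hx0 : x ≠ 0 := by
    rintro rfl
    rw [eval₂_at_zero, map_eq_zero] at hx
    have h2 := LinearMap.det_eq_sign_charpoly_coeff F
    rw [← hP, hx, mul_zero] at h2
    have h3 : IsUnit (LinearMap.det F) := hF.map _
    rw [h2] at h3
    exact not_isUnit_zero h3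
  have hroot : ∀ k : ℕ, eval₂ (algebraMap (ZMod l) (kk l)) (x ^ l ^ k) P = 0 := by
    intro k
    have h1 := hom_eval₂ P (algebraMap (ZMod l) (kk l)) (iterateFrobenius (kk l) l k) x
    rw [hx, map_zero] at h1
    have h2 : (iterateFrobenius (kk l) l k).comp (algebraMap (ZMod l) (kk l))
        = algebraMap (ZMod l) (kk l) := Subsingleton.elim _ _
    rw [h2, iterateFrobenius_def] at h1
    exact h1.symm
  -- equality of powers
  have hkey : ∀ i k : ℕ, x ^ l ^ (i + k) = x ^ l ^ i → 2 * g ∣ k := by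
    intro i k hik
    have hlk : 0 < l ^ k := pow_pos hl.pos k
    have h1 : x ^ (l ^ i * (l ^ k - 1)) = 1 := by
      have h2 : x ^ (l ^ i * (l ^ k - 1)) * x ^ l ^ i = 1 * x ^ l ^ i := by
        rw [← pow_add, one_mul, ← hik, pow_add l i k]
        congr 1
        have h3 : l ^ k - 1 + 1 = l ^ k := Nat.sub_add_cancel hlk
        rw [← h3, mul_add, mul_one, h3]
      exact mul_right_cancel₀ (pow_ne_zero _ hx0) h2
    have h2 : r ∣ l ^ i * (l ^ k - 1) := hrx.trans (orderOf_dvd_of_pow_eq_one h1)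
    have h3 : r ∣ l ^ k - 1 := by
      rcases (Nat.Prime.dvd_mul hrp).1 h2 with h | h
      · exact absurd ((Nat.prime_dvd_prime_iff_eq hrp hl).1 (hrp.dvd_of_dvd_pow h))
          (hrl r _ dvd_rfl hrd)
      · exact h
    rw [← hrd]
    apply orderOf_dvd_of_pow_eq_one
    have h4 : ((l ^ k - 1 : ℕ) : ZMod r) = 0 := (CharP.cast_eq_zero_iff (ZMod r) r _).2 h3
    rw [Nat.cast_sub hlk, Nat.cast_one, sub_eq_zero, Nat.cast_pow] at h4
    exact h4
  have hinj : Function.Injective fun i : ZMod (2 * g) => x ^ l ^ i.val := by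
    intro i j hij
    apply ZMod.val_injective
    have hi := ZMod.val_lt i
    have hj := ZMod.val_lt j
    rcases le_total i.val j.val with h | h
    · obtain ⟨k, hk⟩ := Nat.exists_eq_add_of_le h
      have h1 := hkey i.val k (by rw [← hk]; exact hij.symm)
      have h2 : k = 0 := Nat.eq_zero_of_dvd_of_lt h1 (by omega)
      omega
    · obtain ⟨k, hk⟩ := Nat.exists_eq_add_of_le h
      have h1 := hkey j.val k (by rw [← hk]; exact hij)
      have h2 : k = 0 := Nat.eq_zero_of_dvd_of_lt h1 (by omega)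
      omega
  -- all roots
  have hPk : P.map (algebraMap (ZMod l) (kk l)) = ∏ i : ZMod (2 * g), (X - C (x ^ l ^ i.val)) := by
    have h0 : P.map (algebraMap (ZMod l) (kk l)) ≠ 0 := (hPm.map _).ne_zero
    have h1 : (Finset.univ.map ⟨_, hinj⟩).val ≤ (P.map (algebraMap (ZMod l) (kk l))).roots := by
      rw [Multiset.le_iff_subset (Finset.nodup _)]
      intro r hr
      rw [Finset.mem_val, Finset.mem_map] at hr
      obtain ⟨i, _, rfl⟩ := hr
      rw [mem_roots h0, IsRoot.def, eval_map]
      exact hroot _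
    have h2 : (P.map (algebraMap (ZMod l) (kk l))).roots = (Finset.univ.map ⟨_, hinj⟩).val := by
      symm
      apply Multiset.eq_of_le_of_card_le h1
      rw [Finset.card_val, Finset.card_map, Finset.card_univ, ZMod.card, ← hPdeg]
      exact (card_roots' _).trans (natDegree_map_le)
    have h3 : (P.map (algebraMap (ZMod l) (kk l))).Splits := IsAlgClosed.splits _
    have h4 := h3.eq_prod_roots_of_monic (hPm.map _)
    rw [h4, h2, Finset.map_val, Multiset.map_map]
    rfl
  have hall : ∀ y : kk l, eval₂ (algebraMap (ZMod l) (kk l)) y P = 0 →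
      ∃ i : ZMod (2 * g), y = x ^ l ^ i.val := by
    intro y hy
    rw [← eval_map, hPk, eval_prod, Finset.prod_eq_zero_iff] at hy
    obtain ⟨i, _, hi⟩ := hy
    rw [eval_sub, eval_X, eval_C, sub_eq_zero] at hi
    exact ⟨i, hi⟩
  refine ⟨x, ?_, hinj, fun i => hroot _, ?_⟩
  · obtain ⟨i, hi⟩ := hall _ (hroot (2 * g))
    have hi' := ZMod.val_lt i
    have h1 := hkey i.val (2 * g - i.val) (by
      rw [Nat.add_sub_cancel' hi'.le]; exact hi)
    have h2 : i.val = 0 := by
      by_contra h0
      have := Nat.le_of_dvd (by omega) h1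
      omega
    rw [hi, h2, pow_zero, pow_one]
  · intro d hd hdg
    obtain ⟨r', hr'p, hr'g, hr'F, hr'd⟩ := hr d hd hdg
    obtain ⟨y, hy, hr'y⟩ := exists_root_of_dvd hF hr'p (hrl r' _ hd hr'd) hr'F
    obtain ⟨i, rfl⟩ := hall y hy
    exact ⟨r', hr'p, hr'g, hr'y.trans (orderOf_pow_dvd _), hr'd⟩

theorem exists_dg {l g q : ℕ} [Fact l.Prime] (g0 : 0 < g) (hq : ¬ l ∣ q) {P : ℤ[X]}
    (hP : P.Monic) (hdeg : P.natDegree = 2 * g) {x : kk l} (hx : x ^ l ^ (2 * g) = x)
    (hinj : Function.Injective fun i : ZMod (2 * g) => x ^ l ^ i.val)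
    (hroot : ∀ i : ZMod (2 * g), ev P (x ^ l ^ i.val) = 0) (hr : HasPrimes l g (orderOf x))
    {K : Type} [Field K] [CharZero K] (hsplit : (P.map (Int.castRingHom K)).Splits)
    (hsym : ∀ x : K, ev P x = 0 → ∃ y : K, ev P y = 0 ∧ x * y = (q : K)) [NeZero (2 * g)] :
    ∃ (L : Type) (_ : Field L) (_ : CharZero L) (_ : FiniteDimensional ℚ L) (_ : IsGalois ℚ L)
      (D : DG l g (kk l) L) (jK : L →+* K),
      P.map (Int.castRingHom K) = ∏ t, (X - C (jK (D.α t))) ∧ D.q = q := by
  classical
  have hdegc : P.natDegree = Fintype.card (ZMod (2 * g)) := by rw [hdeg, ZMod.card]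
  have hPk := eq_of_roots hP hdegc _ hinj hroot
  have hder : ∀ i : ZMod (2 * g), ev (derivative P) (x ^ l ^ i.val) ≠ 0 := by
    intro i
    have h1 : (P.map (Int.castRingHom (kk l))).Separable := by
      rw [hPk]
      exact separable_prod_X_sub_C_iff.2 hinj
    have h2 := h1.eval₂_derivative_ne_zero (RingHom.id _) (x := x ^ l ^ i.val) (by
      rw [eval₂_id, eval_map]; exact hroot i)
    rw [eval₂_id, derivative_map, eval_map] at h2
    exact h2
  have hw : ∀ t : ZMod (2 * g), ∃ w : WittVector l (kk l), ev P w = 0 ∧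
      WittVector.constantCoeff w = x ^ l ^ t.val := fun t => Emb.hensel hP (hroot t) (hder t)
  choose w hw1 hw2 using hw
  haveI hCM : CharZero (Emb.M l (kk l)) := Emb.charZeroM l (kk l)
  have hwinj : Function.Injective
      (fun t => algebraMap (WittVector l (kk l)) (Emb.M l (kk l)) (w t)) := by
    intro t s hts
    have h1 := emb_inj hts
    have h2 := hw2 t
    rw [h1, hw2 s] at h2
    exact hinj h2.symm
  have hwroot : ∀ t, ev P (algebraMap (WittVector l (kk l)) (Emb.M l (kk l)) (w t)) = 0 := by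
    intro t
    rw [ev_map, hw1, map_zero]
  have hPM := eq_of_roots hP hdegc _ hwinj hwroot
  -- the splitting field
  let Q : ℚ[X] := P.map (Int.castRingHom ℚ)
  have hQmap : ∀ (F : Type) [Field F] [CharZero F] (i : ℚ →+* F),
      Q.map i = P.map (Int.castRingHom F) := by
    intro F _ _ i
    rw [Polynomial.map_map]; congr 1; exact RingHom.ext_int _ _
  obtain ⟨L, instL, instC, hSF⟩ := exists_field Q
  haveI : FiniteDimensional ℚ L := IsSplittingField.finiteDimensional L Q
  haveI : IsGalois ℚ L := IsGalois.of_separable_splitting_field (p := Q) (by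
    have h1 : (P.map (Int.castRingHom (Emb.M l (kk l)))).Separable := by
      rw [hPM]
      exact separable_prod_X_sub_C_iff.2 hwinj
    rw [← hQmap (Emb.M l (kk l)) (algebraMap ℚ (Emb.M l (kk l)))] at h1
    exact (separable_map _).1 h1)
  have hQM : (Q.map (algebraMap ℚ (Emb.M l (kk l)))).Splits := by
    rw [hQmap, hPM]
    exact Splits.prod (fun t _ => Splits.X_sub_C _)
  have hQK : (Q.map (algebraMap ℚ K)).Splits := by rw [hQmap]; exact hsplit
  have hPL : (P.map (Int.castRingHom L)).Splits := by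
    rw [← hQmap L (algebraMap ℚ L)]
    exact IsSplittingField.splits L Q
  let j2 : L →+* Emb.M l (kk l) := (IsSplittingField.lift L Q hQM).toRingHom
  let jK : L →+* K := (IsSplittingField.lift L Q hQK).toRingHom
  have hα : ∀ t : ZMod (2 * g), ∃ r : L, ev P r = 0 ∧
      j2 r = algebraMap (WittVector l (kk l)) (Emb.M l (kk l)) (w t) :=
    fun t => root_lift hP hPL j2 (hwroot t)
  choose α hα1 hα2 using hα
  have hallM : ∀ y : Emb.M l (kk l), ev P y = 0 →
      ∃ t, y = algebraMap (WittVector l (kk l)) (Emb.M l (kk l)) (w t) := by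
    intro y hy
    rw [ev, ← eval_map, hPM, eval_prod, Finset.prod_eq_zero_iff] at hy
    obtain ⟨t, _, ht⟩ := hy
    rw [eval_sub, eval_X, eval_C, sub_eq_zero] at ht
    exact ⟨t, ht⟩
  have hallL : ∀ y : L, ev P y = 0 → ∃ t, y = α t := by
    intro y hy
    obtain ⟨t, ht⟩ := hallM (j2 y) (by rw [ev_map, hy, map_zero])
    exact ⟨t, j2.injective (by rw [ht, hα2])⟩
  have hαinj : Function.Injective α := by
    intro t s hts
    apply hwinj
    show algebraMap (WittVector l (kk l)) (Emb.M l (kk l)) (w t)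
      = algebraMap (WittVector l (kk l)) (Emb.M l (kk l)) (w s)
    rw [← hα2, ← hα2, hts]
  obtain ⟨c, hc⟩ := Lift.exists_aut j2 (Emb.phi l (kk l))
  let D : DG l g (kk l) L :=
    { g0 := g0
      q := q
      hq := hq
      α := α
      ι := j2
      x := x
      hx := hx
      hinj := hinj
      res := fun t => ⟨w t, (hα2 t).symm, hw2 t⟩
      perm := by
        intro τ t
        obtain ⟨s, hs⟩ := hallL (τ (α t)) (by
          have := ev_map (τ : L ≃ₐ[ℚ] L).toRingEquiv.toRingHom P (α t)
          rw [hα1, map_zero] at this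
          exact this)
        exact ⟨s, hs.symm⟩
      gen := by
        intro τ hτ
        have h1 : (τ : L →ₐ[ℚ] L) = AlgHom.id ℚ L := by
          apply AlgHom.ext_of_adjoin_eq_top (IsSplittingField.adjoin_rootSet L Q)
          intro x hx
          rw [mem_rootSet] at hx
          obtain ⟨t, rfl⟩ := hallL x (by
            have := hx.2
            rw [aeval_def, ← eval_map, hQmap L (algebraMap ℚ L), eval_map] at this
            exact this)
          exact hτ t
        ext x
        exact congrArg (fun f : L →ₐ[ℚ] L => f x) h1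
      c := c
      hc := hc
      pair := by
        intro t
        obtain ⟨y, hy, hxy⟩ := hsym (jK (α t)) (by rw [ev_map, hα1, map_zero])
        obtain ⟨r, hr, rfl⟩ := root_lift hP hPL jK hy
        obtain ⟨s, rfl⟩ := hallL r hr
        refine ⟨s, jK.injective ?_⟩
        rw [map_mul, hxy, map_natCast]
      hr := hr }
  refine ⟨L, instL, instC, inferInstance, inferInstance, D, jK, ?_, rfl⟩
  apply eq_of_roots hP hdegc _ (jK.injective.comp hαinj)
  intro t
  show ev P (jK (α t)) = 0
  rw [ev_map, hα1, map_zero]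

/-- **There are no relations between the eigenvalues of the Frobenius endomorphism.** -/
theorem main {l g q : ℕ} [Fact l.Prime] (g0 : 0 < g) (hq : ¬ l ∣ q) {P : ℤ[X]} {M : Type}
    [AddCommGroup M] [Module (ZMod l) M] [FiniteDimensional (ZMod l) M]
    {F : Module.End (ZMod l) M} (hM : Module.finrank (ZMod l) M = 2 * g) (hF : IsUnit F)
    (hP : P.Monic) (hmod : F.charpoly = P.map (Int.castRingHom (ZMod l)))
    (hr : HasPrimes l g (orderOf F))
    {K : Type} [Field K] [CharZero K] (hsplit : (P.map (Int.castRingHom K)).Splits)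
    (hsym : ∀ x : K, ev P x = 0 → ∃ y : K, ev P y = 0 ∧ x * y = (q : K)) [NeZero (2 * g)] :
    ∃ α : ZMod (2 * g) → K, Function.Injective α ∧
      P.map (Int.castRingHom K) = ∏ t, (X - C (α t)) ∧
      (∀ t, α t * α (t + g) = (q : K)) ∧
      ∀ e : ZMod (2 * g) → ℤ, (∃ N : ℕ, N ≠ 0 ∧ (∏ t, α t ^ (e t - e (t + g))) ^ N = 1) →
        ∀ t, e (t + g) = e t := by
  obtain ⟨x, hx, hinj, hroot, hr'⟩ := exists_x g0 hM hF hr
  have hdeg : P.natDegree = 2 * g := by
    rw [← hP.natDegree_map (Int.castRingHom (ZMod l)), ← hmod, LinearMap.charpoly_natDegree, hM]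
  have hroot' : ∀ i : ZMod (2 * g), ev P (x ^ l ^ i.val) = 0 := by
    intro i
    have h1 := hroot i
    rw [hmod, eval₂_map] at h1
    have h2 : (algebraMap (ZMod l) (kk l)).comp (Int.castRingHom (ZMod l))
        = Int.castRingHom (kk l) := RingHom.ext_int _ _
    rw [h2] at h1
    exact h1
  obtain ⟨L, _, _, _, _, D, jK, h1, hDq⟩ := exists_dg g0 hq hP hdeg hx hinj hroot' hr' hsplit hsym
  refine ⟨fun t => jK (D.α t), jK.injective.comp D.α_inj, h1, ?_, ?_⟩
  · intro t
    show jK (D.α t) * jK (D.α (t + g)) = _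
    rw [← map_mul, D.α_mul, map_natCast, hDq]
  · rintro e ⟨N, hN, he⟩ t
    apply D.symm (e := e)
    refine ⟨N, hN, jK.injective ?_⟩
    rw [map_pow, map_one, ← he]
    congr 1
    unfold mn
    rw [map_prod]
    exact Finset.prod_congr rfl (fun t _ => map_zpow₀ jK _ _)

end Pool.Agent.T6.H36.TG
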