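import Pool.Agent.T6.H36.TG2

/-! Several Frobenius orbits. -/

namespace Pool.Agent.T6.H36.TM

open Polynomial Ord Two.Dat TG

theorem val_two {d m : ℕ} (hm : 0 < m) (h1 : d ∣ 2 * m) (h2 : ¬ d ∣ m) :
    padicValNat 2 d = padicValNat 2 m + 1 := by
  obtain ⟨k, hk⟩ := h1
  have hd0 : d ≠ 0 := by rintro rfl; omega
  have hk0 : k ≠ 0 := by rintro rfl; omega
  have hodd : ¬ 2 ∣ k := by
    rintro ⟨k', rfl⟩
    apply h2
    exact ⟨k', by nlinarith⟩
  have h3 := congrArg (padicValNat 2) hk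
  rw [padicValNat.mul (by norm_num) hm.ne', padicValNat.mul hd0 hk0, padicValNat.self (by norm_num),
    padicValNat.eq_zero_of_not_dvd hodd] at h3
  omega

theorem coprime_cyc {m m' : ℕ} (hm : 0 < m) (hm' : 0 < m')
    (h : padicValNat 2 m ≠ padicValNat 2 m') :
    IsCoprime (X ^ m + 1 : ℚ[X]) (X ^ m' + 1) := by
  rw [← prod_cyc hm, ← prod_cyc hm']
  apply IsCoprime.prod_left
  intro d hd
  apply IsCoprime.prod_right
  intro d' hd'
  apply cyclotomic.isCoprime_rat
  rintro rfl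
  rw [Finset.mem_sdiff, Nat.mem_divisors, Nat.mem_divisors] at hd hd'
  have h1 := val_two hm hd.1.1 (fun h => hd.2 ⟨h, hm.ne'⟩)
  have h2 := val_two hm' hd'.1.1 (fun h => hd'.2 ⟨h, hm'.ne'⟩)
  omega

theorem bez {f Q : ℤ[X]} (h : IsCoprime (f.map (Int.castRingHom ℚ)) (Q.map (Int.castRingHom ℚ))) :
    ∃ (N : ℤ) (a b : ℤ[X]), N ≠ 0 ∧ a * f + b * Q = C N := by
  obtain ⟨u, v, huv⟩ := h
  obtain ⟨N₁, u', h₁, e₁⟩ := Rel.clear u
  obtain ⟨N₂, v', h₂, e₂⟩ := Rel.clear v
  refine ⟨N₁ * N₂, C N₂ * u', C N₁ * v', mul_ne_zero h₁ h₂, ?_⟩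
  apply Polynomial.map_injective (Int.castRingHom ℚ) (Int.cast_injective)
  rw [Polynomial.map_add, Polynomial.map_mul, Polynomial.map_mul, Polynomial.map_mul,
    Polynomial.map_mul, e₁, e₂, map_C, map_C, map_C]
  simp only [eq_intCast, Int.cast_mul, C_mul]
  linear_combination (C (N₁ : ℚ) * C (N₂ : ℚ)) * huv

section shift

variable {I : Type} {m : I → ℕ}

/-- The index set. -/
abbrev XX (m : I → ℕ) : Type := Σ i, ZMod (2 * m i)

/-- The shift. -/
def Sh : (XX m → ℤ) →ₗ[ℤ] (XX m → ℤ) := LinearMap.funLeft ℤ ℤ (fun s => ⟨s.1, s.2 - 1⟩)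

theorem Sh_apply (f : XX m → ℤ) (i : I) (t : ZMod (2 * m i)) : Sh f ⟨i, t⟩ = f ⟨i, t - 1⟩ := rfl

/-- The restriction to a factor. -/
def rs (i : I) : (XX m → ℤ) →ₗ[ℤ] (ZMod (2 * m i) → ℤ) := LinearMap.funLeft ℤ ℤ (fun t => ⟨i, t⟩)

theorem rs_apply (f : XX m → ℤ) (i : I) (t : ZMod (2 * m i)) : rs i f t = f ⟨i, t⟩ := rfl

theorem rs_aeval (G : ℤ[X]) (f : XX m → ℤ) (i : I) : rs i (aeval Sh G f) = aeval sh G (rs i f) := by
  induction G using Polynomial.induction_on' generalizing f with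
  | add p q hp hq => rw [map_add, map_add, LinearMap.add_apply, LinearMap.add_apply, map_add, hp, hq]
  | monomial k a =>
    rw [aeval_monomial, aeval_monomial, Module.End.mul_apply, Module.End.mul_apply,
      Module.algebraMap_end_apply, Module.algebraMap_end_apply, map_smul]
    congr 1
    induction k with
    | zero => rw [pow_zero, pow_zero]; rfl
    | succ k ih =>
      rw [pow_succ', pow_succ', Module.End.mul_apply, Module.End.mul_apply, ← ih]
      rfl

variable [DecidableEq I]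

/-- Extension by zero. -/
def ex (i : I) : (ZMod (2 * m i) → ℤ) →ₗ[ℤ] (XX m → ℤ) where
  toFun h s := if e : s.1 = i then h (e ▸ s.2) else 0
  map_add' h h' := by
    ext ⟨j, t⟩
    by_cases e : j = i
    · subst e; simp
    · simp [e]
  map_smul' N h := by
    ext ⟨j, t⟩
    by_cases e : j = i
    · subst e; simp
    · simp [e]

theorem ex_same (i : I) (h : ZMod (2 * m i) → ℤ) (t : ZMod (2 * m i)) : ex i h ⟨i, t⟩ = h t := by
  show (if e : i = i then h (e ▸ t) else 0) = h t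
  rw [dif_pos rfl]

theorem ex_ne {i j : I} (hij : j ≠ i) (h : ZMod (2 * m i) → ℤ) (t : ZMod (2 * m j)) :
    ex i h ⟨j, t⟩ = 0 := by
  show (if e : j = i then h (e ▸ t) else 0) = 0
  rw [dif_neg hij]

theorem Sh_ex (i : I) (h : ZMod (2 * m i) → ℤ) : Sh (ex i h) = ex i (sh h) := by
  ext ⟨j, t⟩
  rw [Sh_apply]
  by_cases e : j = i
  · subst e
    rw [ex_same, ex_same, sh_apply]
  · rw [ex_ne e, ex_ne e]

/-- The components of a lattice. -/
theorem component_mem [Fintype I] (hm : ∀ i, 0 < m i)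
    (hv : ∀ i j, padicValNat 2 (m i) = padicValNat 2 (m j) → i = j)
    (E : Submodule ℤ (XX m → ℤ)) (hT : ∀ f ∈ E, Sh f ∈ E)
    (hsat : ∀ (N : ℤ) (f : XX m → ℤ), N ≠ 0 → N • f ∈ E → f ∈ E)
    {f : XX m → ℤ} (hf : f ∈ E) (hodd : ∀ i (t : ZMod (2 * m i)), f ⟨i, t + m i⟩ = -f ⟨i, t⟩)
    (i : I) : ex i (rs i f) ∈ E := by
  have hE : ∀ (G : ℤ[X]), ∀ D ∈ E, aeval Sh G D ∈ E := by
    intro G
    induction G using Polynomial.induction_on' with
    | add p q hp hq =>
      intro D hD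
      rw [map_add, LinearMap.add_apply]
      exact E.add_mem (hp D hD) (hq D hD)
    | monomial k a =>
      intro D hD
      rw [aeval_monomial, Module.End.mul_apply, Module.algebraMap_end_apply]
      apply E.smul_mem
      clear a
      induction k with
      | zero => simpa using hD
      | succ k ih =>
        rw [pow_succ', Module.End.mul_apply]
        exact hT _ ih
  have hkill : ∀ j, aeval sh (X ^ m j + 1 : ℤ[X]) (rs j f) = 0 := by
    intro j
    ext t
    rw [map_add, map_pow, aeval_X, map_one, LinearMap.add_apply, Module.End.one_apply, Pi.add_apply,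
      sh_pow, Pi.zero_apply, rs_apply, rs_apply]
    have h1 := hodd j (t - m j)
    rw [sub_add_cancel] at h1
    rw [h1]; ring
  set B : ℤ[X] := ∏ j ∈ Finset.univ.erase i, (X ^ m j + 1) with hB
  have hcop : IsCoprime (B.map (Int.castRingHom ℚ)) ((X ^ m i + 1 : ℤ[X]).map (Int.castRingHom ℚ)) := by
    rw [hB, Polynomial.map_prod]
    apply IsCoprime.prod_left
    intro j hj
    rw [Polynomial.map_add, Polynomial.map_add, Polynomial.map_pow, Polynomial.map_pow, map_X,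
      Polynomial.map_one]
    exact coprime_cyc (hm j) (hm i) (fun h => (Finset.mem_erase.1 hj).1 (hv _ _ h))
  obtain ⟨N, u, v, hN, huv⟩ := bez hcop
  apply hsat N _ hN
  have h1 : aeval Sh (u * B) f = N • ex i (rs i f) := by
    ext ⟨j, t⟩
    have h2 : aeval Sh (u * B) f ⟨j, t⟩ = aeval sh (u * B) (rs j f) t := by
      rw [← rs_aeval]; rfl
    rw [h2, Pi.smul_apply]
    by_cases e : j = i
    · subst e
      rw [ex_same]
      have h3 : u * B = C N - v * (X ^ m j + 1) := by rw [← huv]; ring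
      rw [h3, map_sub, LinearMap.sub_apply, map_mul, Module.End.mul_apply, hkill, map_zero, sub_zero,
        aeval_C, Module.algebraMap_end_apply, Pi.smul_apply]
    · rw [ex_ne e, smul_zero]
      have h3 : u * B = (u * ∏ k ∈ (Finset.univ.erase i).erase j, (X ^ m k + 1)) * (X ^ m j + 1) := by
        rw [hB, mul_assoc, Finset.prod_erase_mul _ _ (Finset.mem_erase.2 ⟨e, Finset.mem_univ _⟩)]
      rw [h3, map_mul, Module.End.mul_apply, hkill, map_zero, Pi.zero_apply]
  rw [← h1]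
  exact hE _ _ hf

end shift

/-- The data: a Galois number field with an embedding, and the roots. -/
structure DM (l : ℕ) {I : Type} [Fintype I] (m : I → ℕ) [Fact l.Prime] (κ : Type) [Field κ]
    [CharP κ l] [IsAlgClosed κ] (L : Type) [Field L] [CharZero L] where
  m0 : ∀ i, 0 < m i
  hv : ∀ i j, padicValNat 2 (m i) = padicValNat 2 (m j) → i = j
  q : ℕ
  hq : ¬ l ∣ q
  α : XX m → L
  ι : L →+* Emb.M l κ
  x : I → κ
  hx0 : ∀ i, x i ≠ 0
  hx : ∀ i, x i ^ l ^ (2 * m i) = x i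
  hinj : Function.Injective (fun s : XX m => x s.1 ^ l ^ s.2.val)
  res : ∀ s : XX m, RS ι (α s) (x s.1 ^ l ^ s.2.val)
  perm : ∀ τ : L ≃ₐ[ℚ] L, ∀ t, ∃ s, α s = τ (α t)
  gen : ∀ τ : L ≃ₐ[ℚ] L, (∀ t, τ (α t) = α t) → τ = 1
  c : L ≃ₐ[ℚ] L
  hc : ∀ y, ι (c y) = Emb.phi l κ (ι y)
  pair : ∀ t, ∃ s, α t * α s = q
  hr : ∀ i d, d ∣ 2 * m i → ¬ d ∣ m i → ∃ r, r.Prime ∧ 2 * (∑ i, m i) + 1 < r ∧
    r ∣ orderOf (x i) ∧ orderOf (l : ZMod r) = d

namespace DM

variable {l : ℕ} {I : Type} [Fintype I] {m : I → ℕ} [Fact l.Prime] {κ : Type} [Field κ]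
  [CharP κ l] [IsAlgClosed κ] {L : Type} [Field L] [CharZero L] (D : DM l m κ L)

include D in
theorem neZero (i : I) : NeZero (2 * m i) := ⟨by have := D.m0 i; omega⟩

/-- The residues. -/
noncomputable def ψ (s : XX m) : κ := D.x s.1 ^ l ^ s.2.val

theorem pow_mod (i : I) (k : ℕ) : D.x i ^ l ^ k = D.x i ^ l ^ (k % (2 * m i)) := by
  have h1 : ∀ j : ℕ, D.x i ^ l ^ (2 * m i * j) = D.x i := by
    intro j
    induction j with
    | zero => rw [mul_zero, pow_zero, pow_one]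
    | succ j ih => rw [mul_add, mul_one, pow_add, pow_mul, ih, D.hx]
  conv_lhs => rw [← Nat.div_add_mod k (2 * m i), pow_add, pow_mul, h1]

theorem ψ_add (i : I) (t : ZMod (2 * m i)) (k : ℕ) : D.ψ ⟨i, t + k⟩ = D.ψ ⟨i, t⟩ ^ l ^ k := by
  haveI := D.neZero i
  unfold ψ
  rw [← pow_mul, ← pow_add, ZMod.val_add, ← pow_mod, pow_mod, Nat.add_mod, ZMod.val_natCast,
    Nat.mod_mod, ← Nat.add_mod, ← pow_mod]

theorem ψ_inj {s t : XX m} (h : D.ψ s = D.ψ t) : s = t := D.hinj h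

theorem α_inj : Function.Injective D.α := by
  intro i j h
  have h1 := D.res i
  rw [h] at h1
  exact D.ψ_inj (RS_unique h1 (D.res j))

theorem c_α (i : I) (t : ZMod (2 * m i)) : D.c (D.α ⟨i, t⟩) = D.α ⟨i, t + 1⟩ := by
  obtain ⟨s, hs⟩ := D.perm D.c ⟨i, t⟩
  rw [← hs]
  congr 1
  apply D.ψ_inj
  have h1 := RS_c (c := fun y => D.c y) D.hc (D.res ⟨i, t⟩)
  rw [← hs] at h1
  have h2 := RS_unique h1 (D.res s)
  have h3 := D.ψ_add i t 1
  rw [pow_one, Nat.cast_one] at h3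
  rw [h3]
  exact h2.symm

theorem α_ne (s : XX m) : D.α s ≠ 0 := by
  intro h0
  have h1 := D.res s
  rw [h0] at h1
  obtain ⟨w, hw, hw'⟩ := h1
  rw [map_zero] at hw
  have h2 : w = 0 := emb_inj (by rw [hw, map_zero])
  rw [h2, map_zero] at hw'
  exact pow_ne_zero _ (D.hx0 s.1) hw'.symm

theorem c_pow_α (k : ℕ) (i : I) (t : ZMod (2 * m i)) : (D.c ^ k) (D.α ⟨i, t⟩) = D.α ⟨i, t + k⟩ := by
  induction k with
  | zero => rw [pow_zero, Nat.cast_zero, add_zero]; rfl
  | succ k ih =>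
    rw [pow_succ', AlgEquiv.mul_apply, ih, c_α]
    congr 2
    push_cast
    ring

theorem x_pow (i : I) : D.x i ^ (l ^ (2 * m i) - 1) = 1 := by
  have hl : 0 < l ^ (2 * m i) := pow_pos (Fact.out : l.Prime).pos _
  have h1 : D.x i ^ (l ^ (2 * m i) - 1) * D.x i = 1 * D.x i := by
    rw [← pow_succ, Nat.sub_add_cancel hl, D.hx, one_mul]
  exact mul_right_cancel₀ (D.hx0 i) h1

theorem q_ne : (D.q : κ) ≠ 0 := by
  rw [Ne, CharP.cast_eq_zero_iff κ l]
  exact D.hq

/-- The pairing. -/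
theorem α_mul (i : I) (t : ZMod (2 * m i)) : D.α ⟨i, t⟩ * D.α ⟨i, t + m i⟩ = D.q := by
  haveI := D.neZero i
  have hm0 := D.m0 i
  obtain ⟨⟨j, s⟩, hs⟩ := D.pair ⟨i, 0⟩
  have hij : j = i := by
    have hq0 : (D.q : L) ≠ 0 := by
      intro h0
      rw [h0] at hs
      exact mul_ne_zero (D.α_ne _) (D.α_ne _) hs
    have h1 := congrArg (D.c ^ (2 * m i)) hs
    rw [map_mul, c_pow_α, c_pow_α, map_natCast, ZMod.natCast_self, zero_add, ← hs] at h1
    have h2 := D.α_inj (mul_left_cancel₀ (D.α_ne _) h1)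
    have h3 : s + ((2 * m i : ℕ) : ZMod (2 * m j)) = s := by
      have := (Sigma.mk.inj_iff.1 h2).2
      exact eq_of_heq this
    have h4 : 2 * m j ∣ 2 * m i := (CharP.cast_eq_zero_iff (ZMod (2 * m j)) (2 * m j) _).1
      (add_eq_left.1 h3)
    have h5 := congrArg (D.c ^ (2 * m j)) hs
    rw [map_mul, c_pow_α, c_pow_α, map_natCast, ZMod.natCast_self, add_zero, ← hs] at h5
    have h6 := D.α_inj (mul_right_cancel₀ (D.α_ne _) h5)
    have h7 : (0 : ZMod (2 * m i)) + ((2 * m j : ℕ) : ZMod (2 * m i)) = 0 := by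
      have := (Sigma.mk.inj_iff.1 h6).2
      exact eq_of_heq this
    rw [zero_add] at h7
    have h8 : 2 * m i ∣ 2 * m j := (CharP.cast_eq_zero_iff (ZMod (2 * m i)) (2 * m i) _).1 h7
    have h9 : m j = m i := by
      have := Nat.dvd_antisymm h4 h8
      omega
    exact D.hv _ _ (by rw [h9])
  subst hij
  have h1 : ∀ t, D.α ⟨j, t⟩ * D.α ⟨j, t + s⟩ = D.q := by
    intro t
    have h2 := congrArg (D.c ^ t.val) hs
    rw [map_mul, c_pow_α, c_pow_α, map_natCast, zero_add, ZMod.natCast_zmod_val, add_comm s] at h2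
    exact h2
  have h2 : s + s = 0 := by
    have h3 : (⟨j, s + s⟩ : XX m) = ⟨j, 0⟩ := by
      apply D.α_inj
      apply mul_left_cancel₀ (D.α_ne ⟨j, s⟩)
      rw [h1, mul_comm, hs]
    exact eq_of_heq (Sigma.mk.inj_iff.1 h3).2
  have h3 : s = 0 ∨ s = m j := by
    have h4 : 2 * m j ∣ s.val + s.val := by
      rw [← CharP.cast_eq_zero_iff (ZMod (2 * m j)) (2 * m j)]
      push_cast
      rw [ZMod.natCast_zmod_val]
      exact h2
    obtain ⟨k, hk⟩ := h4
    have h5 := ZMod.val_lt s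
    have h6 : k < 2 := by
      by_contra hk2
      push Not at hk2
      nlinarith
    interval_cases k
    · left
      rw [← ZMod.val_eq_zero]; omega
    · right
      rw [← ZMod.natCast_zmod_val s]
      congr 1
      omega
  rcases h3 with rfl | rfl
  · -- the squares of the roots are `q`
    exfalso
    have h4 := RS_unique (RS_mul (D.res ⟨j, 0⟩) (D.res ⟨j, 0⟩)) (by rw [hs]; exact RS_nat D.q)
    simp only [ZMod.val_zero, pow_zero, pow_one] at h4
    have hl := (Fact.out : l.Prime)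
    have h5 : (D.q : κ) ^ (l - 1) = 1 := by
      have h6 : (D.q : κ) ^ l = D.q := by
        rw [← Nat.cast_pow]
        have h7 : ((D.q ^ l : ℕ) : ZMod l) = (D.q : ZMod l) := by
          push_cast
          exact ZMod.pow_card _
        rw [← map_natCast (ZMod.castHom (dvd_refl l) κ) (D.q ^ l), h7, map_natCast]
      have h8 : (D.q : κ) ^ (l - 1) * D.q = 1 * D.q := by
        rw [← pow_succ, Nat.sub_add_cancel hl.pos, h6, one_mul]
      exact mul_right_cancel₀ D.q_ne h8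
    have h9 : orderOf (D.x j) ∣ 2 * (l - 1) := by
      apply orderOf_dvd_of_pow_eq_one
      rw [pow_mul, pow_two, h4, h5]
    obtain ⟨r, hr, hrg, hrx, hrl⟩ := D.hr j (2 * m j) dvd_rfl (fun h => by
      have := Nat.le_of_dvd hm0 h; omega)
    have hsum : m j ≤ ∑ i, m i := Finset.single_le_sum (fun i _ => Nat.zero_le _) (Finset.mem_univ j)
    have h10 : r ∣ l - 1 := by
      rcases (Nat.Prime.dvd_mul hr).1 (hrx.trans h9) with h | h
      · have := Nat.le_of_dvd two_pos h; omega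
      · exact h
    have h11 : (l : ZMod r) = 1 := by
      have h12 : ((l - 1 : ℕ) : ZMod r) = 0 := (CharP.cast_eq_zero_iff (ZMod r) r _).2 h10
      rw [Nat.cast_sub hl.pos, Nat.cast_one, sub_eq_zero] at h12
      exact h12
    rw [h11, orderOf_one] at hrl
    omega
  · exact h1 t

section lattice

variable [DecidableEq I] [∀ i, NeZero (2 * m i)]

/-- The lattice of the relations. -/
noncomputable def E : Submodule ℤ (XX m → ℤ) := EE D.α D.α_ne

/-- The shift as a permutation. -/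
def shE (m : I → ℕ) : XX m ≃ XX m where
  toFun s := ⟨s.1, s.2 + 1⟩
  invFun s := ⟨s.1, s.2 - 1⟩
  left_inv := fun ⟨i, t⟩ => by simp
  right_inv := fun ⟨i, t⟩ => by simp

theorem E_sh {f : XX m → ℤ} (hf : f ∈ D.E) : Sh f ∈ D.E := by
  show RU (mn D.α (Sh f))
  have h1 : mn D.α (Sh f) = D.c (mn D.α f) := by
    unfold mn
    rw [map_prod, ← Equiv.prod_comp (shE m)]
    refine Finset.prod_congr rfl (fun s _ => ?_)
    obtain ⟨i, t⟩ := s
    show D.α ⟨i, t + 1⟩ ^ Sh f ⟨i, t + 1⟩ = _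
    rw [Sh_apply, add_sub_cancel_right, map_zpow₀, c_α]
  rw [h1]
  exact RU_map hf _

theorem mn_ex (i : I) (h : ZMod (2 * m i) → ℤ) : mn D.α (ex i h) = ∏ t, D.α ⟨i, t⟩ ^ h t := by
  unfold mn
  rw [Fintype.prod_sigma, Finset.prod_eq_single i]
  · exact Finset.prod_congr rfl (fun t _ => by rw [ex_same])
  · intro j _ hj
    exact Finset.prod_eq_one (fun t _ => by rw [ex_ne hj, zpow_zero])
  · intro h; exact absurd (Finset.mem_univ _) h

/-- The component does not belong to the lattice of the relations. -/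
theorem not_component [FiniteDimensional ℚ L] [IsGalois ℚ L] {i : I} {d : ℕ}
    (hd : d ∣ 2 * m i) (hdg : ¬ d ∣ m i) {e : ℤ[X]} (he : e * cyclotomic d ℤ = X ^ m i + 1) :
    ex i (aeval sh e (oo (m i))) ∉ D.E := by
  classical
  intro hE
  have hg := D.m0 i
  obtain ⟨r, hr, hrg, hrx, hrl⟩ := D.hr i d hd hdg
  haveI : Fact r.Prime := ⟨hr⟩
  have hcard : Fintype.card (XX m) = 2 * ∑ i, m i := by
    rw [Fintype.card_sigma, Finset.mul_sum]
    exact Finset.sum_congr rfl (fun j _ => ZMod.card _)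
  have hsum : m i ≤ ∑ i, m i := Finset.single_le_sum (fun i _ => Nat.zero_le _) (Finset.mem_univ i)
  obtain ⟨N, hN, hNe⟩ := order_prime D.α_ne D.α_inj D.perm D.gen hr (by
    rw [hcard]; exact hrg) (f := ex i (aeval sh e (oo (m i)))) hE
  rw [mn_ex] at hNe
  generalize hh : aeval sh e (oo (m i)) = h at hNe
  -- the residue
  have h1 : RS D.ι (∏ t, D.α ⟨i, t⟩ ^ h t) (∏ t, D.ψ ⟨i, t⟩ ^ h t) :=
    RS_prod _ _ _ (fun t _ => RS_zpow (D.res ⟨i, t⟩) (pow_ne_zero _ (D.hx0 i)) _)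
  have h2 : (∏ t, D.ψ ⟨i, t⟩ ^ h t) ^ N = 1 := by
    have h3 := RS_pow h1 N
    rw [hNe] at h3
    exact RS_unique h3 RS_one
  obtain ⟨k, hm⟩ := hrx
  have hx0 : orderOf (D.x i) ≠ 0 := by
    intro h0
    rw [orderOf_eq_zero_iff'] at h0
    have hl : 1 < l ^ (2 * m i) := Nat.one_lt_pow (by omega) (Fact.out : l.Prime).one_lt
    exact h0 _ (by omega) (D.x_pow i)
  have hm0 : k ≠ 0 := by
    rintro rfl
    exact hx0 (by rw [hm, mul_zero])
  have hz : IsPrimitiveRoot (D.x i ^ k) r :=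
    (IsPrimitiveRoot.orderOf (D.x i)).pow (Nat.pos_of_ne_zero hx0) (by rw [hm, mul_comm])
  have hz0 : D.x i ^ k ≠ 0 := pow_ne_zero _ (D.hx0 i)
  have h3 : (D.x i ^ k) ^ ((∑ t, (l : ℤ) ^ t.val * h t) * N) = 1 := by
    have h4 : (D.x i ^ k) ^ (∑ t, (l : ℤ) ^ t.val * h t) = (∏ t, D.ψ ⟨i, t⟩ ^ h t) ^ k := by
      rw [← Finset.prod_pow]
      have h5 : ∀ s : Finset (ZMod (2 * m i)), (D.x i ^ k) ^ (∑ t ∈ s, (l : ℤ) ^ t.val * h t)
          = ∏ t ∈ s, (D.ψ ⟨i, t⟩ ^ h t) ^ k := by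
        intro s
        induction s using Finset.induction_on with
        | empty => rw [Finset.sum_empty, Finset.prod_empty, zpow_zero]
        | insert b s hb ih =>
          rw [Finset.sum_insert hb, Finset.prod_insert hb, zpow_add₀ hz0, ih]
          congr 1
          unfold ψ
          rw [zpow_mul, ← Nat.cast_pow, zpow_natCast, ← zpow_natCast (_ ^ h b) k, ← zpow_mul,
            ← pow_mul, mul_comm k, pow_mul, ← zpow_natCast (D.x i ^ l ^ b.val) k, ← zpow_mul,
            mul_comm (k : ℤ)]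
      exact h5 _
    rw [zpow_mul, h4, zpow_natCast, ← pow_mul, mul_comm k N, pow_mul, h2, one_pow]
  have h4 : (r : ℤ) ∣ (∑ t, (l : ℤ) ^ t.val * h t) * N := (hz.zpow_eq_one_iff_dvd _).1 h3
  have h5 : (r : ℤ) ∣ ∑ t, (l : ℤ) ^ t.val * h t := by
    rcases (Int.Prime.dvd_mul' hr h4) with h | h
    · exact h
    · exact absurd (Int.natCast_dvd_natCast.1 h) hN
  have h6 : DG.lam (l := l) r h = 0 := by
    have h7 : ((∑ t, (l : ℤ) ^ t.val * h t : ℤ) : ZMod r) = 0 :=
      (ZMod.intCast_zmod_eq_zero_iff_dvd _ _).2 h5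
    rw [← h7]
    unfold DG.lam
    push_cast
    rfl
  have hlr : (l : ZMod r) ^ (2 * m i) = 1 := by
    obtain ⟨k, hk⟩ := hd
    rw [hk, pow_mul, ← hrl, pow_orderOf_eq_one, one_pow]
  have hl1 : (l : ZMod r) ^ m i ≠ 1 := by
    intro h7
    apply hdg
    rw [← hrl]
    exact orderOf_dvd_of_pow_eq_one h7
  rw [← hh, DG.lam_aeval hlr (by omega), DG.lam_oo hg] at h6
  have h7 := (mul_eq_zero.1 h6).resolve_right (sub_ne_zero.2 (Ne.symm hl1))
  have hd0 : 0 < d := Nat.pos_of_ne_zero (by rintro rfl; exact hdg (by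
      have := Nat.eq_zero_of_zero_dvd hd; omega))
  have hd2 : d ≤ 2 * m i := Nat.le_of_dvd (by omega) hd
  have h8 : eval₂ (Int.castRingHom (ZMod r)) (l : ZMod r) (cyclotomic d ℤ) = 0 := by
    haveI : NeZero (d : ZMod r) := ⟨by
      intro h0
      have := Nat.le_of_dvd hd0 ((CharP.cast_eq_zero_iff (ZMod r) r d).1 h0)
      omega⟩
    rw [← eval_map, map_cyclotomic]
    have h9 : IsPrimitiveRoot (l : ZMod r) d := by
      rw [← hrl]; exact IsPrimitiveRoot.orderOf _
    exact isRoot_cyclotomic_iff.2 h9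
  have h9 := congrArg (fun Q : ℤ[X] => eval₂ (Int.castRingHom (ZMod r)) (l : ZMod r)
    (derivative Q)) he
  simp only [derivative_mul, derivative_add, derivative_X_pow, derivative_one, add_zero, eval₂_add,
    eval₂_mul, h7, h8, mul_zero, zero_mul, eval₂_pow, eval₂_X, map_natCast, eval₂_natCast] at h9
  have hg0 : (m i : ZMod r) ≠ 0 := by
    intro h0
    have := Nat.le_of_dvd hg ((CharP.cast_eq_zero_iff (ZMod r) r (m i)).1 h0)
    omega
  have hl0 : (l : ZMod r) ≠ 0 := by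
    intro h0
    rw [h0, zero_pow (by omega)] at hlr
    exact zero_ne_one hlr
  exact mul_ne_zero hg0 (pow_ne_zero _ hl0) h9.symm

/-- **All relations are symmetric.** -/
theorem symm [FiniteDimensional ℚ L] [IsGalois ℚ L] {e : XX m → ℤ}
    (he : RU (mn D.α (e - fun s => e ⟨s.1, s.2 + m s.1⟩))) (i : I) (t : ZMod (2 * m i)) :
    e ⟨i, t + m i⟩ = e ⟨i, t⟩ := by
  by_contra hne
  set f : XX m → ℤ := e - fun s => e ⟨s.1, s.2 + m s.1⟩ with hf
  have hodd : ∀ i (t : ZMod (2 * m i)), f ⟨i, t + m i⟩ = -f ⟨i, t⟩ := by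
    intro i t
    simp only [hf, Pi.sub_apply]
    have h1 : t + m i + m i = t := by rw [add_assoc, two_g, add_zero]
    rw [h1]; ring
  have h1 : ex i (rs i f) ∈ D.E := component_mem D.m0 D.hv D.E (fun f hf => D.E_sh hf)
    (fun N f hN h => EE_sat hN h) he hodd i
  obtain ⟨d, hd, hdg, e', he', hmem⟩ := component (D.m0 i) (D.E.comap (ex i))
    (fun f hf => by
      rw [Submodule.mem_comap] at hf ⊢
      rw [← Sh_ex]
      exact D.E_sh hf)
    (fun N f hN h => by
      rw [Submodule.mem_comap] at h ⊢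
      rw [map_smul] at h
      exact EE_sat hN h) (f := rs i f) h1 (fun s => hodd i s) (by
      intro h0
      have h1 := congrFun h0 t
      rw [rs_apply, hf, Pi.sub_apply, Pi.zero_apply, sub_eq_zero] at h1
      exact hne h1.symm)
  exact D.not_component hd hdg he' hmem

end lattice

end DM

end Pool.Agent.T6.H36.TM
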