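import Mathlib

/-! Elementary facts on the Witt vectors of an algebraically closed field. -/

namespace Pool.Agent.T6.H36.Witt

open WittVector Polynomial

variable {p : ℕ} [hp : Fact p.Prime] {k : Type} [Field k] [CharP k p]

/-- Characteristic zero. -/
theorem charZero : CharZero (WittVector p k) := by
  constructor
  have key : ∀ a : ℕ, a ≠ 0 → ((a : ℕ) : WittVector p k) ≠ 0 := by
    intro a ha h0
    obtain ⟨m, b, hb, rfl⟩ := Nat.exists_eq_pow_mul_and_not_dvd ha p hp.out.ne_one
    rw [Nat.cast_mul, Nat.cast_pow] at h0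
    rcases mul_eq_zero.1 h0 with h | h
    · exact (pow_ne_zero _ (WittVector.p_nonzero p k)) h
    · have h2 := congrArg (WittVector.constantCoeff (p := p)) h
      rw [map_natCast, map_zero] at h2
      exact hb ((CharP.cast_eq_zero_iff k p b).1 h2)
  intro a b hab
  have hab' : (a : WittVector p k) = b := hab
  rcases le_total a b with h | h
  · by_contra hne
    exact key (b - a) (by omega) (by rw [Nat.cast_sub h, hab', sub_self])
  · by_contra hne
    exact key (a - b) (by omega) (by rw [Nat.cast_sub h, hab', sub_self])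

/-- A root of unity of order prime to `p` with residue `1` is `1`. -/
theorem eq_one {x : WittVector p k} {N : ℕ} (hN : ¬ p ∣ N) (hx : x ^ N = 1)
    (h1 : WittVector.constantCoeff x = 1) : x = 1 := by
  have h : (x - 1) * (∑ i ∈ Finset.range N, x ^ i) = 0 := by
    rw [mul_comm, geom_sum_mul, hx, sub_self]
  rcases mul_eq_zero.1 h with h | h
  · exact sub_eq_zero.1 h
  · exfalso
    have h2 := congrArg (WittVector.constantCoeff (p := p)) h
    rw [map_sum, map_zero] at h2
    simp only [map_pow, h1, one_pow, Finset.sum_const, Finset.card_range, nsmul_eq_mul,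
      mul_one] at h2
    exact hN ((CharP.cast_eq_zero_iff k p N).1 h2)

/-- The residue of the Frobenius. -/
theorem res_frob (x : WittVector p k) :
    WittVector.constantCoeff (WittVector.frobenius x) = (WittVector.constantCoeff x) ^ p := by
  show (WittVector.frobenius x).coeff 0 = (x.coeff 0) ^ p
  rw [WittVector.coeff_frobenius_charP]

/-- The Frobenius on roots of unity of order prime to `p`. -/
theorem frob_root {x : WittVector p k} {N : ℕ} (hN : ¬ p ∣ N) (hx : x ^ N = 1) :
    WittVector.frobenius x = x ^ p := by
  have hN0 : N ≠ 0 := by rintro rfl; exact hN (dvd_zero _)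
  have hu : IsUnit x := IsUnit.of_pow_eq_one hx hN0
  obtain ⟨u, rfl⟩ := hu
  have hu1 : u ^ N = 1 := by
    apply Units.ext; push_cast; exact hx
  have h1 : WittVector.frobenius (u : WittVector p k) * ((u⁻¹ ^ p : (WittVector p k)ˣ) : WittVector p k)
      = 1 := by
    apply eq_one hN
    · rw [mul_pow, ← map_pow, hx, map_one, one_mul, ← Units.val_pow_eq_pow_val, ← pow_mul,
        mul_comm p N, pow_mul, inv_pow, hu1, inv_one, one_pow, Units.val_one]
    · rw [map_mul, res_frob, Units.val_pow_eq_pow_val, map_pow, ← mul_pow, ← map_mul,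
        Units.mul_inv, map_one, one_pow]
  have h2 := congrArg (fun y => y * ((u ^ p : (WittVector p k)ˣ) : WittVector p k)) h1
  simp only [mul_assoc, one_mul] at h2
  rw [← Units.val_mul, inv_pow, inv_mul_cancel, Units.val_one, mul_one] at h2
  rw [h2, Units.val_pow_eq_pow_val]

/-- Comparison of `p`-adic valuations. -/
theorem pow_inj {m m' : ℕ} {u v : WittVector p k} (hu : IsUnit u) (hv : IsUnit v)
    (h : (p : WittVector p k) ^ m * u = (p : WittVector p k) ^ m' * v) : m = m' := by
  have key : ∀ {m m' : ℕ} {u v : WittVector p k}, IsUnit u → IsUnit v → m ≤ m' →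
      (p : WittVector p k) ^ m * u = (p : WittVector p k) ^ m' * v → m = m' := by
    intro m m' u v hu _ hle h
    by_contra hne
    obtain ⟨d, rfl⟩ : ∃ d, m' = m + (d + 1) := ⟨m' - m - 1, by omega⟩
    rw [pow_add, mul_assoc] at h
    have h1 := mul_left_cancel₀ (pow_ne_zero _ (WittVector.p_nonzero p k)) h
    rw [pow_succ, mul_assoc] at h1
    have h2 := congrArg (WittVector.constantCoeff (p := p)) h1
    have h3 : (WittVector.constantCoeff (p := p)) (p : WittVector p k) = 0 := by
      rw [map_natCast]; exact CharP.cast_eq_zero k p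
    rw [map_mul, map_mul, h3, zero_mul, mul_zero] at h2
    exact (hu.map (WittVector.constantCoeff (p := p))).ne_zero h2
  rcases le_total m m' with hle | hle
  · exact key hu hv hle h
  · exact (key hv hu hle h.symm).symm

section two

variable {κ : Type} [Field κ] [CharP κ 2] [IsAlgClosed κ]

local instance : Fact (Nat.Prime 2) := ⟨Nat.prime_two⟩

/-- A root of unity with residue `1` is `±1`. -/
theorem eq_pm {x : WittVector 2 κ} {N : ℕ} (hN : N ≠ 0) (hx : x ^ N = 1)
    (h1 : WittVector.constantCoeff x = 1) : x = 1 ∨ x = -1 := by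
  obtain ⟨e, m, hm, rfl⟩ := Nat.exists_eq_pow_mul_and_not_dvd hN 2 (by norm_num)
  have hx1 : x ^ 2 ^ e = 1 := by
    apply eq_one hm
    · rw [← pow_mul, hx]
    · rw [map_pow, h1, one_pow]
  clear hx
  have key : ∀ e : ℕ, x ^ 2 ^ e = 1 → x ^ 2 = 1 := by
    intro e
    induction e with
    | zero => intro h; rw [pow_zero, pow_one] at h; rw [h, one_pow]
    | succ e ih =>
      intro h
      rcases Nat.eq_zero_or_pos e with rfl | he
      · simpa using h
      · obtain ⟨e', rfl⟩ : ∃ e', e = e' + 1 := ⟨e - 1, by omega⟩
        apply ih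
        set y := x ^ 2 ^ e' with hy
        have hy4 : y ^ 2 * y ^ 2 = 1 := by
          rw [← pow_add, hy, ← pow_mul, ← h]; congr 1; ring
        have hy1 : WittVector.constantCoeff y = 1 := by rw [hy, map_pow, h1, one_pow]
        have hyy : x ^ 2 ^ (e' + 1) = y ^ 2 := by
          rw [hy, ← pow_mul]; congr 1
        rw [hyy]
        rcases mul_self_eq_one_iff.1 hy4 with h | h
        · exact h
        · exfalso
          have hy2 : WittVector.constantCoeff (y - 1) = 0 := by
            rw [map_sub, hy1, map_one, sub_self]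
          have hy3 : (y - 1).coeff 0 = 0 := hy2
          rw [← WittVector.mem_span_p_iff_coeff_zero_eq_zero] at hy3
          obtain ⟨w, hw⟩ := Ideal.mem_span_singleton.1 hy3
          have hyw : y = 1 + 2 * w := by
            have : y = (y - 1) + 1 := by ring
            rw [this, hw]; push_cast; ring
          have h5 : (2 : WittVector 2 κ) * (1 + 2 * w + 2 * w ^ 2) = 0 := by
            have : (1 + 2 * w) ^ 2 = -1 := by rw [← hyw, h]
            linear_combination this
          have h20 : (2 : WittVector 2 κ) ≠ 0 := by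
            have := WittVector.p_nonzero 2 κ
            exact_mod_cast this
          have h6 := (mul_eq_zero.1 h5).resolve_left h20
          have h7 := congrArg (WittVector.constantCoeff (p := 2)) h6
          have h8 : (WittVector.constantCoeff (p := 2)) (2 : WittVector 2 κ) = 0 := by
            rw [map_ofNat]; exact (CharTwo.two_eq_zero (R := κ))
          rw [map_add, map_add, map_one, map_mul, map_mul, h8, zero_mul, zero_mul, add_zero,
            add_zero, map_zero] at h7
          exact one_ne_zero h7
  have h2 := key e hx1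
  rw [pow_two] at h2
  exact mul_self_eq_one_iff.1 h2

/-- Square roots of odd integers. -/
theorem sqrt_aux {w : WittVector 2 κ} {d : ℤ} (hd : Odd d) (hw : w ^ 2 = (d : WittVector 2 κ)) :
    ∃ (y : WittVector 2 κ) (e : ℤ), w = 1 + 2 * y ∧ d = 4 * e + 1 ∧ y + y ^ 2 = e := by
  have hCZ : CharZero (WittVector 2 κ) := charZero
  have h8 : (WittVector.constantCoeff (p := 2)) (2 : WittVector 2 κ) = 0 := by
    rw [map_ofNat]; exact (CharTwo.two_eq_zero (R := κ))
  obtain ⟨m, rfl⟩ := hd
  have h1 : WittVector.constantCoeff (w - 1) = 0 := by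
    have h := congrArg (WittVector.constantCoeff (p := 2)) hw
    rw [map_pow, map_intCast] at h
    push_cast at h
    rw [(CharTwo.two_eq_zero (R := κ)), zero_mul, zero_add] at h
    have h2 : (WittVector.constantCoeff (w - 1)) ^ 2 = 0 := by
      rw [map_sub, map_one]
      have : ((WittVector.constantCoeff w : κ) - 1) ^ 2
          = (WittVector.constantCoeff w) ^ 2 - 1 + 2 * (1 - WittVector.constantCoeff w) := by
        ring
      rw [this, h, (CharTwo.two_eq_zero (R := κ))]; ring
    exact pow_eq_zero_iff (two_ne_zero) |>.1 h2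
  have hy3 : (w - 1).coeff 0 = 0 := h1
  rw [← WittVector.mem_span_p_iff_coeff_zero_eq_zero] at hy3
  obtain ⟨y, hy⟩ := Ideal.mem_span_singleton.1 hy3
  have hyw : w = 1 + 2 * y := by
    have : w = (w - 1) + 1 := by ring
    rw [this, hy]; push_cast; ring
  have h20 : (2 : WittVector 2 κ) ≠ 0 := two_ne_zero
  have h3 : (2 : WittVector 2 κ) * (y + y ^ 2) = m := by
    apply mul_left_cancel₀ h20
    rw [hyw] at hw
    push_cast at hw
    linear_combination hw
  have h4 : (2 : ℤ) ∣ m := by
    have h := congrArg (WittVector.constantCoeff (p := 2)) h3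
    rw [map_mul, h8, zero_mul, map_intCast] at h
    exact_mod_cast (CharP.intCast_eq_zero_iff κ 2 m).1 h.symm
  obtain ⟨e, rfl⟩ := h4
  refine ⟨y, e, hyw, by ring, ?_⟩
  apply mul_left_cancel₀ h20
  rw [h3]; push_cast; ring

/-- Square roots of integers `1 mod 8` are fixed by the Frobenius. -/
theorem frob_sqrt {w : WittVector 2 κ} {e : ℤ} (hw : w ^ 2 = ((8 * e + 1 : ℤ) : WittVector 2 κ)) :
    WittVector.frobenius w = w := by
  have hCZ : CharZero (WittVector 2 κ) := charZero
  have h8 : (WittVector.constantCoeff (p := 2)) (2 : WittVector 2 κ) = 0 := by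
    rw [map_ofNat]; exact (CharTwo.two_eq_zero (R := κ))
  have h20 : (2 : WittVector 2 κ) ≠ 0 := two_ne_zero
  obtain ⟨y, e', h1, h2, h3⟩ := sqrt_aux (⟨4 * e, by ring⟩) hw
  have he' : e' = 2 * e := by omega
  subst he'
  have h4 : (WittVector.frobenius w - w) * (WittVector.frobenius w + w) = 0 := by
    have : WittVector.frobenius w ^ 2 = w ^ 2 := by
      rw [← map_pow, hw, map_intCast]
    linear_combination this
  rcases mul_eq_zero.1 h4 with h | h
  · exact sub_eq_zero.1 h
  · exfalso
    have h5 : (2 : WittVector 2 κ) * (1 + WittVector.frobenius y + y) = 0 := by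
      rw [h1] at h
      rw [map_add, map_one, map_mul, map_ofNat] at h
      linear_combination h
    have h6 := (mul_eq_zero.1 h5).resolve_left h20
    have h7 := congrArg (WittVector.constantCoeff (p := 2)) h6
    have h9 := congrArg (WittVector.constantCoeff (p := 2)) h3
    rw [map_add, map_pow, map_intCast] at h9
    push_cast at h9
    rw [(CharTwo.two_eq_zero (R := κ)), zero_mul] at h9
    rw [map_add, map_add, map_one, map_zero, res_frob, add_assoc, add_comm (_ ^ 2), h9,
      add_zero] at h7
    exact one_ne_zero h7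

end two

end Pool.Agent.T6.H36.Witt
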